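import Pool.Agent.LibLS35.HDefs

/-! Row H1. Twice the dimension of the space of `op`-invariant functions on darts is `3 |F|` (typed by helper32). -/

namespace LS35.Tri

variable {V F : Type} [Fintype V] [Fintype F] (T : Tri V F)

open Classical in
/-- the chosen dart of every edge -/
private noncomputable def H1_R (d : Dart F) : Prop :=
  Fintype.equivFin (Dart F) d < Fintype.equivFin (Dart F) (T.op d)

private theorem H1_R_op (d : Dart F) : H1_R T (T.op d) ↔ ¬ H1_R T d := by
  unfold H1_R
  rw [T.op_op, not_lt]
  constructor
  · intro h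
    exact h.le
  · intro h
    refine lt_of_le_of_ne h fun h' => ?_
    exact T.op_ne d ((Fintype.equivFin (Dart F)).injective h')

open Classical in
private noncomputable def H1_equiv : T.symSub ≃ₗ[ZMod 2] ({d : Dart F // H1_R T d} → ZMod 2) where
  toFun c d := c.1 d.1
  map_add' a b := rfl
  map_smul' r a := rfl
  invFun g := ⟨fun d => if h : H1_R T d then g ⟨d, h⟩ else
      g ⟨T.op d, (H1_R_op T d).2 h⟩, by
    intro d
    beta_reduce
    by_cases h : H1_R T d
    · have h' : ¬ H1_R T (T.op d) := fun h' => (H1_R_op T d).1 h' h
      rw [dif_neg h', dif_pos h]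
      congr 1
      exact Subtype.ext (T.op_op d)
    · have h' : H1_R T (T.op d) := (H1_R_op T d).2 h
      rw [dif_pos h', dif_neg h]⟩
  left_inv c := by
    apply Subtype.ext
    funext d
    show (if h : H1_R T d then c.1 d else c.1 (T.op d)) = c.1 d
    split_ifs
    · rfl
    · exact c.2 d
  right_inv g := by
    funext d
    show (if h : H1_R T d.1 then g ⟨d.1, h⟩ else _) = g d
    rw [dif_pos d.2]

theorem finrank_symSub : 2 * Module.finrank (ZMod 2) T.symSub = 3 * Fintype.card F := by
  classical
  rw [(H1_equiv T).finrank_eq, Module.finrank_fintype_fun_eq_card]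
  have h1 : Fintype.card {d : Dart F // H1_R T d} = Fintype.card {d : Dart F // ¬ H1_R T d} := by
    apply Fintype.card_congr
    exact {
      toFun := fun d => ⟨T.op d.1, fun h => (H1_R_op T d.1).1 h d.2⟩
      invFun := fun d => ⟨T.op d.1, (H1_R_op T d.1).2 d.2⟩
      left_inv := fun d => Subtype.ext (T.op_op d.1)
      right_inv := fun d => Subtype.ext (T.op_op d.1) }
  have h2 := Fintype.card_subtype_compl (fun d : Dart F => H1_R T d)
  have h3 := Fintype.card_subtype_le (fun d : Dart F => H1_R T d)
  have h4 : Fintype.card (Dart F) = Fintype.card F * 3 := by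
    show Fintype.card (F × Fin 3) = _
    rw [Fintype.card_prod, Fintype.card_fin]
  omega

end LS35.Tri
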