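import Pool.Agent.LibLS35.HDefs

/-! Row H2 (MEDIUM, linear algebra). The boundary map has rank at least `|V| - 1` because the graph is connected (`T.conn`).
PLAN. Let `R = Submodule.map T.bd1 T.symSub`. (i) For every dart `d` the function `c = 1` on `d` and `op d`, `0` elsewhere is in `symSub`, and
`bd1 c = Pi.single (tail d) 1 + Pi.single (head d) 1` (the only darts with value 1 are `d` (tail `tail d`) and `op d` (tail `head d`), which are
different). (ii) By induction on `T.conn u v` (`Relation.ReflTransGen`): `Pi.single u 1 + Pi.single v 1 ∈ R` (char 2: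
`Pi.single u 1 + Pi.single u 1 = 0`). (iii) Fix `v0` (exists since `4 ≤ card V`): every `Pi.single u 1` lies in
`R ⊔ span {Pi.single v0 1}`, so this is `⊤` (`Pi.basisFun` span) and
`card V = finrank ⊤ ≤ finrank R + finrank (span {..}) ≤ finrank R + 1` (`Submodule.finrank_add_le_finrank_add_finrank`, `finrank_span_singleton` or
`finrank_span_le_card`). -/

namespace LS35.Tri

variable {V F : Type} [Fintype V] [Fintype F] (T : Tri V F)

open Classical in
private theorem h2_edge (d : Dart F) :
    Pi.single (T.tail d) 1 + Pi.single (T.head d) 1 ∈ Submodule.map T.bd1 T.symSub := by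
  refine ⟨fun e => if e = d ∨ e = T.op d then 1 else 0, ?_, ?_⟩
  · intro e
    have h : (T.op e = d ∨ T.op e = T.op d) ↔ (e = d ∨ e = T.op d) := by
      constructor
      · rintro (h | h)
        · right
          rw [← h, T.op_op]
        · left
          rw [← T.op_op e, h, T.op_op]
      · rintro (h | h)
        · right
          rw [h]
        · left
          rw [h, T.op_op]
    simp only [h]
  · funext v
    show ∑ e ∈ Finset.univ.filter (fun e => T.tail e = v), (if e = d ∨ e = T.op d then (1 : ZMod 2) else 0) = _
    have hne := T.op_ne d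
    have h1 : ∀ e : Dart F, (if e = d ∨ e = T.op d then (1 : ZMod 2) else 0) =
        (if e = d then 1 else 0) + (if e = T.op d then 1 else 0) := by
      intro e
      by_cases ha : e = d
      · subst ha
        simp [hne.symm]
      · by_cases hb : e = T.op d
        · subst hb
          simp [hne]
        · simp [ha, hb]
    simp only [h1]
    rw [Finset.sum_add_distrib, Finset.sum_ite_eq', Finset.sum_ite_eq']
    simp only [Finset.mem_filter, Finset.mem_univ, true_and, Pi.add_apply, Pi.single_apply,
      T.tail_op d]
    simp only [eq_comm]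

theorem card_le_rank_bd1 : Fintype.card V ≤ Module.finrank (ZMod 2) (Submodule.map T.bd1 T.symSub) + 1 := by
  classical
  set R := Submodule.map T.bd1 T.symSub with hR
  have hcard : 0 < Fintype.card V := by
    have := T.four
    omega
  obtain ⟨v0⟩ : Nonempty V := Fintype.card_pos_iff.mp hcard
  have hdouble : ∀ v : V, (Pi.single v 1 + Pi.single v 1 : V → ZMod 2) = 0 := by
    intro v
    funext w
    simp only [Pi.add_apply, Pi.zero_apply]
    exact CharTwo.add_self_eq_zero _
  have hpath : ∀ u v : V, (Pi.single u 1 + Pi.single v 1 : V → ZMod 2) ∈ R := by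
    intro u v
    induction T.conn u v with
    | refl =>
      rw [hdouble]
      exact R.zero_mem
    | tail _ hbc ih =>
      rename_i b c _
      obtain ⟨f, i, h1, h2⟩ := hbc
      have h3 := h2_edge T (⟨f, i⟩ : Dart F)
      have h4 : T.tail (⟨f, i⟩ : Dart F) = b := h1
      have h5 : T.head (⟨f, i⟩ : Dart F) = c := h2
      rw [h4, h5] at h3
      have h6 := R.add_mem ih h3
      have h7 : (Pi.single u 1 + Pi.single b 1 + (Pi.single b 1 + Pi.single c 1) : V → ZMod 2) =
          Pi.single u 1 + Pi.single c 1 := by
        have := hdouble b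
        calc (Pi.single u 1 + Pi.single b 1 + (Pi.single b 1 + Pi.single c 1) : V → ZMod 2)
            = Pi.single u 1 + (Pi.single b 1 + Pi.single b 1) + Pi.single c 1 := by abel
          _ = _ := by rw [this, add_zero]
      rwa [h7] at h6
  have htop : (⊤ : Submodule (ZMod 2) (V → ZMod 2)) ≤
      R ⊔ Submodule.span (ZMod 2) {(Pi.single v0 1 : V → ZMod 2)} := by
    intro x _
    have hx : x = ∑ v, x v • (Pi.single v 1 : V → ZMod 2) := by
      funext w
      simp [Finset.sum_apply, Pi.single_apply]
    rw [hx]
    refine Submodule.sum_mem _ fun v _ => Submodule.smul_mem _ _ ?_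
    have h1 : (Pi.single v 1 : V → ZMod 2) = (Pi.single v 1 + Pi.single v0 1) + Pi.single v0 1 := by
      rw [add_assoc, hdouble, add_zero]
    rw [h1]
    exact Submodule.add_mem_sup (hpath v v0) (Submodule.mem_span_singleton_self _)
  have h1 : Module.finrank (ZMod 2) (⊤ : Submodule (ZMod 2) (V → ZMod 2)) = Fintype.card V := by
    rw [finrank_top, Module.finrank_fintype_fun_eq_card]
  have h2 := Submodule.finrank_mono htop
  have h3 := Submodule.finrank_add_le_finrank_add_finrank R
    (Submodule.span (ZMod 2) {(Pi.single v0 1 : V → ZMod 2)})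
  have h4 : Module.finrank (ZMod 2)
      (Submodule.span (ZMod 2) {(Pi.single v0 1 : V → ZMod 2)}) ≤ 1 := by
    have := finrank_span_le_card (R := ZMod 2) ({(Pi.single v0 1 : V → ZMod 2)} : Set (V → ZMod 2))
    simpa using this
  omega

end LS35.Tri
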