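import Pool.Agent.LibLS35.D1

/-! Row H3 (SHORT/MEDIUM). The faces are connected through edges. PLAN. Let `φ` be as in the statement.
(i) All faces at a vertex `x` have the same value: apply `T.star_all` to `Q = univ.filter (fun g => φ g = φ f)` (`f` a face at `x`).
(ii) Let `val x` be this common value (every vertex has a face: by `T.conn x y` with `y ≠ x`, `4 ≤ card V`, the first step gives a dart starting
at `x`; but you only need vertices that are corners of faces). Adjacent vertices (`vt f i = a`, `vt f (i+1) = b`) share a face. So by induction along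
`T.conn (T.vt f 0) (T.vt g 0)` : for every vertex `b` reached from `T.vt f 0`, every face `h` at `b` has `φ h = φ f`. -/

namespace LS35.Tri

variable {V F : Type} [Fintype V] [Fintype F] (T : Tri V F)

theorem face_conn {α : Type} (φ : F → α) (h : ∀ d : Dart F, φ d.1 = φ (T.op d).1) (f g : F) : φ f = φ g := by
  classical
  have hv : ∀ x f' g', T.At f' x → T.At g' x → φ g' = φ f' := by
    intro x f' g' hf hg
    have h1 := T.star_all (Finset.univ.filter fun a => φ a = φ f') x (fun d _ => by
      simp only [Finset.mem_filter, Finset.mem_univ, true_and]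
      rw [h d]) f' (by simp) hf g' hg
    exact (Finset.mem_filter.1 h1).2
  have key : ∀ b, Relation.ReflTransGen (fun a b => ∃ f i, T.vt f i = a ∧ T.vt f (i + 1) = b) (T.vt f 0) b →
      ∀ k, T.At k b → φ k = φ f := by
    intro b hb
    induction hb with
    | refl => exact fun k hk => hv _ _ _ ⟨0, rfl⟩ hk
    | tail _ hstep ih =>
      obtain ⟨e, i, h1, h2⟩ := hstep
      intro k hk
      rw [hv _ e k ⟨i + 1, h2⟩ hk]
      exact ih e ⟨i, h1⟩
  exact (key _ (T.conn (T.vt f 0) (T.vt g 0)) g ⟨0, rfl⟩).symm

end LS35.Tri
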