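import Pool.Agent.LibLS35.H0
import Pool.Agent.LibLS35.H1
import Pool.Agent.LibLS35.H2
import Pool.Agent.LibLS35.H3

/-! Row H4 (MEDIUM, linear algebra): homology of the sphere: every even set of edges is the boundary of a set of faces. -/

namespace LS35.Tri

variable {V F : Type} [Fintype V] [Fintype F] (T : Tri V F)

/-- boundary mod 2 of a function on faces -/
private noncomputable def bt : (F → ZMod 2) →ₗ[ZMod 2] (Dart F → ZMod 2) where
  toFun φ d := φ d.1 + φ (T.op d).1
  map_add' := by intro a b; funext d; simp only [Pi.add_apply]; ring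
  map_smul' := by intro r a; funext d; simp only [Pi.smul_apply, smul_eq_mul, RingHom.id_apply]; ring

private theorem zmod2 (a : ZMod 2) : a = 0 ∨ a = 1 := by
  revert a; decide

open Classical in
private theorem bt_eq (φ : F → ZMod 2) :
    T.bt φ = T.bdy (Finset.univ.filter (fun f => φ f = 1)) := by
  have h : ∀ f, ind (Finset.univ.filter (fun f => φ f = 1)) f = φ f := by
    intro f
    unfold ind
    rcases zmod2 (φ f) with h | h <;> simp [h]
  funext d
  unfold bdy
  rw [h, h]
  rfl

theorem exact (c : Dart F → ZMod 2) (hc : T.Ev c) : ∃ Q : Finset F, ∀ d, c d = T.bdy Q d := by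
  classical
  set Z : Submodule (ZMod 2) (Dart F → ZMod 2) := T.symSub ⊓ LinearMap.ker T.bd1 with hZ
  have memZ : ∀ c, c ∈ Z ↔ T.Ev c := by
    intro c
    rw [hZ, Submodule.mem_inf, LinearMap.mem_ker]
    constructor
    · rintro ⟨h1, h2⟩
      exact ⟨h1, fun v => congrFun h2 v⟩
    · rintro ⟨h1, h2⟩
      exact ⟨h1, funext h2⟩
  have hBZ : LinearMap.range T.bt ≤ Z := by
    rintro _ ⟨φ, rfl⟩
    rw [memZ, T.bt_eq]
    exact T.ev_bdy _
  obtain ⟨f0⟩ : Nonempty F := by
    have h1 := T.four
    have h2 := T.euler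
    exact Fintype.card_pos_iff.1 (by omega)
  -- kernel of `bt`
  have hker : Module.finrank (ZMod 2) (LinearMap.ker T.bt) ≤ 1 := by
    have h1 : LinearMap.ker T.bt ≤ Submodule.span (ZMod 2) {(fun _ => (1 : ZMod 2) : F → ZMod 2)} := by
      intro φ hφ
      rw [LinearMap.mem_ker] at hφ
      have h : ∀ d : Dart F, φ d.1 = φ (T.op d).1 := by
        intro d
        have h2 : φ d.1 + φ (T.op d).1 = 0 := congrFun hφ d
        rcases zmod2 (φ d.1) with h3 | h3 <;> rcases zmod2 (φ (T.op d).1) with h4 | h4 <;> rw [h3, h4] at h2 ⊢ <;>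
          simp at h2
      rw [Submodule.mem_span_singleton]
      refine ⟨φ f0, ?_⟩
      funext f
      simp only [Pi.smul_apply, smul_eq_mul, mul_one]
      exact T.face_conn φ h f0 f
    exact (Submodule.finrank_mono h1).trans ((finrank_span_le_card _).trans (by simp))
  have hrn := LinearMap.finrank_range_add_finrank_ker T.bt
  rw [Module.finrank_fintype_fun_eq_card] at hrn
  have hrn2 := LinearMap.finrank_range_add_finrank_ker (T.bd1.domRestrict T.symSub)
  have hr : LinearMap.range (T.bd1.domRestrict T.symSub) = Submodule.map T.bd1 T.symSub := by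
    ext v
    simp [Submodule.mem_map]
  have hk : Module.finrank (ZMod 2) (LinearMap.ker (T.bd1.domRestrict T.symSub)) = Module.finrank (ZMod 2) Z := by
    have h1 : LinearMap.ker (T.bd1.domRestrict T.symSub) = Submodule.comap T.symSub.subtype (LinearMap.ker T.bd1) := by
      ext v
      simp
    have h2 := Submodule.map_comap_subtype T.symSub (LinearMap.ker T.bd1)
    rw [h1, hZ, ← h2, Submodule.finrank_map_subtype_eq]
  rw [hr, hk] at hrn2
  have e1 := T.finrank_symSub
  have e2 := T.card_le_rank_bd1
  have e3 := T.euler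
  have hle : Module.finrank (ZMod 2) Z ≤ Module.finrank (ZMod 2) (LinearMap.range T.bt) := by omega
  have hBZ2 : LinearMap.range T.bt = Z := Submodule.eq_of_le_of_finrank_le hBZ hle
  have hcZ : c ∈ LinearMap.range T.bt := by rw [hBZ2]; exact (memZ c).2 hc
  obtain ⟨φ, hφ⟩ := hcZ
  refine ⟨Finset.univ.filter (fun f => φ f = 1), fun d => ?_⟩
  rw [← hφ, T.bt_eq]

end LS35.Tri
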