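import Pool.Agent.LibLS35.D8
import Pool.Agent.LibLS35.H4

/-! Row D9 (MEDIUM). Every triangulation has a realizer for every outer face `f0`. -/

namespace LS35.Tri

private theorem D9_three : ∀ i j : Fin 3, j = i ∨ j = i + 1 ∨ j = i + 1 + 1 := by decide

private theorem D9_cases : ∀ i : Fin 3, i = 0 ∨ i = 1 ∨ i = 2 := by decide

variable {V F : Type} [Fintype V] [Fintype F] (T : Tri V F)

open Classical in
private theorem D9_bd (f0 : F) (d : Dart F) :
    T.Bd (Finset.univ.erase f0) d ↔ (T.op d).1 = f0 := by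
  unfold Bd
  simp only [Finset.mem_erase, Finset.mem_univ, and_true, not_not]
  constructor
  · exact fun h => h.2
  · intro h
    refine ⟨fun h' => ?_, h⟩
    exact T.op_face_ne d (h.trans h'.symm)

private theorem D9_tail (f : F) (i : Fin 3) : T.tail (T.op (f, i)) = T.vt f (i + 1) :=
  T.tail_op (f, i)

private theorem D9_head (f : F) (i : Fin 3) : T.head (T.op (f, i)) = T.vt f i :=
  T.head_op (f, i)

private theorem D9_eq (f0 : F) (d : Dart F) (h : (T.op d).1 = f0) : d = T.op (f0, (T.op d).2) := by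
  have h1 : T.op d = (f0, (T.op d).2) := Prod.ext h rfl
  have h2 := T.op_op d
  rw [h1] at h2
  exact h2.symm

open Classical in
private theorem D9_ind (Q : Finset F) (f : F) : ind Qᶜ f = 1 + ind Q f := by
  unfold ind
  by_cases h : f ∈ Q
  · simp only [Finset.mem_compl, h, not_true, if_false, if_true]
    decide
  · simp only [Finset.mem_compl, h, not_false_iff, if_false, if_true, add_zero]

open Classical in
private theorem D9_bdy (Q : Finset F) (d : Dart F) : T.bdy Qᶜ d = T.bdy Q d := by
  unfold bdy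
  rw [D9_ind, D9_ind]
  generalize ind Q d.1 = a
  generalize ind Q (T.op d).1 = b
  revert a b
  decide

open Classical in
private theorem D9_h0 (f0 : F) (Q : Finset F) (hQ : Q ⊆ Finset.univ.erase f0)
    (h : ∀ d, T.Bd Q d → T.Bd (Finset.univ.erase f0) d) : Q = ∅ ∨ Q = Finset.univ.erase f0 := by
  have hf0 : f0 ∉ Q := fun h' => by
    have := hQ h'
    simp at this
  by_cases hc : ∃ d, T.Bd Q d
  · right
    obtain ⟨d, hd⟩ := hc
    have step : ∀ i : Fin 3, T.Bd Q (T.op (f0, i)) → T.Bd Q (T.op (f0, i + 1)) := by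
      intro i hi
      obtain ⟨e, he, het⟩ := T.exists_in Q _ hi
      have h1 := (D9_bd T f0 e).1 (h e he)
      have h2 := D9_eq T f0 e h1
      rw [h2, D9_head, D9_tail] at het
      have h3 := T.inj f0 het
      rw [h3] at h2
      rw [← h2]
      exact he
    have h1 := (D9_bd T f0 d).1 (h d hd)
    have h2 := D9_eq T f0 d h1
    rw [h2] at hd
    have all : ∀ j : Fin 3, T.Bd Q (T.op (f0, j)) := by
      intro j
      have e1 := step _ hd
      have e2 := step _ e1
      revert hd e1 e2
      generalize (T.op d).2 = i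
      intro hd e1 e2
      have : j = i ∨ j = i + 1 ∨ j = i + 1 + 1 := D9_three i j
      rcases this with rfl | rfl | rfl
      · exact hd
      · exact e1
      · exact e2
    have key : ∀ e : Dart F, (e.1 ∈ Q ∨ e.1 = f0) → ((T.op e).1 ∈ Q ∨ (T.op e).1 = f0) := by
      intro e he
      rcases he with he | he
      · by_cases h3 : (T.op e).1 ∈ Q
        · exact Or.inl h3
        · exact Or.inr ((D9_bd T f0 e).1 (h e ⟨he, h3⟩))
      · left
        have h3 : e = (f0, e.2) := Prod.ext he rfl
        rw [h3]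
        exact (all e.2).1
    have hcon : ∀ f g : F, (f ∈ Q ∨ f = f0) = (g ∈ Q ∨ g = f0) := by
      refine T.face_conn (fun f => (f ∈ Q ∨ f = f0)) fun e => ?_
      refine propext ⟨key e, fun h3 => ?_⟩
      have := key (T.op e) h3
      rwa [T.op_op] at this
    refine Finset.Subset.antisymm hQ fun f hf => ?_
    have h3 : f ∈ Q ∨ f = f0 := by
      rw [hcon f f0]
      exact Or.inr rfl
    rcases h3 with h3 | h3
    · exact h3
    · rw [h3] at hf
      simp at hf
  · left
    have hcon : ∀ f g : F, (f ∈ Q) = (g ∈ Q) := by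
      have key : ∀ e : Dart F, e.1 ∈ Q → (T.op e).1 ∈ Q := by
        intro e he
        by_contra h3
        exact hc ⟨e, he, h3⟩
      refine T.face_conn (fun f => f ∈ Q) fun e => ?_
      refine propext ⟨key e, fun h3 => ?_⟩
      have := key (T.op e) h3
      rwa [T.op_op] at this
    refine Finset.eq_empty_of_forall_notMem fun f hf => ?_
    rw [hcon f f0] at hf
    exact hf0 hf

open Classical in
private theorem D9_disk (f0 : F) : T.Disk (Finset.univ.erase f0) where
  simple := by
    intro d e hd he h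
    have h1 := (D9_bd T f0 d).1 hd
    have h2 := (D9_bd T f0 e).1 he
    have h3 := D9_eq T f0 d h1
    have h4 := D9_eq T f0 e h2
    rw [h3, h4, D9_tail, D9_tail] at h
    have h5 := add_right_cancel (T.inj f0 h)
    rw [h3, h4, h5]
  h1 := by
    intro c hc _
    obtain ⟨Q, hQ⟩ := T.exact c hc
    by_cases h : f0 ∈ Q
    · refine ⟨Qᶜ, fun f hf => ?_, fun d => ?_⟩
      · rw [Finset.mem_compl] at hf
        rw [Finset.mem_erase]
        exact ⟨fun h' => hf (h' ▸ h), Finset.mem_univ _⟩
      · rw [D9_bdy]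
        exact hQ d
    · refine ⟨Q, fun f hf => ?_, hQ⟩
      rw [Finset.mem_erase]
      exact ⟨fun h' => h (h' ▸ hf), Finset.mem_univ _⟩
  h0 := fun Q hQ h => D9_h0 T f0 Q hQ h

theorem realizer_exists (f0 : F) : ∃ (x : Fin 3 → V → ℝ) (u : F → Fin 3 → V), T.Realizer f0 x u := by
  classical
  have hb : T.Bd (Finset.univ.erase f0) (T.op (f0, 0)) := by
    rw [D9_bd, T.op_op]
  obtain ⟨x, hx⟩ := T.rz_exists _ (D9_disk T f0) _ hb
  rw [D9_tail, D9_head] at hx
  have hlab : ∀ f : F, ∃ r : Fin 3, f ≠ f0 →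
      ∀ i j : Fin 3, j ≠ i → x i (T.vt f (j + r)) < x i (T.vt f (i + r)) := by
    intro f
    by_cases h : f = f0
    · exact ⟨0, fun h' => absurd h h'⟩
    · obtain ⟨r, hr⟩ := hx.lab f (by simp [h])
      exact ⟨r, fun _ => hr⟩
  choose r hr using hlab
  have hCA : T.vt f0 2 ≠ T.vt f0 0 := fun h => absurd (T.inj f0 h) (by decide)
  have hCB : T.vt f0 2 ≠ T.vt f0 (0 + 1) := fun h => absurd (T.inj f0 h) (by decide)
  have hC : T.InV (Finset.univ.erase f0) (T.vt f0 2) := by
    refine ⟨(T.op (f0, 2)).1, ?_, (T.op (f0, 2)).2 + 1, D9_head T f0 2⟩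
    rw [Finset.mem_erase]
    exact ⟨T.op_face_ne (f0, 2), Finset.mem_univ _⟩
  have p0 := hx.pos0 _ hC hCB hCA
  have p1 := hx.pos1 _ hC hCB hCA
  have p2 := hx.pos2 _ hC hCB hCA
  have x0s := hx.x0s
  have x0t := hx.x0t
  have x1s := hx.x1s
  have x1t := hx.x1t
  have x2s := hx.x2s
  have x2t := hx.x2t
  rw [show (0 : Fin 3) + 1 = 1 from rfl] at x0s x1s x2s
  refine ⟨x, fun f i => if f = f0 then T.vt f0 (2 - i) else T.vt f (i + r f), ?_⟩
  refine ⟨?_, ?_, ?_⟩
  · intro f i j hij
    by_cases h : f = f0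
    · simp only [h, if_true]
      have e0 : (2 : Fin 3) - 0 = 2 := rfl
      have e1 : (2 : Fin 3) - 1 = 1 := rfl
      have e2 : (2 : Fin 3) - 2 = 0 := rfl
      have key : ∀ i j : Fin 3, j ≠ i → x i (T.vt f0 (2 - j)) < x i (T.vt f0 (2 - i)) := by
        intro i j hij
        have hi : i = 0 ∨ i = 1 ∨ i = 2 := D9_cases i
        have hj : j = 0 ∨ j = 1 ∨ j = 2 := D9_cases j
        rcases hi with rfl | rfl | rfl <;> rcases hj with rfl | rfl | rfl <;>
          first
          | exact absurd rfl hij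
          | (simp only [e0, e1, e2]; linarith [p1.1, p1.2, p2.1, p2.2])
      exact key i j hij
    · simp only [h, if_false]
      exact hr f h i j hij
  · intro f hf
    refine ⟨r f, fun i => ?_⟩
    simp only [hf, if_false]
  · refine ⟨2, fun i => ?_⟩
    simp only [if_true]

end LS35.Tri
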