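import Pool.Agent.LibLS35.Basic

/-! Row O1 (SHORT). The three orders on the faces. `hl` is the field `lab` of `Realizer`.
PLAN. `od_irrefl`: `x i (u f i) ≤ x i (u f (i+1))` contradicts `hl f i (i+1)`. `od_trans`: chain of inequalities with `hl g i (i+1)` and `hl g (i+1) i`. `od_excl` (`j = i+1`, `k = i+2`): `Od i f g` gives
`x j (u g j) ≤ x j (u f i)`; `Od j f g` gives `x j (u f j) ≤ x j (u g k)`; but `x j (u f i) < x j (u f j)` and `x j (u g k) < x j (u g j)` (`hl`): contradiction. -/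

namespace LS35

private theorem O1_ne (i : Fin 3) : i + 1 ≠ i := by
  revert i
  decide

variable {V F : Type} (x : Fin 3 → V → ℝ) (u : F → Fin 3 → V) (hl : ∀ f i j, j ≠ i → x i (u f j) < x i (u f i))
include hl

theorem od_irrefl (i : Fin 3) (f : F) : ¬ Od x u i f f := by
  intro h
  exact absurd h.1 (not_le.2 (hl f i (i + 1) (O1_ne i)))

theorem od_trans (i : Fin 3) (f g h : F) (h1 : Od x u i f g) (h2 : Od x u i g h) : Od x u i f h := by
  have a := hl g i (i + 1) (O1_ne i)
  have b := hl g (i + 1) i (O1_ne i).symm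
  exact ⟨h1.1.trans (a.le.trans h2.1), h2.2.trans (b.le.trans h1.2)⟩

theorem od_excl (i : Fin 3) (f g : F) : ¬ (Od x u i f g ∧ Od x u (i + 1) f g) := by
  rintro ⟨h1, h2⟩
  have a := hl f (i + 1) i (O1_ne i).symm
  have b := hl g (i + 1) (i + 1 + 1) (O1_ne (i + 1))
  exact absurd (h1.2.trans_lt (a.trans_le (h2.1.trans b.le))) (lt_irrefl _)

end LS35
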