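import Mathlib

/-! Row O2 (MEDIUM/STRONG). Dilworth's theorem (finite, strict order `r`): if antichains of `M` have at most `n` elements, `M` is a union of `n` chains.
PLAN (Galvin). Induction on `M.card`, for all `n`. `M = ∅`: trivial. Let `a` be a maximal element of `M` (no `b ∈ M` with `r a b`), `P = M.erase a`, `k ≤ n` the maximal size of an antichain of `P`; induction hypothesis: `P` is covered by chains
`C_0, …, C_(k-1)` (`χ : P → k`). Every antichain of `P` with `k` elements meets each `C_i` exactly once (at most once, count). Let `a_i` be the largest element of `C_i` that belongs to a `k`-element antichain of `P`. `A = {a_i}` is an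
antichain: if `r a_i a_j` (`i ≠ j`), take a `k`-antichain `A_j ∋ a_j`, its element `y ∈ C_i` satisfies `y = a_i` or `r y a_i`, so `r y a_j`, contradiction. If `k < n`: give `a` the new colour `k`. If `k = n`: `A ∪ {a}` has `n + 1`
elements, so it is no antichain; `a` is maximal, so `r a_i a` for some `i`. Then `K = {a} ∪ {z ∈ C_i | z = a_i ∨ r z a_i}` is a chain, and `M \ K` has no antichain with `n` elements (`P \ K` : it would be a `k`-antichain of `P`
meeting `C_i` in an element not below or equal to `a_i`, but it is `≤ a_i` by the choice of `a_i`). Induction hypothesis for `M \ K` with `n - 1`, and `K` gets colour `n - 1`. Any other proof (Perles, Hall / König in Mathlib) is welcome. -/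

namespace LS35

private theorem o2_max {α : Type} (r : α → α → Prop) (hi : ∀ a, ¬ r a a)
    (ht : ∀ a b c, r a b → r b c → r a c) (S : Finset α) (hS : S.Nonempty) :
    ∃ m ∈ S, ∀ b ∈ S, ¬ r m b := by
  classical
  obtain ⟨m, hm, hmin⟩ := Finset.exists_min_image S (fun x => (S.filter (fun y => r x y)).card) hS
  refine ⟨m, hm, fun b hb hr => ?_⟩
  have h1 := hmin b hb
  have h2 : (S.filter (fun y => r b y)) ⊂ (S.filter (fun y => r m y)) := by
    rw [Finset.ssubset_iff_of_subset]
    · refine ⟨b, ?_, ?_⟩
      · simp [hb, hr]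
      · simp [hi b]
    · intro y hy
      simp only [Finset.mem_filter] at hy ⊢
      exact ⟨hy.1, ht _ _ _ hr hy.2⟩
  have h3 := Finset.card_lt_card h2
  omega

private theorem o2_hit {α : Type} (r : α → α → Prop) (χ : α → ℕ) (P A : Finset α) (k : ℕ)
    (h1 : ∀ a ∈ P, χ a < k)
    (h2 : ∀ a ∈ P, ∀ b ∈ P, a ≠ b → χ a = χ b → r a b ∨ r b a)
    (hA : A ⊆ P) (hanti : ∀ a ∈ A, ∀ b ∈ A, ¬ r a b) (hc : A.card = k) (i : ℕ) (hik : i < k) :
    ∃ y ∈ A, χ y = i := by
  classical
  have hinj : Set.InjOn χ (A : Set α) := by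
    intro x hx y hy hxy
    by_contra hne
    rcases h2 x (hA hx) y (hA hy) hne hxy with h | h
    · exact hanti x hx y hy h
    · exact hanti y hy x hx h
  have hcard : (A.image χ).card = k := by rw [Finset.card_image_of_injOn hinj, hc]
  have hsub : A.image χ ⊆ Finset.range k := by
    intro z hz
    rw [Finset.mem_image] at hz
    obtain ⟨x, hx, rfl⟩ := hz
    exact Finset.mem_range.2 (h1 x (hA hx))
  have heq : A.image χ = Finset.range k := by
    apply Finset.eq_of_subset_of_card_le hsub
    rw [hcard, Finset.card_range]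
  have hmem : i ∈ A.image χ := by rw [heq]; exact Finset.mem_range.2 hik
  rw [Finset.mem_image] at hmem
  obtain ⟨y, hy, hyi⟩ := hmem
  exact ⟨y, hy, hyi⟩

private theorem o2_width {α : Type} (r : α → α → Prop) (P : Finset α) :
    ∃ k : ℕ, ∃ A, A ⊆ P ∧ (∀ a ∈ A, ∀ b ∈ A, ¬ r a b) ∧ A.card = k ∧
      ∀ B, B ⊆ P → (∀ a ∈ B, ∀ b ∈ B, ¬ r a b) → B.card ≤ k := by
  classical
  let T := P.powerset.filter (fun A => ∀ a ∈ A, ∀ b ∈ A, ¬ r a b)
  have hT : T.Nonempty := ⟨∅, by simp [T]⟩
  obtain ⟨A, hA, hmax⟩ := Finset.exists_max_image T (fun A => A.card) hT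
  simp only [T, Finset.mem_filter, Finset.mem_powerset] at hA
  refine ⟨A.card, A, hA.1, hA.2, rfl, fun B hB hB2 => ?_⟩
  exact hmax B (by simp only [T, Finset.mem_filter, Finset.mem_powerset]; exact ⟨hB, hB2⟩)

private theorem o2_main {α : Type} [DecidableEq α] (r : α → α → Prop) (hi : ∀ a, ¬ r a a)
    (ht : ∀ a b c, r a b → r b c → r a c) : ∀ (N : ℕ) (M : Finset α), M.card = N → ∀ (n : ℕ),
    (∀ A, A ⊆ M → (∀ a ∈ A, ∀ b ∈ A, ¬ r a b) → A.card ≤ n) →
    ∃ χ : α → ℕ, (∀ a ∈ M, χ a < n) ∧
      ∀ a ∈ M, ∀ b ∈ M, a ≠ b → χ a = χ b → r a b ∨ r b a := by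
  classical
  intro N
  induction N using Nat.strong_induction_on with
  | _ N ih =>
  intro M hMN n hw
  rcases M.eq_empty_or_nonempty with hM | hM
  · subst hM
    exact ⟨fun _ => 0, by simp, by simp⟩
  obtain ⟨a, haM, hamax⟩ := o2_max r hi ht M hM
  obtain ⟨k, A0, hA0, hA0a, hA0c, hwk⟩ := o2_width r (M.erase a)
  have hPM : M.erase a ⊆ M := Finset.erase_subset a M
  have hPc : (M.erase a).card < N := by
    rw [← hMN]; exact Finset.card_erase_lt_of_mem haM
  obtain ⟨χ0, hχ1, hχ2⟩ := ih _ hPc (M.erase a) rfl k hwk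
  have hkn : k ≤ n := by
    rw [← hA0c]; exact hw A0 (hA0.trans hPM) hA0a
  rcases Nat.lt_or_ge k n with hlt | hge
  · refine ⟨fun z => if z = a then k else χ0 z, ?_, ?_⟩
    · intro z hz
      by_cases hza : z = a
      · simp only [hza, if_true]; exact hlt
      · simp only [hza, if_false]
        exact (hχ1 z (Finset.mem_erase.2 ⟨hza, hz⟩)).trans hlt
    · intro x hx y hy hxy he
      by_cases hxa : x = a
      · by_cases hya : y = a
        · exact absurd (hxa.trans hya.symm) hxy
        · simp only [hxa, if_true, hya, if_false] at he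
          have := hχ1 y (Finset.mem_erase.2 ⟨hya, hy⟩)
          omega
      · by_cases hya : y = a
        · simp only [hxa, if_false, hya, if_true] at he
          have := hχ1 x (Finset.mem_erase.2 ⟨hxa, hx⟩)
          omega
        · simp only [hxa, hya, if_false] at he
          exact hχ2 x (Finset.mem_erase.2 ⟨hxa, hx⟩) y (Finset.mem_erase.2 ⟨hya, hy⟩) hxy he
  · have hk : k = n := le_antisymm hkn hge
    subst hk
    -- the sets S i
    have hex : ∀ i : ℕ, i < k → ∃ m, m ∈ M.erase a ∧ χ0 m = i ∧
        (∃ A, A ⊆ M.erase a ∧ (∀ a ∈ A, ∀ b ∈ A, ¬ r a b) ∧ A.card = k ∧ m ∈ A) ∧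
        ∀ x ∈ M.erase a, χ0 x = i →
          (∃ A, A ⊆ M.erase a ∧ (∀ a ∈ A, ∀ b ∈ A, ¬ r a b) ∧ A.card = k ∧ x ∈ A) →
          x = m ∨ r x m := by
      intro i hik
      let S := (M.erase a).filter (fun x => χ0 x = i ∧
        ∃ A, A ⊆ M.erase a ∧ (∀ a ∈ A, ∀ b ∈ A, ¬ r a b) ∧ A.card = k ∧ x ∈ A)
      have hS : S.Nonempty := by
        obtain ⟨y, hy, hyi⟩ := o2_hit r χ0 (M.erase a) A0 k hχ1 hχ2 hA0 hA0a hA0c i hik
        refine ⟨y, ?_⟩
        simp only [S, Finset.mem_filter]
        exact ⟨hA0 hy, hyi, A0, hA0, hA0a, hA0c, hy⟩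
      obtain ⟨m, hm, hmm⟩ := o2_max r hi ht S hS
      simp only [S, Finset.mem_filter] at hm
      refine ⟨m, hm.1, hm.2.1, hm.2.2, ?_⟩
      intro x hx hxi hxA
      by_cases hxm : x = m
      · exact Or.inl hxm
      · right
        rcases hχ2 x hx m hm.1 hxm (by rw [hxi, hm.2.1]) with h | h
        · exact h
        · exact absurd h (hmm x (by simp only [S, Finset.mem_filter]; exact ⟨hx, hxi, hxA⟩))
    have : Nonempty α := ⟨a⟩
    choose! m hm1 hm2 hm3 hm4 using hex
    have hmanti : ∀ i, i < k → ∀ j, j < k → ¬ r (m i) (m j) := by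
      intro i hik j hjk hr
      obtain ⟨A, hA, hAa, hAc, hmA⟩ := hm3 j hjk
      obtain ⟨y, hy, hyi⟩ := o2_hit r χ0 (M.erase a) A k hχ1 hχ2 hA hAa hAc i hik
      rcases hm4 i hik y (hA hy) hyi ⟨A, hA, hAa, hAc, hy⟩ with h | h
      · rw [← h] at hr; exact hAa y hy (m j) hmA hr
      · exact hAa y hy (m j) hmA (ht _ _ _ h hr)
    have hinj : Set.InjOn m (Finset.range k : Set ℕ) := by
      intro x hx y hy hxy
      have hx' : x < k := Finset.mem_range.1 hx
      have hy' : y < k := Finset.mem_range.1 hy
      rw [← hm2 x hx', ← hm2 y hy', hxy]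
    have hexi : ∃ i, i < k ∧ r (m i) a := by
      by_contra hno
      push Not at hno
      have hnot : a ∉ (Finset.range k).image m := by
        intro h
        rw [Finset.mem_image] at h
        obtain ⟨i, hi', hia⟩ := h
        have := hm1 i (Finset.mem_range.1 hi')
        rw [hia] at this
        exact (Finset.notMem_erase a M) this
      have hcard : (insert a ((Finset.range k).image m)).card = k + 1 := by
        rw [Finset.card_insert_of_notMem hnot, Finset.card_image_of_injOn hinj, Finset.card_range]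
      have hle := hw (insert a ((Finset.range k).image m)) (by
        intro z hz
        rw [Finset.mem_insert] at hz
        rcases hz with hz | hz
        · rw [hz]; exact haM
        · rw [Finset.mem_image] at hz
          obtain ⟨i, hi', rfl⟩ := hz
          exact hPM (hm1 i (Finset.mem_range.1 hi'))) (by
        intro x hx y hy hr
        rw [Finset.mem_insert] at hx hy
        rcases hx with hx | hx
        · subst hx
          rcases hy with hy | hy
          · rw [hy] at hr; exact hi _ hr
          · rw [Finset.mem_image] at hy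
            obtain ⟨j, hj, rfl⟩ := hy
            exact hamax _ (hPM (hm1 j (Finset.mem_range.1 hj))) hr
        · rw [Finset.mem_image] at hx
          obtain ⟨i, hi', rfl⟩ := hx
          rcases hy with hy | hy
          · rw [hy] at hr
            exact hno i (Finset.mem_range.1 hi') hr
          · rw [Finset.mem_image] at hy
            obtain ⟨j, hj, rfl⟩ := hy
            exact hmanti i (Finset.mem_range.1 hi') j (Finset.mem_range.1 hj) hr)
      omega
    obtain ⟨i, hik, hria⟩ := hexi
    let Kp : α → Prop := fun z => z = a ∨ (z ∈ M.erase a ∧ χ0 z = i ∧ (z = m i ∨ r z (m i)))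
    have hM'c : (M.filter (fun z => ¬ Kp z)).card < N := by
      rw [← hMN]
      apply Finset.card_lt_card
      rw [Finset.ssubset_iff_of_subset (Finset.filter_subset _ _)]
      exact ⟨a, haM, by simp [Kp]⟩
    have hM'P : M.filter (fun z => ¬ Kp z) ⊆ M.erase a := by
      intro z hz
      rw [Finset.mem_filter] at hz
      rw [Finset.mem_erase]
      exact ⟨fun h => hz.2 (Or.inl h), hz.1⟩
    obtain ⟨χ1, hc1, hc2⟩ := ih _ hM'c (M.filter (fun z => ¬ Kp z)) rfl (k - 1) (by
      intro A hA hAa
      have hAP := hA.trans hM'P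
      have h1 := hwk A hAP hAa
      rcases Nat.lt_or_ge A.card k with h2 | h2
      · omega
      · exfalso
        have hAc : A.card = k := le_antisymm h1 h2
        obtain ⟨y, hy, hyi⟩ := o2_hit r χ0 (M.erase a) A k hχ1 hχ2 hAP hAa hAc i hik
        have h3 := hm4 i hik y (hAP hy) hyi ⟨A, hAP, hAa, hAc, hy⟩
        have h4 := hA hy
        rw [Finset.mem_filter] at h4
        exact h4.2 (Or.inr ⟨hAP hy, hyi, h3⟩))
    refine ⟨fun z => if Kp z then k - 1 else χ1 z, ?_, ?_⟩
    · intro z hz
      by_cases hK : Kp z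
      · simp only [hK, if_true]; omega
      · simp only [hK, if_false]
        have := hc1 z (Finset.mem_filter.2 ⟨hz, hK⟩)
        omega
    · intro x hx y hy hxy he
      by_cases hKx : Kp x
      · by_cases hKy : Kp y
        · rcases hKx with hKx | ⟨hx1, hx2, hx3⟩
          · rcases hKy with hKy | ⟨hy1, hy2, hy3⟩
            · exact absurd (hKx.trans hKy.symm) hxy
            · right
              rw [hKx]
              rcases hy3 with h | h
              · rw [h]; exact hria
              · exact ht _ _ _ h hria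
          · rcases hKy with hKy | ⟨hy1, hy2, hy3⟩
            · left
              rw [hKy]
              rcases hx3 with h | h
              · rw [h]; exact hria
              · exact ht _ _ _ h hria
            · exact hχ2 x hx1 y hy1 hxy (hx2.trans hy2.symm)
        · simp only [hKx, hKy, if_true, if_false] at he
          have := hc1 y (Finset.mem_filter.2 ⟨hy, hKy⟩)
          omega
      · by_cases hKy : Kp y
        · simp only [hKx, hKy, if_true, if_false] at he
          have := hc1 x (Finset.mem_filter.2 ⟨hx, hKx⟩)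
          omega
        · simp only [hKx, hKy, if_false] at he
          exact hc2 x (Finset.mem_filter.2 ⟨hx, hKx⟩) y (Finset.mem_filter.2 ⟨hy, hKy⟩) hxy he

theorem dilworth {α : Type} [DecidableEq α] (r : α → α → Prop) (hi : ∀ a, ¬ r a a) (ht : ∀ a b c, r a b → r b c → r a c)
    (M : Finset α) (n : ℕ) (h : ∀ A, A ⊆ M → (∀ a ∈ A, ∀ b ∈ A, ¬ r a b) → A.card ≤ n) :
    ∃ χ : α → ℕ, (∀ a ∈ M, χ a < n) ∧ ∀ a ∈ M, ∀ b ∈ M, a ≠ b → χ a = χ b → r a b ∨ r b a := by
  exact o2_main r hi ht M.card M rfl n h

end LS35
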