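import Pool.Agent.LibLS35.P1

/-! Row P2 (SHORT/MEDIUM). A set `A` of faces which is an antichain for the order number `i` is stabbed by a vertical line in some drawing.
PLAN. Let `j = i + 1`, `L = {v | ∃ f ∈ A, x i (u f i) ≤ x i v ∧ x j v ≤ x j (u f i)}`. (1) `u f i ∈ L` for `f ∈ A`. (2) `u g j ∉ L` for `g ∈ A`: otherwise `Od x u i f g` for some `f ∈ A`. (3) for every face `h`: `u h j ∈ L → u h i ∈ L` (`lab`:
`x i (u h j) < x i (u h i)`, `x j (u h i) < x j (u h j)`). Let `K > |x j v - x i v|` for all `v` (finite), `X v = x j v - x i v + (if v ∈ L then 0 else 2 K)`. Then `X (u h i) < X (u h j)` for all `h` by (3) and `lab`. `P1` gives `Y`. Take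
`γ = K`: for `f ∈ A`: `X (u f i) < K` and `X (u f j) > -K + 2 K`. -/

namespace LS35.Tri

variable {V F : Type} [Fintype V] [Fintype F] (T : Tri V F)

theorem stab_antichain (f0 : F) (x : Fin 3 → V → ℝ) (u : F → Fin 3 → V) (hR : T.Realizer f0 x u) (i : Fin 3)
    (A : Finset F) (hA : ∀ f ∈ A, ∀ g ∈ A, ¬ Od x u i f g) :
    ∃ (p : V → ℝ × ℝ) (γ : ℝ), T.Sign p f0 ∧ ∀ f ∈ A, (p (u f i)).1 < γ ∧ γ < (p (u f (i + 1))).1 := by
  classical
  have hij : i ≠ i + 1 := by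
    have h0 : ∀ i : Fin 3, i ≠ i + 1 := by decide
    exact h0 i
  obtain ⟨K, hK⟩ : ∃ K : ℝ, ∀ v, |x (i + 1) v - x i v| < K := by
    refine ⟨∑ v, |x (i + 1) v - x i v| + 1, fun v => ?_⟩
    have h := Finset.single_le_sum (f := fun v => |x (i + 1) v - x i v|)
      (fun v _ => abs_nonneg _) (Finset.mem_univ v)
    exact lt_of_le_of_lt h (lt_add_one _)
  have h3 : ∀ h : F, (∃ f ∈ A, x i (u f i) ≤ x i (u h (i + 1)) ∧
      x (i + 1) (u h (i + 1)) ≤ x (i + 1) (u f i)) →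
      ∃ f ∈ A, x i (u f i) ≤ x i (u h i) ∧ x (i + 1) (u h i) ≤ x (i + 1) (u f i) := by
    rintro h ⟨f, hf, h1, h2⟩
    exact ⟨f, hf, h1.trans (hR.lab h i (i + 1) hij.symm).le,
      (hR.lab h (i + 1) i hij).le.trans h2⟩
  have hX : ∀ h : F, (fun v => x (i + 1) v - x i v + (if ∃ f ∈ A, x i (u f i) ≤ x i v ∧
      x (i + 1) v ≤ x (i + 1) (u f i) then 0 else 2 * K)) (u h i) <
      (fun v => x (i + 1) v - x i v + (if ∃ f ∈ A, x i (u f i) ≤ x i v ∧
      x (i + 1) v ≤ x (i + 1) (u f i) then 0 else 2 * K)) (u h (i + 1)) := by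
    intro h
    have h1 := hR.lab h i (i + 1) hij.symm
    have h2 := hR.lab h (i + 1) i hij
    have hK0 : 0 < K := lt_of_le_of_lt (abs_nonneg _) (hK (u h i))
    beta_reduce
    by_cases hb : ∃ f ∈ A, x i (u f i) ≤ x i (u h (i + 1)) ∧
      x (i + 1) (u h (i + 1)) ≤ x (i + 1) (u f i)
    · rw [if_pos hb, if_pos (h3 h hb)]
      linarith
    · rw [if_neg hb]
      split_ifs <;> linarith
  obtain ⟨Y, hY⟩ := T.sign_of_realizer f0 x u hR i
    (fun v => x (i + 1) v - x i v + (if ∃ f ∈ A, x i (u f i) ≤ x i v ∧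
      x (i + 1) v ≤ x (i + 1) (u f i) then 0 else 2 * K)) hX
  refine ⟨_, K, hY, fun f hf => ⟨?_, ?_⟩⟩
  · rw [if_pos ⟨f, hf, le_rfl, le_rfl⟩, add_zero]
    exact (abs_lt.1 (hK (u f i))).2
  · rw [if_neg ?_]
    · have := (abs_lt.1 (hK (u f (i + 1)))).1
      linarith
    · rintro ⟨g, hg, h1, h2⟩
      exact hA g hg f hf ⟨h1, h2⟩

end LS35.Tri
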