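import Pool.Agent.LibLS35.G6

/-! Row G7. Near a vertex `u` generic points are in a face at `u` or outside the outer triangle (typed by helper32). -/

namespace LS35.Tri

variable {V F : Type} [Fintype V] [Fintype F] (T : Tri V F)

private theorem G7_aux (p : V → ℝ × ℝ) (f0 : F) (hS : T.Sign p f0) (f : F) (hf : f ≠ f0) (i : Fin 3) :
    0 < dt (p (T.vt f (i + 1))) (p (T.vt f (i + 2))) (p (T.vt f i)) := by
  have h := hS.1 f hf
  unfold ori at h
  have h01 := dt_rot (p (T.vt f 0)) (p (T.vt f 1)) (p (T.vt f 2))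
  have h12 := dt_rot (p (T.vt f 1)) (p (T.vt f 2)) (p (T.vt f 0))
  have hi : i = 0 ∨ i = 1 ∨ i = 2 := by
    revert i
    decide
  rcases hi with rfl | rfl | rfl
  · show 0 < dt (p (T.vt f 1)) (p (T.vt f 2)) (p (T.vt f 0))
    rw [h01]
    exact h
  · show 0 < dt (p (T.vt f 2)) (p (T.vt f 0)) (p (T.vt f 1))
    rw [h12, h01]
    exact h
  · show 0 < dt (p (T.vt f 0)) (p (T.vt f 1)) (p (T.vt f 2))
    exact h

private theorem G7_cont (P Q : ℝ × ℝ) : Continuous (fun x : ℝ × ℝ => dt P Q x) := by
  unfold dt
  fun_prop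

theorem near_vertex (p : V → ℝ × ℝ) (f0 : F) (hS : T.Sign p f0) (u : V) :
    ∀ᶠ x in nhds (p u), T.Gen p x → (∃ f, f ≠ f0 ∧ T.At f u ∧ T.Pos p f x) ∨ ¬ T.CNeg p f0 x := by
  have key : ∀ᶠ x in nhds (p u), ∀ d : Dart F, d.1 ≠ f0 → T.vt d.1 d.2 = u →
      0 < dt (p (T.vt d.1 (d.2 + 1))) (p (T.vt d.1 (d.2 + 2))) x := by
    rw [Filter.eventually_all]
    intro d
    by_cases h1 : d.1 ≠ f0
    · by_cases h2 : T.vt d.1 d.2 = u
      · have h3 := G7_aux T p f0 hS d.1 h1 d.2
        rw [h2] at h3
        have h4 := (G7_cont (p (T.vt d.1 (d.2 + 1))) (p (T.vt d.1 (d.2 + 2)))).continuousAt.eventually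
          (lt_mem_nhds h3)
        filter_upwards [h4] with x hx _ _
        exact hx
      · exact Filter.Eventually.of_forall fun x _ h => absurd h h2
    · exact Filter.Eventually.of_forall fun x h => absurd h h1
  filter_upwards [key] with x hx hgen
  by_cases hc : T.CNeg p f0 x
  swap
  · exact Or.inr hc
  left
  obtain ⟨f, i, hf, hi, ha, hb⟩ := T.cone p f0 hS u (x - p u)
    (by
      intro d hd
      rw [← hd, ← dt_cross]
      exact hgen.1 d)
    (by
      intro i hi
      constructor
      · have h1 := hc (i + 2)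
        have h2 := hgen.1 (f0, i + 2)
        have e : i + 2 + 1 = i := by
          clear * -
          revert i
          decide
        unfold tail head at h2
        simp only [e, hi] at h1 h2
        rw [← dt_cross, dt_swap]
        have := lt_of_le_of_ne h1 h2
        linarith
      · have h1 := hc i
        have h2 := hgen.1 (f0, i)
        unfold tail head at h2
        simp only [hi] at h1 h2
        have h3 := lt_of_le_of_ne h1 h2
        rw [dt_cross] at h3
        unfold cross at h3 ⊢
        linarith)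
  refine ⟨f, hf, ⟨i, hi⟩, ?_⟩
  have hc' := hx (f, i) hf hi
  simp only at hc'
  rw [← dt_cross] at ha
  have hb' : 0 < dt (p (T.vt f (i + 2))) (p u) x := by
    have h5 : dt (p (T.vt f (i + 2))) (p u) x = cross (x - p u) (p (T.vt f (i + 2)) - p u) := by
      unfold dt cross
      simp only [Prod.fst_sub, Prod.snd_sub]
      ring
    rw [h5]
    exact hb
  rw [← hi] at ha hb'
  intro j
  have hj : j = i ∨ j = i + 1 ∨ j = i + 2 := by
    clear * -
    revert i j
    decide
  have e1 : i + 1 + 1 = i + 2 := by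
    clear * -
    revert i
    decide
  have e2 : i + 2 + 1 = i := by
    clear * -
    revert i
    decide
  rcases hj with rfl | rfl | rfl
  · exact ha
  · rw [e1]
    exact hc'
  · rw [e2]
    exact hb'

end LS35.Tri
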