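import Pool.Agent.LibLS35.GDefs

/-! Row G8 (MEDIUM). Near an interior point `y` of an edge generic points are in one of the two faces at the edge or outside the outer triangle.
PLAN. Let `d = (f, i)`, `P = p (tail d)`, `Q = p (head d)`, `R = p (vt f (i+2))`. `y = a P + b Q`, `a, b > 0`, `a + b = 1`. `dt P Q y = 0`, `dt Q R y = a * dt P Q R`, `dt R P y = b * dt P Q R` (ring). If `f ≠ f0`: `dt P Q R > 0`
(rotation of `ori`), so for `x` near `y`: `dt Q R x > 0`, `dt R P x > 0`, and then `dt P Q x > 0` implies `Pos p f x`. If `f = f0`: `dt P Q x > 0` implies `¬ CNeg p f0 x` (condition number `i`). So in both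
cases: for `x` near `y`, `dt P Q x > 0` gives the conclusion. The same for `op d` (it goes from `Q` to `P`, `y` is in its open segment, `openSegment_symm`): `dt Q P x > 0`, i.e. `dt P Q x < 0`, gives the conclusion with `(op d).1`
(`op (op d) = d` not needed). Generic: `dt P Q x ≠ 0`. -/

namespace LS35.Tri

variable {V F : Type} [Fintype V] [Fintype F] (T : Tri V F)

private theorem G8_tri (i j : Fin 3) : j = i ∨ j = i + 1 ∨ j = i + 2 := by
  revert i j
  decide

private theorem G8_two (i : Fin 3) : i + 1 + 1 = i + 2 := by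
  revert i
  decide

private theorem G8_three (i : Fin 3) : i + 2 + 1 = i := by
  revert i
  decide

private theorem G8_ori (p : V → ℝ × ℝ) (f : F) (i : Fin 3) :
    dt (p (T.vt f i)) (p (T.vt f (i + 1))) (p (T.vt f (i + 2))) = T.ori p f := by
  unfold ori
  fin_cases i
  · rfl
  · exact dt_rot _ _ _
  · exact (dt_rot _ _ _).trans (dt_rot _ _ _)

private theorem G8_cont (P Q : ℝ × ℝ) : Continuous fun x : ℝ × ℝ => dt P Q x := by
  unfold dt
  fun_prop

private theorem G8_half (p : V → ℝ × ℝ) (f0 : F) (hS : T.Sign p f0) (d : Dart F) (y : ℝ × ℝ)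
    (hy : y ∈ openSegment ℝ (p (T.tail d)) (p (T.head d))) :
    ∀ᶠ x in nhds y, 0 < dt (p (T.tail d)) (p (T.head d)) x →
      (d.1 ≠ f0 ∧ T.Pos p d.1 x) ∨ ¬ T.CNeg p f0 x := by
  by_cases hd : d.1 = f0
  · refine Filter.Eventually.of_forall fun x hx => Or.inr fun hc => ?_
    have h := hc d.2
    rw [← hd] at h
    exact absurd hx (not_lt.2 h)
  · have ho : 0 < dt (p (T.tail d)) (p (T.head d)) (p (T.vt d.1 (d.2 + 2))) := by
      have h := G8_ori T p d.1 d.2
      change dt (p (T.tail d)) (p (T.head d)) (p (T.vt d.1 (d.2 + 2))) = _ at h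
      rw [h]
      exact hS.1 _ hd
    obtain ⟨a, b, ha, hb, hab, rfl⟩ := hy
    have h1 : 0 < dt (p (T.head d)) (p (T.vt d.1 (d.2 + 2)))
        (a • p (T.tail d) + b • p (T.head d)) := by
      have e : dt (p (T.head d)) (p (T.vt d.1 (d.2 + 2))) (a • p (T.tail d) + b • p (T.head d)) =
          a * dt (p (T.tail d)) (p (T.head d)) (p (T.vt d.1 (d.2 + 2))) := by
        obtain rfl : b = 1 - a := by linarith
        unfold dt
        simp only [Prod.fst_add, Prod.snd_add, Prod.smul_fst, Prod.smul_snd, smul_eq_mul]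
        ring
      rw [e]
      exact mul_pos ha ho
    have h2 : 0 < dt (p (T.vt d.1 (d.2 + 2))) (p (T.tail d))
        (a • p (T.tail d) + b • p (T.head d)) := by
      have e : dt (p (T.vt d.1 (d.2 + 2))) (p (T.tail d)) (a • p (T.tail d) + b • p (T.head d)) =
          b * dt (p (T.tail d)) (p (T.head d)) (p (T.vt d.1 (d.2 + 2))) := by
        obtain rfl : a = 1 - b := by linarith
        unfold dt
        simp only [Prod.fst_add, Prod.snd_add, Prod.smul_fst, Prod.smul_snd, smul_eq_mul]
        ring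
      rw [e]
      exact mul_pos hb ho
    filter_upwards [(G8_cont _ _).continuousAt.eventually (lt_mem_nhds h1),
      (G8_cont _ _).continuousAt.eventually (lt_mem_nhds h2)] with x hx1 hx2 hx0
    refine Or.inl ⟨hd, fun j => ?_⟩
    rcases G8_tri d.2 j with rfl | rfl | rfl
    · exact hx0
    · rw [G8_two]
      exact hx1
    · rw [G8_three]
      exact hx2

theorem near_edge (p : V → ℝ × ℝ) (f0 : F) (hS : T.Sign p f0) (d : Dart F) (y : ℝ × ℝ)
    (hy : y ∈ openSegment ℝ (p (T.tail d)) (p (T.head d))) :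
    ∀ᶠ x in nhds y, T.Gen p x →
      (d.1 ≠ f0 ∧ T.Pos p d.1 x) ∨ ((T.op d).1 ≠ f0 ∧ T.Pos p (T.op d).1 x) ∨ ¬ T.CNeg p f0 x := by
  have hy' : y ∈ openSegment ℝ (p (T.tail (T.op d))) (p (T.head (T.op d))) := by
    rw [T.tail_op, T.head_op, openSegment_symm]
    exact hy
  filter_upwards [G8_half T p f0 hS d y hy, G8_half T p f0 hS (T.op d) y hy'] with x h1 h2 hg
  rw [T.tail_op, T.head_op, dt_swap] at h2
  rcases lt_or_gt_of_ne (hg.1 d) with h | h
  · rcases h2 (by linarith) with h3 | h3
    · exact Or.inr (Or.inl h3)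
    · exact Or.inr (Or.inr h3)
  · rcases h1 h with h3 | h3
    · exact Or.inl h3
    · exact Or.inr (Or.inr h3)

end LS35.Tri
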