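import Pool.Agent.LibLS35.GDefs

/-! Row G4 (SHORT/MEDIUM). Generic points exist in every nonempty open set.
PLAN. Every set `{x | dt P Q x ≠ 0}` with `P ≠ Q` is open (continuity) and dense: near a point `x` with `dt P Q x = 0` take `x + τ • n`, `n = (-(Q.2 - P.2), Q.1 - P.1)`: `dt` changes by `τ |Q - P|^2`. In the same way
`{x | x.1 ≠ a}`. A finite intersection of open dense sets is dense (`dense_iInter_of_isOpen` in the complete space `ℝ × ℝ`, countable index `Dart F`, resp. `V`; or `Dense.inter_of_isOpen_left` and finite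
induction); a dense set meets `U` (`Dense.inter_open_nonempty`). `ne_of_sign`: if two corners of a face coincide its signed area is `0`. -/

namespace LS35.Tri

variable {V F : Type} [Fintype V] [Fintype F] (T : Tri V F)

private theorem G4_dense (g : ℝ × ℝ → ℝ) (n : ℝ × ℝ) (c : ℝ) (hc : c ≠ 0)
    (h : ∀ x τ, g (x + τ • n) = g x + τ * c) : Dense {x | g x ≠ 0} := by
  intro x
  by_cases hx : g x = 0
  · have hf : Continuous fun τ : ℝ => x + τ • n := by fun_prop
    have h0 : Filter.Tendsto (fun τ : ℝ => x + τ • n) (nhdsWithin 0 {0}ᶜ) (nhds x) := by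
      have h1 := (hf.tendsto 0).mono_left (nhdsWithin_le_nhds (s := ({0}ᶜ : Set ℝ)))
      have h2 : x + (0 : ℝ) • n = x := by rw [zero_smul, add_zero]
      rw [h2] at h1
      exact h1
    refine mem_closure_of_tendsto h0 ?_
    filter_upwards [self_mem_nhdsWithin] with τ hτ
    have hτ0 : τ ≠ 0 := hτ
    change g (x + τ • n) ≠ 0
    rw [h, hx, zero_add]
    exact mul_ne_zero hτ0 hc
  · exact subset_closure hx

private theorem G4_ne {P Q : ℝ × ℝ} (h : P ≠ Q) :
    (Q.1 - P.1) ^ 2 + (Q.2 - P.2) ^ 2 ≠ 0 := by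
  intro h0
  apply h
  have h1 : (Q.1 - P.1) ^ 2 = 0 := by nlinarith [sq_nonneg (Q.1 - P.1), sq_nonneg (Q.2 - P.2)]
  have h2 : (Q.2 - P.2) ^ 2 = 0 := by nlinarith [sq_nonneg (Q.1 - P.1), sq_nonneg (Q.2 - P.2)]
  have h3 := pow_eq_zero_iff (two_ne_zero) |>.mp h1
  have h4 := pow_eq_zero_iff (two_ne_zero) |>.mp h2
  exact Prod.ext (by linarith) (by linarith)

theorem exists_gen (p : V → ℝ × ℝ) (hd : ∀ d, p (T.tail d) ≠ p (T.head d)) (U : Set (ℝ × ℝ)) (hU : IsOpen U)
    (hne : U.Nonempty) : ∃ x ∈ U, T.Gen p x := by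
  classical
  have hc1 : ∀ d : Dart F, Continuous fun x : ℝ × ℝ => dt (p (T.tail d)) (p (T.head d)) x := by
    intro d
    unfold dt
    fun_prop
  have h1 : Dense (⋂ d : Dart F, {x : ℝ × ℝ | dt (p (T.tail d)) (p (T.head d)) x ≠ 0}) := by
    refine dense_iInter_of_isOpen (fun d => ?_) (fun d => ?_)
    · exact isOpen_ne_fun (hc1 d) continuous_const
    · refine G4_dense _ (-((p (T.head d)).2 - (p (T.tail d)).2), (p (T.head d)).1 - (p (T.tail d)).1)
        _ (G4_ne (hd d)) (fun x τ => ?_)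
      simp only [dt, Prod.fst_add, Prod.snd_add, Prod.smul_fst, Prod.smul_snd, smul_eq_mul]
      ring
  have h2 : Dense (⋂ v : V, {x : ℝ × ℝ | x.1 ≠ (p v).1}) := by
    refine dense_iInter_of_isOpen (fun v => ?_) (fun v => ?_)
    · exact isOpen_ne_fun continuous_fst continuous_const
    · have h3 := G4_dense (fun x : ℝ × ℝ => x.1 - (p v).1) (1, 0) 1 one_ne_zero (fun x τ => by
        simp only [Prod.fst_add, Prod.smul_fst, smul_eq_mul, mul_one]
        ring)
      have h4 : {x : ℝ × ℝ | x.1 - (p v).1 ≠ 0} = {x : ℝ × ℝ | x.1 ≠ (p v).1} := by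
        ext x
        exact sub_ne_zero
      rw [← h4]
      exact h3
  have ho : IsOpen (⋂ v : V, {x : ℝ × ℝ | x.1 ≠ (p v).1}) :=
    isOpen_iInter_of_finite fun v => isOpen_ne_fun continuous_fst continuous_const
  have h5 := h1.inter_of_isOpen_right h2 ho
  obtain ⟨x, hxU, hx1, hx2⟩ := h5.inter_open_nonempty U hU hne
  refine ⟨x, hxU, fun d => ?_, fun v => ?_⟩
  · exact Set.mem_iInter.mp hx1 d
  · exact Set.mem_iInter.mp hx2 v

theorem ne_of_sign (p : V → ℝ × ℝ) (f0 : F) (hS : T.Sign p f0) (d : Dart F) : p (T.tail d) ≠ p (T.head d) := by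
  intro h
  have h0 : T.ori p d.1 ≠ 0 := by
    by_cases hf : d.1 = f0
    · rw [hf]
      exact hS.2.ne
    · exact (hS.1 _ hf).ne'
  apply h0
  obtain ⟨f, i⟩ := d
  unfold tail head at h
  unfold ori dt
  dsimp only at h ⊢
  fin_cases i
  · have h1 : p (T.vt f 0) = p (T.vt f 1) := h
    rw [h1]
    ring
  · have h1 : p (T.vt f 1) = p (T.vt f 2) := h
    rw [h1]
    ring
  · have h1 : p (T.vt f 2) = p (T.vt f 0) := h
    rw [h1]
    ring

end LS35.Tri
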