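import Pool.Agent.LibLS35.G3
import Pool.Agent.LibLS35.G4

/-! Row G5 (SHORT/MEDIUM). Inner faces are disjoint and inside the outer face.
PLAN. `{x | Pos p f x}` is open (finitely many strict inequalities between continuous functions), `{x | ¬ CNeg p f0 x}` is open. `disj`: if `x` is in two of them, the open set `{Pos f} ∩ {Pos g}` is nonempty, take a generic
`x'` in it (`exists_gen`, `ne_of_sign`); by `count` (G3) the number of inner faces containing `x'` is `≤ 1`, but `f`, `g` are two (`Finset.one_lt_card`). `inside`: otherwise take a generic `x'` in the open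
nonempty set `{Pos f} ∩ {¬ CNeg f0}`: `¬ Neg f0 x'`, so the count is `0`, but `f` is in the filter. -/

namespace LS35.Tri

variable {V F : Type} [Fintype V] [Fintype F] (T : Tri V F)

private theorem G5_cont (P Q : ℝ × ℝ) : Continuous fun x : ℝ × ℝ => dt P Q x := by
  unfold dt
  fun_prop

private theorem G5_open (p : V → ℝ × ℝ) (f : F) : IsOpen {x | T.Pos p f x} := by
  have h : {x | T.Pos p f x} =
      ⋂ i : Fin 3, {x : ℝ × ℝ | 0 < dt (p (T.vt f i)) (p (T.vt f (i + 1))) x} := by
    ext x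
    simp [Pos]
  rw [h]
  exact isOpen_iInter_of_finite fun i => isOpen_lt continuous_const (G5_cont _ _)

private theorem G5_closed (p : V → ℝ × ℝ) (f : F) : IsClosed {x | T.CNeg p f x} := by
  have h : {x | T.CNeg p f x} =
      ⋂ i : Fin 3, {x : ℝ × ℝ | dt (p (T.vt f i)) (p (T.vt f (i + 1))) x ≤ 0} := by
    ext x
    simp [CNeg]
  rw [h]
  exact isClosed_iInter fun i => isClosed_le (G5_cont _ _) continuous_const

theorem disj (p : V → ℝ × ℝ) (f0 : F) (hS : T.Sign p f0) (f g : F) (hf : f ≠ f0) (hg : g ≠ f0) (x : ℝ × ℝ)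
    (h1 : T.Pos p f x) (h2 : T.Pos p g x) : f = g := by
  classical
  by_contra hfg
  obtain ⟨y, hy, hgen⟩ := T.exists_gen p (T.ne_of_sign p f0 hS)
    ({x | T.Pos p f x} ∩ {x | T.Pos p g x}) ((T.G5_open p f).inter (T.G5_open p g)) ⟨x, h1, h2⟩
  have hc := T.count p f0 hS y hgen
  have h3 : 1 < (Finset.univ.filter (fun f => f ≠ f0 ∧ T.Pos p f y)).card := by
    rw [Finset.one_lt_card]
    refine ⟨f, ?_, g, ?_, hfg⟩
    · simp only [Finset.mem_filter, Finset.mem_univ, true_and]
      exact ⟨hf, hy.1⟩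
    · simp only [Finset.mem_filter, Finset.mem_univ, true_and]
      exact ⟨hg, hy.2⟩
  have h4 : (Finset.univ.filter (fun f => f ≠ f0 ∧ T.Pos p f y)).card ≤ 1 := by
    refine le_trans (le_of_eq ?_) (le_trans (le_of_eq hc) ?_)
    · congr
    · split_ifs
      · exact le_rfl
      · exact Nat.zero_le _
  omega

theorem inside (p : V → ℝ × ℝ) (f0 : F) (hS : T.Sign p f0) (f : F) (hf : f ≠ f0) (x : ℝ × ℝ)
    (h1 : T.Pos p f x) : T.CNeg p f0 x := by
  classical
  by_contra hx
  obtain ⟨y, hy, hgen⟩ := T.exists_gen p (T.ne_of_sign p f0 hS)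
    ({x | T.Pos p f x} ∩ {x | T.CNeg p f0 x}ᶜ)
    ((T.G5_open p f).inter (T.G5_closed p f0).isOpen_compl) ⟨x, h1, hx⟩
  have hc := T.count p f0 hS y hgen
  have hn : ¬ T.Neg p f0 y := fun h => hy.2 fun i => (h i).le
  rw [if_neg hn, Finset.card_eq_zero] at hc
  have hmem : f ∈ Finset.univ.filter (fun f => f ≠ f0 ∧ T.Pos p f y) := by
    simp only [Finset.mem_filter, Finset.mem_univ, true_and]
    exact ⟨hf, hy.1⟩
  have h5 : f ∈ (∅ : Finset F) := by
    rw [← hc]
    convert hmem
  exact absurd h5 (Finset.notMem_empty f)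

theorem isOpen_pos (p : V → ℝ × ℝ) (f : F) : IsOpen {x | T.Pos p f x} :=
  T.G5_open p f

theorem isClosed_cneg (p : V → ℝ × ℝ) (f : F) : IsClosed {x | T.CNeg p f x} :=
  T.G5_closed p f

end LS35.Tri
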