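import Pool.Agent.LibLS35.G4
import Pool.Agent.LibLS35.G5

/-! Row G9 (SHORT/MEDIUM). Every point `y` of an edge of an inner face `f` is a limit of generic points of the open triangle.
PLAN. Let `c = (p (vt f 0) + p (vt f 1) + p (vt f 2)) / 3`: each `dt (p (vt f i)) (p (vt f (i+1))) c = ori / 3 > 0`. Each `dt (p (vt f j)) (p (vt f (j+1))) y ≥ 0` (`y = a P + b Q`, affine, values at the corners are `0` or `ori`). So
`y + τ • (c - y)` is in `{Pos}` for `0 < τ ≤ 1` (affine). For small `τ` it lies in the interior of `U` (`U ∈ nhds y`). So `interior U ∩ {Pos p f}` is open nonempty: `exists_gen`. -/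

namespace LS35.Tri

variable {V F : Type} [Fintype V] [Fintype F] (T : Tri V F)

private theorem dt_aff (A B y c : ℝ × ℝ) (t : ℝ) :
    dt A B (y + t • (c - y)) = (1 - t) * dt A B y + t * dt A B c := by
  unfold dt
  simp only [Prod.fst_add, Prod.snd_add, Prod.smul_fst, Prod.smul_snd, Prod.fst_sub, Prod.snd_sub, smul_eq_mul]
  ring

private theorem dt_vert (P : Fin 3 → ℝ × ℝ) (hD : 0 < dt (P 0) (P 1) (P 2)) (j k : Fin 3) :
    0 ≤ dt (P j) (P (j + 1)) (P k) := by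
  unfold dt at *
  fin_cases j <;> fin_cases k <;> simp <;> nlinarith

private theorem dt_cen (P : Fin 3 → ℝ × ℝ) (hD : 0 < dt (P 0) (P 1) (P 2)) (j : Fin 3) :
    0 < dt (P j) (P (j + 1)) ((1 / 3 : ℝ) • (P 0 + P 1 + P 2)) := by
  unfold dt at *
  fin_cases j <;> simp <;> nlinarith

private theorem dt_seg (P : Fin 3 → ℝ × ℝ) (hD : 0 < dt (P 0) (P 1) (P 2)) (i j : Fin 3) (y : ℝ × ℝ)
    (hy : y ∈ segment ℝ (P i) (P (i + 1))) : 0 ≤ dt (P j) (P (j + 1)) y := by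
  obtain ⟨a, b, ha, hb, hab, rfl⟩ := hy
  have h1 := dt_vert P hD j i
  have h2 := dt_vert P hD j (i + 1)
  have h3 : dt (P j) (P (j + 1)) (a • P i + b • P (i + 1)) =
      a * dt (P j) (P (j + 1)) (P i) + b * dt (P j) (P (j + 1)) (P (i + 1)) := by
    obtain rfl : b = 1 - a := by linarith
    unfold dt
    simp only [Prod.fst_add, Prod.snd_add, Prod.smul_fst, Prod.smul_snd, smul_eq_mul]
    ring
  rw [h3]
  positivity

theorem accum (p : V → ℝ × ℝ) (f0 : F) (hS : T.Sign p f0) (f : F) (hf : f ≠ f0) (i : Fin 3) (y : ℝ × ℝ)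
    (hy : y ∈ segment ℝ (p (T.vt f i)) (p (T.vt f (i + 1)))) (U : Set (ℝ × ℝ)) (hU : U ∈ nhds y) :
    ∃ x ∈ U, T.Gen p x ∧ T.Pos p f x := by
  classical
  have hD : 0 < dt (p (T.vt f 0)) (p (T.vt f 1)) (p (T.vt f 2)) := hS.1 f hf
  set P : Fin 3 → ℝ × ℝ := fun k => p (T.vt f k) with hP
  set c : ℝ × ℝ := (1 / 3 : ℝ) • (P 0 + P 1 + P 2) with hc
  have hpos : ∀ t : ℝ, 0 < t → t < 1 → T.Pos p f (y + t • (c - y)) := by
    intro t ht0 ht1 j
    have e := dt_aff (P j) (P (j + 1)) y c t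
    have h1 := dt_seg P hD i j y hy
    have h2 := dt_cen P hD j
    show 0 < dt (P j) (P (j + 1)) (y + t • (c - y))
    rw [e]
    have : 0 < t * dt (P j) (P (j + 1)) c := mul_pos ht0 h2
    have : 0 ≤ (1 - t) * dt (P j) (P (j + 1)) y := mul_nonneg (by linarith) h1
    linarith
  have hcont : Filter.Tendsto (fun t : ℝ => y + t • (c - y)) (nhdsWithin 0 (Set.Ioi 0)) (nhds y) := by
    have : Continuous (fun t : ℝ => y + t • (c - y)) := by fun_prop
    have h0 := this.tendsto 0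
    simp only [zero_smul, add_zero] at h0
    exact h0.mono_left nhdsWithin_le_nhds
  have ev1 : ∀ᶠ t : ℝ in nhdsWithin 0 (Set.Ioi 0), y + t • (c - y) ∈ interior U :=
    hcont (interior_mem_nhds.2 hU)
  have ev2 : ∀ᶠ t : ℝ in nhdsWithin 0 (Set.Ioi 0), t ∈ Set.Ioi (0 : ℝ) := self_mem_nhdsWithin
  have ev3 : ∀ᶠ t : ℝ in nhdsWithin 0 (Set.Ioi 0), t < 1 :=
    nhdsWithin_le_nhds (Iio_mem_nhds one_pos)
  obtain ⟨t, ht1, ht2, ht3⟩ := (ev1.and (ev2.and ev3)).exists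
  obtain ⟨x, hx, hgen⟩ := T.exists_gen p (T.ne_of_sign p f0 hS) (interior U ∩ {x | T.Pos p f x})
    (isOpen_interior.inter (T.isOpen_pos p f)) ⟨_, ht1, hpos t ht2 ht3⟩
  exact ⟨x, interior_subset hx.1, hgen, hx.2⟩

end LS35.Tri
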