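import Pool.Agent.LibLS35.G5
import Pool.Agent.LibLS35.G7
import Pool.Agent.LibLS35.G8
import Pool.Agent.LibLS35.G9

/-! Row G10 (MEDIUM). The sign pattern implies: plane drawing.
PLAN. (i) INJECTIVE: let `w ≠ w'`, `p w = p w' = y`. There is a face `f' ≠ f0` at `w'` (`exists_at`; if it is `f0 = (.., w', ..)`, take the face of `op (f0, i)`, `op_face_ne`). `near_vertex` at `w` (a neighbourhood of `y`) and `accum` for
`f'` (with `y = p w'`, a corner, in the segment): generic `x` with `Pos p f' x`, so `CNeg p f0 x` (`inside`), so there is `f ≠ f0` at `w` with `Pos p f x`; `disj`: `f = f'`. So `w, w'` are two different corners of `f'` with the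
same image: `ori = 0` (or use `ne_of_sign`: two different corners of a face are `tail` and `head` of one of its darts). Contradiction.
(ii) CLAIM: `y` in the open segment of the dart `d` and in the closed segment of the dart `d'` imply `d' = d` or `d' = op d`. One of the two faces `d'.1`, `(op d').1` is `≠ f0`, call it `f'`; `y` is on an edge of `f'`. `near_edge`
at `y` and `accum`: generic `x` with `Pos p f' x`, `CNeg p f0 x`, so `Pos p g x` with `g ≠ f0`, `g = d.1` or `g = (op d).1`; `disj`: `g = f'`. So the edges `d` and `d'` are both edges of the nondegenerate triangle `g`, i.e. for some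
`j, k`: the open segment from `p (vt g j)` to `p (vt g (j+1))` and the closed segment from `p (vt g k)` to `p (vt g (k+1))` contain `y`. If `k ≠ j` this is impossible: `dt (p (vt g k)) (p (vt g (k+1))) y = 0` but it is a
positive multiple of `ori` (for `k = j+1`: `dt Q R (a P + b Q) = a * dt P Q R`, for `k = j+2`: `b * dt P Q R`). So `k = j`: same darts up to `op`.
(iii) `cross`: `Adj u v`, `Adj u' v'` give darts `d`, `d'` (from `u` to `v`, from `u'` to `v'`). If `x` is in one of the open segments, (ii) (or (ii) with exchanged roles) gives `d' = d` or `d' = op d`: first two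
alternatives. Otherwise `x = p w = p w'` with `w` in `{u, v}`, `w'` in `{u', v'}` (`segment` = end points or open segment: `insert_endpoints_openSegment`), and `w = w'` by (i). -/

namespace LS35.Tri

variable {V F : Type} [Fintype V] [Fintype F] (T : Tri V F)

private theorem g10_ori (p : V → ℝ × ℝ) (g : F) (j : Fin 3) :
    dt (p (T.vt g j)) (p (T.vt g (j + 1))) (p (T.vt g (j + 2))) = T.ori p g := by
  unfold ori
  fin_cases j
  · rfl
  · show dt (p (T.vt g 1)) (p (T.vt g 2)) (p (T.vt g 0)) = _
    exact dt_rot _ _ _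
  · show dt (p (T.vt g 2)) (p (T.vt g 0)) (p (T.vt g 1)) = _
    rw [dt_rot, dt_rot]

private theorem g10_face (f0 : F) (w : V) : ∃ f i, f ≠ f0 ∧ T.vt f i = w := by
  obtain ⟨f, i, h⟩ := T.exists_at w
  by_cases hf : f = f0
  · refine ⟨(T.op (f, i)).1, (T.op (f, i)).2 + 1, ?_, ?_⟩
    · rw [← hf]
      exact T.op_face_ne (f, i)
    · exact (T.head_op (f, i)).trans h
  · exact ⟨f, i, hf, h⟩

private theorem g10_inj (p : V → ℝ × ℝ) (f0 : F) (hS : T.Sign p f0) : Function.Injective p := by
  intro w w' hww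
  by_contra hne
  obtain ⟨f', i', hf', hi'⟩ := g10_face T f0 w'
  have hnv := T.near_vertex p f0 hS w
  have hy : p w ∈ segment ℝ (p (T.vt f' i')) (p (T.vt f' (i' + 1))) := by
    rw [hi', ← hww]
    exact left_mem_segment ℝ _ _
  obtain ⟨x, hx, hg, hpos⟩ := T.accum p f0 hS f' hf' i' (p w) hy _ hnv
  have hc := T.inside p f0 hS f' hf' x hpos
  rcases hx hg with ⟨f, hf, ⟨j, hj⟩, hfp⟩ | h
  · have hff := T.disj p f0 hS f f' hf hf' x hfp hpos
    subst hff
    have hij : j ≠ i' := by
      rintro rfl
      exact hne (hj.symm.trans hi')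
    have hcase : ∀ a b : Fin 3, a ≠ b → a = b + 1 ∨ b = a + 1 := by decide
    rcases hcase j i' hij with h | h
    · have h1 := T.ne_of_sign p f0 hS (f, i')
      apply h1
      show p (T.vt f i') = p (T.vt f (i' + 1))
      rw [← h, hj, hi', hww]
    · have h1 := T.ne_of_sign p f0 hS (f, j)
      apply h1
      show p (T.vt f j) = p (T.vt f (j + 1))
      rw [← h, hj, hi', hww]
  · exact h hc

private theorem g10_same (p : V → ℝ × ℝ) (f0 : F) (hS : T.Sign p f0) (g : F) (hg : g ≠ f0)
    (j k : Fin 3) (y : ℝ × ℝ) (hj : y ∈ openSegment ℝ (p (T.vt g j)) (p (T.vt g (j + 1))))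
    (hk : y ∈ segment ℝ (p (T.vt g k)) (p (T.vt g (k + 1)))) : k = j := by
  obtain ⟨a, b, ha, hb, hab, rfl⟩ := hj
  have ho := hS.1 g hg
  have h0 : dt (p (T.vt g k)) (p (T.vt g (k + 1)))
      (a • p (T.vt g j) + b • p (T.vt g (j + 1))) = 0 := by
    obtain ⟨c, d, hc, hd, hcd, he⟩ := hk
    rw [← he]
    have hc' : c = 1 - d := by linarith
    subst hc'
    unfold dt
    simp only [Prod.fst_add, Prod.snd_add, Prod.smul_fst, Prod.smul_snd, smul_eq_mul]
    ring
  have hcase : ∀ k j : Fin 3, k = j ∨ k = j + 1 ∨ k = j + 2 := by decide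
  have ha' : a = 1 - b := by linarith
  have hr := g10_ori T p g j
  rcases hcase k j with h | h | h
  · exact h
  · exfalso
    subst h
    rw [show j + 1 + 1 = j + 2 by rw [add_assoc]; rfl] at h0
    have h1 : dt (p (T.vt g (j + 1))) (p (T.vt g (j + 2)))
      (a • p (T.vt g j) + b • p (T.vt g (j + 1))) = a * T.ori p g := by
      rw [← hr]
      subst ha'
      unfold dt
      simp only [Prod.fst_add, Prod.snd_add, Prod.smul_fst, Prod.smul_snd, smul_eq_mul]
      ring
    rw [h1] at h0
    have : 0 < a * T.ori p g := mul_pos ha ho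
    linarith
  · exfalso
    subst h
    rw [show j + 2 + 1 = j by rw [add_assoc]; exact add_zero j] at h0
    have h1 : dt (p (T.vt g (j + 2))) (p (T.vt g j))
      (a • p (T.vt g j) + b • p (T.vt g (j + 1))) = b * T.ori p g := by
      rw [← hr]
      subst ha'
      unfold dt
      simp only [Prod.fst_add, Prod.snd_add, Prod.smul_fst, Prod.smul_snd, smul_eq_mul]
      ring
    rw [h1] at h0
    have : 0 < b * T.ori p g := mul_pos hb ho
    linarith

private theorem g10_claim1 (p : V → ℝ × ℝ) (f0 : F) (hS : T.Sign p f0) (d d' : Dart F)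
    (hd' : d'.1 ≠ f0) (y : ℝ × ℝ) (h1 : y ∈ openSegment ℝ (p (T.tail d)) (p (T.head d)))
    (h2 : y ∈ segment ℝ (p (T.tail d')) (p (T.head d'))) : d' = d ∨ d' = T.op d := by
  have hn := T.near_edge p f0 hS d y h1
  obtain ⟨x, hx, hg, hpos⟩ := T.accum p f0 hS d'.1 hd' d'.2 y h2 _ hn
  have hc := T.inside p f0 hS d'.1 hd' x hpos
  have key : ∀ e : Dart F, e.1 ≠ f0 → T.Pos p e.1 x →
      y ∈ openSegment ℝ (p (T.tail e)) (p (T.head e)) → d' = e := by
    intro e he hep hey
    have hde := T.disj p f0 hS e.1 d'.1 he hd' x hep hpos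
    obtain ⟨f, i⟩ := e
    obtain ⟨g, k⟩ := d'
    obtain rfl : f = g := hde
    have hk : k = i := g10_same T p f0 hS f he i k y hey h2
    rw [hk]
  rcases hx hg with ⟨h3, h4⟩ | ⟨h3, h4⟩ | h3
  · exact Or.inl (key d h3 h4 h1)
  · refine Or.inr (key (T.op d) h3 h4 ?_)
    rw [T.tail_op, T.head_op, openSegment_symm]
    exact h1
  · exact absurd hc h3

private theorem g10_claim (p : V → ℝ × ℝ) (f0 : F) (hS : T.Sign p f0) (d d' : Dart F) (y : ℝ × ℝ)
    (h1 : y ∈ openSegment ℝ (p (T.tail d)) (p (T.head d)))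
    (h2 : y ∈ segment ℝ (p (T.tail d')) (p (T.head d'))) : d' = d ∨ d' = T.op d := by
  by_cases hd' : d'.1 = f0
  · have hne : (T.op d').1 ≠ f0 := by
      rw [← hd']
      exact T.op_face_ne d'
    have h3 : y ∈ segment ℝ (p (T.tail (T.op d'))) (p (T.head (T.op d'))) := by
      rw [T.tail_op, T.head_op, segment_symm]
      exact h2
    rcases g10_claim1 T p f0 hS d (T.op d') hne y h1 h3 with h | h
    · right
      rw [← h, T.op_op]
    · left
      rw [← T.op_op d', h, T.op_op]
  · exact g10_claim1 T p f0 hS d d' hd' y h1 h2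

theorem drawing_of_sign (p : V → ℝ × ℝ) (f0 : F) (hS : T.Sign p f0) : T.IsDrawing p := by
  refine ⟨g10_inj T p f0 hS, ?_⟩
  intro u v u' v' ⟨f, i, hu, hv⟩ ⟨f', i', hu', hv'⟩ x hx hx'
  have hinj := g10_inj T p f0 hS
  by_cases ho : x ∈ openSegment ℝ (p u) (p v)
  · have h1 := g10_claim T p f0 hS (f, i) (f', i') x
      (by
        show x ∈ openSegment ℝ (p (T.vt f i)) (p (T.vt f (i + 1)))
        rw [hu, hv]
        exact ho)
      (by
        show x ∈ segment ℝ (p (T.vt f' i')) (p (T.vt f' (i' + 1)))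
        rw [hu', hv']
        exact hx')
    rcases h1 with h | h
    · left
      have h2 : T.tail (f', i') = T.tail (f, i) := by rw [h]
      have h3 : T.head (f', i') = T.head (f, i) := by rw [h]
      exact ⟨hu.symm.trans (h2.symm.trans hu'), hv.symm.trans (h3.symm.trans hv')⟩
    · right
      left
      have h2 : T.tail (f', i') = T.head (f, i) := by rw [h, T.tail_op]
      have h3 : T.head (f', i') = T.tail (f, i) := by rw [h, T.head_op]
      exact ⟨hu.symm.trans (h3.symm.trans hv'), hv.symm.trans (h2.symm.trans hu')⟩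
  by_cases ho' : x ∈ openSegment ℝ (p u') (p v')
  · have h1 := g10_claim T p f0 hS (f', i') (f, i) x
      (by
        show x ∈ openSegment ℝ (p (T.vt f' i')) (p (T.vt f' (i' + 1)))
        rw [hu', hv']
        exact ho')
      (by
        show x ∈ segment ℝ (p (T.vt f i)) (p (T.vt f (i + 1)))
        rw [hu, hv]
        exact hx)
    rcases h1 with h | h
    · left
      have h2 : T.tail (f', i') = T.tail (f, i) := by rw [h]
      have h3 : T.head (f', i') = T.head (f, i) := by rw [h]
      exact ⟨hu.symm.trans (h2.symm.trans hu'), hv.symm.trans (h3.symm.trans hv')⟩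
    · right
      left
      have h2 : T.tail (f, i) = T.head (f', i') := by rw [h, T.tail_op]
      have h3 : T.head (f, i) = T.tail (f', i') := by rw [h, T.head_op]
      exact ⟨hu.symm.trans (h2.trans hv'), hv.symm.trans (h3.trans hu')⟩
  right
  right
  rw [← insert_endpoints_openSegment] at hx hx'
  have h1 : ∃ w, (w = u ∨ w = v) ∧ x = p w := by
    rcases hx with h | h | h
    · exact ⟨u, Or.inl rfl, h⟩
    · exact ⟨v, Or.inr rfl, h⟩
    · exact absurd h ho
  have h2 : ∃ w, (w = u' ∨ w = v') ∧ x = p w := by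
    rcases hx' with h | h | h
    · exact ⟨u', Or.inl rfl, h⟩
    · exact ⟨v', Or.inr rfl, h⟩
    · exact absurd h ho'
  obtain ⟨w, hw, hxw⟩ := h1
  obtain ⟨w', hw', hxw'⟩ := h2
  have hww : w = w' := hinj (hxw.symm.trans hxw')
  subst hww
  exact ⟨w, hw, hw', hxw⟩

end LS35.Tri
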