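import Pool.Agent.LibLS35.G1
import Pool.Agent.LibLS35.G5
import Pool.Agent.LibLS35.G9

/-! Row G11 (MEDIUM). Regions of the faces for a sign pattern.
PLAN. By G1 (with `q i = p (vt f i)`) `ctri p f = {∀ i, 0 ≤ dt ..}` for `f ≠ f0`, `interior = {Pos}`, and `ctri p f0 = {CNeg}`. `region_out`: every vertex `v` has `p v ∈ {CNeg f0}`: there is a face `f ≠ f0` at `v`
(as in G10: `exists_at`, `op_face_ne`) and `p v` is a limit of points with `Pos p f` (`accum`), these are in the closed set `{CNeg f0}` (`inside`, `isClosed_cneg`, `mem_closure_iff_nhds`). So the `if` is true.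
`region_in`: `f ≠ f0`. If all `p v ∈ ctri p f`: there is a third face `g ≠ f, f0` (`card F = 2 card V - 4 ≥ 4`). The centroid `c` of `g` has `Pos p g c`. The whole triangle of `g` is in the convex set `ctri p f`. Take a
generic `x` with `Pos p g x` (`exists_gen` in the open set `{Pos p g}`, nonempty by `c`); `x ∈ ctri p g ⊆ ctri p f` (`convexHull_min`), so `0 ≤ dt .. x`, and `≠ 0` by genericity (`d = (f, i)`), so `Pos p f x`: `disj` gives
`f = g`, contradiction. So the `if` is false and `region = interior = {Pos}`. -/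

namespace LS35.Tri

variable {V F : Type} [Fintype V] [Fintype F] (T : Tri V F)

private theorem ctri_neg (p : V → ℝ × ℝ) (f : F) (h : T.ori p f < 0) :
    T.ctri p f = {x | T.CNeg p f x} :=
  hull_neg (fun i => p (T.vt f i)) h

private theorem ctri_pos (p : V → ℝ × ℝ) (f : F) (h : 0 < T.ori p f) :
    T.ctri p f = {x | ∀ i : Fin 3, 0 ≤ dt (p (T.vt f i)) (p (T.vt f (i + 1))) x} :=
  hull_pos (fun i => p (T.vt f i)) h

theorem region_out (p : V → ℝ × ℝ) (f0 : F) (hS : T.Sign p f0) : T.region p f0 = (T.ctri p f0)ᶜ := by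
  have h : ∀ v, p v ∈ T.ctri p f0 := by
    intro v
    obtain ⟨f, i, hv⟩ := T.exists_at v
    by_cases hf : f = f0
    · subst hf
      exact subset_convexHull ℝ _ ⟨i, congrArg p hv⟩
    · rw [ctri_neg T p f0 hS.2]
      have h1 : p v ∈ closure {x | T.CNeg p f0 x} := by
        rw [mem_closure_iff_nhds]
        intro U hU
        rw [← hv] at hU
        obtain ⟨x, hxU, _, hx⟩ := T.accum p f0 hS f hf i (p (T.vt f i))
          (left_mem_segment ℝ _ _) U hU
        exact ⟨x, hxU, T.inside p f0 hS f hf x hx⟩
      rwa [(T.isClosed_cneg p f0).closure_eq] at h1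
  unfold region
  rw [if_pos h]

theorem region_in (p : V → ℝ × ℝ) (f0 : F) (hS : T.Sign p f0) (f : F) (hf : f ≠ f0) :
    T.region p f = {x | T.Pos p f x} := by
  classical
  have h : ¬ ∀ v, p v ∈ T.ctri p f := by
    intro hall
    obtain ⟨g, hgf, hg0⟩ : ∃ g : F, g ≠ f ∧ g ≠ f0 := by
      by_contra hcon
      push Not at hcon
      have h1 : (Finset.univ : Finset F) ⊆ {f, f0} := by
        intro g _
        rw [Finset.mem_insert, Finset.mem_singleton]
        by_cases hg : g = f
        · exact Or.inl hg
        · exact Or.inr (hcon g hg)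
      have h2 := Finset.card_le_card h1
      have h3 : ({f, f0} : Finset F).card ≤ 2 := Finset.card_le_two
      have h4 := T.four
      have h5 := T.euler
      rw [Finset.card_univ] at h2
      omega
    obtain ⟨x, _, hgen, hx⟩ := T.accum p f0 hS g hg0 0 (p (T.vt g 0)) (left_mem_segment ℝ _ _)
      Set.univ Filter.univ_mem
    have hxg : x ∈ T.ctri p g := by
      rw [ctri_pos T p g (hS.1 g hg0)]
      exact fun i => (hx i).le
    have hsub : T.ctri p g ⊆ T.ctri p f := by
      refine convexHull_min ?_ (convex_convexHull ℝ _)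
      rintro _ ⟨i, rfl⟩
      exact hall _
    have hxf := hsub hxg
    rw [ctri_pos T p f (hS.1 f hf)] at hxf
    have hpos : T.Pos p f x := by
      intro i
      exact lt_of_le_of_ne (hxf i) (hgen.1 (f, i)).symm
    exact hgf (T.disj p f0 hS f g hf hg0 x hpos hx).symm
  unfold region
  rw [if_neg h]
  exact int_pos (fun i => p (T.vt f i)) (hS.1 f hf)

end LS35.Tri
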