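import Pool.Agent.LibLS35.GDefs

/-! Row G12 (SHORT/MEDIUM). Lines meet the outer region, and a vertical line between two corners meets the open triangle.
PLAN. `line_out`: the hull is bounded (`(Set.finite_range q).isBounded`... `isBounded_convexHull`, or `Bornology.IsBounded`), the line contains the points `x0 + τ • (-β, α)` for all `τ` (`x0 = (γ α / (α^2+β^2), γ β / (α^2+β^2))`),
which are unbounded. `line_in`: `c` = centroid, `Pos` at `c` (each value is `ori / 3`). For small `τ > 0`: `a' = A + τ (c - A)` and `b' = B + τ (c - B)` (`A = p (vt f i)`, `B = p (vt f j)`) satisfy `a'.1 < γ < b'.1`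
and are in `{Pos}` (values at the corners `≥ 0`, at `c` `> 0`, affine). The point `a' + s (b' - a')` with `s = (γ - a'.1) / (b'.1 - a'.1) ∈ (0,1)` has first coordinate `γ` and is in the convex set `{Pos}`. -/

namespace LS35

private theorem G12_key (P : Fin 3 → ℝ × ℝ) : ∀ k m : Fin 3,
    dt (P k) (P (k + 1)) (P m) = 0 ∨ dt (P k) (P (k + 1)) (P m) = dt (P 0) (P 1) (P 2)
  | 0, 0 => Or.inl (by show dt (P 0) (P 1) (P 0) = 0; unfold dt; ring)
  | 0, 1 => Or.inl (by show dt (P 0) (P 1) (P 1) = 0; unfold dt; ring)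
  | 0, 2 => Or.inr rfl
  | 1, 0 => Or.inr (by show dt (P 1) (P 2) (P 0) = _; unfold dt; ring)
  | 1, 1 => Or.inl (by show dt (P 1) (P 2) (P 1) = 0; unfold dt; ring)
  | 1, 2 => Or.inl (by show dt (P 1) (P 2) (P 2) = 0; unfold dt; ring)
  | 2, 0 => Or.inl (by show dt (P 2) (P 0) (P 0) = 0; unfold dt; ring)
  | 2, 1 => Or.inr (by show dt (P 2) (P 0) (P 1) = _; unfold dt; ring)
  | 2, 2 => Or.inl (by show dt (P 2) (P 0) (P 2) = 0; unfold dt; ring)

private theorem G12_mid (P : Fin 3 → ℝ × ℝ) : ∀ k : Fin 3,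
    dt (P k) (P (k + 1)) ((1 / 3 : ℝ) • (P 0 + P 1 + P 2)) = 1 / 3 * dt (P 0) (P 1) (P 2)
  | 0 => by
    show dt (P 0) (P 1) _ = _
    unfold dt
    simp only [Prod.smul_fst, Prod.smul_snd, Prod.fst_add, Prod.snd_add, smul_eq_mul]
    ring
  | 1 => by
    show dt (P 1) (P 2) _ = _
    unfold dt
    simp only [Prod.smul_fst, Prod.smul_snd, Prod.fst_add, Prod.snd_add, smul_eq_mul]
    ring
  | 2 => by
    show dt (P 2) (P 0) _ = _
    unfold dt
    simp only [Prod.smul_fst, Prod.smul_snd, Prod.fst_add, Prod.snd_add, smul_eq_mul]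
    ring

private theorem G12_aff (P Q X Y : ℝ × ℝ) (s : ℝ) :
    dt P Q ((1 - s) • X + s • Y) = (1 - s) * dt P Q X + s * dt P Q Y := by
  unfold dt
  simp only [Prod.smul_fst, Prod.smul_snd, Prod.fst_add, Prod.snd_add, smul_eq_mul]
  ring

theorem line_out (q : Fin 3 → ℝ × ℝ) (α β γ : ℝ) (h : α ≠ 0 ∨ β ≠ 0) :
    ((convexHull ℝ (Set.range q))ᶜ ∩ line α β γ).Nonempty := by
  have hb : Bornology.IsBounded (convexHull ℝ (Set.range q)) :=
    isBounded_convexHull.2 (Set.finite_range q).isBounded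
  obtain ⟨R, hR⟩ := hb.exists_norm_le
  have hout : ∀ x : ℝ × ℝ, R < ‖x‖ → x ∈ (convexHull ℝ (Set.range q))ᶜ := fun x hx hm =>
    absurd (hR x hm) (not_le.2 hx)
  by_cases hβ : β = 0
  · have hα : α ≠ 0 := by
      rcases h with h | h
      · exact h
      · exact absurd hβ h
    refine ⟨(γ / α, R + 1), hout _ ?_, ?_⟩
    · refine lt_of_lt_of_le ?_ (norm_snd_le _)
      rw [Real.norm_eq_abs]
      exact lt_of_lt_of_le (lt_add_one R) (le_abs_self _)
    · show α * (γ / α) + β * (R + 1) = γ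
      rw [hβ]
      field_simp
      ring
  · refine ⟨(R + 1, (γ - α * (R + 1)) / β), hout _ ?_, ?_⟩
    · refine lt_of_lt_of_le ?_ (norm_fst_le _)
      rw [Real.norm_eq_abs]
      exact lt_of_lt_of_le (lt_add_one R) (le_abs_self _)
    · show α * (R + 1) + β * ((γ - α * (R + 1)) / β) = γ
      field_simp
      ring

theorem line_in {V F : Type} [Fintype V] [Fintype F] (T : Tri V F) (p : V → ℝ × ℝ) (f : F) (h : 0 < T.ori p f)
    (i j : Fin 3) (γ : ℝ) (h1 : (p (T.vt f i)).1 < γ) (h2 : γ < (p (T.vt f j)).1) :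
    ∃ x : ℝ × ℝ, x.1 = γ ∧ T.Pos p f x := by
  set P : Fin 3 → ℝ × ℝ := fun k => p (T.vt f k) with hP
  have hori : 0 < dt (P 0) (P 1) (P 2) := h
  set c : ℝ × ℝ := (1 / 3 : ℝ) • (P 0 + P 1 + P 2) with hc
  have hA : (P i).1 < γ := h1
  have hB : γ < (P j).1 := h2
  have hδ : 0 < min (γ - (P i).1) ((P j).1 - γ) := lt_min (by linarith) (by linarith)
  have hM0 : 0 ≤ |c.1 - (P i).1| := abs_nonneg _
  have hM1 : 0 ≤ |c.1 - (P j).1| := abs_nonneg _
  set δ := min (γ - (P i).1) ((P j).1 - γ) with hδd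
  set M := |c.1 - (P i).1| + |c.1 - (P j).1| + 1 + δ with hM
  have hMpos : 0 < M := by linarith
  set τ := δ / M with hτ
  have hτ0 : 0 < τ := div_pos hδ hMpos
  have hτ1 : τ < 1 := by
    rw [hτ, div_lt_one hMpos]
    linarith
  have e1 : τ * |c.1 - (P i).1| < δ := by
    rw [hτ, div_mul_eq_mul_div, div_lt_iff₀ hMpos]
    refine mul_lt_mul_of_pos_left ?_ hδ
    linarith
  have e2 : τ * |c.1 - (P j).1| < δ := by
    rw [hτ, div_mul_eq_mul_div, div_lt_iff₀ hMpos]
    refine mul_lt_mul_of_pos_left ?_ hδ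
    linarith
  have g1 : τ * (c.1 - (P i).1) ≤ τ * |c.1 - (P i).1| :=
    mul_le_mul_of_nonneg_left (le_abs_self _) hτ0.le
  have g2 : τ * (-(c.1 - (P j).1)) ≤ τ * |c.1 - (P j).1| :=
    mul_le_mul_of_nonneg_left (neg_le_abs _) hτ0.le
  have d1 : δ ≤ γ - (P i).1 := min_le_left _ _
  have d2 : δ ≤ (P j).1 - γ := min_le_right _ _
  have a1 : ((1 - τ) • P i + τ • c).1 < γ := by
    simp only [Prod.fst_add, Prod.smul_fst, smul_eq_mul]
    nlinarith
  have b1 : γ < ((1 - τ) • P j + τ • c).1 := by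
    simp only [Prod.fst_add, Prod.smul_fst, smul_eq_mul]
    nlinarith
  have hfA : ∀ k : Fin 3, 0 < dt (P k) (P (k + 1)) ((1 - τ) • P i + τ • c) := by
    intro k
    rw [G12_aff, hc, G12_mid]
    have h3 : 0 ≤ dt (P k) (P (k + 1)) (P i) := by
      rcases G12_key P k i with h3 | h3
      · rw [h3]
      · rw [h3]
        exact hori.le
    have h4 : 0 ≤ (1 - τ) * dt (P k) (P (k + 1)) (P i) := mul_nonneg (by linarith) h3
    have h5 : 0 < τ * (1 / 3 * dt (P 0) (P 1) (P 2)) := by positivity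
    linarith
  have hfB : ∀ k : Fin 3, 0 < dt (P k) (P (k + 1)) ((1 - τ) • P j + τ • c) := by
    intro k
    rw [G12_aff, hc, G12_mid]
    have h3 : 0 ≤ dt (P k) (P (k + 1)) (P j) := by
      rcases G12_key P k j with h3 | h3
      · rw [h3]
      · rw [h3]
        exact hori.le
    have h4 : 0 ≤ (1 - τ) * dt (P k) (P (k + 1)) (P j) := mul_nonneg (by linarith) h3
    have h5 : 0 < τ * (1 / 3 * dt (P 0) (P 1) (P 2)) := by positivity
    linarith
  generalize (1 - τ) • P i + τ • c = A at a1 hfA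
  generalize (1 - τ) • P j + τ • c = B at b1 hfB
  have hAB : 0 < B.1 - A.1 := by linarith
  set s := (γ - A.1) / (B.1 - A.1) with hs
  have hs0 : 0 < s := div_pos (by linarith) hAB
  have hs1 : s < 1 := by
    rw [hs, div_lt_one hAB]
    linarith
  refine ⟨(1 - s) • A + s • B, ?_, fun k => ?_⟩
  · simp only [Prod.fst_add, Prod.smul_fst, smul_eq_mul]
    have : s * (B.1 - A.1) = γ - A.1 := by
      rw [hs]
      exact div_mul_cancel₀ _ hAB.ne'
    linarith
  · show 0 < dt (P k) (P (k + 1)) ((1 - s) • A + s • B)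
    rw [G12_aff]
    have h5 : 0 < (1 - s) * dt (P k) (P (k + 1)) A := mul_pos (by linarith) (hfA k)
    have h6 : 0 < s * dt (P k) (P (k + 1)) B := mul_pos hs0 (hfB k)
    linarith

end LS35
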