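import Pool.Agent.LibLS35.EDefs

/-! Row E2 (MEDIUM). `v = tail dv`. For a face `f = (v, w, w')` of `S` at `v` (`vt f r = v`) the dart `m = (f, r+1)` from `w` to `w'` is opposite to `v`. The face on the other side is
in `S` and not at `v`, or `m` is a boundary dart, and then it is `b`.
PLAN. Let `g = (op m).1`. Case 1: `g ∈ S`. If `g` is at `v`, then the corners of `g` are `w'`, `w`, `v` (`op m` goes from `w'` to `w`; the third corner is `v`
since `v ≠ w, w'`), so `op (f, r) = (g, ..)` (from `w` to `v`: it is `((op m).1, (op m).2 + 1)`) and `op (f, r+2)` (from `v` to `w'`) is `((op m).1, (op m).2 + 2)`. Let `Q0 = {f, g} ⊆ S`. Every dart `d` with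
tail `v` satisfies `d.1 ∈ Q0 ↔ (op d).1 ∈ Q0` (if `d.1 = f` then `d = (f, r)` by `T.inj`, and `(op d).1 = g`; if `d.1 = g` then `d = op (f, r+2)`, `(op d).1 = f`; conversely if
`(op d).1 ∈ Q0` then `op d` is the dart of `f` or of `g` ending at `v`, i.e. `(f, r+2)` or `op (f, r)`, so `d = op (f, r+2)` or `(f, r)`). By `T.star_all` all faces at `v` are in `Q0 ⊆ S`,
but `(op dv).1` is a face at `v` (`head (op dv) = v`) and not in `S`. Contradiction; so `g ∈ far`.
Case 2: `g ∉ S`: `Bd S m`. `w = tail m` is a boundary vertex. The dart `(f, r)` goes from `v` to `w`; if `(op (f, r)).1 ∈ S` this contradicts `nochord` (with `e = m`). So `Bd S (f, r)`, so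
`(f, r) = dv` by `simple`, so `w = head dv = tail b`, and `m`, `b` are boundary darts with the same tail: `m = b`. -/

namespace LS35.Tri

variable {V F : Type} [Fintype V] [Fintype F] (T : Tri V F)

private theorem f11 : ∀ k : Fin 3, k + 1 + 1 = k + 2 := by decide
private theorem f21 : ∀ k : Fin 3, k + 2 + 1 = k := by decide
private theorem f2n : ∀ k : Fin 3, k + 2 ≠ k := by decide
private theorem f1n : ∀ k : Fin 3, k + 1 ≠ k := by decide
private theorem fcov : ∀ j k : Fin 3, j ≠ k → j ≠ k + 1 → j = k + 2 := by decide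
private theorem fs1 : ∀ j r : Fin 3, j + 1 = r → j = r + 2 := by decide
private theorem fs2 : ∀ j k : Fin 3, j + 1 = k + 2 → j = k + 1 := by decide

theorem opposite {S : Finset F} {b dv dz : Dart F} (h : T.NC S b dv dz) (f : F) (hf : f ∈ T.near S (T.tail dv)) (r : Fin 3)
    (hr : T.vt f r = T.tail dv) :
    (T.op (f, r + 1)).1 ∈ T.far S (T.tail dv) ∨ (T.Bd S (f, r + 1) ∧ (f, r + 1) = b) := by
  classical
  have hf' : f ∈ S ∧ T.At f (T.tail dv) := by
    unfold near at hf
    exact Finset.mem_filter.1 hf
  obtain ⟨hfS, hfv⟩ := hf'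
  by_cases hg : (T.op (f, r + 1)).1 ∈ S
  · left
    unfold far
    rw [Finset.mem_filter]
    refine ⟨hg, ?_⟩
    rintro ⟨j, hj⟩
    obtain ⟨g, k, hgk⟩ : ∃ g k, T.op (f, r + 1) = (g, k) := ⟨_, _, rfl⟩
    rw [hgk] at hg hj
    simp only at hg hj
    have t1 : T.vt g k = T.vt f (r + 2) := by
      have := T.tail_op (f, r + 1)
      rw [hgk] at this
      simpa only [tail, head, f11] using this
    have t2 : T.vt g (k + 1) = T.vt f (r + 1) := by
      have := T.head_op (f, r + 1)
      rw [hgk] at this
      simpa only [tail, head] using this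
    have hjk : j ≠ k := by
      rintro rfl
      exact f2n r (T.inj f (t1.symm.trans (hj.trans hr.symm)))
    have hjk1 : j ≠ k + 1 := by
      rintro rfl
      exact f1n r (T.inj f (t2.symm.trans (hj.trans hr.symm)))
    have hj2 : j = k + 2 := fcov j k hjk hjk1
    subst hj2
    have o1 : (g, k + 1) = T.op (f, r) := by
      refine T.eq_op ?_ ?_
      · exact t2
      · show T.vt g (k + 1 + 1) = T.vt f r
        rw [f11, hj, hr]
    have o2 : (g, k + 2) = T.op (f, r + 2) := by
      refine T.eq_op ?_ ?_
      · show T.vt g (k + 2) = T.vt f (r + 2 + 1)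
        rw [f21, hj, hr]
      · show T.vt g (k + 2 + 1) = T.vt f (r + 2)
        rw [f21, t1]
    have o1' : T.op (g, k + 1) = (f, r) := by rw [o1, T.op_op]
    have o2' : T.op (g, k + 2) = (f, r + 2) := by rw [o2, T.op_op]
    have key := T.star_all ({f, g} : Finset F) (T.tail dv) ?_ f (by simp) hfv (T.op dv).1
      ⟨(T.op dv).2 + 1, T.head_op dv⟩
    · rw [Finset.mem_insert, Finset.mem_singleton] at key
      rcases key with key | key
      · exact h.hv.2 (key ▸ hfS)
      · exact h.hv.2 (key ▸ hg)
    · rintro ⟨d1, d2⟩ hd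
      have hd' : T.vt d1 d2 = T.tail dv := hd
      constructor
      · intro hm
        simp only [Finset.mem_insert, Finset.mem_singleton] at hm ⊢
        rcases hm with rfl | rfl
        · obtain rfl := T.inj d1 (hd'.trans hr.symm)
          right
          rw [← o1]
        · obtain rfl := T.inj d1 (hd'.trans hj.symm)
          left
          rw [o2']
      · intro hm
        have hh := T.head_op (d1, d2)
        have hoo := T.op_op (d1, d2)
        generalize T.op (d1, d2) = e at hm hh hoo
        obtain ⟨e1, e2⟩ := e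
        have hh' : T.vt e1 (e2 + 1) = T.tail dv := hh.trans hd
        simp only [Finset.mem_insert, Finset.mem_singleton] at hm ⊢
        rcases hm with rfl | rfl
        · have := fs1 _ _ (T.inj e1 (hh'.trans hr.symm))
          subst this
          rw [← o2] at hoo
          right
          exact (congrArg Prod.fst hoo).symm
        · have := fs2 _ _ (T.inj e1 (hh'.trans hj.symm))
          subst this
          rw [o1'] at hoo
          left
          exact (congrArg Prod.fst hoo).symm
  · right
    have hm : T.Bd S (f, r + 1) := ⟨hfS, hg⟩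
    refine ⟨hm, ?_⟩
    have hr1 : T.Bd S (f, r) := by
      refine ⟨hfS, fun hc => ?_⟩
      exact h.nochord (f, r) hr hfS hc ⟨(f, r + 1), hm, rfl⟩
    have e1 : (f, r) = dv := h.hS.simple _ _ hr1 h.hv hr
    refine h.hS.simple _ _ hm h.hb ?_
    rw [← h.hvh, ← e1]
    rfl

end LS35.Tri
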