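import Pool.Agent.LibLS35.Defs

/-! Basic facts (all proved) and auxiliary definitions used by the rows of the board LS35. -/

namespace LS35

namespace Tri

variable {V F : Type} [Fintype V] [Fintype F] (T : Tri V F)

/-- the reversed dart (it lies in the face on the other side of the edge) -/
noncomputable def op (d : Dart F) : Dart F :=
  ⟨(T.opp d.1 d.2).choose, (T.opp d.1 d.2).choose_spec.choose⟩

theorem tail_op (d : Dart F) : T.tail (T.op d) = T.head d := (T.opp d.1 d.2).choose_spec.choose_spec.1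

theorem head_op (d : Dart F) : T.head (T.op d) = T.tail d := (T.opp d.1 d.2).choose_spec.choose_spec.2

/-- a dart is determined by its two end vertices -/
theorem dart_ext {d e : Dart F} (h1 : T.tail d = T.tail e) (h2 : T.head d = T.head e) : d = e := by
  have h : d.1 = e.1 := T.uniq d.1 e.1 d.2 e.2 h1 h2
  obtain ⟨f, i⟩ := d
  obtain ⟨g, j⟩ := e
  obtain rfl : f = g := h
  have : i = j := T.inj f h1
  rw [this]

theorem eq_op {d e : Dart F} (h1 : T.tail e = T.head d) (h2 : T.head e = T.tail d) : e = T.op d :=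
  T.dart_ext (h1.trans (T.tail_op d).symm) (h2.trans (T.head_op d).symm)

theorem op_op (d : Dart F) : T.op (T.op d) = d :=
  (T.eq_op (T.head_op d).symm (T.tail_op d).symm).symm

theorem tail_ne_head (d : Dart F) : T.tail d ≠ T.head d := by
  intro h
  have := T.inj d.1 h
  revert this
  generalize d.2 = i
  revert i
  decide

theorem op_ne (d : Dart F) : T.op d ≠ d := fun h => T.tail_ne_head d (by
  have := T.tail_op d
  rw [h] at this
  exact this)

/-- the faces on the two sides of an edge are different -/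
theorem op_face_ne (d : Dart F) : (T.op d).1 ≠ d.1 := by
  intro h
  have h1 := T.tail_op d
  have h2 := T.head_op d
  unfold tail head at h1 h2
  rw [h] at h1 h2
  have a1 := T.inj d.1 h1
  have a2 := T.inj d.1 h2
  revert a1 a2
  generalize (T.op d).2 = j
  generalize d.2 = i
  revert i j
  decide

/-- the vertex `v` is a corner of the face `f` -/
def At (f : F) (v : V) : Prop := ∃ i, T.vt f i = v

theorem exists_at (v : V) : ∃ f, T.At f v := by
  have h4 := T.four
  obtain ⟨w, hw⟩ : ∃ w, w ≠ v := by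
    by_contra hc
    push Not at hc
    have : Fintype.card V ≤ 1 := Fintype.card_le_one_iff.2 (fun a b => (hc a).trans (hc b).symm)
    omega
  rcases (Relation.ReflTransGen.cases_head (T.conn v w)) with h | ⟨b, ⟨f, i, h1, _⟩, _⟩
  · exact absurd h.symm hw
  · exact ⟨f, i, h1⟩

/-- `v` is a vertex of a face of `S` -/
def InV (S : Finset F) (v : V) : Prop := ∃ f ∈ S, T.At f v

/-- boundary dart of the set `S` of faces: its face is in `S`, the face of the reversed dart is not -/
def Bd (S : Finset F) (d : Dart F) : Prop := d.1 ∈ S ∧ (T.op d).1 ∉ S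

open Classical in
/-- indicator of a set of faces, with values in `ZMod 2` -/
noncomputable def ind (S : Finset F) (f : F) : ZMod 2 := if f ∈ S then 1 else 0

/-- boundary mod 2 of a set of faces, as a function on darts -/
noncomputable def bdy (S : Finset F) (d : Dart F) : ZMod 2 := ind S d.1 + ind S (T.op d).1

open Classical in
/-- an even set of edges (1-cycle mod 2), as a function on darts -/
structure Ev (c : Dart F → ZMod 2) : Prop where
  sym : ∀ d, c (T.op d) = c d
  even : ∀ v, ∑ d ∈ Finset.univ.filter (fun d => T.tail d = v), c d = 0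

/-- homological disk conditions for a set `S` of faces (no base dart here) -/
structure Disk (S : Finset F) : Prop where
  simple : ∀ d e, T.Bd S d → T.Bd S e → T.tail d = T.tail e → d = e
  h1 : ∀ c : Dart F → ZMod 2, T.Ev c → (∀ d, c d ≠ 0 → d.1 ∈ S ∨ (T.op d).1 ∈ S) →
    ∃ Q, Q ⊆ S ∧ ∀ d, c d = T.bdy Q d
  h0 : ∀ Q, Q ⊆ S → (∀ d, T.Bd Q d → T.Bd S d) → Q = ∅ ∨ Q = S

/-- the three functions on a disk `S` with base dart from `s` to `t` -/
structure Rz (S : Finset F) (s t : V) (x : Fin 3 → V → ℝ) : Prop where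
  x0s : x 0 s = 0
  x0t : x 0 t = 0
  x1s : x 1 s = 1
  x1t : x 1 t = 0
  x2s : x 2 s = 0
  x2t : x 2 t = 1
  pos0 : ∀ v, T.InV S v → v ≠ s → v ≠ t → 0 < x 0 v
  pos1 : ∀ v, T.InV S v → v ≠ s → v ≠ t → 0 < x 1 v ∧ x 1 v < 1
  pos2 : ∀ v, T.InV S v → v ≠ s → v ≠ t → 0 < x 2 v ∧ x 2 v < 1
  bdr : ∀ d, T.Bd S d → ¬ (T.tail d = s ∧ T.head d = t) →
    x 1 (T.tail d) < x 1 (T.head d) ∧ x 2 (T.head d) < x 2 (T.tail d)
  lab : ∀ f ∈ S, ∃ r : Fin 3, ∀ i j : Fin 3, j ≠ i → x i (T.vt f (j + r)) < x i (T.vt f (i + r))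

/-- realizer of the triangulation with outer face `f0` (Schnyder): `u f i` is the corner of `f` where `x i` is largest
among the corners of `f`; for `f ≠ f0` the cyclic order `u f 0, u f 1, u f 2` is the orientation of `f`, for `f0` it
is the reversed orientation. -/
structure Realizer (f0 : F) (x : Fin 3 → V → ℝ) (u : F → Fin 3 → V) : Prop where
  lab : ∀ f i j, j ≠ i → x i (u f j) < x i (u f i)
  rot : ∀ f, f ≠ f0 → ∃ r : Fin 3, ∀ i, u f i = T.vt f (i + r)
  rev : ∃ r : Fin 3, ∀ i, u f0 i = T.vt f0 (r - i)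

end Tri

/-- twice the signed area of the triangle `P Q R` -/
def dt (P Q R : ℝ × ℝ) : ℝ := (Q.1 - P.1) * (R.2 - P.2) - (R.1 - P.1) * (Q.2 - P.2)

namespace Tri

variable {V F : Type} [Fintype V] [Fintype F] (T : Tri V F)

/-- signed area of the face `f` in the drawing `p` -/
def ori (p : V → ℝ × ℝ) (f : F) : ℝ := dt (p (T.vt f 0)) (p (T.vt f 1)) (p (T.vt f 2))

/-- all faces are positively oriented, except the outer face `f0` which is negatively oriented -/
def Sign (p : V → ℝ × ℝ) (f0 : F) : Prop := (∀ f, f ≠ f0 → 0 < T.ori p f) ∧ T.ori p f0 < 0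

/-- `x` is in the open triangle of a positively oriented face -/
def Pos (p : V → ℝ × ℝ) (f : F) (x : ℝ × ℝ) : Prop :=
  ∀ i : Fin 3, 0 < dt (p (T.vt f i)) (p (T.vt f (i + 1))) x

/-- `x` is in the open triangle of a negatively oriented face -/
def Neg (p : V → ℝ × ℝ) (f : F) (x : ℝ × ℝ) : Prop :=
  ∀ i : Fin 3, dt (p (T.vt f i)) (p (T.vt f (i + 1))) x < 0

/-- `x` is in the closed triangle of a negatively oriented face -/
def CNeg (p : V → ℝ × ℝ) (f : F) (x : ℝ × ℝ) : Prop :=
  ∀ i : Fin 3, dt (p (T.vt f i)) (p (T.vt f (i + 1))) x ≤ 0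

/-- `x` is on no line through an edge and on no vertical line through a vertex -/
def Gen (p : V → ℝ × ℝ) (x : ℝ × ℝ) : Prop :=
  (∀ d, dt (p (T.tail d)) (p (T.head d)) x ≠ 0) ∧ ∀ v, x.1 ≠ (p v).1

end Tri

/-- the order number `i` on the faces: `f` before `g` -/
def Od {V F : Type} (x : Fin 3 → V → ℝ) (u : F → Fin 3 → V) (i : Fin 3) (f g : F) : Prop :=
  x i (u f i) ≤ x i (u g (i + 1)) ∧ x (i + 1) (u g (i + 1)) ≤ x (i + 1) (u f i)

end LS35
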