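import Pool.Agent.LibLS35.Basic

/-! Row D1 (SHORT). The faces at a vertex form one cycle (field `link` of `Tri`): a set `Q` of faces which contains a face at
`x` and which is not left by crossing an edge at `x` contains all faces at `x`.
PLAN. Fix `f ∈ Q`, `i` with `vt f i = x`; for `g`, `j` with `vt g j = x` use `T.link f g i j`; induct on `Relation.ReflTransGen`
(prove: every pair `(f',i')` reached has `vt f' i' = x` and `f' ∈ Q`). Step from `a = (f',i')` to `b`: `vt b.1 b.2 = x`,
`vt b.1 (b.2+1) = vt f' (i'+2)`. The dart `(f', i'+2)` has tail `vt f' (i'+2)` and head `vt f' (i'+2+1) = vt f' i' = x`; hence `b` is `T.op (f', i'+2)`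
(`T.eq_op`). Now `h b` (tail of `b` is `x`) gives `b.1 ∈ Q ↔ (op b).1 ∈ Q` and `op b = op (op (f',i'+2)) = (f', i'+2)` (`T.op_op`). -/

namespace LS35.Tri

variable {V F : Type} [Fintype V] [Fintype F] (T : Tri V F)

theorem star_all (Q : Finset F) (x : V) (h : ∀ d, T.tail d = x → (d.1 ∈ Q ↔ (T.op d).1 ∈ Q))
    (f : F) (hf : f ∈ Q) (hfx : T.At f x) (g : F) (hgx : T.At g x) : g ∈ Q := by
  obtain ⟨i, hi⟩ := hfx
  obtain ⟨j, hj⟩ := hgx
  have key : ∀ c : F × Fin 3, Relation.ReflTransGen
      (fun a b : F × Fin 3 => T.vt b.1 b.2 = T.vt a.1 a.2 ∧ T.vt b.1 (b.2 + 1) = T.vt a.1 (a.2 + 2)) (f, i) c →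
      T.vt c.1 c.2 = x ∧ c.1 ∈ Q := by
    intro c hc
    induction hc with
    | refl => exact ⟨hi, hf⟩
    | tail hab hbc ih =>
      rename_i b c
      obtain ⟨ih1, ih2⟩ := ih
      obtain ⟨h1, h2⟩ := hbc
      have e3 : b.2 + 2 + 1 = b.2 := by
        generalize b.2 = k
        revert k
        decide
      have hop : c = T.op (b.1, b.2 + 2) := by
        apply T.eq_op
        · show T.vt c.1 c.2 = T.vt b.1 (b.2 + 2 + 1)
          rw [e3]
          exact h1
        · exact h2
      refine ⟨h1.trans ih1, ?_⟩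
      rw [h c (h1.trans ih1), hop, T.op_op]
      exact ih2
  exact (key (g, j) (T.link f g i j (hi.trans hj.symm))).2

end LS35.Tri
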