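import Pool.Agent.LibLS35.Basic

/-! Row D2 (SHORT/MEDIUM). Boundary darts of a set of faces: as many start at a vertex as end there.
PLAN of `balance`. Let `D` = darts with tail `x`; `ρ d = ((T.op d).1, (T.op d).2 + 1)` is a bijection of `D` (its tail is `head (op d) = tail d`;
injective). So `#{d ∈ D | d.1 ∈ S} = #{d ∈ D | (op d).1 ∈ S}`. Subtract `#{d ∈ D | d.1 ∈ S ∧ (op d).1 ∈ S}`:
`#{d ∈ D | d.1 ∈ S ∧ (op d).1 ∉ S} = #{d ∈ D | (op d).1 ∈ S ∧ d.1 ∉ S}`, and `op` maps the latter set bijectively to the boundary darts with head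
`x`. The corollaries: `exists_in`, `exists_out`: the two numbers are equal, so one is positive iff the other is; `in_unique`: with `simple` the first
number is at most 1. -/

namespace LS35.Tri

variable {V F : Type} [Fintype V] [Fintype F] (T : Tri V F)

private noncomputable def D2_nx (d : Dart F) : Dart F := ((T.op d).1, (T.op d).2 + 1)

private theorem D2_tail_nx (d : Dart F) : T.tail (D2_nx T d) = T.tail d := T.head_op d

private theorem D2_op_inj : Function.Injective T.op := by
  intro d e h
  rw [← T.op_op d, h, T.op_op]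

private theorem D2_nx_inj : Function.Injective (D2_nx T) := by
  intro d e h
  have h1 : (D2_nx T d).1 = (D2_nx T e).1 := by rw [h]
  have h2 : (D2_nx T d).2 = (D2_nx T e).2 := by rw [h]
  change (T.op d).1 = (T.op e).1 at h1
  change (T.op d).2 + 1 = (T.op e).2 + 1 at h2
  exact D2_op_inj T (Prod.ext h1 (add_right_cancel h2))

open Classical in
theorem balance (S : Finset F) (x : V) :
    (Finset.univ.filter (fun d => T.Bd S d ∧ T.tail d = x)).card =
      (Finset.univ.filter (fun d => T.Bd S d ∧ T.head d = x)).card := by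
  have h1 : (Finset.univ.filter (fun d => (T.op d).1 ∈ S ∧ T.tail d = x)).card =
      (Finset.univ.filter (fun d : Dart F => d.1 ∈ S ∧ T.tail d = x)).card := by
    refine Finset.card_equiv (Equiv.ofBijective _ (Finite.injective_iff_bijective.1 (D2_nx_inj T)))
      fun d => ?_
    rw [Finset.mem_filter, Finset.mem_filter, Equiv.ofBijective_apply, D2_tail_nx]
    simp only [Finset.mem_univ, true_and]
    exact Iff.rfl
  have h2 : (Finset.univ.filter (fun d => T.Bd S (T.op d) ∧ T.tail d = x)).card =
      (Finset.univ.filter (fun d => T.Bd S d ∧ T.head d = x)).card := by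
    refine Finset.card_equiv (Equiv.ofBijective _ (Finite.injective_iff_bijective.1 (D2_op_inj T)))
      fun d => ?_
    rw [Finset.mem_filter, Finset.mem_filter, Equiv.ofBijective_apply, T.head_op]
    simp only [Finset.mem_univ, true_and]
  have h3 := Finset.card_filter_add_card_filter_not
    (s := Finset.univ.filter (fun d => (T.op d).1 ∈ S ∧ T.tail d = x)) (fun d : Dart F => d.1 ∈ S)
  have h4 := Finset.card_filter_add_card_filter_not
    (s := Finset.univ.filter (fun d : Dart F => d.1 ∈ S ∧ T.tail d = x)) (fun d => (T.op d).1 ∈ S)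
  rw [Finset.filter_filter, Finset.filter_filter] at h3 h4
  have e1 : (Finset.univ.filter (fun d : Dart F => ((T.op d).1 ∈ S ∧ T.tail d = x) ∧ d.1 ∈ S)) =
      Finset.univ.filter (fun d : Dart F => (d.1 ∈ S ∧ T.tail d = x) ∧ (T.op d).1 ∈ S) := by
    apply Finset.filter_congr
    intro d _
    tauto
  have e2 : (Finset.univ.filter (fun d : Dart F => ((T.op d).1 ∈ S ∧ T.tail d = x) ∧ ¬ d.1 ∈ S)) =
      Finset.univ.filter (fun d => T.Bd S (T.op d) ∧ T.tail d = x) := by
    apply Finset.filter_congr
    intro d _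
    unfold Bd
    rw [T.op_op]
    tauto
  have e3 : (Finset.univ.filter (fun d : Dart F => (d.1 ∈ S ∧ T.tail d = x) ∧ ¬ (T.op d).1 ∈ S)) =
      Finset.univ.filter (fun d => T.Bd S d ∧ T.tail d = x) := by
    apply Finset.filter_congr
    intro d _
    unfold Bd
    tauto
  rw [e1, e2] at h3
  rw [e3] at h4
  omega

theorem exists_in (S : Finset F) (d : Dart F) (hd : T.Bd S d) : ∃ e, T.Bd S e ∧ T.head e = T.tail d := by
  classical
  have h := T.balance S (T.tail d)
  have h1 : 0 < (Finset.univ.filter (fun e => T.Bd S e ∧ T.tail e = T.tail d)).card :=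
    Finset.card_pos.2 ⟨d, Finset.mem_filter.2 ⟨Finset.mem_univ _, hd, rfl⟩⟩
  rw [h] at h1
  obtain ⟨e, he⟩ := Finset.card_pos.1 h1
  exact ⟨e, (Finset.mem_filter.1 he).2⟩

theorem exists_out (S : Finset F) (d : Dart F) (hd : T.Bd S d) : ∃ e, T.Bd S e ∧ T.tail e = T.head d := by
  classical
  have h := T.balance S (T.head d)
  have h1 : 0 < (Finset.univ.filter (fun e => T.Bd S e ∧ T.head e = T.head d)).card :=
    Finset.card_pos.2 ⟨d, Finset.mem_filter.2 ⟨Finset.mem_univ _, hd, rfl⟩⟩
  rw [← h] at h1
  obtain ⟨e, he⟩ := Finset.card_pos.1 h1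
  exact ⟨e, (Finset.mem_filter.1 he).2⟩

theorem in_unique (S : Finset F) (hs : ∀ d e, T.Bd S d → T.Bd S e → T.tail d = T.tail e → d = e) (d e : Dart F)
    (hd : T.Bd S d) (he : T.Bd S e) (h : T.head d = T.head e) : d = e := by
  classical
  have hb := T.balance S (T.head d)
  have h1 : (Finset.univ.filter (fun e => T.Bd S e ∧ T.tail e = T.head d)).card ≤ 1 := by
    refine Finset.card_le_one.2 fun a ha b hb => ?_
    have ha' := (Finset.mem_filter.1 ha).2
    have hb' := (Finset.mem_filter.1 hb).2
    exact hs a b ha'.1 hb'.1 (ha'.2.trans hb'.2.symm)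
  rw [hb] at h1
  exact Finset.card_le_one.1 h1 d (Finset.mem_filter.2 ⟨Finset.mem_univ _, hd, rfl⟩) e
    (Finset.mem_filter.2 ⟨Finset.mem_univ _, he, h.symm⟩)

end LS35.Tri
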