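import Pool.Agent.LibLS35.H0
import Pool.Agent.LibLS35.D2

/-! Row D3 (MEDIUM). Two boundary vertices `v ≠ w` of a disk `S` are joined by an arc of the boundary which avoids the base edge `b` (as
a 1-chain mod 2).
PLAN. `K` = set of `x` such that there is `a` with `a ∘ op = a`, `a d ≠ 0 → Bd S d ∨ Bd S (op d)` and boundary `δ_v + δ_x` (last condition with `x` in place
of `w`). `v ∈ K` (`a = 0`, `1 + 1 = 0` in `ZMod 2`). If `x ∈ K`, `Bd S d ∨ Bd S (op d)`, `tail d = x` then `head d ∈ K` (add the indicator of `{d, op d}`, whose boundary is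
`δ_(tail d) + δ_(head d)`). Suppose `w ∉ K`. Let `c d = 1` if `(Bd S d ∨ Bd S (op d)) ∧ tail d ∈ K`, else `0`. It is symmetric (for such `d`:
`tail d ∈ K ↔ head d ∈ K`) and even: at `x ∉ K` all terms vanish, at `x ∈ K` the sum is that of `bdy S` (`bdy S d = 1 ↔ Bd S d ∨ Bd S (op d)`, else 0) which is
even by `ev_bdy`. So `hS.h1` gives `Q ⊆ S` with `c = bdy Q`; `Bd Q d` implies `c d ≠ 0`, so `Bd S d` (not `Bd S (op d)` because
`d.1 ∈ Q ⊆ S`). `hS.h0`: `Q = ∅` (contradiction: `c = 1` at the boundary dart with tail `v`) or `Q = S` (contradiction: at the boundary dart with tail `w`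
`bdy S = 1`, `c = 0`). So `w ∈ K`. Finally if `a b ≠ 0` (so `a b = 1`) replace `a` by `a + bdy S` (`bdy S b = 1`). -/

namespace LS35.Tri

variable {V F : Type} [Fintype V] [Fintype F] (T : Tri V F)

private theorem D3_two : (1 : ZMod 2) + 1 = 0 := by decide

open Classical in
private theorem D3_bdy (S : Finset F) (d : Dart F) :
    T.bdy S d = if (T.Bd S d ∨ T.Bd S (T.op d)) then 1 else 0 := by
  unfold bdy ind Bd
  rw [T.op_op]
  by_cases h1 : d.1 ∈ S
  · by_cases h2 : (T.op d).1 ∈ S
    · simp [h1, h2, D3_two]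
    · simp [h1, h2]
  · by_cases h2 : (T.op d).1 ∈ S
    · simp [h1, h2]
    · simp [h1, h2]

open Classical in
/-- the vertices which are joined to `v` -/
private def D3_K (S : Finset F) (v x : V) : Prop :=
  ∃ a : Dart F → ZMod 2, (∀ d, a (T.op d) = a d) ∧ (∀ d, a d ≠ 0 → T.Bd S d ∨ T.Bd S (T.op d)) ∧
    ∀ y, ∑ d ∈ Finset.univ.filter (fun d => T.tail d = y), a d =
      (if y = v then 1 else 0) + (if y = x then 1 else 0)

private theorem D3_self (S : Finset F) (v : V) : D3_K T S v v := by
  classical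
  refine ⟨fun _ => 0, fun _ => rfl, fun d h => absurd rfl h, fun y => ?_⟩
  rw [Finset.sum_const_zero]
  by_cases h : y = v
  · rw [if_pos h, D3_two]
  · rw [if_neg h, add_zero]

private theorem D3_step (S : Finset F) (v : V) (e : Dart F) (he : T.Bd S e ∨ T.Bd S (T.op e))
    (h : D3_K T S v (T.tail e)) : D3_K T S v (T.head e) := by
  classical
  obtain ⟨a, h1, h2, h3⟩ := h
  have hop : ∀ d f : Dart F, T.op d = f ↔ d = T.op f := by
    intro d f
    constructor
    · intro h4
      rw [← h4, T.op_op]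
    · intro h4
      rw [h4, T.op_op]
  refine ⟨fun d => a d + ((if d = e then 1 else 0) + (if d = T.op e then 1 else 0)), ?_, ?_, ?_⟩
  · intro d
    have e1 : (T.op d = e) = (d = T.op e) := propext (hop d e)
    have e2 : (T.op d = T.op e) = (d = e) := by
      rw [propext (hop d (T.op e)), T.op_op]
    show a (T.op d) + ((if T.op d = e then 1 else 0) + (if T.op d = T.op e then 1 else 0)) =
      a d + ((if d = e then 1 else 0) + (if d = T.op e then 1 else 0))
    simp only [e1, e2]
    rw [h1, add_comm (if d = T.op e then (1 : ZMod 2) else 0)]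
  · intro d hd
    by_cases e1 : d = e
    · rw [e1]
      exact he
    · by_cases e2 : d = T.op e
      · rw [e2, T.op_op]
        exact he.symm
      · apply h2 d
        intro h4
        apply hd
        show a d + ((if d = e then 1 else 0) + (if d = T.op e then 1 else 0)) = 0
        rw [if_neg e1, if_neg e2, h4]
        rfl
  · intro y
    rw [Finset.sum_add_distrib, Finset.sum_add_distrib, h3 y, Finset.sum_ite_eq', Finset.sum_ite_eq']
    simp only [Finset.mem_filter, Finset.mem_univ, true_and]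
    rw [T.tail_op]
    have e1 : (T.tail e = y) = (y = T.tail e) := propext eq_comm
    have e2 : (T.head e = y) = (y = T.head e) := propext eq_comm
    simp only [e1, e2]
    by_cases h5 : y = T.tail e
    · rw [if_pos h5]
      have : ∀ p q : ZMod 2, p + 1 + (1 + q) = p + q := by decide
      exact this _ _
    · rw [if_neg h5]
      have : ∀ p q : ZMod 2, p + 0 + (0 + q) = p + q := by decide
      exact this _ _

private theorem D3_iff (S : Finset F) (v : V) (e : Dart F) (he : T.Bd S e ∨ T.Bd S (T.op e)) :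
    D3_K T S v (T.tail e) ↔ D3_K T S v (T.head e) := by
  constructor
  · exact D3_step T S v e he
  · intro h
    have h1 := D3_step T S v (T.op e) (by rw [T.op_op]; exact he.symm) (by rw [T.tail_op]; exact h)
    rwa [T.head_op] at h1

private theorem D3_all (S : Finset F) (hS : T.Disk S) (v w : V)
    (hv : ∃ e, T.Bd S e ∧ T.tail e = v) (hw : ∃ e, T.Bd S e ∧ T.tail e = w) : D3_K T S v w := by
  classical
  by_contra hcon
  have hop : ∀ d : Dart F, (T.Bd S (T.op d) ∨ T.Bd S (T.op (T.op d))) ↔ (T.Bd S d ∨ T.Bd S (T.op d)) := by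
    intro d
    rw [T.op_op]
    exact or_comm
  have hEv : T.Ev (fun d => if (T.Bd S d ∨ T.Bd S (T.op d)) ∧ D3_K T S v (T.tail d) then 1 else 0) := by
    refine ⟨?_, ?_⟩
    · intro d
      show (if (T.Bd S (T.op d) ∨ T.Bd S (T.op (T.op d))) ∧ D3_K T S v (T.tail (T.op d)) then (1 : ZMod 2) else 0)
        = (if (T.Bd S d ∨ T.Bd S (T.op d)) ∧ D3_K T S v (T.tail d) then 1 else 0)
      have h1 : ((T.Bd S (T.op d) ∨ T.Bd S (T.op (T.op d))) ∧ D3_K T S v (T.tail (T.op d))) =
          ((T.Bd S d ∨ T.Bd S (T.op d)) ∧ D3_K T S v (T.tail d)) := by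
        rw [propext (hop d), T.tail_op]
        refine propext ?_
        constructor
        · rintro ⟨h2, h3⟩
          exact ⟨h2, (D3_iff T S v d h2).2 h3⟩
        · rintro ⟨h2, h3⟩
          exact ⟨h2, (D3_iff T S v d h2).1 h3⟩
      simp only [h1]
    · intro y
      by_cases hy : D3_K T S v y
      · refine Eq.trans (Finset.sum_congr rfl fun d hd => ?_) ((T.ev_bdy S).even y)
        have hd' : T.tail d = y := by simpa using hd
        rw [D3_bdy]
        by_cases h2 : T.Bd S d ∨ T.Bd S (T.op d)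
        · have h3 : (T.Bd S d ∨ T.Bd S (T.op d)) ∧ D3_K T S v (T.tail d) := ⟨h2, by rw [hd']; exact hy⟩
          rw [if_pos h3, if_pos h2]
        · have h3 : ¬ ((T.Bd S d ∨ T.Bd S (T.op d)) ∧ D3_K T S v (T.tail d)) := fun h4 => h2 h4.1
          rw [if_neg h3, if_neg h2]
      · refine Finset.sum_eq_zero fun d hd => ?_
        have hd' : T.tail d = y := by simpa using hd
        apply if_neg
        rintro ⟨-, h3⟩
        rw [hd'] at h3
        exact hy h3
  have hSup : ∀ d : Dart F, (fun d : Dart F => if (T.Bd S d ∨ T.Bd S (T.op d)) ∧ D3_K T S v (T.tail d) then (1 : ZMod 2) else 0) d ≠ 0 →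
      d.1 ∈ S ∨ (T.op d).1 ∈ S := by
    intro d hd
    by_cases h2 : (T.Bd S d ∨ T.Bd S (T.op d)) ∧ D3_K T S v (T.tail d)
    · rcases h2.1 with h3 | h3
      · exact Or.inl h3.1
      · exact Or.inr h3.1
    · exact absurd (if_neg h2) hd
  obtain ⟨Q, hQS, hQ⟩ := hS.h1 _ hEv hSup
  have hbd : ∀ d, T.Bd Q d → T.Bd S d := by
    intro d hd
    have h1 := hQ d
    rw [D3_bdy, if_pos (Or.inl hd)] at h1
    by_cases h2 : (T.Bd S d ∨ T.Bd S (T.op d)) ∧ D3_K T S v (T.tail d)
    · rcases h2.1 with h3 | h3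
      · exact h3
      · exfalso
        have h4 := h3.2
        rw [T.op_op] at h4
        exact h4 (hQS hd.1)
    · have h3 : (if (T.Bd S d ∨ T.Bd S (T.op d)) ∧ D3_K T S v (T.tail d) then (1 : ZMod 2) else 0) = 0 :=
        if_neg h2
      exfalso
      rw [h3] at h1
      exact zero_ne_one h1
  rcases hS.h0 Q hQS hbd with h0 | h0
  · obtain ⟨e, he, hev⟩ := hv
    have h1 := hQ e
    have h2 : (if (T.Bd S e ∨ T.Bd S (T.op e)) ∧ D3_K T S v (T.tail e) then (1 : ZMod 2) else 0) = 1 := by
      apply if_pos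
      refine ⟨Or.inl he, ?_⟩
      rw [hev]
      exact D3_self T S v
    rw [h2, h0] at h1
    unfold bdy ind at h1
    simp at h1
  · obtain ⟨e, he, hew⟩ := hw
    have h1 := hQ e
    have h2 : (if (T.Bd S e ∨ T.Bd S (T.op e)) ∧ D3_K T S v (T.tail e) then (1 : ZMod 2) else 0) = 0 := by
      apply if_neg
      rintro ⟨-, h3⟩
      rw [hew] at h3
      exact hcon h3
    rw [h2, h0, D3_bdy, if_pos (Or.inl he)] at h1
    exact zero_ne_one h1

open Classical in
theorem arcs (S : Finset F) (hS : T.Disk S) (b : Dart F) (hb : T.Bd S b) (v w : V)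
    (hv : ∃ e, T.Bd S e ∧ T.tail e = v) (hw : ∃ e, T.Bd S e ∧ T.tail e = w) :
    ∃ a : Dart F → ZMod 2, (∀ d, a (T.op d) = a d) ∧ (∀ d, a d ≠ 0 → T.Bd S d ∨ T.Bd S (T.op d)) ∧ a b = 0 ∧
      ∀ x, ∑ d ∈ Finset.univ.filter (fun d => T.tail d = x), a d = (if x = v then 1 else 0) + (if x = w then 1 else 0) := by
  obtain ⟨a, h1, h2, h3⟩ := D3_all T S hS v w hv hw
  by_cases hab : a b = 0
  · exact ⟨a, h1, h2, hab, h3⟩
  · have hab1 : a b = 1 := by
      have : ∀ p : ZMod 2, p ≠ 0 → p = 1 := by decide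
      exact this _ hab
    refine ⟨fun d => a d + T.bdy S d, ?_, ?_, ?_, ?_⟩
    · intro d
      show a (T.op d) + T.bdy S (T.op d) = a d + T.bdy S d
      rw [h1, (T.ev_bdy S).sym]
    · intro d hd
      by_contra hc
      apply hd
      show a d + T.bdy S d = 0
      rw [D3_bdy, if_neg hc, add_zero]
      by_contra h4
      exact hc (h2 d h4)
    · show a b + T.bdy S b = 0
      rw [hab1, D3_bdy, if_pos (Or.inl hb)]
      exact D3_two
    · intro x
      rw [Finset.sum_add_distrib, h3 x]
      have h4 := (T.ev_bdy S).even x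
      have h5 : ∑ d ∈ Finset.univ.filter (fun d => T.tail d = x), T.bdy S d = 0 := by
        rw [← h4]
      rw [h5, add_zero]

end LS35.Tri
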