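import Pool.Agent.LibLS35.D3

/-! Row D4 (MEDIUM). A chord (interior edge `d` of the disk `S` joining two boundary vertices) splits `S` in two parts; `Q` is the part without the base face.
PLAN. `a` from `T.arcs` (row D3) with `v = tail d`, `w = head d`; `c = a + χ`, `χ` the indicator of `{d, op d}` (its boundary is
`δ_(tail d) + δ_(head d)`). `c` is even, supported on edges of `S` (`Bd S d'` gives `d'.1 ∈ S`), so `hS.h1` gives `Q ⊆ S` with `c = bdy Q`.
`a d = 0` (neither `Bd S d` nor `Bd S (op d)` since both faces are in `S`), so `bdy Q d = 1`: exactly one of `d.1`, `(op d).1` is in `Q`; `e = d` or `e = op d`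
accordingly. `b ≠ d`, `b ≠ op d` (`(op b).1 ∉ S`), so `bdy Q b = a b + 0 = 0` and `ind Q (op b).1 = 0`, hence `b.1 ∉ Q`. If
`Bd Q d'` then `c d' = bdy Q d' = 1`, so `a d' ≠ 0` (then `Bd S d'`, because `Bd S (op d')` contradicts `d'.1 ∈ Q ⊆ S`, see `op_op`) or `d' ∈ {d, op d}` (then `d' = e`
because `d'.1 ∈ Q`, `(op d').1 ∉ Q`). -/

namespace LS35.Tri

variable {V F : Type} [Fintype V] [Fintype F] (T : Tri V F)

theorem split_exists (S : Finset F) (hS : T.Disk S) (b : Dart F) (hb : T.Bd S b) (d : Dart F) (h1 : d.1 ∈ S)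
    (h2 : (T.op d).1 ∈ S) (hv : ∃ e, T.Bd S e ∧ T.tail e = T.tail d) (hw : ∃ e, T.Bd S e ∧ T.tail e = T.head d) :
    ∃ (Q : Finset F) (e : Dart F), Q ⊆ S ∧ (e = d ∨ e = T.op d) ∧ e.1 ∈ Q ∧ (T.op e).1 ∈ S ∧ (T.op e).1 ∉ Q ∧ b.1 ∉ Q ∧
      ∀ d', T.Bd Q d' → d' = e ∨ T.Bd S d' := by
  classical
  obtain ⟨a, ha1, ha2, ha3, ha4⟩ := T.arcs S hS b hb (T.tail d) (T.head d) hv hw
  have hdne : T.op d ≠ d := T.op_ne d
  set χ : Dart F → ZMod 2 := fun x => (if x = d then 1 else 0) + (if x = T.op d then 1 else 0) with hχ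
  have hχ0 : ∀ x, x ≠ d → x ≠ T.op d → χ x = 0 := by
    intro x hx hx'
    simp only [hχ]
    rw [if_neg hx, if_neg hx', add_zero]
  have hχsum : ∀ v, ∑ x ∈ Finset.univ.filter (fun x => T.tail x = v), χ x =
      (if v = T.tail d then 1 else 0) + (if v = T.head d then 1 else 0) := by
    intro v
    simp only [hχ]
    rw [Finset.sum_add_distrib, Finset.sum_ite_eq', Finset.sum_ite_eq']
    simp only [Finset.mem_filter, Finset.mem_univ, true_and, T.tail_op]
    congr 1
    · by_cases h : T.tail d = v
      · rw [if_pos h, if_pos h.symm]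
      · rw [if_neg h, if_neg (Ne.symm h)]
    · by_cases h : T.head d = v
      · rw [if_pos h, if_pos h.symm]
      · rw [if_neg h, if_neg (Ne.symm h)]
  have hev : T.Ev (fun x => a x + χ x) := by
    refine ⟨fun x => ?_, fun v => ?_⟩
    · have h3 : (T.op x = d) = (x = T.op d) := by
        apply propext
        constructor
        · intro h
          rw [← h, T.op_op]
        · intro h
          rw [h, T.op_op]
      have h4 : (T.op x = T.op d) = (x = d) := by
        apply propext
        constructor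
        · intro h
          rw [← T.op_op x, h, T.op_op]
        · intro h
          rw [h]
      simp only [hχ, ha1, h3, h4]
      rw [add_comm (if x = T.op d then (1 : ZMod 2) else 0)]
    · rw [Finset.sum_add_distrib, hχsum, ha4]
      exact CharTwo.add_self_eq_zero _
  have hsupp : ∀ x, a x + χ x ≠ 0 → x.1 ∈ S ∨ (T.op x).1 ∈ S := by
    intro x hx
    by_cases h3 : x = d
    · rw [h3]
      exact Or.inl h1
    · by_cases h4 : x = T.op d
      · rw [h4]
        exact Or.inl h2
      · rw [hχ0 x h3 h4, add_zero] at hx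
        rcases ha2 x hx with h5 | h5
        · exact Or.inl h5.1
        · exact Or.inr h5.1
  obtain ⟨Q, hQS, hQ⟩ := hS.h1 _ hev hsupp
  have had : a d = 0 := by
    by_contra h
    rcases ha2 d h with h3 | h3
    · exact h3.2 h2
    · apply h3.2
      rw [T.op_op]
      exact h1
  have hQd : T.bdy Q d = 1 := by
    rw [← hQ d]
    have h3 : χ d = 1 := by
      have h4 : χ d = (if d = d then 1 else 0) + (if d = T.op d then 1 else 0) := rfl
      rw [h4, if_pos rfl, if_neg hdne.symm, add_zero]
    rw [had, h3, zero_add]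
  have hb1 : b ≠ d := by
    rintro rfl
    exact hb.2 h2
  have hb2 : b ≠ T.op d := by
    rintro rfl
    apply hb.2
    rw [T.op_op]
    exact h1
  have hbQ : b.1 ∉ Q := by
    intro h
    have h3 := hQ b
    rw [hχ0 b hb1 hb2, ha3] at h3
    unfold bdy ind at h3
    rw [if_pos h, if_neg (fun h' => hb.2 (hQS h'))] at h3
    simp at h3
  have hrest : ∀ d', T.Bd Q d' → (d' = d ∨ d' = T.op d) ∨ T.Bd S d' := by
    intro d' hd'
    by_cases h3 : d' = d
    · exact Or.inl (Or.inl h3)
    · by_cases h4 : d' = T.op d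
      · exact Or.inl (Or.inr h4)
      · right
        have h5 := hQ d'
        rw [hχ0 d' h3 h4, add_zero] at h5
        unfold bdy ind at h5
        rw [if_pos hd'.1, if_neg hd'.2, add_zero] at h5
        rcases ha2 d' (by rw [h5]; exact one_ne_zero) with h6 | h6
        · exact h6
        · exfalso
          apply h6.2
          rw [T.op_op]
          exact hQS hd'.1
  unfold bdy ind at hQd
  by_cases h3 : d.1 ∈ Q
  · have h4 : (T.op d).1 ∉ Q := by
      intro h
      rw [if_pos h3, if_pos h] at hQd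
      revert hQd
      decide
    refine ⟨Q, d, hQS, Or.inl rfl, h3, h2, h4, hbQ, fun d' hd' => ?_⟩
    rcases hrest d' hd' with (h5 | h5) | h5
    · exact Or.inl h5
    · rw [h5] at hd'
      exact absurd hd'.1 h4
    · exact Or.inr h5
  · have h4 : (T.op d).1 ∈ Q := by
      by_contra h
      rw [if_neg h3, if_neg h] at hQd
      revert hQd
      decide
    refine ⟨Q, T.op d, hQS, Or.inr rfl, h4, ?_, ?_, hbQ, fun d' hd' => ?_⟩
    · rw [T.op_op]
      exact h1
    · rw [T.op_op]
      exact h3
    · rcases hrest d' hd' with (h5 | h5) | h5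
      · rw [h5] at hd'
        exact absurd hd'.1 h3
      · exact Or.inl h5
      · exact Or.inr h5

end LS35.Tri
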