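import Pool.Agent.LibLS35.H0
import Pool.Agent.LibLS35.D2

/-! Row D5 (MEDIUM). A part `Q` of a disk `S` cut off by one edge (`e` is its only new boundary dart) is a disk. (It will be applied to both parts.)
PLAN. Note `Bd Q e` (`e.1 ∈ Q`, `(op e).1 ∉ Q`).
`simple`: let `Bd Q d1`, `Bd Q d2`, same tail `x`, `d1 ≠ d2`. If both are `Bd S`: `hS.simple`. Otherwise one of them is `e`, so `x = tail e`; there are two
boundary darts of `Q` starting at `x`, so by `T.balance Q x` two different ones `g1`, `g2` end at `x`; `g ≠ e` since `head e ≠ tail e`; so both are `Bd S`,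
contradiction to `T.in_unique S hS.simple`.
`h1`: `c` even, supported on edges of `Q`; `hS.h1` gives `P ⊆ S`, `c = bdy P`. Put `P1 = P ∩ Q`, `P2 = P \ Q`; `bdy P = bdy P1 + bdy P2`. Claim
`bdy P2 = 0`: if `bdy P2 d ≠ 0` then one face of `d` is in `P2` (not in `Q`, in `S`); and `bdy P2 d = c d + bdy P1 d` so some face of `d` is
in `Q`; so `d` or `op d` is a boundary dart of `Q` whose other face is in `S`: it is `e` (second case of `hQ` impossible). So `bdy P2` vanishes off `{e, op e}`; it is even (`ev_bdy`,
sum at `tail e`, where `op e` does not start) so `bdy P2 e = 0` and `bdy P2 (op e) = 0`. Hence `c = bdy P1`, `P1 ⊆ Q`.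
`h0`: `P ⊆ Q`, `Bd P ⊆ Bd Q`. If not `Bd P e`: all boundary darts of `P` are `Bd S`, so `P = ∅` or `P = S` (impossible, `(op e).1 ∈ S \ Q`). If `Bd P e`: for `P' = Q \ P`
every `d` with `Bd P' d` is `Bd S`: if `(op d).1 ∉ Q` then `Bd Q d`, `d ≠ e` (`e.1 ∈ P`), so `Bd S d`; if `(op d).1 ∈ P` then `Bd P (op d)`, so `Bd Q (op d)`, so
`d.1 ∉ Q` (op_op), contradiction. So `P' = ∅` or `S` (impossible), i.e. `P = Q`. -/

namespace LS35.Tri

variable {V F : Type} [Fintype V] [Fintype F] (T : Tri V F)

theorem subdisk (S : Finset F) (hS : T.Disk S) (Q : Finset F) (e : Dart F) (hQS : Q ⊆ S) (he : e.1 ∈ Q)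
    (he1 : (T.op e).1 ∈ S) (he2 : (T.op e).1 ∉ Q) (hQ : ∀ d', T.Bd Q d' → d' = e ∨ T.Bd S d') : T.Disk Q := by
  classical
  have hBe : T.Bd Q e := ⟨he, he2⟩
  refine ⟨?_, ?_, ?_⟩
  · intro d1 d2 h1 h2 ht
    by_contra hne
    have hx : T.tail d1 = T.tail e := by
      rcases hQ d1 h1 with rfl | h3
      · rfl
      · rcases hQ d2 h2 with rfl | h4
        · exact ht
        · exact absurd (hS.simple d1 d2 h3 h4 ht) hne
    have hb := T.balance Q (T.tail e)
    have h3 : 1 < (Finset.univ.filter (fun d => T.Bd Q d ∧ T.tail d = T.tail e)).card := by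
      rw [Finset.one_lt_card]
      exact ⟨d1, by simp [h1, hx], d2, by simp [h2, ← ht, hx], hne⟩
    rw [hb, Finset.one_lt_card] at h3
    obtain ⟨g1, hg1, g2, hg2, hg⟩ := h3
    simp only [Finset.mem_filter, Finset.mem_univ, true_and] at hg1 hg2
    have h4 : ∀ g, T.Bd Q g → T.head g = T.tail e → T.Bd S g := by
      intro g hg hge
      rcases hQ g hg with rfl | h5
      · exact absurd hge.symm (T.tail_ne_head g)
      · exact h5
    exact hg (T.in_unique S hS.simple g1 g2 (h4 g1 hg1.1 hg1.2) (h4 g2 hg2.1 hg2.2)
      (hg1.2.trans hg2.2.symm))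
  · intro c hc hsup
    obtain ⟨P, hPS, hP⟩ := hS.h1 c hc (fun d hd => by
      rcases hsup d hd with h | h
      · exact Or.inl (hQS h)
      · exact Or.inr (hQS h))
    refine ⟨P ∩ Q, Finset.inter_subset_right, ?_⟩
    have hind : ∀ f, (ind P f : ZMod 2) = ind (P ∩ Q) f + ind (P \ Q) f := by
      intro f
      unfold ind
      by_cases h1 : f ∈ P
      · by_cases h2 : f ∈ Q
        · simp [h1, h2]
        · simp [h1, h2]
      · simp [h1]
    have hb : ∀ d, c d = T.bdy (P ∩ Q) d + T.bdy (P \ Q) d := by
      intro d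
      rw [hP d]
      unfold bdy
      rw [hind, hind (T.op d).1]
      ring
    have hindn : ∀ (A : Finset F) f, (ind A f : ZMod 2) ≠ 0 → f ∈ A := by
      intro A f h
      by_contra h1
      exact h (by unfold ind; simp [h1])
    have hbn : ∀ (A : Finset F) d, T.bdy A d ≠ 0 → d.1 ∈ A ∨ (T.op d).1 ∈ A := by
      intro A d h
      by_contra h1
      push Not at h1
      apply h
      unfold bdy ind
      simp [h1.1, h1.2]
    have hz : ∀ d, d ≠ e → d ≠ T.op e → T.bdy (P \ Q) d = 0 := by
      intro d hde hdo
      by_contra hn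
      have h1 := hbn _ d hn
      have h2 : d.1 ∈ Q ∨ (T.op d).1 ∈ Q := by
        by_cases h3 : c d = 0
        · have h4 : T.bdy (P ∩ Q) d ≠ 0 := by
            intro h5
            have h6 := hb d
            rw [h3, h5, zero_add] at h6
            exact hn h6.symm
          rcases hbn _ d h4 with h5 | h5
          · exact Or.inl (Finset.mem_inter.mp h5).2
          · exact Or.inr (Finset.mem_inter.mp h5).2
        · exact hsup d h3
      rcases h1 with h1 | h1
      · rw [Finset.mem_sdiff] at h1
        rcases h2 with h2 | h2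
        · exact h1.2 h2
        · have h3 : T.Bd Q (T.op d) := ⟨h2, by rw [T.op_op]; exact h1.2⟩
          rcases hQ _ h3 with h4 | h4
          · exact hdo (by rw [← h4, T.op_op])
          · have := h4.2
            rw [T.op_op] at this
            exact this (hPS h1.1)
      · rw [Finset.mem_sdiff] at h1
        rcases h2 with h2 | h2
        · have h3 : T.Bd Q d := ⟨h2, h1.2⟩
          rcases hQ _ h3 with h4 | h4
          · exact hde h4
          · exact h4.2 (hPS h1.1)
        · exact h1.2 h2
    have hev := T.ev_bdy (P \ Q)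
    have hze : T.bdy (P \ Q) e = 0 := by
      have h1 := hev.even (T.tail e)
      rw [Finset.sum_eq_single_of_mem e (by simp) ?_] at h1
      · exact h1
      · intro d hd hde
        refine hz d hde ?_
        rintro rfl
        simp only [Finset.mem_filter, Finset.mem_univ, true_and, T.tail_op] at hd
        exact T.tail_ne_head e hd.symm
    have hzo : T.bdy (P \ Q) (T.op e) = 0 := by
      rw [hev.sym]
      exact hze
    intro d
    have hzd : T.bdy (P \ Q) d = 0 := by
      by_cases h1 : d = e
      · rw [h1]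
        exact hze
      · by_cases h2 : d = T.op e
        · rw [h2]
          exact hzo
        · exact hz d h1 h2
    rw [hb d, hzd, add_zero]
  · intro P hPQ hPB
    by_cases hPe : T.Bd P e
    · have h1 : ∀ d, T.Bd (Q \ P) d → T.Bd S d := by
        rintro d ⟨h2, h3⟩
        rw [Finset.mem_sdiff] at h2 h3
        by_cases h4 : (T.op d).1 ∈ Q
        · have h5 : (T.op d).1 ∈ P := by
            by_contra h6
            exact h3 ⟨h4, h6⟩
          have h6 : T.Bd P (T.op d) := ⟨h5, by rw [T.op_op]; exact h2.2⟩
          have h7 := (hPB _ h6).2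
          rw [T.op_op] at h7
          exact absurd h2.1 h7
        · rcases hQ d ⟨h2.1, h4⟩ with h5 | h5
          · rw [h5] at h2
            exact absurd hPe.1 h2.2
          · exact h5
      rcases hS.h0 (Q \ P) (Finset.sdiff_subset.trans hQS) h1 with h2 | h2
      · right
        exact Finset.Subset.antisymm hPQ (Finset.sdiff_eq_empty_iff_subset.mp h2)
      · exfalso
        rw [← h2, Finset.mem_sdiff] at he1
        exact he2 he1.1
    · have h1 : ∀ d, T.Bd P d → T.Bd S d := by
        intro d hd
        rcases hQ d (hPB d hd) with h2 | h2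
        · rw [h2] at hd
          exact absurd hd hPe
        · exact h2
      rcases hS.h0 P (hPQ.trans hQS) h1 with h2 | h2
      · left
        exact h2
      · exfalso
        rw [← h2] at he1
        exact he2 (hPQ he1)

end LS35.Tri
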