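import Pool.Agent.LibLS35.D1
import Pool.Agent.LibLS35.D2

/-! Row D6 (SHORT/MEDIUM). The two parts of a split disk have only the end vertices of the chord in common.
PLAN. Suppose `x ≠ tail e`, `x ≠ head e`, `x` a corner of `f ∈ Q` and of `g ∈ S`, `g ∉ Q`. By (the contrapositive of) `T.star_all Q x` there is a dart `d` with tail `x` and
not (`d.1 ∈ Q ↔ (op d).1 ∈ Q`): so `Bd Q d` (starts at `x`) or `Bd Q (op d)` (ends at `x`); by `exists_in`/`exists_out` there is a boundary dart `d1` of `Q` starting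
at `x`; `d1 ≠ e`, so `Bd S d1`. In the same way for `Q' = S \ Q` (`f ∉ Q'`): a boundary dart `d2` of `Q'` starting at `x`. It is `Bd S`: `(op d2).1 ∉ Q'` means
`∉ S` (fine) or `∈ Q`; in the latter case `Bd Q (op d2)` (`op_op`), so `op d2 = e` (then `tail d2 = head e`, excluded) or `Bd S (op d2)` (contradiction, `d2.1 ∈ S`). By
`hS.simple` `d1 = d2`, but `d1.1 ∈ Q`, `d2.1 ∉ Q`. -/

namespace LS35.Tri

variable {V F : Type} [Fintype V] [Fintype F] (T : Tri V F)

private theorem d6_out (Q : Finset F) (x : V) (f g : F) (hf : f ∈ Q) (hfx : T.At f x)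
    (hgQ : g ∉ Q) (hgx : T.At g x) : ∃ d, T.Bd Q d ∧ T.tail d = x := by
  by_contra hcon
  apply hgQ
  refine T.star_all Q x ?_ f hf hfx g hgx
  intro d hd
  constructor
  · intro h1
    by_contra h2
    exact hcon ⟨d, ⟨h1, h2⟩, hd⟩
  · intro h1
    by_contra h2
    have h3 : T.Bd Q (T.op d) := ⟨h1, by rw [T.op_op]; exact h2⟩
    obtain ⟨e, he, he2⟩ := T.exists_out Q (T.op d) h3
    exact hcon ⟨e, he, by rw [he2, T.head_op, hd]⟩

theorem common (S : Finset F) (hS : T.Disk S) (Q : Finset F) (e : Dart F) (hQS : Q ⊆ S)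
    (hQ : ∀ d', T.Bd Q d' → d' = e ∨ T.Bd S d') (x : V) (f g : F) (hf : f ∈ Q) (hfx : T.At f x) (hg : g ∈ S) (hgQ : g ∉ Q)
    (hgx : T.At g x) : x = T.tail e ∨ x = T.head e := by
  classical
  by_contra hcon
  rw [not_or] at hcon
  obtain ⟨hx1, hx2⟩ := hcon
  obtain ⟨d1, hd1, ht1⟩ := T.d6_out Q x f g hf hfx hgQ hgx
  have hS1 : T.Bd S d1 := by
    rcases hQ d1 hd1 with h | h
    · exact absurd (by rw [← h, ht1]) hx1
    · exact h
  have hgQ' : g ∈ S.filter (fun a => a ∉ Q) := Finset.mem_filter.2 ⟨hg, hgQ⟩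
  have hfQ' : f ∉ S.filter (fun a => a ∉ Q) := fun h => (Finset.mem_filter.1 h).2 hf
  obtain ⟨d2, hd2, ht2⟩ := T.d6_out (S.filter (fun a => a ∉ Q)) x g f hgQ' hgx hfQ' hfx
  have h21 := Finset.mem_filter.1 hd2.1
  have hS2 : T.Bd S d2 := by
    refine ⟨h21.1, fun h => ?_⟩
    have h3 : (T.op d2).1 ∈ Q := by
      by_contra h4
      exact hd2.2 (Finset.mem_filter.2 ⟨h, h4⟩)
    have h4 : T.Bd Q (T.op d2) := ⟨h3, by rw [T.op_op]; exact h21.2⟩
    rcases hQ _ h4 with h5 | h5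
    · apply hx2
      rw [← h5, T.head_op, ht2]
    · have h6 := h5.2
      rw [T.op_op] at h6
      exact h6 h21.1
  have he := hS.simple d1 d2 hS1 hS2 (by rw [ht1, ht2])
  rw [he] at hd1
  exact h21.2 hd1.1

end LS35.Tri
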