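import Pool.Agent.LibLS35.Basic

/-! Row D7 (MEDIUM, pure bookkeeping). Gluing the functions on the two parts `Q` and `Q' = S \ Q` of a split disk. -/

namespace LS35.Tri

variable {V F : Type} [Fintype V] [Fintype F] (T : Tri V F)

private theorem bounds {S : Finset F} {s t : V} {x : Fin 3 → V → ℝ} (h : T.Rz S s t x) (v : V) (hv : T.InV S v) :
    0 ≤ x 0 v ∧ (0 ≤ x 1 v ∧ x 1 v ≤ 1) ∧ (0 ≤ x 2 v ∧ x 2 v ≤ 1) := by
  by_cases h1 : v = s
  · subst h1
    rw [h.x0s, h.x1s, h.x2s]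
    norm_num
  · by_cases h2 : v = t
    · subst h2
      rw [h.x0t, h.x1t, h.x2t]
      norm_num
    · have a0 := h.pos0 v hv h1 h2
      have a1 := h.pos1 v hv h1 h2
      have a2 := h.pos2 v hv h1 h2
      exact ⟨a0.le, ⟨a1.1.le, a1.2.le⟩, ⟨a2.1.le, a2.2.le⟩⟩

open Classical in
theorem combine (S Q : Finset F) (b e : Dart F) (hb : T.Bd S b) (hbQ : b.1 ∉ Q) (hQS : Q ⊆ S) (he : e.1 ∈ Q)
    (he1 : (T.op e).1 ∈ S) (he2 : (T.op e).1 ∉ Q)
    (hcom : ∀ x f g, f ∈ Q → T.At f x → g ∈ S → g ∉ Q → T.At g x → x = T.tail e ∨ x = T.head e)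
    (y y' : Fin 3 → V → ℝ) (hy : T.Rz (S \ Q) (T.tail b) (T.head b) y) (hy' : T.Rz Q (T.tail e) (T.head e) y') :
    ∃ x, T.Rz S (T.tail b) (T.head b) x := by
  obtain ⟨K, hK0, hK⟩ : ∃ K : ℝ, 0 ≤ K ∧ ∀ v, y 0 v ≤ K := by
    refine ⟨∑ v, |y 0 v|, Finset.sum_nonneg (fun v _ => abs_nonneg _), fun v => ?_⟩
    exact (le_abs_self _).trans (Finset.single_le_sum (f := fun v => |y 0 v|) (fun v _ => abs_nonneg _) (Finset.mem_univ v))
  set P : V → Prop := fun v => T.InV (S \ Q) v with hP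
  have hmem : ∀ f, f ∈ S → f ∉ Q → ∀ i, P (T.vt f i) := fun f h1 h2 i =>
    ⟨f, Finset.mem_sdiff.2 ⟨h1, h2⟩, i, rfl⟩
  -- the two ends of `e` are in `S \ Q`
  have hw : P (T.head e) := by
    have := hmem (T.op e).1 he1 he2 (T.op e).2
    have h2 := T.tail_op e
    unfold tail at h2
    rw [h2] at this
    exact this
  have hu : P (T.tail e) := by
    have := hmem (T.op e).1 he1 he2 ((T.op e).2 + 1)
    have h2 := T.head_op e
    unfold head at h2
    rw [h2] at this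
    exact this
  have hs : P (T.tail b) := hmem b.1 hb.1 hbQ b.2
  have ht : P (T.head b) := hmem b.1 hb.1 hbQ (b.2 + 1)
  have hBd : T.Bd (S \ Q) (T.op e) := by
    refine ⟨Finset.mem_sdiff.2 ⟨he1, he2⟩, ?_⟩
    rw [T.op_op]
    intro h
    exact (Finset.mem_sdiff.1 h).2 he
  have hne : ¬ (T.tail (T.op e) = T.tail b ∧ T.head (T.op e) = T.head b) := by
    rintro ⟨h1, h2⟩
    have h3 := T.dart_ext h1 h2
    apply hb.2
    rw [← h3, T.op_op]
    exact hQS he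
  obtain ⟨hy1, hy2⟩ := hy.bdr (T.op e) hBd hne
  rw [T.tail_op, T.head_op] at hy1 hy2
  have bu := bounds T hy _ hu
  have bw := bounds T hy _ hw
  -- common vertices
  have hPQ : ∀ v, P v → T.InV Q v → v = T.tail e ∨ v = T.head e := by
    rintro v ⟨g, hg, hgv⟩ ⟨f, hf, hfv⟩
    rw [Finset.mem_sdiff] at hg
    exact hcom v f g hf hfv hg.1 hg.2 hgv
  set X0 : V → ℝ := fun v => if P v then y 0 v else K + y' 0 v with hX0
  set X1 : V → ℝ := fun v => if P v then y 1 v else y 1 (T.head e) + (y 1 (T.tail e) - y 1 (T.head e)) * y' 1 v with hX1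
  set X2 : V → ℝ := fun v => if P v then y 2 v else y 2 (T.tail e) + (y 2 (T.head e) - y 2 (T.tail e)) * y' 2 v with hX2
  have e0 : ∀ v, P v → X0 v = y 0 v := fun v hv => if_pos hv
  have e1 : ∀ v, P v → X1 v = y 1 v := fun v hv => if_pos hv
  have e2 : ∀ v, P v → X2 v = y 2 v := fun v hv => if_pos hv
  have n0 : ∀ v, ¬ P v → X0 v = K + y' 0 v := fun v hv => if_neg hv
  have k1 : ∀ v, T.InV Q v → X1 v = y 1 (T.head e) + (y 1 (T.tail e) - y 1 (T.head e)) * y' 1 v := by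
    intro v hv
    by_cases h : P v
    · rw [e1 v h]
      rcases hPQ v h hv with h2 | h2
      · rw [h2, hy'.x1s]; ring
      · rw [h2, hy'.x1t]; ring
    · exact if_neg h
  have k2 : ∀ v, T.InV Q v → X2 v = y 2 (T.tail e) + (y 2 (T.head e) - y 2 (T.tail e)) * y' 2 v := by
    intro v hv
    by_cases h : P v
    · rw [e2 v h]
      rcases hPQ v h hv with h2 | h2
      · rw [h2, hy'.x2s]; ring
      · rw [h2, hy'.x2t]; ring
    · exact if_neg h
  have split : ∀ v, T.InV S v → P v ∨ (¬ P v ∧ T.InV Q v ∧ v ≠ T.tail e ∧ v ≠ T.head e) := by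
    rintro v ⟨f, hf, hfv⟩
    by_cases h : P v
    · exact Or.inl h
    · right
      refine ⟨h, ⟨f, ?_, hfv⟩, ?_, ?_⟩
      · by_contra hc
        exact h ⟨f, Finset.mem_sdiff.2 ⟨hf, hc⟩, hfv⟩
      · rintro rfl; exact h hu
      · rintro rfl; exact h hw
  refine ⟨![X0, X1, X2], ?_⟩
  have g0 : (![X0, X1, X2] : Fin 3 → V → ℝ) 0 = X0 := rfl
  have g1 : (![X0, X1, X2] : Fin 3 → V → ℝ) 1 = X1 := rfl
  have g2 : (![X0, X1, X2] : Fin 3 → V → ℝ) 2 = X2 := rfl
  refine ⟨?_, ?_, ?_, ?_, ?_, ?_, ?_, ?_, ?_, ?_, ?_⟩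
  · rw [g0, e0 _ hs]; exact hy.x0s
  · rw [g0, e0 _ ht]; exact hy.x0t
  · rw [g1, e1 _ hs]; exact hy.x1s
  · rw [g1, e1 _ ht]; exact hy.x1t
  · rw [g2, e2 _ hs]; exact hy.x2s
  · rw [g2, e2 _ ht]; exact hy.x2t
  · intro v hv h1 h2
    rw [g0]
    rcases split v hv with h | ⟨h, hQ, h3, h4⟩
    · rw [e0 v h]; exact hy.pos0 v h h1 h2
    · rw [n0 v h]
      have := hy'.pos0 v hQ h3 h4
      linarith
  · intro v hv h1 h2
    rw [g1]
    rcases split v hv with h | ⟨h, hQ, h3, h4⟩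
    · rw [e1 v h]; exact hy.pos1 v h h1 h2
    · rw [k1 v hQ]
      obtain ⟨p1, p2⟩ := hy'.pos1 v hQ h3 h4
      have q1 := mul_pos (sub_pos.2 hy1) p1
      have q2 := mul_pos (sub_pos.2 hy1) (sub_pos.2 p2)
      constructor
      · linarith [bw.2.1.1]
      · nlinarith [bu.2.1.2]
  · intro v hv h1 h2
    rw [g2]
    rcases split v hv with h | ⟨h, hQ, h3, h4⟩
    · rw [e2 v h]; exact hy.pos2 v h h1 h2
    · rw [k2 v hQ]
      obtain ⟨p1, p2⟩ := hy'.pos2 v hQ h3 h4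
      have q1 := mul_pos (sub_pos.2 hy2) p1
      have q2 := mul_pos (sub_pos.2 hy2) (sub_pos.2 p2)
      constructor
      · linarith [bu.2.2.1]
      · nlinarith [bw.2.2.2]
  · intro d hd hdn
    rw [g1, g2]
    by_cases hdQ : d.1 ∈ Q
    · have hBQ : T.Bd Q d := ⟨hdQ, fun h => hd.2 (hQS h)⟩
      have hde : ¬ (T.tail d = T.tail e ∧ T.head d = T.head e) := by
        rintro ⟨h1, h2⟩
        have h3 := T.dart_ext h1 h2
        apply hd.2
        rw [h3]
        exact he1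
      obtain ⟨p1, p2⟩ := hy'.bdr d hBQ hde
      have i1 : T.InV Q (T.tail d) := ⟨d.1, hdQ, d.2, rfl⟩
      have i2 : T.InV Q (T.head d) := ⟨d.1, hdQ, d.2 + 1, rfl⟩
      rw [k1 _ i1, k1 _ i2, k2 _ i1, k2 _ i2]
      have q1 := mul_pos (sub_pos.2 hy1) (sub_pos.2 p1)
      have q2 := mul_pos (sub_pos.2 hy2) (sub_pos.2 p2)
      constructor
      · nlinarith
      · nlinarith
    · have hBQ : T.Bd (S \ Q) d := ⟨Finset.mem_sdiff.2 ⟨hd.1, hdQ⟩, fun h => hd.2 (Finset.mem_sdiff.1 h).1⟩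
      have i1 : P (T.tail d) := hmem d.1 hd.1 hdQ d.2
      have i2 : P (T.head d) := hmem d.1 hd.1 hdQ (d.2 + 1)
      rw [e1 _ i1, e1 _ i2, e2 _ i1, e2 _ i2]
      exact hy.bdr d hBQ hdn
  · intro f hf
    by_cases hfQ : f ∈ Q
    · obtain ⟨r, hr⟩ := hy'.lab f hfQ
      refine ⟨r, ?_⟩
      have iq : ∀ i, T.InV Q (T.vt f i) := fun i => ⟨f, hfQ, i, rfl⟩
      intro i j hj
      have hij := hr i j hj
      match i, hj, hij with
      | 0, hj, hij =>
        rw [g0]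
        have hnn : 0 ≤ y' 0 (T.vt f (j + r)) := (bounds T hy' _ (iq _)).1
        have hpos : 0 < y' 0 (T.vt f (0 + r)) := lt_of_le_of_lt hnn hij
        have hnP : ¬ P (T.vt f (0 + r)) := by
          intro h
          rcases hPQ _ h (iq _) with h2 | h2
          · rw [h2, hy'.x0s] at hpos; exact lt_irrefl _ hpos
          · rw [h2, hy'.x0t] at hpos; exact lt_irrefl _ hpos
        rw [n0 _ hnP]
        by_cases h : P (T.vt f (j + r))
        · rw [e0 _ h]
          linarith [hK (T.vt f (j + r))]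
        · rw [n0 _ h]
          linarith
      | 1, hj, hij =>
        rw [g1, k1 _ (iq _), k1 _ (iq _)]
        have q1 := mul_pos (sub_pos.2 hy1) (sub_pos.2 hij)
        nlinarith
      | 2, hj, hij =>
        rw [g2, k2 _ (iq _), k2 _ (iq _)]
        have q1 := mul_pos (sub_pos.2 hy2) (sub_pos.2 hij)
        nlinarith
    · obtain ⟨r, hr⟩ := hy.lab f (Finset.mem_sdiff.2 ⟨hf, hfQ⟩)
      refine ⟨r, ?_⟩
      intro i j hj
      have hij := hr i j hj
      have ip : ∀ i, P (T.vt f i) := fun i => hmem f hf hfQ i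
      match i, hj, hij with
      | 0, hj, hij => rw [g0, e0 _ (ip _), e0 _ (ip _)]; exact hij
      | 1, hj, hij => rw [g1, e1 _ (ip _), e1 _ (ip _)]; exact hij
      | 2, hj, hij => rw [g2, e2 _ (ip _), e2 _ (ip _)]; exact hij

end LS35.Tri
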