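import Pool.Agent.LibLS35.EDefs

/-! Row E5 (SHORT). Condition `h1` for `far`. PLAN. `c` even, supported on edges of `far ⊆ S`; `h.hS.h1` gives `P ⊆ S`, `c = bdy P`. Claim: no face of `P` is at `v = tail dv`. Otherwise
apply `T.star_all P v`: for a dart `d` with tail `v` both faces `d.1`, `(op d).1` are at `v` (`head (op d) = v`), so not in `far`, so `c d = 0`, i.e. `ind P d.1 + ind P (op d).1 = 0`, i.e.
`d.1 ∈ P ↔ (op d).1 ∈ P`. So all faces at `v` are in `P ⊆ S`, in particular `(op dv).1`, contradiction to `Bd S dv`. So `P ⊆ far`. -/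

namespace LS35.Tri

variable {V F : Type} [Fintype V] [Fintype F] (T : Tri V F)

theorem far_h1 {S : Finset F} {b dv dz : Dart F} (h : T.NC S b dv dz) (c : Dart F → ZMod 2) (hc : T.Ev c)
    (hs : ∀ d, c d ≠ 0 → d.1 ∈ T.far S (T.tail dv) ∨ (T.op d).1 ∈ T.far S (T.tail dv)) :
    ∃ Q, Q ⊆ T.far S (T.tail dv) ∧ ∀ d, c d = T.bdy Q d := by
  classical
  have hfar : ∀ g, g ∈ T.far S (T.tail dv) → g ∈ S ∧ ¬ T.At g (T.tail dv) := by
    intro g hg
    unfold far at hg
    rw [Finset.mem_filter] at hg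
    exact hg
  obtain ⟨P, hPS, hP⟩ := h.hS.h1 c hc (fun d hd => (hs d hd).imp (fun h' => (hfar _ h').1)
    (fun h' => (hfar _ h').1))
  refine ⟨P, fun f hf => ?_, hP⟩
  unfold far
  rw [Finset.mem_filter]
  refine ⟨hPS hf, fun hfv => ?_⟩
  refine h.hv.2 (hPS (T.star_all P (T.tail dv) ?_ f hf hfv _ ⟨(T.op dv).2 + 1, T.head_op dv⟩))
  intro d hd
  have h1 : T.At d.1 (T.tail dv) := ⟨d.2, hd⟩
  have h2 : T.At (T.op d).1 (T.tail dv) := ⟨(T.op d).2 + 1, (T.head_op d).trans hd⟩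
  have h3 : c d = 0 := by
    by_contra h4
    rcases hs d h4 with h5 | h5
    · exact (hfar _ h5).2 h1
    · exact (hfar _ h5).2 h2
  rw [hP d] at h3
  unfold bdy ind at h3
  by_cases h4 : d.1 ∈ P
  · by_cases h5 : (T.op d).1 ∈ P
    · exact ⟨fun _ => h5, fun _ => h4⟩
    · rw [if_pos h4, if_neg h5] at h3
      exact absurd h3 (by decide)
  · by_cases h5 : (T.op d).1 ∈ P
    · rw [if_neg h4, if_pos h5] at h3
      exact absurd h3 (by decide)
    · exact ⟨fun h6 => absurd h6 h4, fun h6 => absurd h6 h5⟩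

end LS35.Tri
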