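import Pool.Agent.LibLS35.E1
import Pool.Agent.LibLS35.E2

/-! Row E4 (MEDIUM). Boundary darts of `far` (the disk `S` without the faces at `v`), and the condition `simple` for `far`.
PLAN. `far_bd`: `Bd far d`: `d.1 ∈ S` not at `v`; if `(op d).1 ∉ S` then `Bd S d`. Otherwise `(op d).1 ∈ S` is at `v`: let `f = (op d).1`, `vt f r = v`; `op d = (f, k)`; `k = r` would give
`tail (op d) = v`, i.e. `head d = v` and `d.1` at `v`, contradiction; `k = r + 2` gives `head (op d) = v = tail d`, contradiction; so `k = r + 1`, `op d = (f, r+1)`, `d = op (f, r+1)`.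
`far_simple`: two boundary darts `d1`, `d2` of `far` with the same tail `x`. Both `Bd S`: `hS.simple`. If `d1 = op (f, r+1)`, `d2 = op (g, r'+1)`: `x = vt f (r+2) = vt g (r'+2)` (tail of `op` = head), and
`(f, r+2)`, `(g, r'+2)` both go from `x` to `v`, so equal by `dart_ext`. If `Bd S d1`, `d2 = op (f, r+1)`: `x = vt f (r+2)` is a boundary vertex; the dart `g = (f, r+2)` goes from `x` to
`v`; if `(op g).1 ∈ S` then `nochord` fails (`op g` starts at `v`, ends at `x`, `(op op g).1 = f ∈ S`). So `Bd S g`; `g` and `d1` are boundary darts of `S` starting at `x`, so `d1 = g`, but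
`g.1 = f` is at `v` and `d1.1 ∈ far` is not. -/

namespace LS35.Tri

variable {V F : Type} [Fintype V] [Fintype F] (T : Tri V F)

private theorem E4_fin : ∀ i k : Fin 3, i ≠ k → i ≠ k + 1 → k = i + 1 := by decide

private theorem E4_add1 (r : Fin 3) : r + 1 + 1 = r + 2 := by revert r; decide

private theorem E4_add2 (r : Fin 3) : r + 2 + 1 = r := by revert r; decide

private theorem E4_mem_far {S : Finset F} {v : V} {f : F} (h : f ∈ T.far S v) : f ∈ S ∧ ¬ T.At f v := by
  classical
  unfold far at h
  exact Finset.mem_filter.1 h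

private theorem E4_mem_near {S : Finset F} {v : V} {f : F} : f ∈ T.near S v ↔ f ∈ S ∧ T.At f v := by
  classical
  unfold near
  exact Finset.mem_filter

theorem far_bd {S : Finset F} {b dv dz : Dart F} (h : T.NC S b dv dz) (d : Dart F) (hd : T.Bd (T.far S (T.tail dv)) d) :
    T.Bd S d ∨ ∃ f ∈ T.near S (T.tail dv), ∃ r : Fin 3, T.vt f r = T.tail dv ∧ d = T.op (f, r + 1) := by
  obtain ⟨hd1, hd2⟩ := hd
  obtain ⟨hd1S, hd1v⟩ := E4_mem_far T hd1
  by_cases hS : (T.op d).1 ∈ S
  · right
    have hat : T.At (T.op d).1 (T.tail dv) := by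
      by_contra hc
      apply hd2
      classical
      unfold far
      exact Finset.mem_filter.2 ⟨hS, hc⟩
    obtain ⟨i, hi⟩ := hat
    have h1 : i ≠ (T.op d).2 := by
      rintro rfl
      apply hd1v
      refine ⟨d.2 + 1, ?_⟩
      have h3 := T.tail_op d
      unfold tail head at h3
      rw [← h3]
      exact hi
    have h2 : i ≠ (T.op d).2 + 1 := by
      rintro rfl
      apply hd1v
      refine ⟨d.2, ?_⟩
      have h3 := T.head_op d
      unfold tail head at h3
      rw [← h3]
      exact hi
    have hk := E4_fin i (T.op d).2 h1 h2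
    refine ⟨(T.op d).1, (E4_mem_near T).2 ⟨hS, ⟨i, hi⟩⟩, i, hi, ?_⟩
    have he : ((T.op d).1, i + 1) = T.op d := by
      rw [← hk]
    rw [he, T.op_op]
  · left
    exact ⟨hd1S, hS⟩

private theorem E4_mixed {S : Finset F} {b dv dz : Dart F} (h : T.NC S b dv dz) (d e : Dart F)
    (hd : T.Bd (T.far S (T.tail dv)) d) (hdS : T.Bd S d) (f : F) (hf : f ∈ T.near S (T.tail dv)) (r : Fin 3)
    (hr : T.vt f r = T.tail dv) (he : e = T.op (f, r + 1)) (hde : T.tail d = T.tail e) : False := by
  obtain ⟨hfS, hfv⟩ := (E4_mem_near T).1 hf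
  have hx : T.tail e = T.vt f (r + 2) := by
    rw [he, T.tail_op]
    unfold head
    rw [E4_add1]
  have hg1 : T.tail ((f, r + 2) : Dart F) = T.vt f (r + 2) := rfl
  have hg2 : T.head ((f, r + 2) : Dart F) = T.tail dv := by
    unfold head
    rw [← hr]
    show T.vt f (r + 2 + 1) = T.vt f r
    rw [E4_add2]
  have hgS : (T.op ((f, r + 2) : Dart F)).1 ∉ S := by
    intro hc
    apply h.nochord (T.op (f, r + 2)) ((T.tail_op _).trans hg2) hc
    · rw [T.op_op]
      exact hfS
    · refine ⟨d, hdS, ?_⟩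
      rw [T.head_op, hg1, hde, hx]
  have hbd : T.Bd S (f, r + 2) := ⟨hfS, hgS⟩
  have hdg : d = (f, r + 2) := h.hS.simple d _ hdS hbd (by rw [hde, hx, hg1])
  apply (E4_mem_far T hd.1).2
  rw [hdg]
  exact hfv

theorem far_simple {S : Finset F} {b dv dz : Dart F} (h : T.NC S b dv dz) (d e : Dart F)
    (hd : T.Bd (T.far S (T.tail dv)) d) (he : T.Bd (T.far S (T.tail dv)) e) (hde : T.tail d = T.tail e) : d = e := by
  rcases T.far_bd h d hd with h1 | ⟨f, hf, r, hr, hdf⟩
  · rcases T.far_bd h e he with h2 | ⟨g, hg, r', hr', heg⟩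
    · exact h.hS.simple d e h1 h2 hde
    · exact (E4_mixed T h d e hd h1 g hg r' hr' heg hde).elim
  · rcases T.far_bd h e he with h2 | ⟨g, hg, r', hr', heg⟩
    · exact (E4_mixed T h e d he h2 f hf r hr hdf hde.symm).elim
    · have hx : T.tail d = T.vt f (r + 2) := by
        rw [hdf, T.tail_op]
        unfold head
        rw [E4_add1]
      have hy : T.tail e = T.vt g (r' + 2) := by
        rw [heg, T.tail_op]
        unfold head
        rw [E4_add1]
      have hdart : ((f, r + 2) : Dart F) = (g, r' + 2) := by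
        apply T.dart_ext
        · show T.vt f (r + 2) = T.vt g (r' + 2)
          rw [← hx, ← hy, hde]
        · show T.vt f (r + 2 + 1) = T.vt g (r' + 2 + 1)
          rw [E4_add2, E4_add2, hr, hr']
      have h3 : f = g := congrArg Prod.fst hdart
      have h4 : r + 2 = r' + 2 := congrArg Prod.snd hdart
      have h5 : r = r' := by
        have h6 : ∀ a c : Fin 3, a + 2 = c + 2 → a = c := by decide
        exact h6 r r' h4
      rw [hdf, heg, h3, h5]

end LS35.Tri
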