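import Pool.Agent.LibLS35.E3
import Pool.Agent.LibLS35.E4

/-! Row E6 (MEDIUM/STRONG). Condition `h0` for `far`. Notation `v = tail dv`, `s = tail b`, `z = tail dz`; for `f ∈ near` with `vt f r = v` write `μ f = op (f, r+1)` (goes from `vt f (r+2)` to
`vt f (r+1)`).
PLAN. `P ⊆ far`, `Bd P ⊆ Bd far`. If `far = ∅` then `P = ∅`. So (E3) `b ∈ Bd far`, and then by E2 `(μ f).1 ∈ far` for all `f ∈ near` (the alternative `(f, r+1) = b` contradicts `b.1 ∈ far`), so `Bd far (μ f)`
(`(op (μ f)).1 = f ∉ far`).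
(i) INVARIANCE: let `f, g ∈ near`, `vt f r = v = vt g r'`, `vt f (r+2) = vt g (r'+1) =: y`. Then `Bd P (μ f) ↔ Bd P (μ g)`: `μ f` starts at `y`, `μ g` ends at `y`. If `Bd P (μ f)` then some boundary dart of `P` ends at
`y` (`exists_in`); it is `Bd far` and ends at `y` like `μ g`, so it is `μ g` by `in_unique` for `far` (`far_simple`, E4). Conversely the same with `exists_out`.
(ii) Let `A = {f ∈ near | ∃ r, vt f r = v ∧ Bd P (op (f, r+1))}`. Claim `A = ∅` or `A = near`. Suppose both `A` and `A' = near \ A` are nonempty. For a nonempty `B ⊆ near` (`B = A` or `A'`): not all faces at `v` are in `B`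
(`(op dv).1 ∉ S`), so by `star_all` some dart `d` with tail `v` has exactly one of `d.1, (op d).1` in `B`, so (`Bd B d` or `Bd B (op d)`, balance: `exists_out`/`exists_in`) there is `d` with `Bd B d`,
`tail d = v`. If `(op d).1 ∈ S` then `(op d).1 ∈ near`, and `d = (f, r)`, `op d = (g, r'+2)` with `vt g (r'+2) = vt f (r+1)`, so by (i) (roles exchanged) `f ∈ A ↔ g ∈ A`; but exactly one of
them is in `B`, contradiction. So `Bd S d`, `tail d = v`, so `d = dv` (`simple`). So `dv.1 ∈ A` and `dv.1 ∈ A'`, contradiction.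
(iii) If `A = ∅`: every boundary dart of `P` is `Bd far`, hence `Bd S` (`far_bd`, second case is excluded), so `P = ∅` or `P = S`; `P = S` is impossible (`dv.1 ∈ S` is at `v`). (iv) If `A = near`:
`P ∪ near` has boundary in `Bd S`: let `d.1 ∈ P ∪ near`, `(op d).1 ∉ P ∪ near`. If `d.1 ∈ P`: `Bd P d`, so `Bd far d`, so `Bd S d` (second case of `far_bd`: `(op d).1 ∈ near`, excluded). If
`d.1 = f ∈ near`: `d = (f, r)` or `(f, r+2)`: `(op d).1` is at `v`, not in `near`, so not in `S`; `d = (f, r+1)`: `(op d).1 = (μ f).1 ∈ P`, excluded. So `P ∪ near = ∅` (no: `dv.1 ∈ near`) or `= S`, so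
`P = far`. -/

namespace LS35.Tri

variable {V F : Type} [Fintype V] [Fintype F] (T : Tri V F)

open Classical in
private theorem E6_near {S : Finset F} {v : V} {f : F} : f ∈ T.near S v ↔ f ∈ S ∧ T.At f v := by
  unfold near
  rw [Finset.mem_filter]

open Classical in
private theorem E6_far {S : Finset F} {v : V} {f : F} : f ∈ T.far S v ↔ f ∈ S ∧ ¬ T.At f v := by
  unfold far
  rw [Finset.mem_filter]

private theorem E6_r2 (r : Fin 3) : r + 1 + 1 = r + 2 := by
  revert r
  decide

private theorem E6_r3 (r : Fin 3) : r + 2 + 1 = r := by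
  revert r
  decide

private theorem E6_r4 (r : Fin 3) : r + 1 + 2 = r := by
  revert r
  decide

private theorem E6_three (k r : Fin 3) : k = r ∨ k = r + 1 ∨ k = r + 2 := by
  revert k r
  decide

/-- the dart opposite to `v`, seen from the other side, is a boundary dart of `far` -/
private theorem E6_mu {S : Finset F} {b dv dz : Dart F} (h : T.NC S b dv dz)
    (hb : T.Bd (T.far S (T.tail dv)) b) {f : F} (hf : f ∈ T.near S (T.tail dv)) {r : Fin 3}
    (hr : T.vt f r = T.tail dv) : T.Bd (T.far S (T.tail dv)) (T.op (f, r + 1)) := by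
  refine ⟨?_, ?_⟩
  · rcases T.opposite h f hf r hr with h1 | ⟨-, h1⟩
    · exact h1
    · exfalso
      have h2 := hb.1
      rw [← h1] at h2
      exact (E6_far T).1 h2 |>.2 ⟨r, hr⟩
  · rw [T.op_op]
    intro h2
    exact (E6_far T).1 h2 |>.2 ⟨r, hr⟩

private theorem E6_inv {S : Finset F} {b dv dz : Dart F} (h : T.NC S b dv dz)
    (hb : T.Bd (T.far S (T.tail dv)) b) {P : Finset F}
    (hB : ∀ d, T.Bd P d → T.Bd (T.far S (T.tail dv)) d) {f g : F} (hf : f ∈ T.near S (T.tail dv))
    (hg : g ∈ T.near S (T.tail dv)) {r r' : Fin 3} (hr : T.vt f r = T.tail dv) (hr' : T.vt g r' = T.tail dv)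
    (hy : T.vt f (r + 2) = T.vt g (r' + 1)) : T.Bd P (T.op (f, r + 1)) ↔ T.Bd P (T.op (g, r' + 1)) := by
  have hμf := E6_mu T h hb hf hr
  have hμg := E6_mu T h hb hg hr'
  have e : T.tail (T.op (f, r + 1)) = T.head (T.op (g, r' + 1)) := by
    rw [T.tail_op, T.head_op]
    change T.vt f (r + 1 + 1) = T.vt g (r' + 1)
    rw [E6_r2, hy]
  constructor
  · intro h1
    obtain ⟨e', he1, he2⟩ := T.exists_in P _ h1
    have h3 := T.in_unique _ (T.far_simple h) e' _ (hB _ he1) hμg (he2.trans e)
    rw [← h3]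
    exact he1
  · intro h1
    obtain ⟨e', he1, he2⟩ := T.exists_out P _ h1
    have h3 := T.far_simple h e' _ (hB _ he1) hμf (he2.trans e.symm)
    rw [← h3]
    exact he1

/-- a nonempty set of faces of `S` at `v` which is not left by crossing an edge inside `S` contains the first face -/
private theorem E6_dv {S : Finset F} {b dv dz : Dart F} (h : T.NC S b dv dz) {B : Finset F}
    (hBn : B ⊆ T.near S (T.tail dv)) (hne : B.Nonempty)
    (hinv : ∀ d, T.tail d = T.tail dv → d.1 ∈ T.near S (T.tail dv) → (T.op d).1 ∈ T.near S (T.tail dv) →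
      (d.1 ∈ B ↔ (T.op d).1 ∈ B)) : dv.1 ∈ B := by
  obtain ⟨d, hd, hdv⟩ : ∃ d, T.Bd B d ∧ T.tail d = T.tail dv := by
    by_contra hno
    push Not at hno
    obtain ⟨f, hf⟩ := hne
    have hS : (T.op dv).1 ∈ B := by
      refine T.star_all B (T.tail dv) (fun d hd => ?_) f hf ((E6_near T).1 (hBn hf)).2 (T.op dv).1 ?_
      · constructor
        · intro h1
          by_contra h2
          exact hno d ⟨h1, h2⟩ hd
        · intro h1
          by_contra h2
          have h3 : T.Bd B (T.op d) := ⟨h1, by rw [T.op_op]; exact h2⟩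
          obtain ⟨e, he1, he2⟩ := T.exists_out B _ h3
          exact hno e he1 (by rw [he2, T.head_op, hd])
      · exact ⟨(T.op dv).2 + 1, T.head_op dv⟩
    exact h.hv.2 ((E6_near T).1 (hBn hS)).1
  have h1 := (E6_near T).1 (hBn hd.1)
  by_cases h2 : (T.op d).1 ∈ S
  · exfalso
    have h3 : (T.op d).1 ∈ T.near S (T.tail dv) :=
      (E6_near T).2 ⟨h2, (T.op d).2 + 1, (T.head_op d).trans hdv⟩
    exact hd.2 ((hinv d hdv (hBn hd.1) h3).1 hd.1)
  · have h3 := h.hS.simple d dv ⟨h1.1, h2⟩ h.hv hdv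
    rw [← h3]
    exact hd.1

theorem far_h0 {S : Finset F} {b dv dz : Dart F} (h : T.NC S b dv dz) (P : Finset F) (hP : P ⊆ T.far S (T.tail dv))
    (hB : ∀ d, T.Bd P d → T.Bd (T.far S (T.tail dv)) d) : P = ∅ ∨ P = T.far S (T.tail dv) := by
  classical
  rcases T.far_cases h with ⟨-, h1, -⟩ | hb
  · left
    rw [h1] at hP
    exact Finset.subset_empty.1 hP
  set N := T.near S (T.tail dv) with hN
  set A : Finset F := N.filter fun f => ∃ r, T.vt f r = T.tail dv ∧ T.Bd P (T.op (f, r + 1)) with hA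
  have hAmem : ∀ f ∈ N, ∀ r, T.vt f r = T.tail dv → (f ∈ A ↔ T.Bd P (T.op (f, r + 1))) := by
    intro f hf r hr
    rw [hA, Finset.mem_filter]
    constructor
    · rintro ⟨-, r', hr', h2⟩
      have h3 : r' = r := T.inj f (hr'.trans hr.symm)
      rw [← h3]
      exact h2
    · intro h2
      exact ⟨hf, r, hr, h2⟩
  have hinvA : ∀ d, T.tail d = T.tail dv → d.1 ∈ N → (T.op d).1 ∈ N → (d.1 ∈ A ↔ (T.op d).1 ∈ A) := by
    intro d hd h1 h2
    have hr' : T.vt (T.op d).1 ((T.op d).2 + 1) = T.tail dv := (T.head_op d).trans hd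
    have hr : T.vt d.1 d.2 = T.tail dv := hd
    rw [hAmem _ h1 _ hr, hAmem _ h2 _ hr']
    refine (E6_inv T h hb hB h2 h1 hr' hr ?_).symm
    rw [E6_r4]
    exact T.tail_op d
  have hdvN : dv.1 ∈ N := (E6_near T).2 ⟨h.hv.1, dv.2, rfl⟩
  have hAN : A ⊆ N := Finset.filter_subset _ _
  have hdich : A = ∅ ∨ A = N := by
    by_contra hno
    push Not at hno
    obtain ⟨h1, h2⟩ := hno
    have h3 := E6_dv T h hAN h1 hinvA
    have h4 : (N \ A).Nonempty := by
      rw [Finset.sdiff_nonempty]
      intro h5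
      exact h2 (Finset.Subset.antisymm hAN h5)
    have h5 := E6_dv T h (B := N \ A) Finset.sdiff_subset h4 (by
      intro d hd h6 h7
      rw [Finset.mem_sdiff, Finset.mem_sdiff, hinvA d hd h6 h7]
      simp only [hN] at h6 h7 ⊢
      simp [h6, h7])
    exact (Finset.mem_sdiff.1 h5).2 h3
  have hfarS : T.far S (T.tail dv) ⊆ S := fun f hf => ((E6_far T).1 hf).1
  rcases hdich with hA0 | hA1
  · left
    rcases h.hS.h0 P (hP.trans hfarS) (by
      intro d hd
      rcases T.far_bd h d (hB d hd) with h1 | ⟨f, hf, r, hr, h1⟩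
      · exact h1
      · exfalso
        have h2 : f ∈ A := (hAmem f hf r hr).2 (by rw [← h1]; exact hd)
        rw [hA0] at h2
        exact absurd h2 (Finset.notMem_empty f)) with h1 | h1
    · exact h1
    · exfalso
      have h2 : dv.1 ∈ P := by
        rw [h1]
        exact h.hv.1
      exact ((E6_far T).1 (hP h2)).2 ⟨dv.2, rfl⟩
  · right
    have h3 : ∀ d, T.Bd (P ∪ N) d → T.Bd S d := by
      rintro d ⟨h1, h2⟩
      rw [Finset.mem_union, not_or] at h2
      rcases Finset.mem_union.1 h1 with h4 | h4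
      · rcases T.far_bd h d (hB d ⟨h4, h2.1⟩) with h5 | ⟨f, hf, r, hr, h5⟩
        · exact h5
        · exfalso
          apply h2.2
          rw [h5, T.op_op]
          exact hf
      · obtain ⟨h5, r, hr⟩ := (E6_near T).1 h4
        refine ⟨h5, fun h6 => ?_⟩
        rcases E6_three d.2 r with h7 | h7 | h7
        · apply h2.2
          refine (E6_near T).2 ⟨h6, (T.op d).2 + 1, (T.head_op d).trans ?_⟩
          change T.vt d.1 d.2 = T.tail dv
          rw [h7, hr]
        · apply h2.1
          have h8 : d.1 ∈ A := by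
            rw [hA1]
            exact h4
          have h9 := ((hAmem d.1 h4 r hr).1 h8).1
          rw [← h7] at h9
          exact h9
        · apply h2.2
          refine (E6_near T).2 ⟨h6, (T.op d).2, (T.tail_op d).trans ?_⟩
          change T.vt d.1 (d.2 + 1) = T.tail dv
          rw [h7, E6_r3, hr]
    rcases h.hS.h0 (P ∪ N) (Finset.union_subset (hP.trans hfarS) fun f hf => ((E6_near T).1 hf).1) h3 with h4 | h4
    · exfalso
      have h5 : dv.1 ∈ P ∪ N := Finset.mem_union_right _ hdvN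
      rw [h4] at h5
      exact absurd h5 (Finset.notMem_empty _)
    · refine Finset.Subset.antisymm hP fun f hf => ?_
      obtain ⟨h5, h6⟩ := (E6_far T).1 hf
      rw [← h4] at h5
      rcases Finset.mem_union.1 h5 with h7 | h7
      · exact h7
      · exact absurd ((E6_near T).1 h7).2 h6

end LS35.Tri
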