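import Pool.Agent.LibLS35.E3
import Pool.Agent.LibLS35.E4

/-! Row E7 (MEDIUM, bookkeeping). Adding the vertex `v = tail dv` on top. `s = tail b`, `t = head b`, `z = tail dz`.
PLAN. Let `Nb` be the finite set of vertices `w ≠ v` that are corners of faces of `near`. For `f ∈ near`, `vt f r = v`, put `w = vt f (r+1)`, `w' = vt f (r+2)`. KEY: `y 1 w' < y 1 w` and
`y 2 w < y 2 w'`: by E2 either `(op (f, r+1)).1 ∈ far`, then the dart `op (f, r+1)` from `w'` to `w` is in `Bd far` and it is not from `s` to `t` (`w' ≠ s`, E1 `bwd_ne`), use `hy.bdr`; or `(f, r+1) = b`, so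
`w = s`, `w' = t`, and `y 1 s = 1 > 0 = y 1 t`, `y 2 s = 0 < 1 = y 2 t`. CONSEQUENCE: `y 1 z < y 1 w` for all `w ∈ Nb`, `w ≠ z`: take `w ∈ Nb` with `y 1 w` minimal; if `w ≠ z` then `w = vt g (r'+1)` for some
`g ∈ near` (`w` is `vt f (r+1)` of some face or `vt f (r+2)` and then E1 `fwd_face` applies) and KEY gives a smaller value; so the minimum is attained only at `z` (`z ∈ Nb` because `dz.1 ∈ near`). In the same way
`y 2 s < y 2 w` for all `w ∈ Nb`, `w ≠ s` (`bwd_face`; `s ∈ Nb` by `dv`). All `w ∈ Nb` satisfy `0 ≤ y 1 w ≤ 1`, `0 ≤ y 2 w ≤ 1` (`w` is `s` or `t` or a vertex of `far` by E2). Put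
`x = y` except at `v`: `x 0 v = 1 + (a bound of all y 0)` (positive), `x 1 v` = midpoint of `y 1 z` and `min {y 1 w | w ∈ Nb, w ≠ z}` (nonempty: contains `s`), `x 2 v` = midpoint of `y 2 s` and `min {y 2 w | w ∈ Nb, w ≠ s}` (contains `z`).
`v` is not `s`, `t` and not a vertex of `far`. `lab` for `f ∈ near` with this `r` (so `u 0 = v`, `u 1 = w`, `u 2 = w'`): `x 0`: `v` largest; `x 1 w > x 1 w'` (KEY), `x 1 w > x 1 v` (`w ≠ z`, E1 `fwd_ne`); `x 2 w' > x 2 w`,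
`x 2 w' > x 2 v` (`w' ≠ s`). `bdr` for `Bd S d`: `d = dv`: `x 1 v < x 1 s = 1` and `x 2 s < x 2 v`; `d = dz`: `y 1 z < x 1 v`, `x 2 v < y 2 z` (`z ≠ s`); other `d`: if `d.1 ∈ far` then `Bd far d`, use
`hy.bdr`; if `d.1 ∈ near`, `d` is not `(f, r)` (it would be `dv` by `simple`), not `(f, r+2)` (it would be `dz` by `in_unique`), so `(f, r+1)`, then `Bd S` and E2 give `d = b`, excluded. `pos`: `0 ≤ y 1 z < x 1 v < y 1 s = 1`,
`0 = y 2 s < x 2 v < y 2 z ≤ 1`; vertices of `S` other than `v` are vertices of `far` or `s`, `t` (corners of `near` by E2). -/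

namespace LS35.Tri

variable {V F : Type} [Fintype V] [Fintype F] (T : Tri V F)

private theorem E7_f1 (r : Fin 3) : r + 1 + 1 = r + 2 := by revert r; decide
private theorem E7_f2 (r : Fin 3) : r + 2 + 1 = r := by revert r; decide
private theorem E7_f3 (r : Fin 3) : r + 1 + 2 = r := by revert r; decide
private theorem E7_n1 (r : Fin 3) : r + 1 ≠ r := by revert r; decide
private theorem E7_n2 (r : Fin 3) : r + 2 ≠ r := by revert r; decide
private theorem E7_cases (k r : Fin 3) : k = r ∨ k = r + 1 ∨ k = r + 2 := by revert k r; decide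

private theorem E7_ne1 (f : F) (r : Fin 3) : T.vt f (r + 1) ≠ T.vt f r :=
  fun h => E7_n1 r (T.inj f h)

private theorem E7_ne2 (f : F) (r : Fin 3) : T.vt f (r + 2) ≠ T.vt f r :=
  fun h => E7_n2 r (T.inj f h)

private theorem E7_mem_far {S : Finset F} {v : V} {f : F} : f ∈ T.far S v ↔ f ∈ S ∧ ¬ T.At f v := by
  classical
  unfold far
  rw [Finset.mem_filter]

private theorem E7_mem_near {S : Finset F} {v : V} {f : F} : f ∈ T.near S v ↔ f ∈ S ∧ T.At f v := by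
  classical
  unfold near
  rw [Finset.mem_filter]

private theorem E7_key {S : Finset F} {b dv dz : Dart F} (h : T.NC S b dv dz) (y : Fin 3 → V → ℝ)
    (hy : T.Rz (T.far S (T.tail dv)) (T.tail b) (T.head b) y) (f : F)
    (hf : f ∈ T.near S (T.tail dv)) (r : Fin 3) (hr : T.vt f r = T.tail dv) :
    y 1 (T.vt f (r + 2)) < y 1 (T.vt f (r + 1)) ∧ y 2 (T.vt f (r + 1)) < y 2 (T.vt f (r + 2)) := by
  have hhead : T.head (f, r + 1) = T.vt f (r + 2) := by
    change T.vt f (r + 1 + 1) = _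
    rw [E7_f1]
  have htail : T.tail (f, r + 1) = T.vt f (r + 1) := rfl
  rcases T.opposite h f hf r hr with h1 | ⟨_, h2⟩
  · have hbd : T.Bd (T.far S (T.tail dv)) (T.op (f, r + 1)) := by
      refine ⟨h1, ?_⟩
      rw [T.op_op]
      intro h3
      exact (T.E7_mem_far.1 h3).2 ⟨r, hr⟩
    have h4 := hy.bdr _ hbd (by
      rintro ⟨h5, _⟩
      rw [T.tail_op, hhead] at h5
      exact T.bwd_ne h f hf r hr h5)
    rw [T.tail_op, T.head_op, hhead, htail] at h4
    exact h4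
  · have h3 : T.vt f (r + 1) = T.tail b := by rw [← htail, h2]
    have h4 : T.vt f (r + 2) = T.head b := by rw [← hhead, h2]
    rw [h3, h4, hy.x1s, hy.x1t, hy.x2s, hy.x2t]
    exact ⟨one_pos, one_pos⟩

private theorem E7_corner {S : Finset F} {b dv dz : Dart F} (h : T.NC S b dv dz) (f : F)
    (hf : f ∈ T.near S (T.tail dv)) (r : Fin 3) (hr : T.vt f r = T.tail dv) :
    (T.vt f (r + 1) = T.tail b ∨ T.vt f (r + 1) = T.head b ∨
      T.InV (T.far S (T.tail dv)) (T.vt f (r + 1))) ∧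
    (T.vt f (r + 2) = T.tail b ∨ T.vt f (r + 2) = T.head b ∨
      T.InV (T.far S (T.tail dv)) (T.vt f (r + 2))) := by
  have hhead : T.head (f, r + 1) = T.vt f (r + 2) := by
    change T.vt f (r + 1 + 1) = _
    rw [E7_f1]
  have htail : T.tail (f, r + 1) = T.vt f (r + 1) := rfl
  rcases T.opposite h f hf r hr with h1 | ⟨_, h2⟩
  · refine ⟨Or.inr (Or.inr ⟨_, h1, (T.op (f, r + 1)).2 + 1, ?_⟩),
      Or.inr (Or.inr ⟨_, h1, (T.op (f, r + 1)).2, ?_⟩)⟩
    · exact (T.head_op (f, r + 1)).trans htail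
    · exact (T.tail_op (f, r + 1)).trans hhead
  · refine ⟨Or.inl ?_, Or.inr (Or.inl ?_)⟩
    · rw [← htail, h2]
    · rw [← hhead, h2]

/-- `w` is a neighbour: the second or third corner of a face of `near` -/
private def E7_Nb (S : Finset F) (v w : V) : Prop :=
  ∃ f ∈ T.near S v, ∃ r : Fin 3, T.vt f r = v ∧ (w = T.vt f (r + 1) ∨ w = T.vt f (r + 2))

private theorem E7_min1 {S : Finset F} {b dv dz : Dart F} (h : T.NC S b dv dz) (y : Fin 3 → V → ℝ)
    (hy : T.Rz (T.far S (T.tail dv)) (T.tail b) (T.head b) y) (w : V)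
    (hw : T.E7_Nb S (T.tail dv) w) (hwz : w ≠ T.tail dz) : y 1 (T.tail dz) < y 1 w := by
  classical
  have step : ∀ w, T.E7_Nb S (T.tail dv) w → w ≠ T.tail dz →
      ∃ w'', T.E7_Nb S (T.tail dv) w'' ∧ y 1 w'' < y 1 w := by
    rintro w ⟨f, hf, r, hr, hc⟩ hwz
    rcases hc with rfl | rfl
    · exact ⟨T.vt f (r + 2), ⟨f, hf, r, hr, Or.inr rfl⟩, (T.E7_key h y hy f hf r hr).1⟩
    · obtain ⟨g, hg, r', hr', hg1⟩ := T.fwd_face h f hf r hr hwz
      refine ⟨T.vt g (r' + 2), ⟨g, hg, r', hr', Or.inr rfl⟩, ?_⟩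
      rw [← hg1]
      exact (T.E7_key h y hy g hg r' hr').1
  set N : Finset V := Finset.univ.filter fun w => T.E7_Nb S (T.tail dv) w with hN
  have hmem : ∀ w, w ∈ N ↔ T.E7_Nb S (T.tail dv) w := by
    intro w
    simp [hN]
  have hne : N.Nonempty := ⟨w, (hmem w).2 hw⟩
  obtain ⟨m, hm, hmin⟩ := Finset.exists_min_image N (y 1) hne
  have hmz : m = T.tail dz := by
    by_contra hc
    obtain ⟨w'', h1, h2⟩ := step m ((hmem m).1 hm) hc
    exact absurd (hmin w'' ((hmem w'').2 h1)) (not_le.2 h2)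
  obtain ⟨w'', h1, h2⟩ := step w hw hwz
  rw [← hmz]
  exact (hmin w'' ((hmem w'').2 h1)).trans_lt h2

private theorem E7_min2 {S : Finset F} {b dv dz : Dart F} (h : T.NC S b dv dz) (y : Fin 3 → V → ℝ)
    (hy : T.Rz (T.far S (T.tail dv)) (T.tail b) (T.head b) y) (w : V)
    (hw : T.E7_Nb S (T.tail dv) w) (hwz : w ≠ T.tail b) : y 2 (T.tail b) < y 2 w := by
  classical
  have step : ∀ w, T.E7_Nb S (T.tail dv) w → w ≠ T.tail b →
      ∃ w'', T.E7_Nb S (T.tail dv) w'' ∧ y 2 w'' < y 2 w := by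
    rintro w ⟨f, hf, r, hr, hc⟩ hwz
    rcases hc with rfl | rfl
    · obtain ⟨g, hg, r', hr', hg1⟩ := T.bwd_face h f hf r hr hwz
      refine ⟨T.vt g (r' + 1), ⟨g, hg, r', hr', Or.inl rfl⟩, ?_⟩
      rw [← hg1]
      exact (T.E7_key h y hy g hg r' hr').2
    · exact ⟨T.vt f (r + 1), ⟨f, hf, r, hr, Or.inl rfl⟩, (T.E7_key h y hy f hf r hr).2⟩
  set N : Finset V := Finset.univ.filter fun w => T.E7_Nb S (T.tail dv) w with hN
  have hmem : ∀ w, w ∈ N ↔ T.E7_Nb S (T.tail dv) w := by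
    intro w
    simp [hN]
  have hne : N.Nonempty := ⟨w, (hmem w).2 hw⟩
  obtain ⟨m, hm, hmin⟩ := Finset.exists_min_image N (y 2) hne
  have hmz : m = T.tail b := by
    by_contra hc
    obtain ⟨w'', h1, h2⟩ := step m ((hmem m).1 hm) hc
    exact absurd (hmin w'' ((hmem w'').2 h1)) (not_le.2 h2)
  obtain ⟨w'', h1, h2⟩ := step w hw hwz
  rw [← hmz]
  exact (hmin w'' ((hmem w'').2 h1)).trans_lt h2

omit [Fintype V] in
private theorem E7_between (N : Finset V) (g : V → ℝ) (c : ℝ) (hN : ∀ w ∈ N, c < g w) :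
    ∃ a, c < a ∧ ∀ w ∈ N, a < g w := by
  classical
  obtain ⟨m, h1, h2⟩ := Order.exists_between_finsets ({c} : Finset ℝ) (N.image g) (by
    intro x hx y hy
    rw [Finset.mem_singleton] at hx
    obtain ⟨w, hw, rfl⟩ := Finset.mem_image.1 hy
    rw [hx]
    exact hN w hw)
  exact ⟨m, h1 c (Finset.mem_singleton_self c), fun w hw => h2 _ (Finset.mem_image_of_mem g hw)⟩

theorem extend {S : Finset F} {b dv dz : Dart F} (h : T.NC S b dv dz) (y : Fin 3 → V → ℝ)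
    (hy : T.Rz (T.far S (T.tail dv)) (T.tail b) (T.head b) y) : ∃ x, T.Rz S (T.tail b) (T.head b) x := by
  classical
  obtain ⟨hvs, hvt, hzs, hzv⟩ := T.nc_ne h
  have hnear : ∀ f, f ∈ S → T.At f (T.tail dv) → f ∈ T.near S (T.tail dv) :=
    fun f h1 h2 => T.E7_mem_near.2 ⟨h1, h2⟩
  -- bounds for neighbours and corners
  have hNb : ∀ w, T.E7_Nb S (T.tail dv) w →
      w ≠ T.tail dv ∧ (w = T.tail b ∨ w = T.head b ∨ T.InV (T.far S (T.tail dv)) w) := by
    rintro w ⟨f, hf, r, hr, hc⟩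
    have hcr := T.E7_corner h f hf r hr
    rcases hc with rfl | rfl
    · exact ⟨fun h' => T.E7_ne1 f r (h'.trans hr.symm), hcr.1⟩
    · exact ⟨fun h' => T.E7_ne2 f r (h'.trans hr.symm), hcr.2⟩
  have hzN : T.E7_Nb S (T.tail dv) (T.tail dz) := by
    have h1 : T.vt dz.1 (dz.2 + 1) = T.tail dv := h.hzh
    refine ⟨dz.1, hnear _ h.hz.1 ⟨dz.2 + 1, h1⟩, dz.2 + 1, h1, Or.inr ?_⟩
    rw [E7_f3]
    rfl
  have hsN : T.E7_Nb S (T.tail dv) (T.tail b) := by
    have h1 : T.vt dv.1 dv.2 = T.tail dv := rfl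
    refine ⟨dv.1, hnear _ h.hv.1 ⟨dv.2, h1⟩, dv.2, h1, Or.inl ?_⟩
    exact h.hvh.symm
  have hy1z : 0 ≤ y 1 (T.tail dz) := by
    rcases (hNb _ hzN).2 with h1 | h1 | h1
    · exact absurd h1 hzs
    · rw [h1, hy.x1t]
    · by_cases h2 : T.tail dz = T.head b
      · rw [h2, hy.x1t]
      · exact (hy.pos1 _ h1 hzs h2).1.le
  have hy2z : y 2 (T.tail dz) ≤ 1 := by
    rcases (hNb _ hzN).2 with h1 | h1 | h1
    · exact absurd h1 hzs
    · rw [h1, hy.x2t]
    · by_cases h2 : T.tail dz = T.head b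
      · rw [h2, hy.x2t]
      · exact (hy.pos2 _ h1 hzs h2).2.le
  -- the new values
  obtain ⟨a0, ha0, ha0'⟩ : ∃ a0 : ℝ, 0 < a0 ∧ ∀ w, y 0 w < a0 := by
    refine ⟨1 + ∑ w, |y 0 w|, ?_, fun w => ?_⟩
    · have : 0 ≤ ∑ w, |y 0 w| := Finset.sum_nonneg fun w _ => abs_nonneg _
      linarith
    · have h1 : |y 0 w| ≤ ∑ w, |y 0 w| :=
        Finset.single_le_sum (f := fun w => |y 0 w|) (fun w _ => abs_nonneg _) (Finset.mem_univ w)
      have h2 := le_abs_self (y 0 w)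
      linarith
  obtain ⟨a1, ha1, ha1'⟩ : ∃ a1 : ℝ, y 1 (T.tail dz) < a1 ∧
      ∀ w, T.E7_Nb S (T.tail dv) w → w ≠ T.tail dz → a1 < y 1 w := by
    obtain ⟨a, h1, h2⟩ := E7_between
      (Finset.univ.filter fun w => T.E7_Nb S (T.tail dv) w ∧ w ≠ T.tail dz) (y 1) (y 1 (T.tail dz))
      (fun w hw => by
        have hw' := (Finset.mem_filter.1 hw).2
        exact T.E7_min1 h y hy w hw'.1 hw'.2)
    exact ⟨a, h1, fun w hw hwz => h2 w (Finset.mem_filter.2 ⟨Finset.mem_univ _, hw, hwz⟩)⟩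
  obtain ⟨a2, ha2, ha2'⟩ : ∃ a2 : ℝ, y 2 (T.tail b) < a2 ∧
      ∀ w, T.E7_Nb S (T.tail dv) w → w ≠ T.tail b → a2 < y 2 w := by
    obtain ⟨a, h1, h2⟩ := E7_between
      (Finset.univ.filter fun w => T.E7_Nb S (T.tail dv) w ∧ w ≠ T.tail b) (y 2) (y 2 (T.tail b))
      (fun w hw => by
        have hw' := (Finset.mem_filter.1 hw).2
        exact T.E7_min2 h y hy w hw'.1 hw'.2)
    exact ⟨a, h1, fun w hw hwz => h2 w (Finset.mem_filter.2 ⟨Finset.mem_univ _, hw, hwz⟩)⟩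
  have ha1s : a1 < 1 := by
    have := ha1' _ hsN (Ne.symm hzs)
    rwa [hy.x1s] at this
  have ha1p : 0 < a1 := hy1z.trans_lt ha1
  have ha2p : 0 < a2 := by rwa [hy.x2s] at ha2
  have ha2z : a2 < y 2 (T.tail dz) := ha2' _ hzN hzs
  have ha2s : a2 < 1 := ha2z.trans_le hy2z
  -- the new functions
  let x : Fin 3 → V → ℝ := fun i u => if u = T.tail dv then (![a0, a1, a2] : Fin 3 → ℝ) i else y i u
  have hxv0 : x 0 (T.tail dv) = a0 := by simp [x]
  have hxv1 : x 1 (T.tail dv) = a1 := by simp [x]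
  have hxv2 : x 2 (T.tail dv) = a2 := by simp [x]
  have hxo : ∀ i u, u ≠ T.tail dv → x i u = y i u := by
    intro i u hu
    simp only [x]
    rw [if_neg hu]
  -- vertices of `S`
  have hInV : ∀ u, T.InV S u → u ≠ T.tail dv → u ≠ T.tail b → u ≠ T.head b →
      T.InV (T.far S (T.tail dv)) u := by
    rintro u ⟨f, hf, k, hk⟩ huv hus hut
    by_cases hfv : T.At f (T.tail dv)
    · obtain ⟨r, hr⟩ := hfv
      have hN : T.E7_Nb S (T.tail dv) u := by
        refine ⟨f, hnear f hf ⟨r, hr⟩, r, hr, ?_⟩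
        rcases E7_cases k r with rfl | rfl | rfl
        · exact absurd (hk.symm.trans hr) huv
        · exact Or.inl hk.symm
        · exact Or.inr hk.symm
      rcases (hNb u hN).2 with h1 | h1 | h1
      · exact absurd h1 hus
      · exact absurd h1 hut
      · exact h1
    · exact ⟨f, T.E7_mem_far.2 ⟨hf, hfv⟩, k, hk⟩
  refine ⟨x, ?_, ?_, ?_, ?_, ?_, ?_, ?_, ?_, ?_, ?_, ?_⟩
  · rw [hxo 0 _ (Ne.symm hvs)]; exact hy.x0s
  · rw [hxo 0 _ (Ne.symm hvt)]; exact hy.x0t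
  · rw [hxo 1 _ (Ne.symm hvs)]; exact hy.x1s
  · rw [hxo 1 _ (Ne.symm hvt)]; exact hy.x1t
  · rw [hxo 2 _ (Ne.symm hvs)]; exact hy.x2s
  · rw [hxo 2 _ (Ne.symm hvt)]; exact hy.x2t
  · intro u hu hus hut
    by_cases huv : u = T.tail dv
    · rw [huv, hxv0]; exact ha0
    · rw [hxo 0 u huv]; exact hy.pos0 u (hInV u hu huv hus hut) hus hut
  · intro u hu hus hut
    by_cases huv : u = T.tail dv
    · rw [huv, hxv1]; exact ⟨ha1p, ha1s⟩
    · rw [hxo 1 u huv]; exact hy.pos1 u (hInV u hu huv hus hut) hus hut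
  · intro u hu hus hut
    by_cases huv : u = T.tail dv
    · rw [huv, hxv2]; exact ⟨ha2p, ha2s⟩
    · rw [hxo 2 u huv]; exact hy.pos2 u (hInV u hu huv hus hut) hus hut
  · intro d hd hdb
    by_cases hfv : T.At d.1 (T.tail dv)
    · obtain ⟨r, hr⟩ := hfv
      have hfn := hnear d.1 hd.1 ⟨r, hr⟩
      rcases E7_cases d.2 r with hk | hk | hk
      · have ht : T.tail d = T.tail dv := by
          change T.vt d.1 d.2 = _
          rw [hk]; exact hr
        have hdd : d = dv := h.hS.simple d dv hd h.hv ht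
        rw [ht, hdd, h.hvh, hxv1, hxv2, hxo 1 _ (Ne.symm hvs), hxo 2 _ (Ne.symm hvs), hy.x1s, hy.x2s]
        exact ⟨ha1s, ha2p⟩
      · exfalso
        have hdd : (d.1, r + 1) = d := by rw [← hk]
        rcases T.opposite h d.1 hfn r hr with h1 | ⟨_, h2⟩
        · rw [hdd] at h1
          exact hd.2 (T.E7_mem_far.1 h1).1
        · rw [hdd] at h2
          exact hdb (by rw [h2]; exact ⟨rfl, rfl⟩)
      · have ht : T.head d = T.tail dv := by
          change T.vt d.1 (d.2 + 1) = _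
          rw [hk, E7_f2]; exact hr
        have hdd : d = dz := T.in_unique S h.hS.simple d dz hd h.hz (ht.trans h.hzh.symm)
        rw [ht, hdd, hxv1, hxv2, hxo 1 _ hzv, hxo 2 _ hzv]
        exact ⟨ha1, ha2z⟩
    · have hbd : T.Bd (T.far S (T.tail dv)) d :=
        ⟨T.E7_mem_far.2 ⟨hd.1, hfv⟩, fun h' => hd.2 (T.E7_mem_far.1 h').1⟩
      have h1 := hy.bdr d hbd hdb
      have ht : T.tail d ≠ T.tail dv := fun h' => hfv ⟨d.2, h'⟩
      have hh : T.head d ≠ T.tail dv := fun h' => hfv ⟨d.2 + 1, h'⟩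
      rw [hxo 1 _ ht, hxo 1 _ hh, hxo 2 _ ht, hxo 2 _ hh]
      exact h1
  · intro f hf
    by_cases hfv : T.At f (T.tail dv)
    · obtain ⟨r, hr⟩ := hfv
      have hfn := hnear f hf ⟨r, hr⟩
      have hk := T.E7_key h y hy f hfn r hr
      have hw1 : T.vt f (r + 1) ≠ T.tail dv := fun h' => T.E7_ne1 f r (h'.trans hr.symm)
      have hw2 : T.vt f (r + 2) ≠ T.tail dv := fun h' => T.E7_ne2 f r (h'.trans hr.symm)
      have hN1 : T.E7_Nb S (T.tail dv) (T.vt f (r + 1)) := ⟨f, hfn, r, hr, Or.inl rfl⟩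
      have hN2 : T.E7_Nb S (T.tail dv) (T.vt f (r + 2)) := ⟨f, hfn, r, hr, Or.inr rfl⟩
      have hb1 : a1 < y 1 (T.vt f (r + 1)) := ha1' _ hN1 (T.fwd_ne h f hfn r hr)
      have hb2 : a2 < y 2 (T.vt f (r + 2)) := ha2' _ hN2 (T.bwd_ne h f hfn r hr)
      have e0 : T.vt f (0 + r) = T.tail dv := by rw [zero_add]; exact hr
      have e1 : T.vt f (1 + r) = T.vt f (r + 1) := by rw [add_comm]
      have e2 : T.vt f (2 + r) = T.vt f (r + 2) := by rw [add_comm]
      refine ⟨r, fun i j hij => ?_⟩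
      fin_cases i <;> fin_cases j
      · exact absurd rfl hij
      · change x 0 (T.vt f (1 + r)) < x 0 (T.vt f (0 + r))
        rw [e0, e1, hxv0, hxo 0 _ hw1]; exact ha0' _
      · change x 0 (T.vt f (2 + r)) < x 0 (T.vt f (0 + r))
        rw [e0, e2, hxv0, hxo 0 _ hw2]; exact ha0' _
      · change x 1 (T.vt f (0 + r)) < x 1 (T.vt f (1 + r))
        rw [e0, e1, hxv1, hxo 1 _ hw1]; exact hb1
      · exact absurd rfl hij
      · change x 1 (T.vt f (2 + r)) < x 1 (T.vt f (1 + r))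
        rw [e1, e2, hxo 1 _ hw1, hxo 1 _ hw2]; exact hk.1
      · change x 2 (T.vt f (0 + r)) < x 2 (T.vt f (2 + r))
        rw [e0, e2, hxv2, hxo 2 _ hw2]; exact hb2
      · change x 2 (T.vt f (1 + r)) < x 2 (T.vt f (2 + r))
        rw [e1, e2, hxo 2 _ hw1, hxo 2 _ hw2]; exact hk.2
      · exact absurd rfl hij
    · obtain ⟨r, hr⟩ := hy.lab f (T.E7_mem_far.2 ⟨hf, hfv⟩)
      refine ⟨r, fun i j hij => ?_⟩
      rw [hxo i _ (fun h' => hfv ⟨j + r, h'⟩), hxo i _ (fun h' => hfv ⟨i + r, h'⟩)]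
      exact hr i j hij

end LS35.Tri
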