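import Pool.Agent.LibLS35.D4
import Pool.Agent.LibLS35.D5
import Pool.Agent.LibLS35.D6
import Pool.Agent.LibLS35.D7
import Pool.Agent.LibLS35.E5
import Pool.Agent.LibLS35.E6
import Pool.Agent.LibLS35.E7

/-! Row D8 (SHORT/MEDIUM, assembly). Induction over disks. PLAN. Induction on `S.card` (strong), for all `b`. Let `s = tail b`. `exists_in S b` gives `dv` with `Bd S dv`, `head dv = tail b`;
`exists_in S dv` gives `dz` with `Bd S dz`, `head dz = tail dv`.
Case A: there is `d` with `tail d = tail dv`, `d.1 ∈ S`, `(op d).1 ∈ S` and a boundary dart `e` with `tail e = head d`. `split_exists` gives `Q`, `e`. `subdisk` gives `Disk Q`; for `S \ Q` apply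
`subdisk` to `Q' = S \ Q`, `e' = op e` (`hQ'`: `Bd (S \ Q) d'`: `(op d').1 ∉ S` gives `Bd S d'`, else `(op d').1 ∈ Q` gives `Bd Q (op d')`, so `op d' = e`, `d' = op e`, or `Bd S (op d')`, impossible as `d'.1 ∈ S`).
`Bd Q e`, `Bd (S \ Q) b`. Both are smaller (`(op e).1 ∈ S \ Q`, `e.1 ∈ Q`). `combine` with `hcom` from `common`.
Case B: no such `d`: `NC S b dv dz` holds. `far_cases`: if `far = ∅`, then `Rz ∅ (tail b) (head b) y` holds for the explicit functions `y 0 = 0`, `y 1 v = if v = tail b then 1 else 0`,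
`y 2 v = if v = head b then 1 else 0` (`InV ∅`, `Bd ∅` are empty). Otherwise `Bd far b` and `Disk far` (E4 `far_simple`, E5, E6), `far.card < S.card` (`dv.1` is at `tail dv`), induction hypothesis. Then `extend`. -/

namespace LS35.Tri

variable {V F : Type} [Fintype V] [Fintype F] (T : Tri V F)

private theorem rz_empty (s t : V) (hst : s ≠ t) : ∃ x, T.Rz ∅ s t x := by
  classical
  refine ⟨fun i v => if i = 0 then 0 else if i = 1 then (if v = s then 1 else 0) else (if v = t then 1 else 0), ?_⟩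
  have hv : ∀ v, ¬ T.InV ∅ v := by
    rintro v ⟨f, hf, _⟩
    exact absurd hf (Finset.notMem_empty f)
  refine ⟨by simp, by simp, by simp, by simp [hst.symm], by simp [hst], by simp, ?_, ?_, ?_, ?_, ?_⟩
  · intro v h
    exact absurd h (hv v)
  · intro v h
    exact absurd h (hv v)
  · intro v h
    exact absurd h (hv v)
  · intro d h
    exact absurd h.1 (Finset.notMem_empty _)
  · intro f h
    exact absurd h (Finset.notMem_empty _)

private theorem rz_aux (n : ℕ) : ∀ (S : Finset F), S.card = n → T.Disk S → ∀ b : Dart F, T.Bd S b →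
    ∃ x, T.Rz S (T.tail b) (T.head b) x := by
  classical
  induction n using Nat.strong_induction_on with
  | _ n ih =>
    intro S hcard hS b hb
    have ih' : ∀ S' : Finset F, S' ⊂ S → T.Disk S' → ∀ b : Dart F, T.Bd S' b →
        ∃ x, T.Rz S' (T.tail b) (T.head b) x := by
      intro S' hss hD b' hb'
      exact ih S'.card (hcard ▸ Finset.card_lt_card hss) S' rfl hD b' hb'
    obtain ⟨dv, hdv, hdvh⟩ := T.exists_in S b hb
    obtain ⟨dz, hdz, hdzh⟩ := T.exists_in S dv hdv
    by_cases hA : ∃ d, T.tail d = T.tail dv ∧ d.1 ∈ S ∧ (T.op d).1 ∈ S ∧ ∃ e, T.Bd S e ∧ T.tail e = T.head d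
    · obtain ⟨d, hd1, hd2, hd3, hd4⟩ := hA
      obtain ⟨Q, e, hQS, _, heQ, he1, he2, hbQ, hQ⟩ :=
        T.split_exists S hS b hb d hd2 hd3 ⟨dv, hdv, hd1.symm⟩ hd4
      have hDQ : T.Disk Q := T.subdisk S hS Q e hQS heQ he1 he2 hQ
      have hDQ' : T.Disk (S \ Q) := by
        refine T.subdisk S hS (S \ Q) (T.op e) Finset.sdiff_subset ?_ ?_ ?_ ?_
        · exact Finset.mem_sdiff.2 ⟨he1, he2⟩
        · rw [T.op_op]
          exact hQS heQ
        · rw [T.op_op]
          exact fun hc => (Finset.mem_sdiff.1 hc).2 heQ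
        · rintro d' ⟨h1, h2⟩
          have h1' := Finset.mem_sdiff.1 h1
          by_cases h3 : (T.op d').1 ∈ S
          · have h4 : (T.op d').1 ∈ Q := by
              by_contra hc
              exact h2 (Finset.mem_sdiff.2 ⟨h3, hc⟩)
            have h5 : T.Bd Q (T.op d') := ⟨h4, by rw [T.op_op]; exact h1'.2⟩
            rcases hQ _ h5 with h6 | h6
            · left
              rw [← h6, T.op_op]
            · exfalso
              have := h6.2
              rw [T.op_op] at this
              exact this h1'.1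
          · right
            exact ⟨h1'.1, h3⟩
      have hs1 : Q ⊂ S := by
        refine Finset.ssubset_iff_subset_ne.2 ⟨hQS, ?_⟩
        rintro rfl
        exact he2 he1
      have hs2 : S \ Q ⊂ S := by
        refine Finset.ssubset_iff_subset_ne.2 ⟨Finset.sdiff_subset, ?_⟩
        intro hc
        have : e.1 ∈ S \ Q := hc.symm ▸ hQS heQ
        exact (Finset.mem_sdiff.1 this).2 heQ
      obtain ⟨y', hy'⟩ := ih' Q hs1 hDQ e ⟨heQ, he2⟩
      obtain ⟨y, hy⟩ := ih' (S \ Q) hs2 hDQ' b
        ⟨Finset.mem_sdiff.2 ⟨hb.1, hbQ⟩, fun hc => hb.2 (Finset.mem_sdiff.1 hc).1⟩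
      refine T.combine S Q b e hb hbQ hQS heQ he1 he2 ?_ y y' (by convert hy) hy'
      intro x f g hf hfx hg hgQ hgx
      exact T.common S hS Q e hQS hQ x f g hf hfx hg hgQ hgx
    · have hNC : T.NC S b dv dz :=
        ⟨hS, hb, hdv, hdvh, hdz, hdzh, fun d h1 h2 h3 h4 => hA ⟨d, h1, h2, h3, h4⟩⟩
      rcases T.far_cases hNC with ⟨_, hfar, _⟩ | hbf
      · obtain ⟨y, hy⟩ := rz_empty T (T.tail b) (T.head b) (T.tail_ne_head b)
        exact T.extend hNC y (by rw [hfar]; exact hy)
      · have hDf : T.Disk (T.far S (T.tail dv)) :=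
          ⟨fun d e h1 h2 h3 => T.far_simple hNC d e h1 h2 h3, fun c hc hs => T.far_h1 hNC c hc hs,
            fun P hP hB => T.far_h0 hNC P hP hB⟩
        have hsub : T.far S (T.tail dv) ⊂ S := by
          refine Finset.ssubset_iff_subset_ne.2 ⟨?_, ?_⟩
          · unfold far
            exact Finset.filter_subset _ _
          · intro hc
            have h1 : dv.1 ∈ T.far S (T.tail dv) := hc.symm ▸ hdv.1
            unfold far at h1
            exact (Finset.mem_filter.1 h1).2 ⟨dv.2, rfl⟩
        obtain ⟨y, hy⟩ := ih' _ hsub hDf b hbf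
        exact T.extend hNC y hy

theorem rz_exists (S : Finset F) (hS : T.Disk S) (b : Dart F) (hb : T.Bd S b) : ∃ x, T.Rz S (T.tail b) (T.head b) x := by
  exact rz_aux T S.card S rfl hS b hb

end LS35.Tri
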