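import Mathlib

/-!
# LS35: line-stabbing exponent of marked planar triangulations (MP_0fb298_co)

A simple triangulation of the sphere is given by its oriented faces.  All rows use only these definitions.
-/

namespace LS35

/-- A (simple) triangulation of the sphere, given by its oriented faces: `vt f 0, vt f 1, vt f 2` are the corners of
the face `f` in counterclockwise order (on the sphere).  `uniq`: a directed edge belongs to at most one face (so the graph is
simple); `opp`: the reversed edge belongs to a face; `link`: the faces at a vertex form one cycle; `conn`: the graph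
is connected; `euler`: Euler's formula (`E = 3 F / 2`). -/
structure Tri (V F : Type) [Fintype V] [Fintype F] where
  vt : F → Fin 3 → V
  inj : ∀ f, Function.Injective (vt f)
  uniq : ∀ f g i j, vt f i = vt g j → vt f (i + 1) = vt g (j + 1) → f = g
  opp : ∀ f i, ∃ g j, vt g j = vt f (i + 1) ∧ vt g (j + 1) = vt f i
  link : ∀ f g i j, vt f i = vt g j → Relation.ReflTransGen
    (fun a b : F × Fin 3 => vt b.1 b.2 = vt a.1 a.2 ∧ vt b.1 (b.2 + 1) = vt a.1 (a.2 + 2)) (f, i) (g, j)
  conn : ∀ u v, Relation.ReflTransGen (fun a b => ∃ f i, vt f i = a ∧ vt f (i + 1) = b) u v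
  four : 4 ≤ Fintype.card V
  euler : Fintype.card F + 4 = 2 * Fintype.card V

/-- A dart (directed edge) is a face together with a corner: it goes from corner `i` to corner `i+1`. -/
abbrev Dart (F : Type) := F × Fin 3

namespace Tri

variable {V F : Type} [Fintype V] [Fintype F] (T : Tri V F)

/-- starting vertex of a dart -/
def tail (d : Dart F) : V := T.vt d.1 d.2

/-- end vertex of a dart -/
def head (d : Dart F) : V := T.vt d.1 (d.2 + 1)

/-- adjacency in the graph of the triangulation -/
def Adj (u v : V) : Prop := ∃ f i, T.vt f i = u ∧ T.vt f (i + 1) = v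

/-- `p` is a plane straight-line drawing of the graph: the vertices are distinct points and two different edges (closed
segments) meet only in common end vertices. -/
structure IsDrawing (p : V → ℝ × ℝ) : Prop where
  inj : Function.Injective p
  cross : ∀ u v u' v', T.Adj u v → T.Adj u' v' → ∀ x : ℝ × ℝ,
    x ∈ segment ℝ (p u) (p v) → x ∈ segment ℝ (p u') (p v') →
    (u = u' ∧ v = v') ∨ (u = v' ∧ v = u') ∨ ∃ w, (w = u ∨ w = v) ∧ (w = u' ∨ w = v') ∧ x = p w

/-- the closed triangle of the face `f` in the drawing `p` -/
def ctri (p : V → ℝ × ℝ) (f : F) : Set (ℝ × ℝ) := convexHull ℝ (Set.range fun i => p (T.vt f i))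

open Classical in
/-- The open region of the face `f` in the drawing `p`: if all vertices lie in the closed triangle of `f` then `f` is the
outer face and its region is the (unbounded) complement of the closed triangle; otherwise it is the open triangle. -/
noncomputable def region (p : V → ℝ × ℝ) (f : F) : Set (ℝ × ℝ) :=
  if ∀ v, p v ∈ T.ctri p f then (T.ctri p f)ᶜ else interior (T.ctri p f)

end Tri

/-- the line `α x + β y = γ` -/
def line (α β γ : ℝ) : Set (ℝ × ℝ) := {x | α * x.1 + β * x.2 = γ}

open Classical in
/-- `(a,b,c)`-triangulation: `a` faces, `b` marked faces (the set `M`), `a ≥ b > c > 0`, and in every plane straight-line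
drawing every line meets the open regions of at most `c` marked faces. -/
structure IsABC {V F : Type} [Fintype V] [Fintype F] (T : Tri V F) (M : Finset F) (a b c : ℕ) : Prop where
  ca : Fintype.card F = a
  cb : M.card = b
  cpos : 0 < c
  clt : c < b
  stab : ∀ p, T.IsDrawing p → ∀ α β γ : ℝ, (α ≠ 0 ∨ β ≠ 0) →
    (M.filter fun f => (T.region p f ∩ line α β γ).Nonempty).card ≤ c

end LS35
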