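import Pool.Agent.LibLS35.EDefs

/-! Row E1 (SHORT/MEDIUM). Notation: `v = tail dv`, `s = tail b`, `t = head b`, `z = tail dz`. First facts in the no-chord case.
PLAN. `v ≠ s`: `tail_ne_head dv`. `v ≠ t`: else `dv` goes from `t` to `s`, so `dv = op b` (`eq_op`), but `(op b).1 ∉ S`. `z ≠ s`: else `dz` is a boundary dart
starting at `s`, so `dz = b` by `simple`, `head dz = v = t`, contradiction.
`fwd_ne`: for `f ∈ near`, `vt f r = v`: the dart `(f, r)` goes from `v` to `vt f (r+1)`; if that is `z` then `(f, r) = op dz`, so `(op dz).1 = f ∈ S`, contradiction to `Bd S dz`. `bwd_ne`: the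
dart `(f, r+2)` goes from `vt f (r+2)` to `vt f (r+2+1) = v`; if its tail is `s` it is `op dv`, contradiction.
`fwd_face`: `w' = vt f (r+2) ≠ z`. Dart `g = (f, r+2)` from `w'` to `v`, `g.1 ∈ S`. If `(op g).1 ∉ S` then `Bd S g` ends at `v`, so `g = dz` (`in_unique`), `w' = z`,
contradiction. So `(op g).1 ∈ S`; `op g` starts at `v` and ends at `w'`: take the face `(op g).1` with `r' = (op g).2`. `bwd_face`: dart `g = (f, r)` from `v` to `w = vt f (r+1) ≠ s`; if
`(op g).1 ∉ S` then `g = dv` by `simple`, `w = s`; so `(op g).1 ∈ S`, `op g` goes from `w` to `v`: face `(op g).1`, `r' = (op g).2 + 1`, `r' + 2 = (op g).2`. -/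

namespace LS35.Tri

variable {V F : Type} [Fintype V] [Fintype F] (T : Tri V F)

private theorem E1_a (r : Fin 3) : r + 2 + 1 = r := by revert r; decide

private theorem E1_b (r : Fin 3) : r + 1 + 2 = r := by revert r; decide

private theorem E1_near {S : Finset F} {v : V} {f : F} : f ∈ T.near S v ↔ f ∈ S ∧ T.At f v := by
  simp only [near, Finset.mem_filter]

theorem nc_ne {S : Finset F} {b dv dz : Dart F} (h : T.NC S b dv dz) :
    T.tail dv ≠ T.tail b ∧ T.tail dv ≠ T.head b ∧ T.tail dz ≠ T.tail b ∧ T.tail dz ≠ T.tail dv := by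
  have h1 : T.tail dv ≠ T.tail b := by
    intro he
    exact T.tail_ne_head dv (he.trans h.hvh.symm)
  have h2 : T.tail dv ≠ T.head b := by
    intro he
    have h3 : dv = T.op b := T.eq_op he h.hvh
    apply h.hb.2
    rw [← h3]
    exact h.hv.1
  refine ⟨h1, h2, ?_, ?_⟩
  · intro he
    have h3 : dz = b := h.hS.simple dz b h.hz h.hb he
    apply h2
    rw [← h3]
    exact h.hzh.symm
  · intro he
    exact T.tail_ne_head dz (he.trans h.hzh.symm)

theorem fwd_ne {S : Finset F} {b dv dz : Dart F} (h : T.NC S b dv dz) (f : F) (hf : f ∈ T.near S (T.tail dv)) (r : Fin 3)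
    (hr : T.vt f r = T.tail dv) : T.vt f (r + 1) ≠ T.tail dz := by
  intro he
  have h1 : ((f, r) : Dart F) = T.op dz :=
    T.eq_op (show T.vt f r = T.head dz from hr.trans h.hzh.symm) (show T.vt f (r + 1) = T.tail dz from he)
  apply h.hz.2
  rw [← h1]
  exact ((E1_near T).1 hf).1

theorem bwd_ne {S : Finset F} {b dv dz : Dart F} (h : T.NC S b dv dz) (f : F) (hf : f ∈ T.near S (T.tail dv)) (r : Fin 3)
    (hr : T.vt f r = T.tail dv) : T.vt f (r + 2) ≠ T.tail b := by
  intro he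
  have h1 : ((f, r + 2) : Dart F) = T.op dv := by
    refine T.eq_op (show T.vt f (r + 2) = T.head dv from he.trans h.hvh.symm) ?_
    show T.vt f (r + 2 + 1) = T.tail dv
    rw [E1_a]
    exact hr
  apply h.hv.2
  rw [← h1]
  exact ((E1_near T).1 hf).1

theorem fwd_face {S : Finset F} {b dv dz : Dart F} (h : T.NC S b dv dz) (f : F) (hf : f ∈ T.near S (T.tail dv)) (r : Fin 3)
    (hr : T.vt f r = T.tail dv) (hz : T.vt f (r + 2) ≠ T.tail dz) :
    ∃ g ∈ T.near S (T.tail dv), ∃ r' : Fin 3, T.vt g r' = T.tail dv ∧ T.vt g (r' + 1) = T.vt f (r + 2) := by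
  have hfS := ((E1_near T).1 hf).1
  have hhead : T.head ((f, r + 2) : Dart F) = T.tail dv := by
    show T.vt f (r + 2 + 1) = T.tail dv
    rw [E1_a]
    exact hr
  have hin : (T.op ((f, r + 2) : Dart F)).1 ∈ S := by
    by_contra hc
    have h1 : T.Bd S ((f, r + 2) : Dart F) := ⟨hfS, hc⟩
    have h2 := T.in_unique S h.hS.simple _ dz h1 h.hz (hhead.trans h.hzh.symm)
    apply hz
    rw [← h2]
    rfl
  have ht : T.vt (T.op ((f, r + 2) : Dart F)).1 (T.op ((f, r + 2) : Dart F)).2 = T.tail dv :=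
    (T.tail_op ((f, r + 2) : Dart F)).trans hhead
  exact ⟨(T.op ((f, r + 2) : Dart F)).1, (E1_near T).2 ⟨hin, _, ht⟩, (T.op ((f, r + 2) : Dart F)).2, ht,
    T.head_op ((f, r + 2) : Dart F)⟩

theorem bwd_face {S : Finset F} {b dv dz : Dart F} (h : T.NC S b dv dz) (f : F) (hf : f ∈ T.near S (T.tail dv)) (r : Fin 3)
    (hr : T.vt f r = T.tail dv) (hs : T.vt f (r + 1) ≠ T.tail b) :
    ∃ g ∈ T.near S (T.tail dv), ∃ r' : Fin 3, T.vt g r' = T.tail dv ∧ T.vt g (r' + 2) = T.vt f (r + 1) := by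
  have hfS := ((E1_near T).1 hf).1
  have hin : (T.op ((f, r) : Dart F)).1 ∈ S := by
    by_contra hc
    have h1 : T.Bd S ((f, r) : Dart F) := ⟨hfS, hc⟩
    have h2 := h.hS.simple _ dv h1 h.hv hr
    apply hs
    have h3 : T.head ((f, r) : Dart F) = T.tail b := by
      rw [h2]
      exact h.hvh
    exact h3
  have ht : T.vt (T.op ((f, r) : Dart F)).1 ((T.op ((f, r) : Dart F)).2 + 1) = T.tail dv :=
    (T.head_op ((f, r) : Dart F)).trans hr
  refine ⟨(T.op ((f, r) : Dart F)).1, (E1_near T).2 ⟨hin, _, ht⟩, (T.op ((f, r) : Dart F)).2 + 1, ht, ?_⟩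
  rw [E1_b]
  exact T.tail_op ((f, r) : Dart F)

end LS35.Tri
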