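import Pool.Agent.LibLS35.E1
import Pool.Agent.LibLS35.E2

/-! Row E3 (SHORT/MEDIUM). Either all faces of `S` are at `v` (then `S` is a single triangle `v, s, t`) or the base dart `b` is a boundary dart of `far`.
PLAN. `(op b).1 ∉ S ⊇ far`. If `b.1 ∈ far` we are in the second case. Otherwise `f = b.1` is a face of `S` at `v`, `vt f r = v`; `v ≠ tail b, head b` (E1 `nc_ne`), so
`b = (f, r+1)`: `w = vt f (r+1) = s`, `w' = vt f (r+2) = t`. The dart `g = (f, r+2)` goes from `t` to `v`. If `(op g).1 ∈ S`: `op g` starts at `v`, its face is in `S`, `(op (op g)).1 = f ∈ S`, and `head (op g) = t` is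
a boundary vertex (`exists_out S b`): contradiction to `nochord`. So `Bd S g`. The dart `(f, r)` from `v` to `s`: if `(op (f, r)).1 ∈ S` again `nochord` fails with `head (f, r) = s = tail b`; so
`Bd S (f, r)`. Hence all three darts of `f` are boundary darts of `S`, so `Q = {f}` has `Bd Q ⊆ Bd S`; `h0`: `{f} = S` (not empty). -/

namespace LS35.Tri

private theorem E3_a : ∀ r j : Fin 3, r ≠ j → r ≠ j + 1 → j = r + 1 := by decide
private theorem E3_b : ∀ r : Fin 3, r + 2 = r + 1 + 1 := by decide
private theorem E3_c : ∀ r : Fin 3, r + 2 + 1 = r := by decide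
private theorem E3_d : ∀ r i : Fin 3, i = r ∨ i = r + 1 ∨ i = r + 2 := by decide

variable {V F : Type} [Fintype V] [Fintype F] (T : Tri V F)

theorem far_cases {S : Finset F} {b dv dz : Dart F} (h : T.NC S b dv dz) :
    (S = {b.1} ∧ T.far S (T.tail dv) = ∅ ∧ T.tail dz = T.head b) ∨ T.Bd (T.far S (T.tail dv)) b := by
  classical
  obtain ⟨n1, n2, -, -⟩ := T.nc_ne h
  by_cases hat : T.At b.1 (T.tail dv)
  · left
    obtain ⟨r, hr⟩ := hat
    have hrb : b.2 = r + 1 := by
      have e1 : r ≠ b.2 := by
        rintro rfl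
        exact n1 hr.symm
      have e2 : r ≠ b.2 + 1 := by
        rintro rfl
        exact n2 hr.symm
      exact E3_a _ _ e1 e2
    have hbe : b = (b.1, r + 1) := Prod.ext rfl hrb
    -- the dart from the end of `b` to `v`
    have hg1 : T.tail (b.1, r + 2) = T.head b := by
      unfold tail head
      rw [hrb, ← E3_b]
    have hg2 : T.head (b.1, r + 2) = T.tail dv := by
      unfold head
      simp only
      rw [E3_c]
      exact hr
    have ha1 : T.tail (b.1, r) = T.tail dv := hr
    have ha2 : T.head (b.1, r) = T.tail b := by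
      unfold tail head
      rw [hrb]
    have hbS : b.1 ∈ S := h.hb.1
    have hg : T.Bd S (b.1, r + 2) := by
      refine ⟨hbS, fun hop => ?_⟩
      refine h.nochord (T.op (b.1, r + 2)) ((T.tail_op _).trans hg2) hop ?_ ?_
      · rw [T.op_op]
        exact hbS
      · obtain ⟨e, he, he'⟩ := T.exists_out S b h.hb
        exact ⟨e, he, by rw [T.head_op, hg1, he']⟩
    have ha : T.Bd S (b.1, r) :=
      ⟨hbS, fun hop => h.nochord (b.1, r) ha1 hbS hop ⟨b, h.hb, ha2.symm⟩⟩
    have hb' : T.Bd S (b.1, r + 1) := hbe ▸ h.hb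
    have hS : S = {b.1} := by
      have hsub : ∀ d, T.Bd {b.1} d → T.Bd S d := by
        rintro ⟨f, i⟩ hd
        obtain rfl : f = b.1 := Finset.mem_singleton.1 hd.1
        rcases E3_d r i with rfl | rfl | rfl
        · exact ha
        · exact hb'
        · exact hg
      rcases h.hS.h0 {b.1} (Finset.singleton_subset_iff.2 hbS) hsub with h0 | h0
      · exact absurd h0 (Finset.singleton_ne_empty _)
      · exact h0.symm
    refine ⟨hS, ?_, ?_⟩
    · rw [Finset.eq_empty_iff_forall_notMem]
      intro f hf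
      obtain ⟨hf1, hf2⟩ := Finset.mem_filter.1 hf
      rw [hS, Finset.mem_singleton] at hf1
      subst hf1
      exact hf2 ⟨r, hr⟩
    · have e := T.in_unique S h.hS.simple dz (b.1, r + 2) h.hz hg (h.hzh.trans hg2.symm)
      rw [e, hg1]
  · right
    exact ⟨Finset.mem_filter.2 ⟨h.hb.1, hat⟩, fun hf => h.hb.2 (Finset.mem_filter.1 hf).1⟩

end LS35.Tri
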