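import Pool.Agent.LibLS35.D1
import Pool.Agent.LibLS35.D2

namespace LS35.Tri

variable {V F : Type} [Fintype V] [Fintype F] (T : Tri V F)

open Classical in
/-- faces of `S` at `v` -/
noncomputable def near (S : Finset F) (v : V) : Finset F := S.filter fun f => T.At f v

open Classical in
/-- faces of `S` not at `v` -/
noncomputable def far (S : Finset F) (v : V) : Finset F := S.filter fun f => ¬ T.At f v

/-- Situation in the main induction: `S` disk, `b` base dart (from `s` to `t`), `dv` the boundary dart ending at `s` (it starts at `v`), `dz` the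
boundary dart ending at `v` (it starts at `z`), and no edge at `v` is a chord. -/
structure NC (S : Finset F) (b dv dz : Dart F) : Prop where
  hS : T.Disk S
  hb : T.Bd S b
  hv : T.Bd S dv
  hvh : T.head dv = T.tail b
  hz : T.Bd S dz
  hzh : T.head dz = T.tail dv
  nochord : ∀ d, T.tail d = T.tail dv → d.1 ∈ S → (T.op d).1 ∈ S → ¬ ∃ e, T.Bd S e ∧ T.tail e = T.head d

end LS35.Tri
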