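import Pool.Agent.LibLS35.Defs

namespace LS35

/-- the set of all exponents `log_b c` of `(a,b,c)`-triangulations -/
def ExpSet : Set ℝ := {r | ∃ (V F : Type) (_ : Fintype V) (_ : Fintype F) (T : Tri V F) (M : Finset F) (a b c : ℕ),
  IsABC T M a b c ∧ r = Real.logb b c}

end LS35
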