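import Pool.Agent.LibLS35.O2

/-! Row O3 (SHORT). Three orders, no pair in the same direction for two consecutive ones: at most `n ^ 3` elements.
PLAN. `dilworth` for `r 0`, `r 1`, `r 2` gives `χ0, χ1, χ2`. The map `a ↦ (χ0 a, χ1 a, χ2 a)` from `M` to `range n ×ˢ range n ×ˢ range n` is injective on `M`: if `a ≠ b` have the same triple then each `r i` compares `a` and `b`; among the
three directions two agree, say `r i a b` and `r j a b` with `i ≠ j`; `j = i + 1` or `i = j + 1` in `Fin 3`: contradiction to `he`. `Finset.card_le_card_of_injOn`. -/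

namespace LS35

theorem three_orders {α : Type} [DecidableEq α] (r : Fin 3 → α → α → Prop) (hi : ∀ i a, ¬ r i a a)
    (ht : ∀ i a b c, r i a b → r i b c → r i a c) (he : ∀ i a b, ¬ (r i a b ∧ r (i + 1) a b)) (M : Finset α) (n : ℕ)
    (h : ∀ i A, A ⊆ M → (∀ a ∈ A, ∀ b ∈ A, ¬ r i a b) → A.card ≤ n) : M.card ≤ n ^ 3 := by
  have hd : ∀ i : Fin 3, ∃ χ : α → ℕ, (∀ a ∈ M, χ a < n) ∧
      ∀ a ∈ M, ∀ b ∈ M, a ≠ b → χ a = χ b → r i a b ∨ r i b a :=
    fun i => dilworth (r i) (hi i) (ht i) M n (h i)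
  choose χ h1 h2 using hd
  have hcard : (Fintype.piFinset (fun _ : Fin 3 => Finset.range n)).card = n ^ 3 := by
    rw [Fintype.card_piFinset]
    simp
  rw [← hcard]
  refine Finset.card_le_card_of_injOn (fun a i => χ i a) ?_ ?_
  · intro a ha
    rw [Finset.mem_coe, Fintype.mem_piFinset]
    exact fun i => Finset.mem_range.2 (h1 i a ha)
  · intro a ha b hb hab
    by_contra hne
    have key : ∀ i, r i a b ∨ r i b a := fun i => h2 i a ha b hb hne (congrFun hab i)
    have e : (2 + 1 : Fin 3) = 0 := by decide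
    have e1 : (0 + 1 : Fin 3) = 1 := by decide
    have e2 : (1 + 1 : Fin 3) = 2 := by decide
    have a0 := he 0 a b
    have a1 := he 1 a b
    have a2 := he 2 a b
    have b0 := he 0 b a
    have b1 := he 1 b a
    have b2 := he 2 b a
    rw [e1] at a0 b0
    rw [e2] at a1 b1
    rw [e] at a2 b2
    rcases key 0 with k0 | k0 <;> rcases key 1 with k1 | k1 <;> rcases key 2 with k2 | k2 <;> tauto

end LS35
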