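import Pool.Agent.LibLS35.D9
import Pool.Agent.LibLS35.G10
import Pool.Agent.LibLS35.G11
import Pool.Agent.LibLS35.G12
import Pool.Agent.LibLS35.P2
import Pool.Agent.LibLS35.O1
import Pool.Agent.LibLS35.O3

/-! Assembly of Theorem 1: every (a,b,c)-triangulation has `b ≤ (c-1)^3 + 1`. -/

namespace LS35

variable {V F : Type} [Fintype V] [Fintype F]

open Classical in
theorem antichain_le (T : Tri V F) (M : Finset F) (a b c : ℕ) (h : IsABC T M a b c) (f0 : F) (hf0 : f0 ∈ M)
    (x : Fin 3 → V → ℝ) (u : F → Fin 3 → V) (hR : T.Realizer f0 x u) (i : Fin 3) (A : Finset F) (hAM : A ⊆ M.erase f0)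
    (hA : ∀ f ∈ A, ∀ g ∈ A, ¬ Od x u i f g) : A.card + 1 ≤ c := by
  obtain ⟨p, γ, hS, hAp⟩ := T.stab_antichain f0 x u hR i A hA
  have hd := T.drawing_of_sign p f0 hS
  have hst := h.stab p hd 1 0 γ (Or.inl one_ne_zero)
  have hsub : insert f0 A ⊆ M.filter fun f => (T.region p f ∩ line 1 0 γ).Nonempty := by
    intro f hf
    rw [Finset.mem_insert] at hf
    rw [Finset.mem_filter]
    rcases hf with rfl | hf
    · refine ⟨hf0, ?_⟩
      rw [T.region_out p f hS]
      exact line_out (fun i => p (T.vt f i)) 1 0 γ (Or.inl one_ne_zero)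
    · have hfM := Finset.mem_erase.1 (hAM hf)
      refine ⟨hfM.2, ?_⟩
      rw [T.region_in p f0 hS f hfM.1]
      obtain ⟨r, hr⟩ := hR.rot f hfM.1
      obtain ⟨h1, h2⟩ := hAp f hf
      rw [hr] at h1 h2
      obtain ⟨y, hy1, hy2⟩ := line_in T p f (hS.1 f hfM.1) _ _ γ h1 h2
      refine ⟨y, hy2, ?_⟩
      simp only [line, Set.mem_setOf_eq]
      rw [hy1]; ring
  have hf0A : f0 ∉ A := fun hc => (Finset.mem_erase.1 (hAM hc)).1 rfl
  have := Finset.card_le_card hsub
  rw [Finset.card_insert_of_notMem hf0A] at this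
  omega

/-- every `(a,b,c)`-triangulation satisfies `b ≤ (c-1)^3 + 1` -/
theorem lower_bound (T : Tri V F) (M : Finset F) (a b c : ℕ) (h : IsABC T M a b c) : b ≤ (c - 1) ^ 3 + 1 := by
  classical
  have hM : M.Nonempty := by
    rw [← Finset.card_pos, h.cb]
    have := h.clt
    omega
  obtain ⟨f0, hf0⟩ := hM
  obtain ⟨x, u, hR⟩ := T.realizer_exists f0
  have key := three_orders (fun i => Od x u i) (fun i a => od_irrefl x u hR.lab i a)
    (fun i a b c => od_trans x u hR.lab i a b c) (fun i a b => od_excl x u hR.lab i a b) (M.erase f0) (c - 1)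
    (fun i A hAM hA => by
      have := antichain_le T M a b c h f0 hf0 x u hR i A hAM hA
      omega)
  rw [Finset.card_erase_of_mem hf0, h.cb] at key
  omega

end LS35
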