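import Pool.Agent.LibLS35.J4

/-! Row J5 (MEDIUM, counting). The new triangulation has the parameters `(a', b1 (b2 - 1), c1 (c2 - 1))`. `hc1`, `hc2`: `c1, c2 ≥ 2`.
PLAN. `cb`: `card_iM` and `h1.cb`, `h2.cb`. `cpos`, `clt`: `2 ≤ c1 < b1`, `2 ≤ c2 < b2` (nlinarith / `Nat.mul_lt_mul''`). `stab`: the filtered set `{a ∈ iM | met}` is the union over `f ∈ M1` of the images of `met f` under `g ↦ newF f g` (definition of `iM`, `met`), so its
card is `≤ ∑ f, (met f).card` (`Finset.card_biUnion_le`, or an injection into a sigma type). By `copies` (J4): first case: `(met f).card ≤ c2 - 1`, and `met f` is empty unless the line meets the region of `f` in `p1`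
(`met_old`), and at most `c1` marked faces are met (`h1.stab` with `draw_old`): sum `≤ c1 * (c2 - 1)`. Second case: only one copy counts: sum `≤ c2` (`copy_le`) `≤ c1 * (c2 - 1)` as `c1, c2 ≥ 2`. -/

namespace LS35

section

variable {V1 F1 V2 F2 : Type} [Fintype V1] [Fintype F1] [Fintype V2] [Fintype F2]
  (T1 : Tri V1 F1) (M1 : Finset F1) (T2 : Tri V2 F2) (t0 : F2)

private theorem J5_ne (M2 : Finset F2) (p : IV V1 M1 T2 t0 → ℝ × ℝ) (α β γ : ℝ) (f : {f : F1 // f ∈ M1}) (g : F2)
    (hg : g ∈ met T1 M1 T2 t0 M2 p α β γ f) : g ≠ t0 := by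
  classical
  unfold met at hg
  exact (Finset.mem_filter.1 hg).2.1

theorem ins_abc (M2 : Finset F2) (a1 b1 c1 a2 b2 c2 : ℕ) (h1 : IsABC T1 M1 a1 b1 c1) (h2 : IsABC T2 M2 a2 b2 c2)
    (ht : t0 ∈ M2) (hc1 : 2 ≤ c1) (hc2 : 2 ≤ c2) :
    IsABC (ins T1 M1 T2 t0) (iM M1 t0 M2) (Fintype.card (IF (F1 := F1) M1 t0)) (b1 * (b2 - 1)) (c1 * (c2 - 1)) := by
  classical
  have hb1 := h1.clt
  have hb2 := h2.clt
  refine ⟨rfl, ?_, ?_, ?_, ?_⟩
  · rw [card_iM M1 t0 M2 ht, h1.cb, h2.cb]
  · exact Nat.mul_pos (by omega) (by omega)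
  · exact Nat.mul_lt_mul'' (by omega) (by omega)
  · intro p hp α β γ hl
    have hsub : ((iM M1 t0 M2).filter fun a => ((ins T1 M1 T2 t0).region p a ∩ line α β γ).Nonempty) ⊆
        (Finset.univ : Finset {f : F1 // f ∈ M1}).biUnion fun f =>
          ((met T1 M1 T2 t0 M2 p α β γ f).attach.image fun g =>
            newF M1 t0 f g.1 (J5_ne T1 M1 T2 t0 M2 p α β γ f g.1 g.2)) := by
      intro a ha
      obtain ⟨ha1, ha2⟩ := Finset.mem_filter.1 ha
      unfold iM at ha1
      obtain ⟨-, f, g, hg, rfl, hgM⟩ := Finset.mem_filter.1 ha1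
      have hm : g ∈ met T1 M1 T2 t0 M2 p α β γ f := by
        unfold met
        exact Finset.mem_filter.2 ⟨hgM, hg, ha2⟩
      exact Finset.mem_biUnion.2 ⟨f, Finset.mem_univ _, Finset.mem_image.2 ⟨⟨g, hm⟩, Finset.mem_attach _ _, rfl⟩⟩
    have hcard : ((iM M1 t0 M2).filter fun a => ((ins T1 M1 T2 t0).region p a ∩ line α β γ).Nonempty).card ≤
        ∑ f : {f : F1 // f ∈ M1}, (met T1 M1 T2 t0 M2 p α β γ f).card := by
      refine (Finset.card_le_card hsub).trans (Finset.card_biUnion_le.trans ?_)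
      refine Finset.sum_le_sum fun f _ => ?_
      refine Finset.card_image_le.trans ?_
      rw [Finset.card_attach]
    refine hcard.trans ?_
    rcases copies T1 M1 T2 t0 M2 a2 b2 c2 h2 ht p hp α β γ hl with h | ⟨f, h⟩
    · have hs : ∑ f : {f : F1 // f ∈ M1}, (met T1 M1 T2 t0 M2 p α β γ f).card =
          ∑ f ∈ (Finset.univ : Finset {f : F1 // f ∈ M1}).filter
            (fun f => (met T1 M1 T2 t0 M2 p α β γ f).Nonempty), (met T1 M1 T2 t0 M2 p α β γ f).card := by
        symm
        refine Finset.sum_subset (Finset.filter_subset _ _) ?_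
        intro f _ hf
        rw [Finset.mem_filter, not_and] at hf
        rw [Finset.card_eq_zero]
        exact Finset.not_nonempty_iff_eq_empty.1 (hf (Finset.mem_univ _))
      rw [hs]
      have hle : ∑ f ∈ (Finset.univ : Finset {f : F1 // f ∈ M1}).filter
            (fun f => (met T1 M1 T2 t0 M2 p α β γ f).Nonempty), (met T1 M1 T2 t0 M2 p α β γ f).card ≤
          ((Finset.univ : Finset {f : F1 // f ∈ M1}).filter
            (fun f => (met T1 M1 T2 t0 M2 p α β γ f).Nonempty)).card * (c2 - 1) := by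
        rw [← smul_eq_mul]
        refine Finset.sum_le_card_nsmul _ _ _ fun f _ => ?_
        have := h f
        omega
      refine hle.trans (Nat.mul_le_mul_right _ ?_)
      have hst := h1.stab (fun v => p (oldV M1 T2 t0 v)) (draw_old T1 M1 T2 t0 p hp) α β γ hl
      refine le_trans ?_ hst
      refine Finset.card_le_card_of_injOn (fun f => f.1) ?_ (fun a _ b _ hab => Subtype.ext hab)
      intro f hf
      have hf1 := (Finset.mem_filter.1 (Finset.mem_coe.1 hf)).2
      refine Finset.mem_coe.2 (Finset.mem_filter.2 ⟨f.2, ?_⟩)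
      exact met_old T1 M1 T2 t0 M2 p hp α β γ hl f hf1
    · have hs : ∑ f' : {f : F1 // f ∈ M1}, (met T1 M1 T2 t0 M2 p α β γ f').card =
          (met T1 M1 T2 t0 M2 p α β γ f).card := by
        refine Finset.sum_eq_single f (fun f' _ hf' => ?_) (fun hf => absurd (Finset.mem_univ _) hf)
        rw [h f' hf', Finset.card_empty]
      rw [hs]
      refine (copy_le T1 M1 T2 t0 M2 a2 b2 c2 h2 p hp α β γ hl f).trans ?_
      obtain ⟨d, rfl⟩ : ∃ d, c2 = d + 2 := ⟨c2 - 2, by omega⟩
      have h5 : d + 2 - 1 = d + 1 := by omega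
      rw [h5]
      calc d + 2 ≤ 2 * (d + 1) := by omega
        _ ≤ c1 * (d + 1) := Nat.mul_le_mul_right _ hc1

end

end LS35
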