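import Mathlib

/-! Row K1 (SHORT/MEDIUM, real analysis). Logarithms.
PLAN. `log_step`: with `A = log (c-1)`, `B = log (b-1)`, `C = log c`, `D = log b` (all positive for `3 ≤ c < b`): claim `(C + A) / (D + B) < C / D`, i.e. `A D < C B`, i.e. `log (c-1) / log c < log (b-1) / log b`. The function
`x ↦ log (x-1) / log x` is strictly increasing on `[3, ∞)`: derivative sign: `x log x > (x-1) log (x-1)`; or directly: `log (c-1) = log c + log (1 - 1/c)`, so `1 - log(c-1)/log c = -log (1 - 1/c) / log c`, numerator decreasing and denominator increasing in `c`.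
(`A D < C B` follows from `C - A > D - B > 0` [as `c/(c-1) > b/(b-1)`] and `D > C`: `C B - A D = C B - A D`, with `A = C - u`, `B = D - v`, `u > v > 0`: `C (D - v) - (C - u) D = u D - v C > 0`.)
`log_limit`: `logb (b (b-1)^n) (c (c-1)^n) = (C + n A) / (D + n B) → A / B = logb (b-1) (c-1)` as `n → ∞` (divide by `n`). -/

namespace LS35

private theorem K1_ab (b c : ℕ) (hc : 3 ≤ c) (hb : c < b) :
    0 < Real.log ((c - 1 : ℕ) : ℝ) ∧ 0 < Real.log ((b - 1 : ℕ) : ℝ) ∧ 0 < Real.log (c : ℝ) ∧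
      Real.log (c : ℝ) < Real.log (b : ℝ) ∧ 0 < Real.log (b : ℝ) - Real.log ((b - 1 : ℕ) : ℝ) ∧
      Real.log (b : ℝ) - Real.log ((b - 1 : ℕ) : ℝ) <
        Real.log (c : ℝ) - Real.log ((c - 1 : ℕ) : ℝ) := by
  have hc' : (3 : ℝ) ≤ c := by exact_mod_cast hc
  have hb' : (c : ℝ) < b := by exact_mod_cast hb
  have hc1 : ((c - 1 : ℕ) : ℝ) = c - 1 := by
    rw [Nat.cast_sub (by omega)]; simp
  have hb1 : ((b - 1 : ℕ) : ℝ) = b - 1 := by
    rw [Nat.cast_sub (by omega)]; simp
  rw [hc1, hb1]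
  refine ⟨Real.log_pos (by linarith), Real.log_pos (by linarith), Real.log_pos (by linarith),
    Real.log_lt_log (by linarith) hb', ?_, ?_⟩
  · rw [sub_pos]
    exact Real.log_lt_log (by linarith) (by linarith)
  · rw [← Real.log_div (by linarith) (by linarith), ← Real.log_div (by linarith) (by linarith)]
    refine Real.log_lt_log (div_pos (by linarith) (by linarith)) ?_
    rw [div_lt_div_iff₀ (by linarith) (by linarith)]
    nlinarith

theorem log_step (b c : ℕ) (hc : 3 ≤ c) (hb : c < b) :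
    Real.logb ((b * (b - 1) : ℕ) : ℝ) ((c * (c - 1) : ℕ) : ℝ) < Real.logb b c := by
  obtain ⟨hA, hB, hC, hCD, hv, huv⟩ := K1_ab b c hc hb
  have hb0 : (b : ℝ) ≠ 0 := by
    have : 0 < b := by omega
    positivity
  have hc0 : (c : ℝ) ≠ 0 := by
    have : 0 < c := by omega
    positivity
  have hb10 : ((b - 1 : ℕ) : ℝ) ≠ 0 := by
    have : 0 < b - 1 := by omega
    positivity
  have hc10 : ((c - 1 : ℕ) : ℝ) ≠ 0 := by
    have : 0 < c - 1 := by omega
    positivity
  unfold Real.logb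
  rw [Nat.cast_mul, Nat.cast_mul, Real.log_mul hc0 hc10, Real.log_mul hb0 hb10]
  rw [div_lt_div_iff₀ (by linarith) (by linarith)]
  nlinarith

theorem log_limit (b c : ℕ) (hc : 3 ≤ c) (hb : c < b) : Filter.Tendsto
    (fun n : ℕ => Real.logb ((b * (b - 1) ^ n : ℕ) : ℝ) ((c * (c - 1) ^ n : ℕ) : ℝ)) Filter.atTop
    (nhds (Real.logb ((b - 1 : ℕ) : ℝ) ((c - 1 : ℕ) : ℝ))) := by
  obtain ⟨hA, hB, hC, hCD, hv, huv⟩ := K1_ab b c hc hb
  have hb0 : (b : ℝ) ≠ 0 := by
    have : 0 < b := by omega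
    positivity
  have hc0 : (c : ℝ) ≠ 0 := by
    have : 0 < c := by omega
    positivity
  have hb10 : ((b - 1 : ℕ) : ℝ) ≠ 0 := by
    have : 0 < b - 1 := by omega
    positivity
  have hc10 : ((c - 1 : ℕ) : ℝ) ≠ 0 := by
    have : 0 < c - 1 := by omega
    positivity
  have h1 : Filter.Tendsto (fun n : ℕ => (Real.log (c : ℝ) / n + Real.log ((c - 1 : ℕ) : ℝ)) /
      (Real.log (b : ℝ) / n + Real.log ((b - 1 : ℕ) : ℝ))) Filter.atTop
      (nhds ((0 + Real.log ((c - 1 : ℕ) : ℝ)) / (0 + Real.log ((b - 1 : ℕ) : ℝ)))) := by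
    refine Filter.Tendsto.div ?_ ?_ (by rw [zero_add]; exact hB.ne')
    · exact (tendsto_const_div_atTop_nhds_zero_nat _).add_const _
    · exact (tendsto_const_div_atTop_nhds_zero_nat _).add_const _
  rw [zero_add, zero_add] at h1
  refine h1.congr' ?_
  filter_upwards [Filter.eventually_ge_atTop 1] with n hn
  have hn0 : (0 : ℝ) < n := by exact_mod_cast hn
  unfold Real.logb
  rw [Nat.cast_mul, Nat.cast_mul, Nat.cast_pow, Nat.cast_pow, Real.log_mul hc0 (pow_ne_zero _ hc10),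
    Real.log_mul hb0 (pow_ne_zero _ hb10), Real.log_pow, Real.log_pow]
  have hD : 0 < Real.log (b : ℝ) := by linarith
  rw [div_eq_div_iff (by positivity) (by positivity)]
  field_simp

end LS35
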