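import Pool.Agent.LibLS35.Exp
import Pool.Agent.LibLS35.Final
import Pool.Agent.LibLS35.J5
import Pool.Agent.LibLS35.K1

/-! Assembly of Theorem 2. -/

namespace LS35

/-- `3 ≤ c` for every `(a,b,c)`-triangulation -/
theorem three_le {V F : Type} [Fintype V] [Fintype F] (T : Tri V F) (M : Finset F) (a b c : ℕ) (h : IsABC T M a b c) :
    3 ≤ c := by
  have hb := lower_bound T M a b c h
  have h1 := h.cpos
  have h2 := h.clt
  by_contra hcon
  have : c = 1 ∨ c = 2 := by omega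
  rcases this with rfl | rfl
  · simp at hb; omega
  · simp at hb; omega

/-- there is an `(a', b, c)`-triangulation for some `a'` -/
def Has (b c : ℕ) : Prop := ∃ (V F : Type) (_ : Fintype V) (_ : Fintype F) (T : Tri V F) (M : Finset F) (a : ℕ),
  IsABC T M a b c

theorem has_mul {b1 c1 b2 c2 : ℕ} (h1 : Has b1 c1) (h2 : Has b2 c2) : Has (b1 * (b2 - 1)) (c1 * (c2 - 1)) := by
  obtain ⟨V1, F1, i1, j1, T1, M1, a1, h1⟩ := h1
  obtain ⟨V2, F2, i2, j2, T2, M2, a2, h2⟩ := h2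
  have hc1 := three_le T1 M1 a1 b1 c1 h1
  have hc2 := three_le T2 M2 a2 b2 c2 h2
  have hM : M2.Nonempty := by
    rw [← Finset.card_pos, h2.cb]
    have := h2.clt
    omega
  obtain ⟨t0, ht⟩ := hM
  exact ⟨_, _, _, _, ins T1 M1 T2 t0, iM M1 t0 M2, _,
    ins_abc T1 M1 T2 t0 M2 a1 b1 c1 a2 b2 c2 h1 h2 ht (by omega) (by omega)⟩

theorem has_pow {b c : ℕ} (h : Has b c) (n : ℕ) : Has (b * (b - 1) ^ n) (c * (c - 1) ^ n) := by
  induction n with
  | zero => simpa using h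
  | succ n ih =>
    have := has_mul ih h
    rwa [mul_assoc, mul_assoc, ← pow_succ, ← pow_succ] at this

theorem has_exp {b c : ℕ} (h : Has b c) : Real.logb b c ∈ ExpSet := by
  obtain ⟨V, F, i, j, T, M, a, h⟩ := h
  exact ⟨V, F, i, j, T, M, a, b, c, h, rfl⟩

theorem has_bounds {b c : ℕ} (h : Has b c) : 3 ≤ c ∧ c < b := by
  obtain ⟨V, F, i, j, T, M, a, h⟩ := h
  exact ⟨three_le T M a b c h, h.clt⟩

end LS35
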