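import Pool.Agent.LibLS35.GDefs

/-! Row G1 (MEDIUM). Closed and open triangle in terms of signed areas.
PLAN of `hull_pos`. Let `D = dt (q 0) (q 1) (q 2) > 0`. Inclusion of the hull: the right side is convex (for every `i`, `x ↦ dt (q i) (q (i+1)) x` is affine) and contains the `q j` (values `0` or `D`);
`convexHull_min`. Conversely `x = ∑ λ i • q i` with `λ 0 = dt (q 1) (q 2) x / D`, `λ 1 = dt (q 2) (q 0) x / D`, `λ 2 = dt (q 0) (q 1) x / D` (sum 1 by `dt_sum`, identity by `field_simp; ring` in both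
coordinates). `int_pos`: the set `{∀ i, 0 < ..}` is open and contained in the hull, so in the interior; conversely if `x` is interior and `dt (q i) (q (i+1)) x = 0` for some `i` (it is `≥ 0`), the points
`x + τ • n`, `n = ((q (i+1)).2 - (q i).2, -((q (i+1)).1 - (q i).1))`, `τ > 0` small, are in the hull but have a negative value (`dt` changes by `-τ |q (i+1) - q i|^2`, and `q (i+1) ≠ q i` as `D ≠ 0`).
The negative versions: apply the positive ones to `q' = ![q 0, q 2, q 1]` (same range; `dt_swap`, `dt_rot`), or `q' i = q (-i)`. -/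

namespace LS35

open Filter Topology

private theorem dt_aff (P Q x y : ℝ × ℝ) (a b : ℝ) (hab : a + b = 1) :
    dt P Q (a • x + b • y) = a * dt P Q x + b * dt P Q y := by
  unfold dt
  simp only [Prod.fst_add, Prod.snd_add, Prod.smul_fst, Prod.smul_snd, smul_eq_mul]
  linear_combination (-((Q.2 - P.2) * P.1 - (Q.1 - P.1) * P.2)) * hab

private theorem dt_move (P Q x : ℝ × ℝ) (τ : ℝ) :
    dt P Q (x + τ • (Q.2 - P.2, -(Q.1 - P.1))) =
      dt P Q x - τ * ((Q.1 - P.1) ^ 2 + (Q.2 - P.2) ^ 2) := by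
  unfold dt
  simp only [Prod.fst_add, Prod.snd_add, Prod.smul_fst, Prod.smul_snd, smul_eq_mul]
  ring

private theorem len_pos {P Q R : ℝ × ℝ} (h : 0 < dt P Q R) :
    0 < (Q.1 - P.1) ^ 2 + (Q.2 - P.2) ^ 2 := by
  by_contra hc
  have h1 : Q.1 - P.1 = 0 := by nlinarith [sq_nonneg (Q.1 - P.1), sq_nonneg (Q.2 - P.2)]
  have h2 : Q.2 - P.2 = 0 := by nlinarith [sq_nonneg (Q.1 - P.1), sq_nonneg (Q.2 - P.2)]
  unfold dt at h
  rw [h1, h2] at h
  simp at h

private theorem dt_i (q : Fin 3 → ℝ × ℝ) (i : Fin 3) :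
    dt (q i) (q (i + 1)) (q (i + 2)) = dt (q 0) (q 1) (q 2) := by
  fin_cases i
  · rfl
  · exact dt_rot _ _ _
  · change dt (q 2) (q 0) (q 1) = _
    rw [← dt_rot (q 2) (q 0) (q 1)]

private theorem cont_dt (P Q : ℝ × ℝ) : Continuous (fun x => dt P Q x) := by
  unfold dt
  fun_prop

theorem hull_pos (q : Fin 3 → ℝ × ℝ) (h : 0 < dt (q 0) (q 1) (q 2)) :
    convexHull ℝ (Set.range q) = {x | ∀ i : Fin 3, 0 ≤ dt (q i) (q (i + 1)) x} := by
  apply Set.Subset.antisymm
  · apply convexHull_min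
    · rintro _ ⟨j, rfl⟩ i
      have e : j = i ∨ j = i + 1 ∨ j = i + 2 := by
        revert i j
        decide
      rcases e with rfl | rfl | rfl
      · have : dt (q j) (q (j + 1)) (q j) = 0 := by unfold dt; ring
        rw [this]
      · have : dt (q i) (q (i + 1)) (q (i + 1)) = 0 := by unfold dt; ring
        rw [this]
      · rw [dt_i]
        exact h.le
    · intro x hx y hy a b ha hb hab i
      rw [dt_aff _ _ _ _ _ _ hab]
      exact add_nonneg (mul_nonneg ha (hx i)) (mul_nonneg hb (hy i))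
  · intro x hx
    set D := dt (q 0) (q 1) (q 2) with hD
    have hs : ∑ i : Fin 3, dt (q (i + 1)) (q (i + 2)) x / D = 1 := by
      rw [← Finset.sum_div, div_eq_one_iff_eq h.ne', Fin.sum_univ_three]
      change dt (q 1) (q 2) x + dt (q 2) (q 0) x + dt (q 0) (q 1) x = D
      rw [hD, ← dt_sum (q 0) (q 1) (q 2) x]
      ring
    have hm : ∑ i : Fin 3, (dt (q (i + 1)) (q (i + 2)) x / D) • q i ∈ convexHull ℝ (Set.range q) := by
      apply (convex_convexHull ℝ (Set.range q)).sum_mem
      · intro i _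
        have h1 := hx (i + 1)
        have e : i + 1 + 1 = i + 2 := add_assoc _ _ _
        rw [e] at h1
        exact div_nonneg h1 h.le
      · exact hs
      · intro i _
        exact subset_convexHull ℝ _ ⟨i, rfl⟩
    have he : ∑ i : Fin 3, (dt (q (i + 1)) (q (i + 2)) x / D) • q i = x := by
      rw [Fin.sum_univ_three]
      change (dt (q 1) (q 2) x / D) • q 0 + (dt (q 2) (q 0) x / D) • q 1 + (dt (q 0) (q 1) x / D) • q 2 = x
      have hD0 : D ≠ 0 := h.ne'
      ext
      · simp only [Prod.fst_add, Prod.smul_fst, smul_eq_mul]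
        field_simp
        rw [hD]
        unfold dt
        ring
      · simp only [Prod.snd_add, Prod.smul_snd, smul_eq_mul]
        field_simp
        rw [hD]
        unfold dt
        ring
    rw [he] at hm
    exact hm

theorem int_pos (q : Fin 3 → ℝ × ℝ) (h : 0 < dt (q 0) (q 1) (q 2)) :
    interior (convexHull ℝ (Set.range q)) = {x | ∀ i : Fin 3, 0 < dt (q i) (q (i + 1)) x} := by
  apply Set.Subset.antisymm
  · intro x hx i
    have h1 : x ∈ {x | ∀ i : Fin 3, 0 ≤ dt (q i) (q (i + 1)) x} := by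
      rw [← hull_pos q h]
      exact interior_subset hx
    rcases (h1 i).lt_or_eq with h2 | h2
    · exact h2
    · exfalso
      set n : ℝ × ℝ := ((q (i + 1)).2 - (q i).2, -((q (i + 1)).1 - (q i).1)) with hn
      have hc : Tendsto (fun τ : ℝ => x + τ • n) (𝓝 0) (𝓝 x) := by
        have : Continuous (fun τ : ℝ => x + τ • n) := by fun_prop
        have h3 := this.tendsto 0
        simpa using h3
      have h3 : ∀ᶠ τ : ℝ in 𝓝[>] 0, x + τ • n ∈ convexHull ℝ (Set.range q) :=
        (hc.eventually (mem_interior_iff_mem_nhds.1 hx)).filter_mono nhdsWithin_le_nhds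
      obtain ⟨τ, h4, h5⟩ := (h3.and self_mem_nhdsWithin).exists
      rw [hull_pos q h] at h4
      have h6 := h4 i
      rw [hn, dt_move, ← h2] at h6
      have h7 : 0 < ((q (i + 1)).1 - (q i).1) ^ 2 + ((q (i + 1)).2 - (q i).2) ^ 2 := by
        apply len_pos (R := q (i + 2))
        rw [dt_i]
        exact h
      have h8 : 0 < τ * (((q (i + 1)).1 - (q i).1) ^ 2 + ((q (i + 1)).2 - (q i).2) ^ 2) :=
        mul_pos h5 h7
      linarith
  · apply interior_maximal
    · rw [hull_pos q h]
      intro x hx i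
      exact (hx i).le
    · have : {x : ℝ × ℝ | ∀ i : Fin 3, 0 < dt (q i) (q (i + 1)) x} =
          ⋂ i : Fin 3, {x | 0 < dt (q i) (q (i + 1)) x} := by
        ext x
        simp
      rw [this]
      exact isOpen_iInter_of_finite fun i => isOpen_lt continuous_const (cont_dt _ _)

private theorem range_neg (q : Fin 3 → ℝ × ℝ) : Set.range (fun i : Fin 3 => q (-i)) = Set.range q := by
  ext x
  constructor
  · rintro ⟨i, rfl⟩
    exact ⟨-i, rfl⟩
  · rintro ⟨i, rfl⟩
    exact ⟨-i, by simp⟩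

private theorem neg_pos' {q : Fin 3 → ℝ × ℝ} (h : dt (q 0) (q 1) (q 2) < 0) :
    0 < dt ((fun i : Fin 3 => q (-i)) 0) ((fun i : Fin 3 => q (-i)) 1) ((fun i : Fin 3 => q (-i)) 2) := by
  change 0 < dt (q 0) (q 2) (q 1)
  have : dt (q 0) (q 2) (q 1) = - dt (q 0) (q 1) (q 2) := by unfold dt; ring
  rw [this]
  linarith

private theorem neg_i : ∀ i : Fin 3, -(-(i + 1) + 1) = i := by decide

private theorem dt_neg_i (q : Fin 3 → ℝ × ℝ) (x : ℝ × ℝ) (i : Fin 3) :
    dt ((fun i : Fin 3 => q (-i)) i) ((fun i : Fin 3 => q (-i)) (i + 1)) x =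
      - dt (q (-(i + 1))) (q (-(i + 1) + 1)) x := by
  have e : -(i + 1) + 1 = -i := by
    revert i
    decide
  rw [e]
  exact dt_swap _ _ _

theorem hull_neg (q : Fin 3 → ℝ × ℝ) (h : dt (q 0) (q 1) (q 2) < 0) :
    convexHull ℝ (Set.range q) = {x | ∀ i : Fin 3, dt (q i) (q (i + 1)) x ≤ 0} := by
  rw [← range_neg q, hull_pos _ (neg_pos' h)]
  ext x
  simp only [Set.mem_ofPred_eq]
  constructor
  · intro hx i
    have h1 := hx (-(i + 1))
    rw [dt_neg_i] at h1
    have e : -(-(i + 1) + 1) = i := neg_i i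
    rw [e] at h1
    linarith
  · intro hx i
    rw [dt_neg_i]
    have := hx (-(i + 1))
    linarith

theorem int_neg (q : Fin 3 → ℝ × ℝ) (h : dt (q 0) (q 1) (q 2) < 0) :
    interior (convexHull ℝ (Set.range q)) = {x | ∀ i : Fin 3, dt (q i) (q (i + 1)) x < 0} := by
  rw [← range_neg q, int_pos _ (neg_pos' h)]
  ext x
  simp only [Set.mem_ofPred_eq]
  constructor
  · intro hx i
    have h1 := hx (-(i + 1))
    rw [dt_neg_i] at h1
    have e : -(-(i + 1) + 1) = i := neg_i i
    rw [e] at h1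
    linarith
  · intro hx i
    rw [dt_neg_i]
    have := hx (-(i + 1))
    linarith

end LS35
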