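import Pool.Agent.LibLS35.GDefs

/-! Row G2 (MEDIUM, plane case analysis). Crossing numbers of the three edges of a triangle. -/

namespace LS35

theorem cr_symm (x P Q : ℝ × ℝ) : cr x Q P = - cr x P Q := by
  classical
  have h : dt Q P x = - dt P Q x := dt_swap P Q x
  unfold cr
  rw [h]
  by_cases h1 : Q.1 ≤ x.1 <;> by_cases h2 : x.1 < P.1 <;> by_cases h3 : 0 < dt P Q x <;>
    by_cases h4 : P.1 ≤ x.1 <;> by_cases h5 : x.1 < Q.1 <;> by_cases h6 : dt P Q x < 0 <;>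
    first
    | (exfalso; linarith)
    | simp [h1, h2, h3, h4, h5, h6]

private theorem core (X p q r a b c : ℝ) (hD : 0 < a + b + c) (hX : (a + b + c) * X = a * p + b * q + c * r)
    (ha : a ≠ 0) (hb : b ≠ 0) (hc : c ≠ 0) (hp : X ≠ p) (hq : X ≠ q) (hr : X ≠ r) :
    (if q ≤ X ∧ X < p ∧ 0 < c then (1 : ℤ) else if p ≤ X ∧ X < q ∧ c < 0 then -1 else 0) +
    (if r ≤ X ∧ X < q ∧ 0 < a then (1 : ℤ) else if q ≤ X ∧ X < r ∧ a < 0 then -1 else 0) +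
    (if p ≤ X ∧ X < r ∧ 0 < b then (1 : ℤ) else if r ≤ X ∧ X < p ∧ b < 0 then -1 else 0) =
    if 0 < c ∧ 0 < a ∧ 0 < b then 1 else 0 := by
  rcases lt_or_gt_of_ne hp with h1 | h1 <;> rcases lt_or_gt_of_ne hq with h2 | h2 <;>
    rcases lt_or_gt_of_ne hr with h3 | h3 <;> rcases lt_or_gt_of_ne ha with h4 | h4 <;>
    rcases lt_or_gt_of_ne hb with h5 | h5 <;> rcases lt_or_gt_of_ne hc with h6 | h6 <;>
    first
    | (simp [h1, h2, h3, h4, h5, h6, h1.le, h2.le, h3.le, not_le.2 h1, not_le.2 h2, not_le.2 h3,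
        not_lt.2 h1.le, not_lt.2 h2.le, not_lt.2 h3.le, not_lt.2 h4.le, not_lt.2 h5.le, not_lt.2 h6.le]; done)
    | (exfalso
       have k1 := mul_pos (sub_pos.2 h1) (sub_pos.2 h4)
       have k2 := mul_pos (sub_pos.2 h2) (sub_pos.2 h5)
       have k3 := mul_pos (sub_pos.2 h3) (sub_pos.2 h6)
       nlinarith [k1, k2, k3])

open Classical in
theorem cr_face (x P Q R : ℝ × ℝ) (hD : 0 < dt P Q R) (h1 : dt P Q x ≠ 0) (h2 : dt Q R x ≠ 0) (h3 : dt R P x ≠ 0)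
    (hP : x.1 ≠ P.1) (hQ : x.1 ≠ Q.1) (hR : x.1 ≠ R.1) :
    cr x P Q + cr x Q R + cr x R P = if 0 < dt P Q x ∧ 0 < dt Q R x ∧ 0 < dt R P x then 1 else 0 := by
  have hs := dt_sum P Q R x
  have hX : (dt Q R x + dt R P x + dt P Q x) * x.1 = dt Q R x * P.1 + dt R P x * Q.1 + dt P Q x * R.1 := by
    unfold dt; ring
  have h := core x.1 P.1 Q.1 R.1 (dt Q R x) (dt R P x) (dt P Q x) (by linarith) hX h2 h3 h1 hP hQ hR
  unfold cr
  rw [← h]

end LS35
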