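import Pool.Agent.LibLS35.G2

/-! Row G3 (MEDIUM). A generic point lies in exactly one inner face if it lies in the outer face, and in none otherwise.
PLAN. Let `g d = cr x (p (tail d)) (p (head d))` for darts `d`. `g (op d) = - g d` (`tail_op`, `head_op`, `cr_symm`), and `op` is a bijection of `Dart F` (involution), so `∑ d, g d = ∑ d, g (op d) = - ∑ d, g d`, hence
`∑ d, g d = 0`. Also `∑ d, g d = ∑ f, ∑ i : Fin 3, g (f, i)` (`Fintype.sum_prod_type`, `Fin.sum_univ_three`). For `f ≠ f0`: `cr_face` with `P, Q, R = p (vt f 0), p (vt f 1), p (vt f 2)` (note `2 + 1 = 0` in `Fin 3`) gives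
`1` if `Pos p f x` (`Fin.forall_fin_three` or `decide`-style case split over `i`) and `0` otherwise. For `f0`: `ori < 0`: apply `cr_face` to `P, R, Q` (`dt_swap`, `dt_rot`, `cr_symm`): the sum is `-1` if `Neg p f0 x` and `0` otherwise. -/

namespace LS35.Tri

variable {V F : Type} [Fintype V] [Fintype F] (T : Tri V F)

open Classical in
theorem count (p : V → ℝ × ℝ) (f0 : F) (hS : T.Sign p f0) (x : ℝ × ℝ) (hx : T.Gen p x) :
    (Finset.univ.filter (fun f => f ≠ f0 ∧ T.Pos p f x)).card = if T.Neg p f0 x then 1 else 0 := by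
  set g : Dart F → ℤ := fun d => cr x (p (T.tail d)) (p (T.head d)) with hg
  have hop : ∀ d, g (T.op d) = - g d := by
    intro d
    simp only [hg]
    rw [T.tail_op, T.head_op]
    exact cr_symm _ _ _
  have hzero : ∑ d, g d = 0 := by
    have h1 := Equiv.sum_comp (Function.Involutive.toPerm T.op T.op_op) g
    have h2 : ∑ d, g ((Function.Involutive.toPerm T.op T.op_op) d) = ∑ d, - g d :=
      Finset.sum_congr rfl fun d _ => hop d
    rw [h2, Finset.sum_neg_distrib] at h1
    omega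
  have hface : ∀ f, ∑ i : Fin 3, g (f, i) = (if f ≠ f0 ∧ T.Pos p f x then (1 : ℤ) else 0) -
      (if f = f0 then (if T.Neg p f0 x then (1 : ℤ) else 0) else 0) := by
    intro f
    have n0 : dt (p (T.vt f 0)) (p (T.vt f 1)) x ≠ 0 := hx.1 (f, 0)
    have n1 : dt (p (T.vt f 1)) (p (T.vt f 2)) x ≠ 0 := hx.1 (f, 1)
    have n2 : dt (p (T.vt f 2)) (p (T.vt f 0)) x ≠ 0 := hx.1 (f, 2)
    have e0 : g (f, 0) = cr x (p (T.vt f 0)) (p (T.vt f 1)) := rfl
    have e1 : g (f, 1) = cr x (p (T.vt f 1)) (p (T.vt f 2)) := rfl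
    have e2 : g (f, 2) = cr x (p (T.vt f 2)) (p (T.vt f 0)) := rfl
    rw [Fin.sum_univ_three, e0, e1, e2]
    by_cases hf : f = f0
    · subst hf
      have hneg : T.ori p f < 0 := hS.2
      have hD : 0 < dt (p (T.vt f 0)) (p (T.vt f 2)) (p (T.vt f 1)) := by
        rw [← dt_rot, dt_swap, dt_rot]
        unfold ori at hneg
        linarith
      have s1 := dt_swap (p (T.vt f 0)) (p (T.vt f 1)) x
      have s2 := dt_swap (p (T.vt f 1)) (p (T.vt f 2)) x
      have s3 := dt_swap (p (T.vt f 2)) (p (T.vt f 0)) x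
      have h1 := cr_face x _ _ _ hD (by rw [s3]; exact neg_ne_zero.2 n2)
        (by rw [s2]; exact neg_ne_zero.2 n1) (by rw [s1]; exact neg_ne_zero.2 n0)
        (hx.2 _) (hx.2 _) (hx.2 _)
      rw [cr_symm x (p (T.vt f 2)) (p (T.vt f 0)), cr_symm x (p (T.vt f 1)) (p (T.vt f 2)),
        cr_symm x (p (T.vt f 0)) (p (T.vt f 1)), s1, s2, s3] at h1
      have h2 : T.Neg p f x ↔ (0 < -dt (p (T.vt f 2)) (p (T.vt f 0)) x ∧
          0 < -dt (p (T.vt f 1)) (p (T.vt f 2)) x ∧ 0 < -dt (p (T.vt f 0)) (p (T.vt f 1)) x) := by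
        constructor
        · intro h
          exact ⟨neg_pos.2 (h 2), neg_pos.2 (h 1), neg_pos.2 (h 0)⟩
        · rintro ⟨h3, h4, h5⟩ i
          fin_cases i
          · exact neg_pos.1 h5
          · exact neg_pos.1 h4
          · exact neg_pos.1 h3
      rw [if_neg (fun h => h.1 rfl), if_pos rfl]
      by_cases h3 : T.Neg p f x
      · rw [if_pos h3]
        rw [if_pos (h2.1 h3)] at h1
        omega
      · rw [if_neg h3]
        rw [if_neg (fun h => h3 (h2.2 h))] at h1
        omega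
    · have h1 := cr_face x _ _ _ (hS.1 f hf) n0 n1 n2 (hx.2 _) (hx.2 _) (hx.2 _)
      rw [h1, if_neg hf, sub_zero]
      have h2 : T.Pos p f x ↔ (0 < dt (p (T.vt f 0)) (p (T.vt f 1)) x ∧
          0 < dt (p (T.vt f 1)) (p (T.vt f 2)) x ∧ 0 < dt (p (T.vt f 2)) (p (T.vt f 0)) x) := by
        constructor
        · intro h
          exact ⟨h 0, h 1, h 2⟩
        · rintro ⟨h3, h4, h5⟩ i
          fin_cases i
          · exact h3
          · exact h4
          · exact h5
      by_cases h3 : T.Pos p f x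
      · rw [if_pos (h2.1 h3), if_pos ⟨hf, h3⟩]
      · rw [if_neg (fun h => h3 (h2.2 h)), if_neg (fun h => h3 h.2)]
  have htot : ∑ d, g d = ∑ f, ∑ i : Fin 3, g (f, i) := Fintype.sum_prod_type g
  rw [hzero] at htot
  rw [Finset.sum_congr rfl fun f _ => hface f, Finset.sum_sub_distrib, Finset.sum_ite_eq' Finset.univ f0,
    if_pos (Finset.mem_univ f0)] at htot
  have hcard : (((Finset.univ.filter (fun f => f ≠ f0 ∧ T.Pos p f x)).card : ℕ) : ℤ) =
      ∑ f, if f ≠ f0 ∧ T.Pos p f x then (1 : ℤ) else 0 := by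
    rw [Finset.card_filter]
    push_cast
    rfl
  rw [← hcard] at htot
  by_cases h3 : T.Neg p f0 x
  · rw [if_pos h3] at htot ⊢
    omega
  · rw [if_neg h3] at htot ⊢
    omega

end LS35.Tri
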