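import Pool.Agent.LibLS35.GDefs

/-! Row G6 (MEDIUM). Cone lemma: around the vertex `u` every generic direction `e` is in the open cone of a face at `u` different from `f0` (if `u` is on `f0`: for `e` in the cone of `f0`).
PLAN. For a dart `d` with tail `u` let `a d = p (head d) - p u`, `β d = cross (a d) e ≠ 0`, `α d = (a d).1 * e.1 + (a d).2 * e.2`, `t d = α d / β d`. IDENTITY (ring):
`cross a a' * (e.1^2 + e.2^2) = α' * β - α * β'`. So if `β, β'` have the same sign and `cross a a' > 0` then `t d < t d'` (and `e ≠ 0`). For a dart `d = (f, i)` with tail `u` let `N d = op (f, i+2)`: it starts at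
`vt f (i+2+1) = u` and ends at `vt f (i+2)`. If `f ≠ f0` then `cross (a d) (a (N d)) = dt (p u) (p (vt f (i+1))) (p (vt f (i+2))) > 0` (`hS`, `dt_cross`, `dt_rot`: cyclic rotation of `ori`). Suppose the conclusion is
false; then for `d.1 ≠ f0`, `β d > 0` we get `β (N d) > 0` (`cross e (a (N d)) = - β (N d)`), hence `t d < t (N d)`. If `d.1 = f0` then `β d < 0` by the second part of `hout`. So the finite set `{d | tail d = u, β d > 0}` is closed
under `N` and `t` increases: it is empty (argmax, `Finset.exists_max_image`). But: if `f0` is at `u`, `vt f0 i = u`, the dart `op (f0, i+2)` starts at `u`, ends at `vt f0 (i+2)` and has `β > 0` by `hout`. If `f0` is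
not at `u`: all `β d < 0`, all `d.1 ≠ f0`, so `t d < t (N d)` for all darts at `u` (same sign again), contradiction to the argmax over the nonempty (`T.exists_at u`) set of darts with tail `u`. -/

namespace LS35.Tri

variable {V F : Type} [Fintype V] [Fintype F] (T : Tri V F)

private theorem t_lt {a a' e : ℝ × ℝ} (hc : 0 < cross a a') (hs : 0 < cross a e * cross a' e) :
    (a.1 * e.1 + a.2 * e.2) / cross a e < (a'.1 * e.1 + a'.2 * e.2) / cross a' e := by
  have hid : cross a a' * (e.1 ^ 2 + e.2 ^ 2) =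
      (a'.1 * e.1 + a'.2 * e.2) * cross a e - (a.1 * e.1 + a.2 * e.2) * cross a' e := by
    unfold cross
    ring
  have h1 : cross a e ≠ 0 := fun h => by
    rw [h, zero_mul] at hs
    exact lt_irrefl _ hs
  have h2 : cross a' e ≠ 0 := fun h => by
    rw [h, mul_zero] at hs
    exact lt_irrefl _ hs
  have he : 0 < e.1 ^ 2 + e.2 ^ 2 := by
    by_contra hn
    have e1 : e.1 = 0 := by nlinarith [sq_nonneg e.1, sq_nonneg e.2]
    have e2 : e.2 = 0 := by nlinarith [sq_nonneg e.1, sq_nonneg e.2]
    apply h1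
    unfold cross
    rw [e1, e2]
    ring
  have h3 : 0 < (a'.1 * e.1 + a'.2 * e.2) / cross a' e - (a.1 * e.1 + a.2 * e.2) / cross a e := by
    have : (a'.1 * e.1 + a'.2 * e.2) / cross a' e - (a.1 * e.1 + a.2 * e.2) / cross a e =
        (cross a a' * (e.1 ^ 2 + e.2 ^ 2)) / (cross a e * cross a' e) := by
      rw [hid]
      field_simp
    rw [this]
    exact div_pos (mul_pos hc he) hs
  linarith

private theorem cross_comm' (a b : ℝ × ℝ) : cross a b = - cross b a := by
  unfold cross
  ring

private theorem ori_rot (p : V → ℝ × ℝ) (f : F) (i : Fin 3) :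
    cross (p (T.vt f (i + 1)) - p (T.vt f i)) (p (T.vt f (i + 2)) - p (T.vt f i)) = T.ori p f := by
  rw [← dt_cross]
  unfold ori
  fin_cases i
  · rfl
  · exact dt_rot _ _ _
  · change dt (p (T.vt f 2)) (p (T.vt f 0)) (p (T.vt f 1)) = _
    rw [← dt_rot (p (T.vt f 2)) (p (T.vt f 0)) (p (T.vt f 1))]

private theorem i21 (i : Fin 3) : i + 2 + 1 = i := by
  revert i
  decide

theorem cone (p : V → ℝ × ℝ) (f0 : F) (hS : T.Sign p f0) (u : V) (e : ℝ × ℝ)
    (hgen : ∀ d, T.tail d = u → cross (p (T.head d) - p u) e ≠ 0)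
    (hout : ∀ i, T.vt f0 i = u → 0 < cross (p (T.vt f0 (i + 2)) - p u) e ∧ 0 < cross e (p (T.vt f0 (i + 1)) - p u)) :
    ∃ f i, f ≠ f0 ∧ T.vt f i = u ∧ 0 < cross (p (T.vt f (i + 1)) - p u) e ∧ 0 < cross e (p (T.vt f (i + 2)) - p u) := by
  classical
  by_contra hcon
  push Not at hcon
  let a : Dart F → ℝ × ℝ := fun d => p (T.head d) - p u
  let t : Dart F → ℝ := fun d => ((a d).1 * e.1 + (a d).2 * e.2) / cross (a d) e
  let N : Dart F → Dart F := fun d => T.op (d.1, d.2 + 2)
  have hN1 : ∀ d, T.tail d = u → T.tail (N d) = u := by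
    intro d hd
    have h1 : T.tail (N d) = T.vt d.1 (d.2 + 2 + 1) := T.tail_op (d.1, d.2 + 2)
    rw [h1, i21]
    exact hd
  have hN2 : ∀ d, T.head (N d) = T.vt d.1 (d.2 + 2) := fun d => T.head_op (d.1, d.2 + 2)
  have hcr : ∀ d, T.tail d = u → d.1 ≠ f0 → 0 < cross (a d) (a (N d)) := by
    intro d hd hf
    have h1 := T.ori_rot p d.1 d.2
    have h2 : T.vt d.1 d.2 = u := hd
    rw [h2] at h1
    have h3 : cross (a d) (a (N d)) = T.ori p d.1 := by
      change cross (p (T.head d) - p u) (p (T.head (N d)) - p u) = _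
      rw [hN2]
      exact h1
    rw [h3]
    exact hS.1 _ hf
  have hstep : ∀ d, T.tail d = u → d.1 ≠ f0 → 0 < cross (a d) e → 0 < cross (a (N d)) e := by
    intro d hd hf hp
    have h1 := hcon d.1 d.2 hf hd hp
    have h2 : cross (a (N d)) e ≠ 0 := hgen _ (hN1 d hd)
    have h3 : cross e (a (N d)) ≤ 0 := by
      change cross e (p (T.head (N d)) - p u) ≤ 0
      rw [hN2]
      exact h1
    rw [cross_comm'] at h3
    rcases lt_or_gt_of_ne h2 with h4 | h4
    · linarith
    · exact h4
  have hf0 : ∀ d, T.tail d = u → d.1 = f0 → cross (a d) e < 0 := by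
    intro d hd hf
    have h1 : T.vt f0 d.2 = u := by rw [← hf]; exact hd
    have h2 := (hout d.2 h1).2
    rw [cross_comm'] at h2
    have h3 : a d = p (T.vt f0 (d.2 + 1)) - p u := by rw [← hf]; rfl
    rw [h3]
    linarith
  have hempty : ∀ d, T.tail d = u → ¬ 0 < cross (a d) e := by
    by_contra hne
    push Not at hne
    obtain ⟨d0, hd0, hp0⟩ := hne
    have hne' : (Finset.univ.filter fun d : Dart F => T.tail d = u ∧ 0 < cross (a d) e).Nonempty :=
      ⟨d0, by simp [hd0, hp0]⟩
    obtain ⟨d, hd, hmax⟩ := Finset.exists_max_image _ t hne'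
    simp only [Finset.mem_filter, Finset.mem_univ, true_and] at hd hmax
    have hf : d.1 ≠ f0 := fun h => by
      have := hf0 d hd.1 h
      linarith [hd.2]
    have h1 := hstep d hd.1 hf hd.2
    have h2 := hmax (N d) ⟨hN1 d hd.1, h1⟩
    have h3 : t d < t (N d) := t_lt (hcr d hd.1 hf) (mul_pos hd.2 h1)
    linarith
  by_cases hat : T.At f0 u
  · obtain ⟨i, hi⟩ := hat
    have h1 := (hout i hi).1
    have h2 : T.tail (T.op (f0, i + 2)) = u := by
      rw [T.tail_op]
      change T.vt f0 (i + 2 + 1) = u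
      rw [i21]
      exact hi
    apply hempty _ h2
    change 0 < cross (p (T.head (T.op (f0, i + 2))) - p u) e
    rw [T.head_op]
    exact h1
  · have hneg : ∀ d, T.tail d = u → cross (a d) e < 0 := by
      intro d hd
      rcases lt_or_gt_of_ne (hgen d hd) with h | h
      · exact h
      · exact absurd h (hempty d hd)
    obtain ⟨f, i, hi⟩ := T.exists_at u
    have hne' : (Finset.univ.filter fun d : Dart F => T.tail d = u).Nonempty :=
      ⟨(f, i), by simp only [Finset.mem_filter, Finset.mem_univ, true_and]; exact hi⟩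
    obtain ⟨d, hd, hmax⟩ := Finset.exists_max_image _ t hne'
    simp only [Finset.mem_filter, Finset.mem_univ, true_and] at hd hmax
    have hf : d.1 ≠ f0 := fun h => hat ⟨d.2, by rw [← h]; exact hd⟩
    have h2 := hmax (N d) (hN1 d hd)
    have h3 : t d < t (N d) :=
      t_lt (hcr d hd hf) (mul_pos_of_neg_of_neg (hneg d hd) (hneg _ (hN1 d hd)))
    linarith

end LS35.Tri
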