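import Pool.Agent.LibLS35.Basic

namespace LS35

open Classical in
/-- signed crossing of the edge from `P` to `Q` with the vertical ray above `x` (half-open convention) -/
noncomputable def cr (x P Q : ℝ × ℝ) : ℤ :=
  if Q.1 ≤ x.1 ∧ x.1 < P.1 ∧ 0 < dt P Q x then 1
  else if P.1 ≤ x.1 ∧ x.1 < Q.1 ∧ dt P Q x < 0 then -1 else 0

/-- cross product of plane vectors -/
def cross (a b : ℝ × ℝ) : ℝ := a.1 * b.2 - a.2 * b.1

theorem dt_rot (P Q R : ℝ × ℝ) : dt Q R P = dt P Q R := by unfold dt; ring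

theorem dt_swap (P Q R : ℝ × ℝ) : dt Q P R = - dt P Q R := by unfold dt; ring

theorem dt_cross (P Q R : ℝ × ℝ) : dt P Q R = cross (Q - P) (R - P) := by
  unfold dt cross; simp; ring

theorem dt_sum (P Q R x : ℝ × ℝ) : dt P Q x + dt Q R x + dt R P x = dt P Q R := by unfold dt; ring

end LS35
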