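import Pool.Agent.LibLS35.Basic

/-! Row H0 (SHORT). The boundary (mod 2) of a set of faces is even.
PLAN. `sym`: `op_op` and `add_comm`. `even`: `∑ (ind Q d.1 + ind Q (op d).1)` over the darts with tail `v`. The map
`ρ d = ((T.op d).1, (T.op d).2 + 1)` maps the set `D` of darts with tail `v` to itself (its tail is
`T.vt (op d).1 ((op d).2 + 1) = head (op d) = tail d = v`) and is injective (`+1` is injective on `Fin 3`, `op` is an involution), so it is a
bijection of `D` (finite: `Finset.sum_bij` / `Finset.sum_nbij` with `Finset.surj_on_of_inj_on_of_card_le`, or use the inverse `e ↦ T.op (e.1, e.2 - 1)`).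
So `∑ ind Q (op d).1 = ∑ ind Q (ρ d).1 = ∑ ind Q d.1` and `a + a = 0` in `ZMod 2` (`CharTwo.add_self_eq_zero`). -/

namespace LS35.Tri

variable {V F : Type} [Fintype V] [Fintype F] (T : Tri V F)

private theorem H0_key (Q : Finset F) (v : V) (s : Finset (Dart F))
    (hs : ∀ d, d ∈ s ↔ T.tail d = v) :
    ∑ d ∈ s, ind Q (T.op d).1 = ∑ d ∈ s, ind Q d.1 := by
  refine Finset.sum_bij' (fun d _ => (((T.op d).1, (T.op d).2 + 1) : Dart F))
    (fun e _ => T.op ((e.1, e.2 - 1) : Dart F)) ?_ ?_ ?_ ?_ ?_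
  · intro d hd
    rw [hs] at hd ⊢
    rw [← hd]
    exact T.head_op d
  · intro e he
    rw [hs] at he ⊢
    rw [T.tail_op, ← he]
    change T.vt e.1 (e.2 - 1 + 1) = T.vt e.1 e.2
    rw [sub_add_cancel]
  · intro d _
    have h : (((T.op d).1, (T.op d).2 + 1 - 1) : Dart F) = T.op d := by
      rw [add_sub_cancel_right]
    change T.op (((T.op d).1, (T.op d).2 + 1 - 1) : Dart F) = d
    rw [h, T.op_op]
  · intro e _
    change (((T.op (T.op ((e.1, e.2 - 1) : Dart F))).1,
      (T.op (T.op ((e.1, e.2 - 1) : Dart F))).2 + 1) : Dart F) = e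
    rw [T.op_op]
    change ((e.1, e.2 - 1 + 1) : Dart F) = e
    rw [sub_add_cancel]
  · intro d _
    rfl

theorem ev_bdy (Q : Finset F) : T.Ev (T.bdy Q) := by
  refine ⟨fun d => ?_, fun v => ?_⟩
  · unfold bdy
    rw [T.op_op, add_comm]
  · unfold bdy
    rw [Finset.sum_add_distrib, T.H0_key Q v _ (fun d => by simp)]
    exact CharTwo.add_self_eq_zero _

end LS35.Tri
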