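import Pool.Agent.LibLS35.Basic

namespace LS35.Tri

variable {V F : Type} [Fintype V] [Fintype F] (T : Tri V F)

/-- functions on darts with values in `ZMod 2` that agree on the two darts of an edge (1-chains mod 2) -/
noncomputable def symSub : Submodule (ZMod 2) (Dart F → ZMod 2) where
  carrier := {c | ∀ d, c (T.op d) = c d}
  add_mem' := by
    intro a b ha hb d
    simp only [Set.mem_setOf_eq] at ha hb
    simp [ha d, hb d]
  zero_mem' := by intro d; rfl
  smul_mem' := by
    intro r a ha d
    simp only [Set.mem_setOf_eq] at ha
    simp [ha d]

open Classical in
/-- the boundary map on functions on darts: value at `v` = sum over the darts starting at `v` -/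
noncomputable def bd1 : (Dart F → ZMod 2) →ₗ[ZMod 2] (V → ZMod 2) where
  toFun c v := ∑ d ∈ Finset.univ.filter (fun d => T.tail d = v), c d
  map_add' := by intro a b; funext v; simp [Finset.sum_add_distrib]
  map_smul' := by intro r a; funext v; simp [Finset.mul_sum]

end LS35.Tri
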