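import Pool.Agent.LibLS35.IDefs

/-! Row I1 (MEDIUM). Insertion: faces have three different corners, and a directed edge is in at most one face.
PLAN. `ivt_inj`: old faces by `T1.inj`, new ones by `emb_inj` and `T2.inj`. KEY `edge_old`: if a face `(f, g)` of a copy (`g ≠ t0`) has `ivt · i = oldV v`, `ivt · (i+1) = oldV w` then `v = T1.vt f k`, `w = T1.vt f (k+1)` for some `k`: by
`emb_eq_old` `T2.vt g i = T2.vt t0 j`, `v = T1.vt f (-j)`, `T2.vt g (i+1) = T2.vt t0 l`, `w = T1.vt f (-l)`; `l ≠ j` (`T2.inj`); `l = j + 1` would give `g = t0` (`T2.uniq`); so `l = j + 2 = j - 1`; take `k = -j`, `k + 1 = -l`.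
`ivt_uniq`: both old: `T1.uniq`; old and new: `edge_old` and `T1.uniq` give that the old (unmarked) face is the marked face `f`, contradiction; two new faces in copies `f`, `f'`: if one of the two ends is not old then
`f = f'` (`emb_new`) ; if both ends are old, `edge_old` twice and `T1.uniq` give `f = f'`; then `emb_inj` and `T2.uniq`. -/

namespace LS35

section

variable {V1 F1 V2 F2 : Type} [Fintype V1] [Fintype F1] [Fintype V2] [Fintype F2]
  (T1 : Tri V1 F1) (M1 : Finset F1) (T2 : Tri V2 F2) (t0 : F2)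

theorem ivt_inj (a : IF (F1 := F1) M1 t0) : Function.Injective (ivt T1 M1 T2 t0 a) := by
  rcases IF_cases M1 t0 a with ⟨f, hf, rfl⟩ | ⟨f, g, hg, rfl⟩
  · intro i j h
    rw [ivt_old, ivt_old] at h
    exact T1.inj f (oldV_inj M1 T2 t0 h)
  · intro i j h
    rw [ivt_new, ivt_new] at h
    exact T2.inj g (emb_inj T1 M1 T2 t0 f h)

private theorem I1_ne : ∀ i : Fin 3, ¬ i = i + 1 := by decide

private theorem I1_eq : ∀ l j : Fin 3, l ≠ j → l ≠ j + 1 → l = j + 2 := by decide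

private theorem I1_neg : ∀ j : Fin 3, -(j + 2) = -j + 1 := by decide

theorem edge_old (f : {f : F1 // f ∈ M1}) (g : F2) (hg : g ≠ t0) (i : Fin 3) (v w : V1)
    (h1 : emb T1 M1 T2 t0 f (T2.vt g i) = oldV M1 T2 t0 v) (h2 : emb T1 M1 T2 t0 f (T2.vt g (i + 1)) = oldV M1 T2 t0 w) :
    ∃ k : Fin 3, v = T1.vt f.1 k ∧ w = T1.vt f.1 (k + 1) := by
  obtain ⟨j, hj, hv⟩ := emb_eq_old T1 M1 T2 t0 f _ _ h1
  obtain ⟨l, hl, hw⟩ := emb_eq_old T1 M1 T2 t0 f _ _ h2
  have h3 : l ≠ j := by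
    rintro rfl
    have h4 := T2.inj g (hj.trans hl.symm)
    exact I1_ne i h4
  have h4 : l ≠ j + 1 := by
    rintro rfl
    exact hg (T2.uniq g t0 i j hj hl)
  have h5 : l = j + 2 := I1_eq l j h3 h4
  refine ⟨-j, hv, ?_⟩
  rw [hw, h5]
  congr 1
  exact I1_neg j

theorem ivt_uniq (a b : IF (F1 := F1) M1 t0) (i j : Fin 3) (h1 : ivt T1 M1 T2 t0 a i = ivt T1 M1 T2 t0 b j)
    (h2 : ivt T1 M1 T2 t0 a (i + 1) = ivt T1 M1 T2 t0 b (j + 1)) : a = b := by
  rcases IF_cases M1 t0 a with ⟨f, hf, rfl⟩ | ⟨f, g, hg, rfl⟩ <;>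
    rcases IF_cases M1 t0 b with ⟨f', hf', rfl⟩ | ⟨f', g', hg', rfl⟩
  · rw [ivt_old, ivt_old] at h1 h2
    have h3 : f = f' := T1.uniq f f' i j (oldV_inj M1 T2 t0 h1) (oldV_inj M1 T2 t0 h2)
    subst h3
    rfl
  · rw [ivt_old, ivt_new] at h1 h2
    obtain ⟨k, hk1, hk2⟩ := edge_old T1 M1 T2 t0 f' g' hg' j _ _ h1.symm h2.symm
    have h3 : f = f'.1 := T1.uniq f f'.1 i k hk1 hk2
    exact absurd (h3 ▸ f'.2) hf
  · rw [ivt_old, ivt_new] at h1 h2
    obtain ⟨k, hk1, hk2⟩ := edge_old T1 M1 T2 t0 f g hg i _ _ h1 h2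
    have h3 : f' = f.1 := T1.uniq f' f.1 j k hk1 hk2
    exact absurd (h3 ▸ f.2) hf'
  · rw [ivt_new, ivt_new] at h1 h2
    have key : f = f' := by
      by_cases ha : T2.At t0 (T2.vt g i)
      · by_cases hb : T2.At t0 (T2.vt g (i + 1))
        · obtain ⟨m, hm⟩ := ha
          obtain ⟨n, hn⟩ := hb
          have e1 : emb T1 M1 T2 t0 f (T2.vt g i) = oldV M1 T2 t0 (T1.vt f.1 (-m)) := by
            rw [← hm, emb_corner]
          have e2 : emb T1 M1 T2 t0 f (T2.vt g (i + 1)) = oldV M1 T2 t0 (T1.vt f.1 (-n)) := by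
            rw [← hn, emb_corner]
          obtain ⟨k, hk1, hk2⟩ := edge_old T1 M1 T2 t0 f g hg i _ _ e1 e2
          obtain ⟨k', hk1', hk2'⟩ := edge_old T1 M1 T2 t0 f' g' hg' j _ _ (h1.symm.trans e1)
            (h2.symm.trans e2)
          have h3 : f.1 = f'.1 := T1.uniq f.1 f'.1 k k' (hk1.symm.trans hk1') (hk2.symm.trans hk2')
          exact Subtype.ext h3
        · exact (emb_new T1 M1 T2 t0 f f' _ _ hb h2).1
      · exact (emb_new T1 M1 T2 t0 f f' _ _ ha h1).1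
    subst key
    have h3 : g = g' := T2.uniq g g' i j (emb_inj T1 M1 T2 t0 f h1) (emb_inj T1 M1 T2 t0 f h2)
    subst h3
    rfl

end

end LS35
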