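import Pool.Agent.LibLS35.IDefs

/-! Row I2 (SHORT/MEDIUM). Every directed edge of `T1`, and every directed edge of `T2` in every copy, is a directed edge of the new triangulation; opposite edges exist.
PLAN. `real_in`: `f` marked, dart `(f, k)`: let `j = -(k+1)`; the dart `(t0, j)` of `T2` goes from corner `j` to corner `j + 1 = -k`; `T2.op (t0, j) = (g, l)` goes from corner `-k` to corner `-(k+1)`, `g ≠ t0` (`op_face_ne`); by
`emb_corner` the face `newF f g` has the corners `oldV (T1.vt f k)` at `l` and `oldV (T1.vt f (k+1))` at `l + 1`. `real1`: unmarked `f`: `oldF`; marked: `real_in`. `real2`: `g ≠ t0`: `newF`. `g = t0`: the dart `(t0, i)` goes to `oldV (T1.vt f (-i))`,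
`oldV (T1.vt f (-i-1))`, i.e. it is the reverse of the dart `(f, -i-1)` of `T1`: apply `real1` to `T1.op (f, -i-1)`. `ivt_opp`: old face: `T1.opp` and `real1`; new face: `T2.opp` and `real2`. -/

namespace LS35

private theorem I2_a (k : Fin 3) : -(k + 1) + 1 = -k := by
  revert k
  decide

private theorem I2_b (k : Fin 3) : -(k + 1) = -k - 1 := by
  revert k
  decide

private theorem I2_d (i : Fin 3) : -(i + 1) = -i - 1 := by
  revert i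
  decide

private theorem I2_e (i : Fin 3) : -i - 1 + 1 = -i := by
  revert i
  decide

section

variable {V1 F1 V2 F2 : Type} [Fintype V1] [Fintype F1] [Fintype V2] [Fintype F2]
  (T1 : Tri V1 F1) (M1 : Finset F1) (T2 : Tri V2 F2) (t0 : F2)

theorem real_in (f : {f : F1 // f ∈ M1}) (k : Fin 3) : ∃ g, ∃ hg : g ≠ t0, ∃ l : Fin 3,
    ivt T1 M1 T2 t0 (newF M1 t0 f g hg) l = oldV M1 T2 t0 (T1.vt f.1 k) ∧
    ivt T1 M1 T2 t0 (newF M1 t0 f g hg) (l + 1) = oldV M1 T2 t0 (T1.vt f.1 (k + 1)) ∧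
    T2.vt g l = T2.vt t0 (-k) ∧ T2.vt g (l + 1) = T2.vt t0 (-k - 1) := by
  have ht : T2.tail (T2.op (t0, -(k + 1))) = T2.vt t0 (-k) := by
    rw [T2.tail_op]
    change T2.vt t0 (-(k + 1) + 1) = _
    rw [I2_a]
  have hh : T2.head (T2.op (t0, -(k + 1))) = T2.vt t0 (-(k + 1)) := T2.head_op _
  refine ⟨(T2.op (t0, -(k + 1))).1, T2.op_face_ne _, (T2.op (t0, -(k + 1))).2, ?_, ?_, ht, ?_⟩
  · rw [ivt_new]
    have h1 : T2.vt (T2.op (t0, -(k + 1))).1 (T2.op (t0, -(k + 1))).2 = T2.vt t0 (-k) := ht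
    rw [h1, emb_corner, neg_neg]
  · rw [ivt_new]
    have h1 : T2.vt (T2.op (t0, -(k + 1))).1 ((T2.op (t0, -(k + 1))).2 + 1) = T2.vt t0 (-(k + 1)) := hh
    rw [h1, emb_corner, neg_neg]
  · rw [← I2_b]
    exact hh

theorem real1 (f : F1) (k : Fin 3) : ∃ a l, ivt T1 M1 T2 t0 a l = oldV M1 T2 t0 (T1.vt f k) ∧
    ivt T1 M1 T2 t0 a (l + 1) = oldV M1 T2 t0 (T1.vt f (k + 1)) := by
  by_cases hf : f ∈ M1
  · obtain ⟨g, hg, l, h1, h2, -, -⟩ := real_in T1 M1 T2 t0 ⟨f, hf⟩ k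
    exact ⟨_, l, h1, h2⟩
  · exact ⟨oldF M1 t0 f hf, k, ivt_old T1 M1 T2 t0 f hf k, ivt_old T1 M1 T2 t0 f hf (k + 1)⟩

theorem real2 (f : {f : F1 // f ∈ M1}) (g : F2) (i : Fin 3) : ∃ a l,
    ivt T1 M1 T2 t0 a l = emb T1 M1 T2 t0 f (T2.vt g i) ∧
    ivt T1 M1 T2 t0 a (l + 1) = emb T1 M1 T2 t0 f (T2.vt g (i + 1)) := by
  by_cases hg : g = t0
  · subst hg
    have ht : T1.vt (T1.op (f.1, -i - 1)).1 (T1.op (f.1, -i - 1)).2 = T1.vt f.1 (-i - 1 + 1) := T1.tail_op _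
    have hh : T1.vt (T1.op (f.1, -i - 1)).1 ((T1.op (f.1, -i - 1)).2 + 1) = T1.vt f.1 (-i - 1) := T1.head_op _
    obtain ⟨a, l, h1, h2⟩ := real1 T1 M1 T2 g (T1.op (f.1, -i - 1)).1 (T1.op (f.1, -i - 1)).2
    refine ⟨a, l, ?_, ?_⟩
    · rw [h1, ht, I2_e, emb_corner]
    · rw [h2, hh, emb_corner, I2_d]
  · exact ⟨newF M1 t0 f g hg, i, ivt_new T1 M1 T2 t0 f g hg i, ivt_new T1 M1 T2 t0 f g hg (i + 1)⟩

theorem ivt_opp (a : IF (F1 := F1) M1 t0) (i : Fin 3) : ∃ b j,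
    ivt T1 M1 T2 t0 b j = ivt T1 M1 T2 t0 a (i + 1) ∧ ivt T1 M1 T2 t0 b (j + 1) = ivt T1 M1 T2 t0 a i := by
  rcases IF_cases M1 t0 a with ⟨f, hf, rfl⟩ | ⟨f, g, hg, rfl⟩
  · obtain ⟨b, j, h1, h2⟩ := real1 T1 M1 T2 t0 (T1.op (f, i)).1 (T1.op (f, i)).2
    have ht : T1.vt (T1.op (f, i)).1 (T1.op (f, i)).2 = T1.vt f (i + 1) := T1.tail_op _
    have hh : T1.vt (T1.op (f, i)).1 ((T1.op (f, i)).2 + 1) = T1.vt f i := T1.head_op _
    refine ⟨b, j, ?_, ?_⟩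
    · rw [h1, ht, ivt_old]
    · rw [h2, hh, ivt_old]
  · obtain ⟨b, j, h1, h2⟩ := real2 T1 M1 T2 t0 f (T2.op (g, i)).1 (T2.op (g, i)).2
    have ht : T2.vt (T2.op (g, i)).1 (T2.op (g, i)).2 = T2.vt g (i + 1) := T2.tail_op _
    have hh : T2.vt (T2.op (g, i)).1 ((T2.op (g, i)).2 + 1) = T2.vt g i := T2.head_op _
    refine ⟨b, j, ?_, ?_⟩
    · rw [h1, ht, ivt_new]
    · rw [h2, hh, ivt_new]

end

end LS35
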