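import Mathlib

/-! Row I3 (SHORT/MEDIUM). Rotation around a vertex: on a finite set reachability by an injective function is symmetric.
PLAN. Let `N x y` be the relation. Every `x` has exactly one `N`-successor: `(x.1, x.2+2)` has an opposite dart `y` (`opp x.1 (x.2+2)`: `vt y.1 y.2 = vt x.1 (x.2+2+1) = vt x.1 x.2`, `vt y.1 (y.2+1) = vt x.1 (x.2+2)`), unique by `uniq` and `inj`. It is
injective: `N x y`, `N x' y`: the darts `(x.1, x.2+2)` and `(x'.1, x'.2+2)` have the same ends, so they are equal. So there is an injective function `s : F × Fin 3 → F × Fin 3` with `N x y ↔ y = s x`; `F × Fin 3` is finite, so `s` is a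
permutation of finite order: `s^[m] = id` for some `m ≥ 1` (`Function.Injective.bijective_of_finite`, `isOfFinOrder_of_finite` for the permutation), and `x = s^[m-1] (s x)`. `ReflTransGen N x y ↔ ∃ n, y = s^[n] x`; if `y = s^[n] x` then `x = s^[m n - n] y`. -/

namespace LS35

private theorem I3_perm {A : Type} [Finite A] (N : A → A → Prop) (s : A → A)
    (h1 : ∀ x, N x (s x)) (h2 : ∀ x y, N x y → y = s x) (hs : Function.Injective s) {x y : A}
    (h : Relation.ReflTransGen N x y) : Relation.ReflTransGen N y x := by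
  let e : Equiv.Perm A := Equiv.ofBijective s (Finite.injective_iff_bijective.1 hs)
  have he : ∀ z, e z = s z := fun z => rfl
  have h3 : ∀ (n : ℕ) (a : A), Relation.ReflTransGen N a ((e ^ n) a) := by
    intro n a
    induction n with
    | zero => exact Relation.ReflTransGen.refl
    | succ n ih =>
      rw [pow_succ', Equiv.Perm.mul_apply, he]
      exact ih.tail (h1 _)
  have h4 : ∀ z, Relation.ReflTransGen N (s z) z := by
    intro z
    have hpos : 0 < orderOf e := orderOf_pos e
    have h5 := h3 (orderOf e - 1) (s z)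
    have h6 : (e ^ (orderOf e - 1)) (s z) = z := by
      rw [← he, ← Equiv.Perm.mul_apply, ← pow_succ, Nat.sub_add_cancel hpos, pow_orderOf_eq_one]
      rfl
    rwa [h6] at h5
  induction h with
  | refl => exact Relation.ReflTransGen.refl
  | tail _ hbc ih =>
    rw [h2 _ _ hbc]
    exact (h4 _).trans ih

theorem rot_symm {V F : Type} [Finite F] (vt : F → Fin 3 → V) (inj : ∀ f, Function.Injective (vt f))
    (uniq : ∀ f g i j, vt f i = vt g j → vt f (i + 1) = vt g (j + 1) → f = g)
    (opp : ∀ f i, ∃ g j, vt g j = vt f (i + 1) ∧ vt g (j + 1) = vt f i) (x y : F × Fin 3)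
    (h : Relation.ReflTransGen (fun a b : F × Fin 3 => vt b.1 b.2 = vt a.1 a.2 ∧ vt b.1 (b.2 + 1) = vt a.1 (a.2 + 2)) x y) :
    Relation.ReflTransGen (fun a b : F × Fin 3 => vt b.1 b.2 = vt a.1 a.2 ∧ vt b.1 (b.2 + 1) = vt a.1 (a.2 + 2)) y x := by
  have h21 : ∀ i : Fin 3, i + 2 + 1 = i := by decide
  have hex : ∀ a : F × Fin 3, ∃ b : F × Fin 3, vt b.1 b.2 = vt a.1 a.2 ∧
      vt b.1 (b.2 + 1) = vt a.1 (a.2 + 2) := by
    intro a
    obtain ⟨g, j, h1, h2⟩ := opp a.1 (a.2 + 2)
    rw [h21] at h1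
    exact ⟨(g, j), h1, h2⟩
  choose s hs using hex
  refine I3_perm _ s hs ?_ ?_ h
  · rintro a b ⟨h1, h2⟩
    have e1 : b.1 = (s a).1 := uniq b.1 (s a).1 b.2 (s a).2 (h1.trans (hs a).1.symm)
      (h2.trans (hs a).2.symm)
    refine Prod.ext e1 ?_
    have h3 := h1.trans (hs a).1.symm
    rw [e1] at h3
    exact inj _ h3
  · intro a b hab
    have h1 : vt a.1 a.2 = vt b.1 b.2 := by rw [← (hs a).1, ← (hs b).1, hab]
    have h2 : vt a.1 (a.2 + 2) = vt b.1 (b.2 + 2) := by rw [← (hs a).2, ← (hs b).2, hab]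
    have e1 : a.1 = b.1 := uniq a.1 b.1 (a.2 + 2) (b.2 + 2) h2 (by rw [h21, h21]; exact h1)
    refine Prod.ext e1 ?_
    rw [e1] at h1
    exact inj _ h1

end LS35
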