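import Pool.Agent.LibLS35.I1
import Pool.Agent.LibLS35.I2
import Pool.Agent.LibLS35.I3

/-! Row I4 (MEDIUM). Link of a vertex inside a copy. Abbreviation: `N' x y` is the relation of the statement for the new triangulation, `N2` the same for `T2`.
PLAN. `link_new`: `x = emb f v`, `v` no corner of `t0`. Both darts are in copies: an old face has only old corners (`emb_eq_old` would make `v` a corner), a new one in the copy `f'` has `f' = f` (`emb_new`), and the corner is `v`. So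
`a = newF f g`, `b = newF f g'`, `T2.vt g i = v = T2.vt g' j`. Follow `T2.link g g' i j` by induction (`ReflTransGen`): all faces met are at `v`, so `≠ t0`, and an `N2`-step gives an `N'`-step (apply `emb`).
`fan` (two darts of the copy `f` at the corner `c = T2.vt t0 m` in faces `≠ t0` are connected by `N'`): let `R` be the set of pairs `(g, i)`, `g ≠ t0`, `T2.vt g i = c`, such that `(newF f g, i)` is reachable from the first dart `(newF f g1, i1)`.
By `rot_symm` (with `ivt_inj`, `ivt_uniq`, `ivt_opp`) `R` is closed under `N2`-steps between faces `≠ t0` in both directions. Suppose `(g2, i2) ∉ R`. Let `d1` be the `N2`-successor of `(t0, m)` (it exists, `T2.opp t0 (m+2)`; its face is `≠ t0`). If `d1 ∈ R`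
then `R ∪ {(t0, m)}` is closed under `N2`-steps, so by `T2.link` it contains `(g2, i2)`, contradiction. If `d1 ∉ R` then the complement of `R` among the darts at `c` (with `(t0, m)`) is closed under `N2`-steps, and contains `(g2, i2)`, so by `T2.link` it contains
`(g1, i1)`, contradiction. -/

namespace LS35

section

variable {V1 F1 V2 F2 : Type} [Fintype V1] [Fintype F1] [Fintype V2] [Fintype F2]
  (T1 : Tri V1 F1) (M1 : Finset F1) (T2 : Tri V2 F2) (t0 : F2)

theorem link_new (f : {f : F1 // f ∈ M1}) (v : V2) (hv : ¬ T2.At t0 v) (a b : IF (F1 := F1) M1 t0) (i j : Fin 3)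
    (ha : ivt T1 M1 T2 t0 a i = emb T1 M1 T2 t0 f v) (hb : ivt T1 M1 T2 t0 b j = emb T1 M1 T2 t0 f v) :
    Relation.ReflTransGen (fun x y : IF (F1 := F1) M1 t0 × Fin 3 =>
      ivt T1 M1 T2 t0 y.1 y.2 = ivt T1 M1 T2 t0 x.1 x.2 ∧ ivt T1 M1 T2 t0 y.1 (y.2 + 1) = ivt T1 M1 T2 t0 x.1 (x.2 + 2))
      (a, i) (b, j) := by
  have key : ∀ (a : IF (F1 := F1) M1 t0) (i : Fin 3), ivt T1 M1 T2 t0 a i = emb T1 M1 T2 t0 f v →
      ∃ g, ∃ hg : g ≠ t0, a = newF M1 t0 f g hg ∧ T2.vt g i = v := by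
    intro a i ha
    rcases IF_cases M1 t0 a with ⟨f', hf', rfl⟩ | ⟨f', g, hg, rfl⟩
    · rw [ivt_old] at ha
      obtain ⟨j, hj, _⟩ := emb_eq_old T1 M1 T2 t0 f v _ ha.symm
      exact absurd ⟨j, hj.symm⟩ hv
    · rw [ivt_new] at ha
      obtain ⟨h1, h2⟩ := emb_new T1 M1 T2 t0 f f' v _ hv ha.symm
      subst h1
      exact ⟨g, hg, rfl, h2.symm⟩
  obtain ⟨g, hg, rfl, hgv⟩ := key a i ha
  obtain ⟨g', hg', rfl, hgv'⟩ := key b j hb
  have hl := T2.link g g' i j (hgv.trans hgv'.symm)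
  have claim : ∀ y : F2 × Fin 3, Relation.ReflTransGen
      (fun a b : F2 × Fin 3 => T2.vt b.1 b.2 = T2.vt a.1 a.2 ∧ T2.vt b.1 (b.2 + 1) = T2.vt a.1 (a.2 + 2))
      (g, i) y → T2.vt y.1 y.2 = v ∧ ∃ hy : y.1 ≠ t0,
      Relation.ReflTransGen (fun x y : IF (F1 := F1) M1 t0 × Fin 3 =>
      ivt T1 M1 T2 t0 y.1 y.2 = ivt T1 M1 T2 t0 x.1 x.2 ∧ ivt T1 M1 T2 t0 y.1 (y.2 + 1) = ivt T1 M1 T2 t0 x.1 (x.2 + 2))
      (newF M1 t0 f g hg, i) (newF M1 t0 f y.1 hy, y.2) := by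
    intro y hy
    induction hy with
    | refl => exact ⟨hgv, hg, Relation.ReflTransGen.refl⟩
    | @tail y z _ hyz ih =>
      obtain ⟨h1, hy', h2⟩ := ih
      have hz1 : T2.vt z.1 z.2 = v := hyz.1.trans h1
      have hz : z.1 ≠ t0 := by
        intro h
        rw [h] at hz1
        exact hv ⟨z.2, hz1⟩
      refine ⟨hz1, hz, h2.tail ?_⟩
      exact ⟨congrArg (emb T1 M1 T2 t0 f) hyz.1, congrArg (emb T1 M1 T2 t0 f) hyz.2⟩
  obtain ⟨_, _, h⟩ := claim (g', j) hl
  exact h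

theorem fan (f : {f : F1 // f ∈ M1}) (m : Fin 3) (g1 g2 : F2) (h1 : g1 ≠ t0) (h2 : g2 ≠ t0) (i1 i2 : Fin 3)
    (e1 : T2.vt g1 i1 = T2.vt t0 m) (e2 : T2.vt g2 i2 = T2.vt t0 m) :
    Relation.ReflTransGen (fun x y : IF (F1 := F1) M1 t0 × Fin 3 =>
      ivt T1 M1 T2 t0 y.1 y.2 = ivt T1 M1 T2 t0 x.1 x.2 ∧ ivt T1 M1 T2 t0 y.1 (y.2 + 1) = ivt T1 M1 T2 t0 x.1 (x.2 + 2))
      (newF M1 t0 f g1 h1, i1) (newF M1 t0 f g2 h2, i2) := by
  classical
  let N' : IF (F1 := F1) M1 t0 × Fin 3 → IF (F1 := F1) M1 t0 × Fin 3 → Prop := fun x y =>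
      ivt T1 M1 T2 t0 y.1 y.2 = ivt T1 M1 T2 t0 x.1 x.2 ∧ ivt T1 M1 T2 t0 y.1 (y.2 + 1) = ivt T1 M1 T2 t0 x.1 (x.2 + 2)
  let N2 : F2 × Fin 3 → F2 × Fin 3 → Prop := fun a b =>
      T2.vt b.1 b.2 = T2.vt a.1 a.2 ∧ T2.vt b.1 (b.2 + 1) = T2.vt a.1 (a.2 + 2)
  let R : F2 × Fin 3 → Prop := fun y => ∃ h : y.1 ≠ t0,
      Relation.ReflTransGen N' (newF M1 t0 f g1 h1, i1) (newF M1 t0 f y.1 h, y.2)
  have hstep : ∀ (y z : F2 × Fin 3) (hy : y.1 ≠ t0) (hz : z.1 ≠ t0), N2 y z →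
      N' (newF M1 t0 f y.1 hy, y.2) (newF M1 t0 f z.1 hz, z.2) := by
    intro y z hy hz h
    exact ⟨congrArg (emb T1 M1 T2 t0 f) h.1, congrArg (emb T1 M1 T2 t0 f) h.2⟩
  have hfwd : ∀ y z, R y → N2 y z → z.1 ≠ t0 → R z := by
    rintro y z ⟨hy, h⟩ hyz hz
    exact ⟨hz, h.tail (hstep y z hy hz hyz)⟩
  have hbwd : ∀ y z, R z → N2 y z → y.1 ≠ t0 → R y := by
    rintro y z ⟨hz, h⟩ hyz hy
    refine ⟨hy, h.trans ?_⟩
    exact rot_symm (ivt T1 M1 T2 t0) (ivt_inj T1 M1 T2 t0) (ivt_uniq T1 M1 T2 t0)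
      (ivt_opp T1 M1 T2 t0) _ _ (Relation.ReflTransGen.single (hstep y z hy hz hyz))
  have h3 : m + 2 + 1 = m := by
    rw [add_assoc]
    exact add_zero m
  obtain ⟨g, j, hgj, hgj1⟩ := T2.opp t0 (m + 2)
  rw [h3] at hgj
  have hgt : g ≠ t0 := by
    rintro rfl
    have h4 := T2.inj _ hgj
    subst h4
    have h5 := T2.inj _ hgj1
    revert h5
    generalize j = k
    revert k
    decide
  have hsucc : ∀ z, N2 (t0, m) z → z = (g, j) := by
    intro z hz
    have h4 : z.1 = g := T2.uniq z.1 g z.2 j (hz.1.trans hgj.symm) (hz.2.trans hgj1.symm)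
    obtain ⟨z1, z2⟩ := z
    simp only at h4
    subst h4
    have h5 : z2 = j := T2.inj _ (hz.1.trans hgj.symm)
    rw [h5]
  have hm : ∀ y : F2 × Fin 3, y.1 = t0 → T2.vt y.1 y.2 = T2.vt t0 m → y = (t0, m) := by
    rintro ⟨y1, y2⟩ h4 h5
    simp only at h4 h5
    subst h4
    rw [T2.inj _ h5]
  show Relation.ReflTransGen N' (newF M1 t0 f g1 h1, i1) (newF M1 t0 f g2 h2, i2)
  have hmain : R (g2, i2) := by
    by_cases hd : R (g, j)
    · have hl : Relation.ReflTransGen N2 (g1, i1) (g2, i2) := T2.link g1 g2 i1 i2 (e1.trans e2.symm)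
      have claim : ∀ y, Relation.ReflTransGen N2 (g1, i1) y →
          T2.vt y.1 y.2 = T2.vt t0 m ∧ (y.1 ≠ t0 → R y) := by
        intro y hy
        induction hy with
        | refl => exact ⟨e1, fun _ => ⟨h1, Relation.ReflTransGen.refl⟩⟩
        | @tail y z _ hyz ih =>
          refine ⟨hyz.1.trans ih.1, fun hz => ?_⟩
          by_cases hy : y.1 = t0
          · have h4 := hm y hy ih.1
            rw [h4] at hyz
            rw [hsucc z hyz]
            exact hd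
          · exact hfwd y z (ih.2 hy) hyz hz
      exact (claim _ hl).2 h2
    · by_contra hn
      have hl : Relation.ReflTransGen N2 (g2, i2) (g1, i1) := T2.link g2 g1 i2 i1 (e2.trans e1.symm)
      have claim : ∀ y, Relation.ReflTransGen N2 (g2, i2) y →
          T2.vt y.1 y.2 = T2.vt t0 m ∧ ¬ R y := by
        intro y hy
        induction hy with
        | refl => exact ⟨e2, hn⟩
        | @tail y z _ hyz ih =>
          refine ⟨hyz.1.trans ih.1, fun hz => ?_⟩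
          by_cases hy : y.1 = t0
          · have h4 := hm y hy ih.1
            rw [h4] at hyz
            rw [hsucc z hyz] at hz
            exact hd hz
          · exact ih.2 (hbwd y z hz hyz hy)
      exact (claim _ hl).2 ⟨h1, Relation.ReflTransGen.refl⟩
  obtain ⟨_, h⟩ := hmain
  exact h

end

end LS35
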