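import Pool.Agent.LibLS35.I4

/-! Row I5 (MEDIUM). Link of every vertex of the new triangulation.
PLAN. Let `x = ivt a i = ivt b j`. If `x = emb f v` with `v` no corner: `link_new`. Otherwise `x = oldV v`. For a dart `(c, l)` of the new triangulation at `oldV v` define its projection: `oldF h ↦ (h, l)`, and for `newF f g`:
`T2.vt g l = T2.vt t0 m`, `v = T1.vt f (-m)` (`emb_eq_old`), projection `(f, -m)`. CLAIM: if `(h, k)` is reached from the projection `(h0, k0)` of `(a, i)` by `T1`-rotation (`T1.link h0 h k0 k`), then every dart of the new triangulation with projection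
`(h, k)` is reachable from `(a, i)`. Induction: start: `h0` unmarked: the only dart is `(a, i)`; marked: `fan`. Step `(h, k) → (h', k')`, `T1.vt h' k' = T1.vt h k = v`, `T1.vt h' (k'+1) = T1.vt h (k+2)`: a dart `y` over `(h, k)` with third corner `ivt y.1 (y.2+2) =
oldV (T1.vt h (k+2))`: unmarked `h`: `(oldF h, k)`; marked `h`: `real_in` (I2) for `k + 2` gives a face `newF h g` with `ivt l = oldV (T1.vt h (k+2))`, `ivt (l+1) = oldV (T1.vt h (k+2+1)) = oldV v`: take `y = (newF h g, l + 1)` (`l + 1 + 2 = l`); its projection is `(h, k)`. A dart `z` over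
`(h', k')` with `ivt z.1 (z.2+1) = oldV (T1.vt h' (k'+1))`: unmarked: `(oldF h', k')`, marked: `real_in` for `k'`. Then `y → z` is a step of the new relation. `y` is reachable by induction, so `z`, and every dart over `(h', k')` by `fan` (or it is `z` itself if `h'` is
unmarked). -/

namespace LS35

section

variable {V1 F1 V2 F2 : Type} [Fintype V1] [Fintype F1] [Fintype V2] [Fintype F2]
  (T1 : Tri V1 F1) (M1 : Finset F1) (T2 : Tri V2 F2) (t0 : F2)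

private theorem I5_f1 : ∀ l : Fin 3, l + 1 + 2 = l := by decide

private theorem I5_f2 : ∀ k : Fin 3, - (k + 2) - 1 = - k := by decide

/-- the dart `y` lies over the dart `(h, k)` of `T1` -/
private def I5_Pr (y : IF (F1 := F1) M1 t0 × Fin 3) (h : F1) (k : Fin 3) : Prop :=
  (∃ hf, y.1 = oldF M1 t0 h hf ∧ y.2 = k) ∨
    ∃ (hf : h ∈ M1) (g : F2) (hg : g ≠ t0), y.1 = newF M1 t0 ⟨h, hf⟩ g hg ∧
      T2.vt g y.2 = T2.vt t0 (-k)

private theorem I5_P0 (y : IF (F1 := F1) M1 t0 × Fin 3) (h : F1) (k : Fin 3)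
    (hy : I5_Pr M1 T2 t0 y h k) : ivt T1 M1 T2 t0 y.1 y.2 = oldV M1 T2 t0 (T1.vt h k) := by
  rcases hy with ⟨hf, h1, h2⟩ | ⟨hf, g, hg, h1, h2⟩
  · rw [h1, h2, ivt_old]
  · rw [h1, ivt_new, h2, emb_corner, neg_neg]

private theorem I5_P1 (y : IF (F1 := F1) M1 t0 × Fin 3) (v : V1)
    (hy : ivt T1 M1 T2 t0 y.1 y.2 = oldV M1 T2 t0 v) :
    ∃ h k, T1.vt h k = v ∧ I5_Pr M1 T2 t0 y h k := by
  rcases IF_cases M1 t0 y.1 with ⟨f, hf, hy1⟩ | ⟨f, g, hg, hy1⟩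
  · rw [hy1, ivt_old] at hy
    exact ⟨f, y.2, oldV_inj M1 T2 t0 hy, Or.inl ⟨hf, hy1, rfl⟩⟩
  · rw [hy1, ivt_new] at hy
    obtain ⟨j, h1, h2⟩ := emb_eq_old T1 M1 T2 t0 f _ v hy
    refine ⟨f.1, -j, h2.symm, Or.inr ⟨f.2, g, hg, hy1, ?_⟩⟩
    rw [neg_neg]
    exact h1

private theorem I5_P2 (y y' : IF (F1 := F1) M1 t0 × Fin 3) (h : F1) (k : Fin 3)
    (hy : I5_Pr M1 T2 t0 y h k) (hy' : I5_Pr M1 T2 t0 y' h k) :
    Relation.ReflTransGen (fun x y : IF (F1 := F1) M1 t0 × Fin 3 =>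
      ivt T1 M1 T2 t0 y.1 y.2 = ivt T1 M1 T2 t0 x.1 x.2 ∧
        ivt T1 M1 T2 t0 y.1 (y.2 + 1) = ivt T1 M1 T2 t0 x.1 (x.2 + 2)) y y' := by
  rcases hy with ⟨hf, h1, h2⟩ | ⟨hf, g, hg, h1, h2⟩
  · rcases hy' with ⟨hf', h1', h2'⟩ | ⟨hf', g', hg', h1', h2'⟩
    · have : y = y' := Prod.ext (h1.trans h1'.symm) (h2.trans h2'.symm)
      rw [this]
    · exact absurd hf' hf
  · rcases hy' with ⟨hf', h1', h2'⟩ | ⟨hf', g', hg', h1', h2'⟩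
    · exact absurd hf hf'
    · have h3 := fan T1 M1 T2 t0 ⟨h, hf⟩ (-k) g g' hg hg' y.2 y'.2 h2 h2'
      rw [← h1, ← h1'] at h3
      exact h3

private theorem I5_P3 (h : F1) (k : Fin 3) : ∃ y : IF (F1 := F1) M1 t0 × Fin 3,
    I5_Pr M1 T2 t0 y h k ∧
      ivt T1 M1 T2 t0 y.1 (y.2 + 2) = oldV M1 T2 t0 (T1.vt h (k + 2)) := by
  by_cases hf : h ∈ M1
  · obtain ⟨g, hg, l, e1, e2, e3, e4⟩ := real_in T1 M1 T2 t0 ⟨h, hf⟩ (k + 2)
    refine ⟨(newF M1 t0 ⟨h, hf⟩ g hg, l + 1), Or.inr ⟨hf, g, hg, rfl, ?_⟩, ?_⟩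
    · show T2.vt g (l + 1) = _
      rw [e4, I5_f2]
    · show ivt T1 M1 T2 t0 (newF M1 t0 ⟨h, hf⟩ g hg) (l + 1 + 2) = _
      rw [I5_f1]
      exact e1
  · exact ⟨(oldF M1 t0 h hf, k), Or.inl ⟨hf, rfl, rfl⟩, rfl⟩

private theorem I5_P4 (h : F1) (k : Fin 3) : ∃ y : IF (F1 := F1) M1 t0 × Fin 3,
    I5_Pr M1 T2 t0 y h k ∧
      ivt T1 M1 T2 t0 y.1 (y.2 + 1) = oldV M1 T2 t0 (T1.vt h (k + 1)) := by
  by_cases hf : h ∈ M1
  · obtain ⟨g, hg, l, e1, e2, e3, e4⟩ := real_in T1 M1 T2 t0 ⟨h, hf⟩ k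
    exact ⟨(newF M1 t0 ⟨h, hf⟩ g hg, l), Or.inr ⟨hf, g, hg, rfl, e3⟩, e2⟩
  · exact ⟨(oldF M1 t0 h hf, k), Or.inl ⟨hf, rfl, rfl⟩, rfl⟩

theorem ivt_link (a b : IF (F1 := F1) M1 t0) (i j : Fin 3) (h : ivt T1 M1 T2 t0 a i = ivt T1 M1 T2 t0 b j) :
    Relation.ReflTransGen (fun x y : IF (F1 := F1) M1 t0 × Fin 3 =>
      ivt T1 M1 T2 t0 y.1 y.2 = ivt T1 M1 T2 t0 x.1 x.2 ∧ ivt T1 M1 T2 t0 y.1 (y.2 + 1) = ivt T1 M1 T2 t0 x.1 (x.2 + 2))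
      (a, i) (b, j) := by
  rcases IV_cases T1 M1 T2 t0 (ivt T1 M1 T2 t0 a i) with ⟨v, hv⟩ | ⟨f, v, hat, hv⟩
  · obtain ⟨h0, k0, hv0, hp0⟩ := I5_P1 T1 M1 T2 t0 (a, i) v hv
    obtain ⟨h1, k1, hv1, hp1⟩ := I5_P1 T1 M1 T2 t0 (b, j) v (h.symm.trans hv)
    have key : ∀ p : F1 × Fin 3, Relation.ReflTransGen
        (fun a b : F1 × Fin 3 => T1.vt b.1 b.2 = T1.vt a.1 a.2 ∧
          T1.vt b.1 (b.2 + 1) = T1.vt a.1 (a.2 + 2)) (h0, k0) p →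
        ∀ y, I5_Pr M1 T2 t0 y p.1 p.2 →
          Relation.ReflTransGen (fun x y : IF (F1 := F1) M1 t0 × Fin 3 =>
            ivt T1 M1 T2 t0 y.1 y.2 = ivt T1 M1 T2 t0 x.1 x.2 ∧
              ivt T1 M1 T2 t0 y.1 (y.2 + 1) = ivt T1 M1 T2 t0 x.1 (x.2 + 2)) (a, i) y := by
      intro p hp
      induction hp with
      | refl =>
        intro y hy
        exact I5_P2 T1 M1 T2 t0 (a, i) y h0 k0 hp0 hy
      | @tail p q _ hpq ih =>
        intro y hy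
        obtain ⟨y0, hy0, e0⟩ := I5_P3 T1 M1 T2 t0 p.1 p.2
        obtain ⟨z0, hz0, e1⟩ := I5_P4 T1 M1 T2 t0 q.1 q.2
        refine Relation.ReflTransGen.trans (Relation.ReflTransGen.tail (ih y0 hy0) (c := z0) ?_)
          (I5_P2 T1 M1 T2 t0 z0 y q.1 q.2 hz0 hy)
        refine ⟨?_, ?_⟩
        · rw [I5_P0 T1 M1 T2 t0 z0 q.1 q.2 hz0, I5_P0 T1 M1 T2 t0 y0 p.1 p.2 hy0, hpq.1]
        · rw [e1, e0, hpq.2]
    exact key (h1, k1) (T1.link h0 h1 k0 k1 (hv0.trans hv1.symm)) (b, j) hp1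
  · exact link_new T1 M1 T2 t0 f v hat a b i j hv (h.symm.trans hv)

end

end LS35
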