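import Pool.Agent.LibLS35.I2

/-! Row I6 (SHORT/MEDIUM). The new graph is connected.
PLAN. `Relation.ReflTransGen.lift` with `real1`: `u → v` in `T1` gives `oldV u →* oldV v`; with `real2`: `u →* v` in `T2` gives `emb f u →* emb f v`. `IV_cases`: a vertex `emb f v` is connected (both directions) with the corner
`emb f (T2.vt t0 0) = oldV (T1.vt f (-0))` (`emb_corner`) by `T2.conn`, and old vertices with old vertices by `T1.conn`. -/

namespace LS35

section

variable {V1 F1 V2 F2 : Type} [Fintype V1] [Fintype F1] [Fintype V2] [Fintype F2]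
  (T1 : Tri V1 F1) (M1 : Finset F1) (T2 : Tri V2 F2) (t0 : F2)

theorem ivt_conn (x y : IV V1 M1 T2 t0) : Relation.ReflTransGen (fun u v => ∃ a i,
    ivt T1 M1 T2 t0 a i = u ∧ ivt T1 M1 T2 t0 a (i + 1) = v) x y := by
  have hold : ∀ v w : V1, Relation.ReflTransGen (fun u v => ∃ a i,
      ivt T1 M1 T2 t0 a i = u ∧ ivt T1 M1 T2 t0 a (i + 1) = v)
      (oldV M1 T2 t0 v) (oldV M1 T2 t0 w) := by
    intro v w
    refine Relation.ReflTransGen.lift (oldV M1 T2 t0) ?_ _ _ (T1.conn v w)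
    rintro _ _ ⟨f, i, rfl, rfl⟩
    exact real1 T1 M1 T2 t0 f i
  have hnew : ∀ (f : {f : F1 // f ∈ M1}) (v w : V2), Relation.ReflTransGen (fun u v => ∃ a i,
      ivt T1 M1 T2 t0 a i = u ∧ ivt T1 M1 T2 t0 a (i + 1) = v)
      (emb T1 M1 T2 t0 f v) (emb T1 M1 T2 t0 f w) := by
    intro f v w
    refine Relation.ReflTransGen.lift (emb T1 M1 T2 t0 f) ?_ _ _ (T2.conn v w)
    rintro _ _ ⟨g, i, rfl, rfl⟩
    exact real2 T1 M1 T2 t0 f g i
  -- every vertex is connected with an old vertex in both directions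
  have hall : ∀ x : IV V1 M1 T2 t0, ∃ v : V1, Relation.ReflTransGen (fun u v => ∃ a i,
      ivt T1 M1 T2 t0 a i = u ∧ ivt T1 M1 T2 t0 a (i + 1) = v) x (oldV M1 T2 t0 v) ∧
      Relation.ReflTransGen (fun u v => ∃ a i,
      ivt T1 M1 T2 t0 a i = u ∧ ivt T1 M1 T2 t0 a (i + 1) = v) (oldV M1 T2 t0 v) x := by
    intro x
    rcases IV_cases T1 M1 T2 t0 x with ⟨v, rfl⟩ | ⟨f, v, -, rfl⟩
    · exact ⟨v, Relation.ReflTransGen.refl, Relation.ReflTransGen.refl⟩
    · refine ⟨T1.vt f.1 (-0), ?_, ?_⟩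
      · rw [← emb_corner T1 M1 T2 t0 f 0]
        exact hnew f _ _
      · rw [← emb_corner T1 M1 T2 t0 f 0]
        exact hnew f _ _
  obtain ⟨v, hv, -⟩ := hall x
  obtain ⟨w, -, hw⟩ := hall y
  exact hv.trans ((hold v w).trans hw)

end

end LS35
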