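import Pool.Agent.LibLS35.IDefs

/-! Row I7 (SHORT/MEDIUM). Numbers of faces, vertices and marked faces (`m = |M1|`).
PLAN. `Fintype.card_sum`, `Fintype.card_prod`, `Fintype.card_subtype_compl`, `Fintype.card_coe`; `{g // g ≠ t0}` has `card F2 - 1` elements; `{v // ¬ At t0 v}` has `card V2 - 3` elements because the corners of `t0` are three different vertices
(`T2.inj t0`: the set `{v | At t0 v}` is the image of the injective map `T2.vt t0` on `Fin 3`). Fintype instances are unique (`Fintype.card_congr (Equiv.refl _)` or `convert`/`Subsingleton.elim`). The statements are additive to avoid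
natural subtraction. `card_iM`: `iM` is the image of `(f, g) ↦ newF f g` on `M1.attach ×ˢ (M2.erase t0)`, injective. -/

namespace LS35

section

variable {V1 F1 V2 F2 : Type} [Fintype V1] [Fintype F1] [Fintype V2] [Fintype F2]
  (T1 : Tri V1 F1) (M1 : Finset F1) (T2 : Tri V2 F2) (t0 : F2)

theorem card_IF : Fintype.card (IF (F1 := F1) M1 t0) + 2 * M1.card = Fintype.card F1 + M1.card * Fintype.card F2 := by
  classical
  have h1 : Fintype.card (IF (F1 := F1) M1 t0) = Fintype.card {f : F1 // f ∉ M1} +
      Fintype.card {f : F1 // f ∈ M1} * Fintype.card {g : F2 // g ≠ t0} := by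
    rw [← Fintype.card_prod, ← Fintype.card_sum]
  have h2 : Fintype.card {f : F1 // f ∈ M1} = M1.card := Fintype.card_coe M1
  have h3 : Fintype.card {f : F1 // f ∉ M1} + M1.card = Fintype.card F1 := by
    rw [Fintype.card_subtype_compl, h2]
    exact Nat.sub_add_cancel (Finset.card_le_univ M1)
  have h4 : Fintype.card {g : F2 // g ≠ t0} + 1 = Fintype.card F2 := by
    rw [Fintype.card_subtype_compl, Fintype.card_subtype_eq]
    exact Nat.sub_add_cancel (Fintype.card_pos_iff.2 ⟨t0⟩)
  rw [h1, h2, ← h3, ← h4]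
  ring

include T1 in
theorem card_IV : Fintype.card (IV V1 M1 T2 t0) + 3 * M1.card = Fintype.card V1 + M1.card * Fintype.card V2 := by
  classical
  have h1 : Fintype.card (IV V1 M1 T2 t0) = Fintype.card V1 +
      Fintype.card {f : F1 // f ∈ M1} * Fintype.card {v : V2 // ¬ T2.At t0 v} := by
    rw [← Fintype.card_prod, ← Fintype.card_sum]
  have h2 : Fintype.card {f : F1 // f ∈ M1} = M1.card := Fintype.card_coe M1
  have h3 : Fintype.card {v : V2 // T2.At t0 v} = 3 := by
    rw [Fintype.card_subtype]
    have h4 : (Finset.univ.filter fun v : V2 => T2.At t0 v) = Finset.univ.image (T2.vt t0) := by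
      ext v
      rw [Finset.mem_filter, Finset.mem_image]
      constructor
      · rintro ⟨_, i, hi⟩
        exact ⟨i, Finset.mem_univ _, hi⟩
      · rintro ⟨i, _, hi⟩
        exact ⟨Finset.mem_univ _, i, hi⟩
    rw [h4, Finset.card_image_of_injective _ (T2.inj t0), Finset.card_univ, Fintype.card_fin]
  have h5 : Fintype.card {v : V2 // ¬ T2.At t0 v} + 3 = Fintype.card V2 := by
    rw [Fintype.card_subtype_compl, h3]
    apply Nat.sub_add_cancel
    rw [← h3]
    exact Fintype.card_subtype_le _
  rw [h1, h2, ← h5]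
  ring

theorem card_iM (M2 : Finset F2) (h : t0 ∈ M2) : (iM M1 t0 M2).card = M1.card * (M2.card - 1) := by
  classical
  have h1 : (iM M1 t0 M2) = ((M1.attach ×ˢ (M2.erase t0).attach).image fun q : {f // f ∈ M1} × {g // g ∈ M2.erase t0} =>
      newF M1 t0 q.1 q.2.1 (Finset.ne_of_mem_erase q.2.2)) := by
    ext a
    simp only [iM, Finset.mem_filter, Finset.mem_univ, true_and, Finset.mem_image]
    constructor
    · rintro ⟨f, g, hg, rfl, hM⟩
      exact ⟨(f, ⟨g, Finset.mem_erase.2 ⟨hg, hM⟩⟩), Finset.mem_product.2 ⟨Finset.mem_attach _ _, Finset.mem_attach _ _⟩, rfl⟩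
    · rintro ⟨q, _, rfl⟩
      exact ⟨q.1, q.2.1, Finset.ne_of_mem_erase q.2.2, rfl, Finset.mem_of_mem_erase q.2.2⟩
  rw [h1, Finset.card_image_of_injective, Finset.card_product, Finset.card_attach, Finset.card_attach,
    Finset.card_erase_of_mem h]
  rintro ⟨f, g, hg⟩ ⟨f', g', hg'⟩ heq
  have h2 : (Sum.inr (f, ⟨g, Finset.ne_of_mem_erase hg⟩) : IF (F1 := F1) M1 t0) =
      Sum.inr (f', ⟨g', Finset.ne_of_mem_erase hg'⟩) := heq
  injection h2 with h3
  injection h3 with h4 h5
  injection h5 with h6
  subst h4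
  subst h6
  rfl

end

end LS35
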