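import Pool.Agent.LibLS35.Basic

/-! Insertion of copies of `T2` (minus the face `t0`) into the marked faces `M1` of `T1`: definitions and first facts. -/

namespace LS35

section Ins

variable {V1 F1 V2 F2 : Type} [Fintype V1] [Fintype F1] [Fintype V2] [Fintype F2]

/-- vertices: those of `T1`, and for every marked face of `T1` the vertices of `T2` that are not corners of `t0` -/
abbrev IV (V1 : Type) {F1 V2 F2 : Type} (M1 : Finset F1) [Fintype V2] [Fintype F2] (T2 : Tri V2 F2) (t0 : F2) : Type :=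
  V1 ⊕ ({f : F1 // f ∈ M1} × {v : V2 // ¬ T2.At t0 v})

/-- faces: the unmarked faces of `T1`, and for every marked face of `T1` the faces of `T2` except `t0` -/
abbrev IF {F1 F2 : Type} (M1 : Finset F1) (t0 : F2) : Type :=
  {f : F1 // f ∉ M1} ⊕ ({f : F1 // f ∈ M1} × {g : F2 // g ≠ t0})

noncomputable instance (M1 : Finset F1) (T2 : Tri V2 F2) (t0 : F2) : Fintype (IV V1 M1 T2 t0) := by
  classical
  unfold IV
  infer_instance

noncomputable instance (M1 : Finset F1) (t0 : F2) : Fintype (IF (F1 := F1) M1 t0) := by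
  classical
  unfold IF
  infer_instance

variable (T1 : Tri V1 F1) (M1 : Finset F1) (T2 : Tri V2 F2) (t0 : F2)

open Classical in
/-- the vertex `v` of `T2` in the copy in the face `f`: the corner `j` of `t0` becomes the corner `-j` of `f` -/
noncomputable def emb (f : {f : F1 // f ∈ M1}) (v : V2) : IV V1 M1 T2 t0 :=
  if h : T2.At t0 v then Sum.inl (T1.vt f.1 (-h.choose)) else Sum.inr (f, ⟨v, h⟩)

/-- corners of the faces of the new triangulation -/
noncomputable def ivt (a : IF (F1 := F1) M1 t0) (i : Fin 3) : IV V1 M1 T2 t0 :=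
  match a with
  | Sum.inl f => Sum.inl (T1.vt f.1 i)
  | Sum.inr (f, g) => emb T1 M1 T2 t0 f (T2.vt g.1 i)

/-- old faces -/
def oldF (f : F1) (hf : f ∉ M1) : IF (F1 := F1) M1 t0 := Sum.inl ⟨f, hf⟩

/-- faces of the copies -/
def newF (f : {f : F1 // f ∈ M1}) (g : F2) (hg : g ≠ t0) : IF (F1 := F1) M1 t0 := Sum.inr (f, ⟨g, hg⟩)

/-- old vertices -/
def oldV (v : V1) : IV V1 M1 T2 t0 := Sum.inl v

theorem ivt_old (f : F1) (hf : f ∉ M1) (i : Fin 3) : ivt T1 M1 T2 t0 (oldF M1 t0 f hf) i = oldV M1 T2 t0 (T1.vt f i) := rfl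

theorem ivt_new (f : {f : F1 // f ∈ M1}) (g : F2) (hg : g ≠ t0) (i : Fin 3) :
    ivt T1 M1 T2 t0 (newF M1 t0 f g hg) i = emb T1 M1 T2 t0 f (T2.vt g i) := rfl

theorem IF_cases (a : IF (F1 := F1) M1 t0) : (∃ f hf, a = oldF M1 t0 f hf) ∨ ∃ f g hg, a = newF M1 t0 f g hg := by
  rcases a with ⟨f, hf⟩ | ⟨f, g, hg⟩
  · exact Or.inl ⟨f, hf, rfl⟩
  · exact Or.inr ⟨f, g, hg, rfl⟩

theorem IV_cases (x : IV V1 M1 T2 t0) : (∃ v, x = oldV M1 T2 t0 v) ∨ ∃ f v, ¬ T2.At t0 v ∧ x = emb T1 M1 T2 t0 f v := by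
  rcases x with v | ⟨f, v, hv⟩
  · exact Or.inl ⟨v, rfl⟩
  · refine Or.inr ⟨f, v, hv, ?_⟩
    unfold emb
    rw [dif_neg hv]

theorem oldV_inj {v w : V1} (h : oldV M1 T2 t0 v = oldV M1 T2 t0 w) : v = w := Sum.inl_injective h

theorem emb_corner (f : {f : F1 // f ∈ M1}) (j : Fin 3) :
    emb T1 M1 T2 t0 f (T2.vt t0 j) = oldV M1 T2 t0 (T1.vt f.1 (-j)) := by
  have h : T2.At t0 (T2.vt t0 j) := ⟨j, rfl⟩
  unfold emb
  rw [dif_pos h]
  have := T2.inj t0 h.choose_spec
  rw [this]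
  rfl

/-- a vertex of a copy which is an old vertex is a corner of `t0` -/
theorem emb_eq_old (f : {f : F1 // f ∈ M1}) (v : V2) (w : V1) (h : emb T1 M1 T2 t0 f v = oldV M1 T2 t0 w) :
    ∃ j, v = T2.vt t0 j ∧ w = T1.vt f.1 (-j) := by
  by_cases hv : T2.At t0 v
  · obtain ⟨j, rfl⟩ := hv
    refine ⟨j, rfl, ?_⟩
    rw [emb_corner] at h
    exact (oldV_inj M1 T2 t0 h).symm
  · exfalso
    unfold emb at h
    rw [dif_neg hv] at h
    cases h

theorem emb_inj (f : {f : F1 // f ∈ M1}) : Function.Injective (emb T1 M1 T2 t0 f) := by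
  intro v w h
  by_cases hv : T2.At t0 v
  · obtain ⟨j, rfl⟩ := hv
    rw [emb_corner] at h
    obtain ⟨k, rfl, hk⟩ := emb_eq_old T1 M1 T2 t0 f w _ h.symm
    have := T1.inj f.1 hk
    rw [neg_inj.1 this]
  · by_cases hw : T2.At t0 w
    · obtain ⟨j, rfl⟩ := hw
      rw [emb_corner] at h
      obtain ⟨k, rfl, hk⟩ := emb_eq_old T1 M1 T2 t0 f v _ h
      exact absurd ⟨k, rfl⟩ hv
    · unfold emb at h
      rw [dif_neg hv, dif_neg hw] at h
      injection h with h
      injection h with _ h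
      injection h

/-- new vertices of different copies are different -/
theorem emb_new (f f' : {f : F1 // f ∈ M1}) (v w : V2) (hv : ¬ T2.At t0 v)
    (h : emb T1 M1 T2 t0 f v = emb T1 M1 T2 t0 f' w) : f = f' ∧ v = w := by
  by_cases hw : T2.At t0 w
  · obtain ⟨j, rfl⟩ := hw
    rw [emb_corner] at h
    obtain ⟨k, rfl, hk⟩ := emb_eq_old T1 M1 T2 t0 f v _ h
    exact absurd ⟨k, rfl⟩ hv
  · unfold emb at h
    rw [dif_neg hv, dif_neg hw] at h
    injection h with h
    injection h with h1 h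
    injection h with h2
    exact ⟨h1, h2⟩

open Classical in
/-- marked faces of the new triangulation: marked faces of the copies (except `t0`) -/
noncomputable def iM (M2 : Finset F2) : Finset (IF (F1 := F1) M1 t0) :=
  Finset.univ.filter fun a => ∃ f g, ∃ hg : g ≠ t0, a = newF M1 t0 f g hg ∧ g ∈ M2

end Ins

end LS35
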