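import Pool.Agent.LibLS35.I5
import Pool.Agent.LibLS35.I6
import Pool.Agent.LibLS35.I7

/-! The new triangulation (assembly of rows I1-I7), and the package of facts on a plane drawing (row W7) as a definition. -/

namespace LS35

section

variable {V1 F1 V2 F2 : Type} [Fintype V1] [Fintype F1] [Fintype V2] [Fintype F2]
  (T1 : Tri V1 F1) (M1 : Finset F1) (T2 : Tri V2 F2) (t0 : F2)

/-- `T1` with a copy of `T2` (without `t0`) in every face of `M1` -/
noncomputable def ins : Tri (IV V1 M1 T2 t0) (IF (F1 := F1) M1 t0) where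
  vt := ivt T1 M1 T2 t0
  inj := ivt_inj T1 M1 T2 t0
  uniq := ivt_uniq T1 M1 T2 t0
  opp := ivt_opp T1 M1 T2 t0
  link := fun a b i j h => ivt_link T1 M1 T2 t0 a b i j h
  conn := ivt_conn T1 M1 T2 t0
  four := by
    have h := card_IV T1 M1 T2 t0
    have h1 := T1.four
    have h2 := T2.four
    have h3 : M1.card * 3 ≤ M1.card * Fintype.card V2 := Nat.mul_le_mul_left _ (by omega)
    omega
  euler := by
    have h := card_IV T1 M1 T2 t0
    have h' := card_IF (F1 := F1) M1 t0
    have h1 := T1.euler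
    have h2 := T2.euler
    have h3 : M1.card * Fintype.card F2 + M1.card * 4 = 2 * (M1.card * Fintype.card V2) := by
      rw [← Nat.mul_add, h2]; ring
    omega

end

/-- structure of a plane straight-line drawing (row W7): outer face `o`, sign `σ` of the inner faces, regions -/
def Str {V F : Type} [Fintype V] [Fintype F] (T : Tri V F) (p : V → ℝ × ℝ) (o : F) (σ : ℝ) : Prop :=
  (σ = 1 ∨ σ = -1) ∧ (∀ f, f ≠ o → 0 < σ * T.ori p f) ∧ σ * T.ori p o < 0 ∧
    T.region p o = (T.ctri p o)ᶜ ∧ (∀ v, p v ∈ T.ctri p o) ∧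
    ∀ f, f ≠ o → T.region p f = interior (T.ctri p f) ∧ ∀ v, ¬ T.At f v → p v ∉ T.ctri p f

end LS35
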