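import Pool.Agent.LibLS35.Ins

/-! Row J1 (SHORT/MEDIUM). A drawing `p` of the new triangulation restricts to drawings of `T1` and of every copy of `T2`; signed areas.
PLAN. `draw_old`: injective by `oldV_inj`. `cross`: `T1.Adj u v` (face `f`, corner `k`) gives `(ins ..).Adj (oldV u) (oldV v)` by `real1` (I2; `(ins ..).vt = ivt ..` definitionally); apply `hp.cross` to the four old vertices; in the three cases use
`oldV_inj`, the common end vertex is `oldV u` or `oldV v`. `draw_new`: the same with `emb f`, `real2`, `emb_inj`. `ori_old`, `ori_new`: definitional (`ivt_old`, `ivt_new`, unfold `ori`). `ori_t0`: `emb_corner`: the corners `0, 1, 2` of `t0` are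
the corners `-0 = 0`, `-1 = 2`, `-2 = 1` of `f`, and `dt A C B = - dt A B C`. -/

namespace LS35

private theorem J1_restrict {V F V' F' : Type} [Fintype V] [Fintype F] [Fintype V'] [Fintype F']
    (T : Tri V F) (T' : Tri V' F') (e : V → V') (he : Function.Injective e)
    (hadj : ∀ u v, T.Adj u v → T'.Adj (e u) (e v)) (p : V' → ℝ × ℝ) (hp : T'.IsDrawing p) :
    T.IsDrawing (fun v => p (e v)) where
  inj := fun a b h => he (hp.inj h)
  cross := by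
    intro u v u' v' h1 h2 x hx hx'
    rcases hp.cross _ _ _ _ (hadj _ _ h1) (hadj _ _ h2) x hx hx' with ⟨a, b⟩ | ⟨a, b⟩ | ⟨w, hw, hw', hxw⟩
    · exact Or.inl ⟨he a, he b⟩
    · exact Or.inr (Or.inl ⟨he a, he b⟩)
    · right; right
      rcases hw with rfl | rfl
      · exact ⟨u, Or.inl rfl, hw'.imp (fun h => he h) (fun h => he h), hxw⟩
      · exact ⟨v, Or.inr rfl, hw'.imp (fun h => he h) (fun h => he h), hxw⟩

private theorem J1_dt (A B C : ℝ × ℝ) : dt A C B = - dt A B C := by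
  unfold dt
  ring

section

variable {V1 F1 V2 F2 : Type} [Fintype V1] [Fintype F1] [Fintype V2] [Fintype F2]
  (T1 : Tri V1 F1) (M1 : Finset F1) (T2 : Tri V2 F2) (t0 : F2)

theorem draw_old (p : IV V1 M1 T2 t0 → ℝ × ℝ) (hp : (ins T1 M1 T2 t0).IsDrawing p) :
    T1.IsDrawing (fun v => p (oldV M1 T2 t0 v)) := by
  refine J1_restrict T1 (ins T1 M1 T2 t0) (oldV M1 T2 t0) (fun _ _ h => oldV_inj M1 T2 t0 h) ?_ p hp
  rintro u v ⟨f, k, rfl, rfl⟩
  obtain ⟨a, l, h1, h2⟩ := real1 T1 M1 T2 t0 f k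
  exact ⟨a, l, h1, h2⟩

theorem draw_new (p : IV V1 M1 T2 t0 → ℝ × ℝ) (hp : (ins T1 M1 T2 t0).IsDrawing p) (f : {f : F1 // f ∈ M1}) :
    T2.IsDrawing (fun v => p (emb T1 M1 T2 t0 f v)) := by
  refine J1_restrict T2 (ins T1 M1 T2 t0) (emb T1 M1 T2 t0 f) (emb_inj T1 M1 T2 t0 f) ?_ p hp
  rintro u v ⟨g, k, rfl, rfl⟩
  obtain ⟨a, l, h1, h2⟩ := real2 T1 M1 T2 t0 f g k
  exact ⟨a, l, h1, h2⟩

theorem ori_old (p : IV V1 M1 T2 t0 → ℝ × ℝ) (f : F1) (hf : f ∉ M1) :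
    (ins T1 M1 T2 t0).ori p (oldF M1 t0 f hf) = T1.ori (fun v => p (oldV M1 T2 t0 v)) f := rfl

theorem ori_new (p : IV V1 M1 T2 t0 → ℝ × ℝ) (f : {f : F1 // f ∈ M1}) (g : F2) (hg : g ≠ t0) :
    (ins T1 M1 T2 t0).ori p (newF M1 t0 f g hg) = T2.ori (fun v => p (emb T1 M1 T2 t0 f v)) g := rfl

theorem ori_t0 (p : IV V1 M1 T2 t0 → ℝ × ℝ) (f : {f : F1 // f ∈ M1}) :
    T2.ori (fun v => p (emb T1 M1 T2 t0 f v)) t0 = - T1.ori (fun v => p (oldV M1 T2 t0 v)) f.1 := by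
  unfold Tri.ori
  simp only [emb_corner]
  have h1 : (-(0 : Fin 3)) = 0 := by decide
  have h2 : (-(1 : Fin 3)) = 2 := by decide
  have h3 : (-(2 : Fin 3)) = 1 := by decide
  rw [h1, h2, h3]
  exact J1_dt _ _ _

theorem ctri_new (p : IV V1 M1 T2 t0 → ℝ × ℝ) (f : {f : F1 // f ∈ M1}) (g : F2) (hg : g ≠ t0) :
    (ins T1 M1 T2 t0).ctri p (newF M1 t0 f g hg) = T2.ctri (fun v => p (emb T1 M1 T2 t0 f v)) g := rfl

theorem ctri_t0 (p : IV V1 M1 T2 t0 → ℝ × ℝ) (f : {f : F1 // f ∈ M1}) :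
    T2.ctri (fun v => p (emb T1 M1 T2 t0 f v)) t0 = T1.ctri (fun v => p (oldV M1 T2 t0 v)) f.1 := by
  unfold Tri.ctri
  congr 1
  ext x
  simp only [Set.mem_range, emb_corner]
  constructor
  · rintro ⟨j, rfl⟩
    exact ⟨-j, rfl⟩
  · rintro ⟨j, rfl⟩
    exact ⟨-j, by rw [neg_neg]⟩

end

end LS35
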