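import Pool.Agent.LibLS35.J1

/-! Row J2 (MEDIUM, signs). Which face is the outer face of a copy, and of the old triangulation. Every triangulation has at least four faces (`euler`, `four`). `s(·)` = sign.
PLAN. `outer_new_out` (outer face `o'` not in the copy `f`): all `g ≠ t0` have `0 < σ' * ori2 g` (`ori_new`, `newF f g ≠ o'`). If `o2 ≠ t0`: `σ2 * ori2 o2 < 0` and `0 < σ' * ori2 o2` give `σ2 = -σ'`; a third face `g ≠ t0, o2` has `0 < σ2 * ori2 g` and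
`0 < σ' * ori2 g`, so `σ2 = σ'`: contradiction. So `o2 = t0`; any `g ≠ t0` gives `σ2 = σ'`. `outer_new_in` (`o' = newF f g0`): `σ' * ori2 g0 < 0`, all `g ≠ t0, g0` have `0 < σ' * ori2 g`. If `o2 ≠ g0` then `0 < σ2 * ori2 g0`, so `σ2 = -σ'`; among the at least two faces
`≠ t0, g0` one is `≠ o2`, so `σ2 = σ'`, contradiction. So `o2 = g0`, and a face `g ≠ t0, g0` gives `σ2 = σ'`. `outer_old_old` (`o' = oldF h`): unmarked faces `k ≠ h` have `0 < σ' * ori1 k` (`ori_old`), marked ones too: by `outer_new_out` (with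
`structure` facts `hs2` of each copy) `σ' * ori2 t0 < 0` and `ori_t0`; `σ' * ori1 h < 0`. So `h` is the only face with this sign: as before `o1 = h`, `σ1 = σ'` (three other faces). `outer_old_new` (`o' = newF f g0`): unmarked faces and marked faces `k ≠ f` have
`0 < σ' * ori1 k`; for `f`: `o2 = g0 ≠ t0` so `0 < σ' * ori2 t0` and `ori_t0` gives `σ' * ori1 f < 0`. So `o1 = f`, `σ1 = σ'`. -/

namespace LS35

private theorem J2_card {V F : Type} [Fintype V] [Fintype F] (T : Tri V F) : 4 ≤ Fintype.card F := by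
  have h1 := T.four
  have h2 := T.euler
  omega

private theorem J2_ex {F : Type} [Fintype F] (h : 4 ≤ Fintype.card F) (a b c : F) :
    ∃ g, g ≠ a ∧ g ≠ b ∧ g ≠ c := by
  classical
  have h1 : ({a, b, c} : Finset F).card < (Finset.univ : Finset F).card := by
    have h2 : ({a, b, c} : Finset F).card ≤ 3 := Finset.card_le_three
    rw [Finset.card_univ]
    omega
  obtain ⟨g, -, hg⟩ := Finset.exists_mem_notMem_of_card_lt_card h1
  simp only [Finset.mem_insert, Finset.mem_singleton, not_or] at hg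
  exact ⟨g, hg.1, hg.2.1, hg.2.2⟩

private theorem J2_sgn {σ τ x : ℝ} (hσ : σ = 1 ∨ σ = -1) (hτ : τ = 1 ∨ τ = -1) (h1 : 0 < σ * x)
    (h2 : 0 < τ * x) : σ = τ := by
  rcases hσ with rfl | rfl <;> rcases hτ with rfl | rfl
  · rfl
  · exfalso; linarith
  · exfalso; linarith
  · rfl

private theorem J2_out {F : Type} [Fintype F] (h4 : 4 ≤ Fintype.card F) (φ : F → ℝ) {σ' σ2 : ℝ}
    (hσ' : σ' = 1 ∨ σ' = -1) (hσ2 : σ2 = 1 ∨ σ2 = -1) (t0 o2 : F)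
    (h : ∀ g, g ≠ t0 → 0 < σ' * φ g) (h1 : ∀ g, g ≠ o2 → 0 < σ2 * φ g) (h2 : σ2 * φ o2 < 0) :
    o2 = t0 ∧ σ2 = σ' := by
  obtain ⟨g, hg1, hg2, -⟩ := J2_ex h4 t0 o2 o2
  have hs : σ2 = σ' := J2_sgn hσ2 hσ' (h1 g hg2) (h g hg1)
  refine ⟨?_, hs⟩
  by_contra hne
  have h3 := h o2 hne
  rw [← hs] at h3
  linarith

private theorem J2_in {F : Type} [Fintype F] (h4 : 4 ≤ Fintype.card F) (φ : F → ℝ) {σ' σ2 : ℝ}
    (hσ' : σ' = 1 ∨ σ' = -1) (hσ2 : σ2 = 1 ∨ σ2 = -1) (t0 g0 o2 : F)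
    (h : ∀ g, g ≠ t0 → g ≠ g0 → 0 < σ' * φ g) (h0 : σ' * φ g0 < 0)
    (h1 : ∀ g, g ≠ o2 → 0 < σ2 * φ g) : o2 = g0 ∧ σ2 = σ' := by
  obtain ⟨g, hg1, hg2, hg3⟩ := J2_ex h4 t0 g0 o2
  have hs : σ2 = σ' := J2_sgn hσ2 hσ' (h1 g hg3) (h g hg1 hg2)
  refine ⟨?_, hs⟩
  by_contra hne
  have h3 := h1 g0 (fun he => hne he.symm)
  rw [hs] at h3
  linarith

section

variable {V1 F1 V2 F2 : Type} [Fintype V1] [Fintype F1] [Fintype V2] [Fintype F2]
  (T1 : Tri V1 F1) (M1 : Finset F1) (T2 : Tri V2 F2) (t0 : F2)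

theorem outer_new_out (p : IV V1 M1 T2 t0 → ℝ × ℝ) (o' : IF (F1 := F1) M1 t0) (σ' : ℝ) (hs : Str (ins T1 M1 T2 t0) p o' σ')
    (f : {f : F1 // f ∈ M1}) (ho : ∀ g hg, o' ≠ newF M1 t0 f g hg) (o2 : F2) (σ2 : ℝ)
    (hs2 : Str T2 (fun v => p (emb T1 M1 T2 t0 f v)) o2 σ2) : o2 = t0 ∧ σ2 = σ' := by
  apply J2_out (J2_card T2) (T2.ori (fun v => p (emb T1 M1 T2 t0 f v))) hs.1 hs2.1 t0 o2 _ hs2.2.1 hs2.2.2.1
  intro g hg
  have h1 := hs.2.1 (newF M1 t0 f g hg) (fun he => ho g hg he.symm)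
  rw [ori_new] at h1
  exact h1

theorem outer_new_in (p : IV V1 M1 T2 t0 → ℝ × ℝ) (σ' : ℝ) (f : {f : F1 // f ∈ M1}) (g0 : F2) (hg0 : g0 ≠ t0)
    (hs : Str (ins T1 M1 T2 t0) p (newF M1 t0 f g0 hg0) σ') (o2 : F2) (σ2 : ℝ)
    (hs2 : Str T2 (fun v => p (emb T1 M1 T2 t0 f v)) o2 σ2) : o2 = g0 ∧ σ2 = σ' := by
  apply J2_in (J2_card T2) (T2.ori (fun v => p (emb T1 M1 T2 t0 f v))) hs.1 hs2.1 t0 g0 o2 _ _ hs2.2.1
  · intro g hg hg'
    have h1 := hs.2.1 (newF M1 t0 f g hg) (by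
      intro he
      apply hg'
      unfold newF at he
      have h2 := Sum.inr.inj he
      exact congrArg (fun a => (a.2 : F2)) h2)
    rw [ori_new] at h1
    exact h1
  · have h1 := hs.2.2.1
    rw [ori_new] at h1
    exact h1

theorem outer_old_old (p : IV V1 M1 T2 t0 → ℝ × ℝ) (σ' : ℝ) (h : F1) (hh : h ∉ M1)
    (hs : Str (ins T1 M1 T2 t0) p (oldF M1 t0 h hh) σ')
    (hs2 : ∀ f : {f : F1 // f ∈ M1}, ∃ o2 σ2, Str T2 (fun v => p (emb T1 M1 T2 t0 f v)) o2 σ2) (o1 : F1) (σ1 : ℝ)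
    (hs1 : Str T1 (fun v => p (oldV M1 T2 t0 v)) o1 σ1) : o1 = h ∧ σ1 = σ' := by
  apply J2_out (J2_card T1) (T1.ori (fun v => p (oldV M1 T2 t0 v))) hs.1 hs1.1 h o1 _ hs1.2.1 hs1.2.2.1
  intro k hk
  by_cases hkM : k ∈ M1
  · obtain ⟨o2, σ2, hstr⟩ := hs2 ⟨k, hkM⟩
    obtain ⟨h1, h2⟩ := outer_new_out T1 M1 T2 t0 p _ σ' hs ⟨k, hkM⟩ (by
      intro g hg he
      unfold newF oldF at he
      exact Sum.inl_ne_inr he) o2 σ2 hstr
    subst h1
    subst h2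
    have h3 := hstr.2.2.1
    rw [ori_t0] at h3
    simp only at h3 ⊢
    linarith
  · have h1 := hs.2.1 (oldF M1 t0 k hkM) (by
      intro he
      apply hk
      unfold oldF at he
      have h2 := Sum.inl.inj he
      exact congrArg Subtype.val h2)
    rw [ori_old] at h1
    exact h1

theorem outer_old_new (p : IV V1 M1 T2 t0 → ℝ × ℝ) (σ' : ℝ) (f : {f : F1 // f ∈ M1}) (g0 : F2) (hg0 : g0 ≠ t0)
    (hs : Str (ins T1 M1 T2 t0) p (newF M1 t0 f g0 hg0) σ')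
    (hs2 : ∀ f : {f : F1 // f ∈ M1}, ∃ o2 σ2, Str T2 (fun v => p (emb T1 M1 T2 t0 f v)) o2 σ2) (o1 : F1) (σ1 : ℝ)
    (hs1 : Str T1 (fun v => p (oldV M1 T2 t0 v)) o1 σ1) : o1 = f.1 ∧ σ1 = σ' := by
  apply J2_out (J2_card T1) (T1.ori (fun v => p (oldV M1 T2 t0 v))) hs.1 hs1.1 f.1 o1 _ hs1.2.1 hs1.2.2.1
  intro k hk
  by_cases hkM : k ∈ M1
  · obtain ⟨o2, σ2, hstr⟩ := hs2 ⟨k, hkM⟩
    obtain ⟨h1, h2⟩ := outer_new_out T1 M1 T2 t0 p _ σ' hs ⟨k, hkM⟩ (by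
      intro g hg he
      unfold newF at he
      have h3 := Sum.inr.inj he
      exact hk (congrArg (fun a => (a.1 : F1)) h3).symm) o2 σ2 hstr
    subst h1
    subst h2
    have h3 := hstr.2.2.1
    rw [ori_t0] at h3
    simp only at h3 ⊢
    linarith
  · have h1 := hs.2.1 (oldF M1 t0 k hkM) (by
      intro he
      unfold newF oldF at he
      exact Sum.inl_ne_inr he)
    rw [ori_old] at h1
    exact h1

end

end LS35
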