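import Pool.Agent.LibLS35.W3

/-! Row W4 (SHORT/MEDIUM). At most one face has all other vertices inside.
PLAN. Suppose `f ≠ g`. By `same_corners` (W2) there is a corner `a` of `f` that is no corner of `g`, so `p a ∈ interior (ctri g)`. All corners of `g` are in `ctri f` (a corner of `g` is a corner of `f`, or in `interior (ctri f)`), so
`ctri g ⊆ ctri f` (`convexHull_min`, convex hull is convex), so `p a ∈ interior (ctri f)` (`interior_mono`), contradiction to `corner_not_interior` (W0, with `q i = p (vt f i)`, `ori_ne`). -/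

namespace LS35.Tri

variable {V F : Type} [Fintype V] [Fintype F] (T : Tri V F)

theorem out_unique (p : V → ℝ × ℝ) (hp : T.IsDrawing p) (f g : F) (hf : ∀ v, ¬ T.At f v → p v ∈ interior (T.ctri p f))
    (hg : ∀ v, ¬ T.At g v → p v ∈ interior (T.ctri p g)) : f = g := by
  classical
  by_contra hne
  obtain ⟨a, ha, hga⟩ : ∃ a, T.At f a ∧ ¬ T.At g a := by
    by_contra hcon
    apply hne
    refine T.same_corners g f fun v hv => ?_
    by_contra hv'
    exact hcon ⟨v, hv, hv'⟩
  have hsub : T.ctri p g ⊆ T.ctri p f := by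
    unfold ctri
    refine convexHull_min ?_ (convex_convexHull ℝ _)
    rintro _ ⟨i, rfl⟩
    by_cases h : T.At f (T.vt g i)
    · obtain ⟨j, hj⟩ := h
      exact subset_convexHull ℝ _ ⟨j, by simp only [hj]⟩
    · exact interior_subset (hf _ h)
  obtain ⟨i, rfl⟩ := ha
  exact corner_not_interior (fun i => p (T.vt f i)) (T.ori_ne p hp f) i (interior_mono hsub (hg _ hga))

end LS35.Tri
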