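import Pool.Agent.LibLS35.W3

/-! Row W5 (MEDIUM). Two faces without other vertices in their closed triangles have disjoint open triangles. -/

namespace LS35.Tri

private theorem W5_front {E : Type} [TopologicalSpace E] {t s : Set E} (ht : IsPreconnected t)
    {a b : E} (ha : a ∈ t) (ha' : a ∈ s) (hb : b ∈ t) (hb' : b ∉ s) : ∃ y ∈ t, y ∈ frontier s := by
  by_contra hc
  push Not at hc
  have key : ∀ y ∈ t, y ∈ interior s ∨ y ∈ (closure s)ᶜ := by
    intro y hy
    by_cases h1 : y ∈ interior s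
    · exact Or.inl h1
    · right
      intro h2
      exact hc y hy ⟨h2, h1⟩
  have h1 : (t ∩ interior s).Nonempty := by
    refine ⟨a, ha, ?_⟩
    rcases key a ha with h | h
    · exact h
    · exact absurd (subset_closure ha') h
  have h2 : (t ∩ (closure s)ᶜ).Nonempty := by
    refine ⟨b, hb, ?_⟩
    rcases key b hb with h | h
    · exact absurd (interior_subset h) hb'
    · exact h
  obtain ⟨y, _, hy1, hy2⟩ := ht (interior s) (closure s)ᶜ isOpen_interior
    isClosed_closure.isOpen_compl key h1 h2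
  exact hy2 (subset_closure (interior_subset hy1))

variable {V F : Type} [Fintype V] [Fintype F] (T : Tri V F)

private theorem W5_closed (p : V → ℝ × ℝ) (f : F) : IsClosed (T.ctri p f) :=
  (Set.finite_range _).isClosed_convexHull ℝ

private theorem W5_seg (u v : ℝ × ℝ) : IsPreconnected (segment ℝ u v) :=
  (convex_segment u v).isPreconnected

private theorem W5_adj {u v : V} (h : T.Adj u v) : T.Adj v u := by
  obtain ⟨f, i, h1, h2⟩ := h
  obtain ⟨g, j, h3, h4⟩ := T.opp f i
  exact ⟨g, j, h3.trans h2, h4.trans h1⟩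

/-- an edge `a b` with an inner point in the open triangle of `f` has its end `a` at a corner of `f` -/
private theorem W5_corner (p : V → ℝ × ℝ) (hp : T.IsDrawing p) (f : F)
    (hf : ∀ v, ¬ T.At f v → p v ∉ T.ctri p f) (a b : V) (hab : T.Adj a b) (y : ℝ × ℝ)
    (hy : y ∈ segment ℝ (p a) (p b)) (hyA : y ∈ interior (T.ctri p f)) : T.At f a := by
  have hne : dt (p (T.vt f 0)) (p (T.vt f 1)) (p (T.vt f 2)) ≠ 0 := T.ori_ne p hp f
  have hv : ∀ v, p v ∉ interior (T.ctri p f) := by
    intro v hv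
    by_cases h : T.At f v
    · obtain ⟨i, rfl⟩ := h
      exact corner_not_interior (fun i => p (T.vt f i)) hne i hv
    · exact hf v h (interior_subset hv)
  obtain ⟨z, hz, hz'⟩ := W5_front (W5_seg y (p a)) (left_mem_segment ℝ y (p a)) hyA
    (right_mem_segment ℝ y (p a)) (hv a)
  have hzF : z ∈ frontier (T.ctri p f) := frontier_interior_subset hz'
  obtain ⟨k, hk⟩ := frontier_tri (fun i => p (T.vt f i)) hne z hzF
  have hzab : z ∈ segment ℝ (p a) (p b) :=
    (convex_segment (p a) (p b)).segment_subset hy (left_mem_segment ℝ (p a) (p b)) hz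
  rcases hp.cross a b (T.vt f k) (T.vt f (k + 1)) hab ⟨f, k, rfl, rfl⟩ z hzab hk with h | h | h
  · exact ⟨k, h.1.symm⟩
  · exact ⟨k + 1, h.1.symm⟩
  · obtain ⟨w, hw1, hw2, hw3⟩ := h
    rcases hw1 with rfl | rfl
    · rcases hw2 with h | h
      · exact ⟨k, h.symm⟩
      · exact ⟨k + 1, h.symm⟩
    · exfalso
      rw [hw3, segment_symm] at hz
      have h1 := mem_segment_iff_wbtw.1 hy
      have h2 := mem_segment_iff_wbtw.1 hz
      have h3 := (wbtw_swap_right_iff ℝ (p a)).1 ⟨h1, h2⟩
      rw [h3] at hyA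
      exact hv w hyA

private theorem W5_next : ∀ i j : Fin 3, i ≠ j → j = i + 1 ∨ i = j + 1 := by decide

theorem emp_disj (p : V → ℝ × ℝ) (hp : T.IsDrawing p) (f g : F) (hfg : f ≠ g) (hf : ∀ v, ¬ T.At f v → p v ∉ T.ctri p f)
    (hg : ∀ v, ¬ T.At g v → p v ∉ T.ctri p g) (x : ℝ × ℝ) (h1 : x ∈ interior (T.ctri p f)) : x ∉ interior (T.ctri p g) := by
  intro h2
  have hne : dt (p (T.vt f 0)) (p (T.vt f 1)) (p (T.vt f 2)) ≠ 0 := T.ori_ne p hp f
  have hne' : dt (p (T.vt g 0)) (p (T.vt g 1)) (p (T.vt g 2)) ≠ 0 := T.ori_ne p hp g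
  obtain ⟨w, hwf, hwg⟩ : ∃ w, T.At f w ∧ ¬ T.At g w := by
    by_contra hc
    push Not at hc
    exact hfg (T.same_corners g f hc)
  have hwA : p w ∈ T.ctri p f := by
    obtain ⟨i, rfl⟩ := hwf
    exact subset_convexHull ℝ _ ⟨i, rfl⟩
  obtain ⟨y, hy, hyB⟩ := W5_front (W5_seg x (p w)) (left_mem_segment ℝ x (p w))
    (interior_subset h2) (right_mem_segment ℝ x (p w)) (hg w hwg)
  have hyA : y ∈ interior (T.ctri p f) := by
    rw [← insert_endpoints_openSegment] at hy
    rcases hy with rfl | rfl | hy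
    · exact h1
    · exact absurd ((W5_closed T p g).frontier_subset hyB) (hg w hwg)
    · exact (convex_convexHull ℝ _).openSegment_interior_closure_subset_interior h1
        (subset_closure hwA) hy
  obtain ⟨i, hi⟩ := frontier_tri (fun i => p (T.vt g i)) hne' y hyB
  have hadj : T.Adj (T.vt g i) (T.vt g (i + 1)) := ⟨g, i, rfl, rfl⟩
  obtain ⟨k, hk⟩ := W5_corner T p hp f hf _ _ hadj y hi hyA
  have hi' : y ∈ segment ℝ (p (T.vt g (i + 1))) (p (T.vt g i)) := by
    rw [segment_symm]
    exact hi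
  obtain ⟨m, hm⟩ := W5_corner T p hp f hf _ _ (W5_adj T hadj) y hi' hyA
  have hkm : k ≠ m := by
    rintro rfl
    have h3 := T.inj g (hk.symm.trans hm)
    revert h3
    generalize i = i
    revert i
    decide
  rcases W5_next k m hkm with rfl | rfl
  · rw [← hk, ← hm] at hi
    exact edge_not_interior (fun i => p (T.vt f i)) hne k y hi hyA
  · rw [← hk, ← hm] at hi'
    exact edge_not_interior (fun i => p (T.vt f i)) hne m y hi' hyA

end LS35.Tri
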