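import Pool.Agent.LibLS35.G2

/-! Row W6 (SHORT/MEDIUM, variant of G3). For nondegenerate faces the signed number of open triangles containing a generic point is zero.
PLAN. As in row G3: `g d = cr x (p (tail d)) (p (head d))` is odd under `op` (`cr_symm`), so `∑ d, g d = 0`; for each face the sum over its three darts is `1` if `ori > 0` and `Pos`, `0` if `ori > 0` and not `Pos`, `-1` if `ori < 0` and `Neg`, `0` if `ori < 0` and not
`Neg` (`cr_face`; for `ori < 0` apply it to `P, R, Q`); and if `ori > 0` then `Neg` is impossible, if `ori < 0` then `Pos` is impossible (`dt_sum`). -/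

namespace LS35.Tri

variable {V F : Type} [Fintype V] [Fintype F] (T : Tri V F)

open Classical in
theorem count_signed (p : V → ℝ × ℝ) (hne : ∀ f, T.ori p f ≠ 0) (x : ℝ × ℝ) (hx : T.Gen p x) :
    ∑ f : F, (if T.Pos p f x then (1 : ℤ) else if T.Neg p f x then -1 else 0) = 0 := by
  set g : Dart F → ℤ := fun d => cr x (p (T.tail d)) (p (T.head d)) with hg
  have hop : ∀ d, g (T.op d) = - g d := by
    intro d
    simp only [hg]
    rw [T.tail_op, T.head_op]
    exact cr_symm _ _ _
  have hzero : ∑ d, g d = 0 := by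
    have h1 := Equiv.sum_comp (Function.Involutive.toPerm T.op T.op_op) g
    have h2 : ∑ d, g ((Function.Involutive.toPerm T.op T.op_op) d) = ∑ d, - g d :=
      Finset.sum_congr rfl fun d _ => hop d
    rw [h2, Finset.sum_neg_distrib] at h1
    omega
  have hface : ∀ f, ∑ i : Fin 3, g (f, i) = (if T.Pos p f x then (1 : ℤ) else if T.Neg p f x then -1 else 0) := by
    intro f
    have n0 : dt (p (T.vt f 0)) (p (T.vt f 1)) x ≠ 0 := hx.1 (f, 0)
    have n1 : dt (p (T.vt f 1)) (p (T.vt f 2)) x ≠ 0 := hx.1 (f, 1)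
    have n2 : dt (p (T.vt f 2)) (p (T.vt f 0)) x ≠ 0 := hx.1 (f, 2)
    have e0 : g (f, 0) = cr x (p (T.vt f 0)) (p (T.vt f 1)) := rfl
    have e1 : g (f, 1) = cr x (p (T.vt f 1)) (p (T.vt f 2)) := rfl
    have e2 : g (f, 2) = cr x (p (T.vt f 2)) (p (T.vt f 0)) := rfl
    have hsum := dt_sum (p (T.vt f 0)) (p (T.vt f 1)) (p (T.vt f 2)) x
    rw [Fin.sum_univ_three, e0, e1, e2]
    rcases lt_or_gt_of_ne (hne f) with hneg | hpos
    · have hD : 0 < dt (p (T.vt f 0)) (p (T.vt f 2)) (p (T.vt f 1)) := by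
        rw [← dt_rot, dt_swap, dt_rot]
        unfold ori at hneg
        linarith
      have s1 := dt_swap (p (T.vt f 0)) (p (T.vt f 1)) x
      have s2 := dt_swap (p (T.vt f 1)) (p (T.vt f 2)) x
      have s3 := dt_swap (p (T.vt f 2)) (p (T.vt f 0)) x
      have h1 := cr_face x _ _ _ hD (by rw [s3]; exact neg_ne_zero.2 n2)
        (by rw [s2]; exact neg_ne_zero.2 n1) (by rw [s1]; exact neg_ne_zero.2 n0)
        (hx.2 _) (hx.2 _) (hx.2 _)
      rw [cr_symm x (p (T.vt f 2)) (p (T.vt f 0)), cr_symm x (p (T.vt f 1)) (p (T.vt f 2)),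
        cr_symm x (p (T.vt f 0)) (p (T.vt f 1)), s1, s2, s3] at h1
      have h2 : T.Neg p f x ↔ (0 < -dt (p (T.vt f 2)) (p (T.vt f 0)) x ∧
          0 < -dt (p (T.vt f 1)) (p (T.vt f 2)) x ∧ 0 < -dt (p (T.vt f 0)) (p (T.vt f 1)) x) := by
        constructor
        · intro h
          exact ⟨neg_pos.2 (h 2), neg_pos.2 (h 1), neg_pos.2 (h 0)⟩
        · rintro ⟨h3, h4, h5⟩ i
          fin_cases i
          · exact neg_pos.1 h5
          · exact neg_pos.1 h4
          · exact neg_pos.1 h3
      have hnp : ¬ T.Pos p f x := by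
        intro h
        have a0 : 0 < dt (p (T.vt f 0)) (p (T.vt f 1)) x := h 0
        have a1 : 0 < dt (p (T.vt f 1)) (p (T.vt f 2)) x := h 1
        have a2 : 0 < dt (p (T.vt f 2)) (p (T.vt f 0)) x := h 2
        unfold ori at hneg
        linarith
      rw [if_neg hnp]
      by_cases h3 : T.Neg p f x
      · rw [if_pos h3]
        rw [if_pos (h2.1 h3)] at h1
        omega
      · rw [if_neg h3]
        rw [if_neg (fun h => h3 (h2.2 h))] at h1
        omega
    · have h1 := cr_face x _ _ _ hpos n0 n1 n2 (hx.2 _) (hx.2 _) (hx.2 _)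
      rw [h1]
      have h2 : T.Pos p f x ↔ (0 < dt (p (T.vt f 0)) (p (T.vt f 1)) x ∧
          0 < dt (p (T.vt f 1)) (p (T.vt f 2)) x ∧ 0 < dt (p (T.vt f 2)) (p (T.vt f 0)) x) := by
        constructor
        · intro h
          exact ⟨h 0, h 1, h 2⟩
        · rintro ⟨h3, h4, h5⟩ i
          fin_cases i
          · exact h3
          · exact h4
          · exact h5
      have hnn : ¬ T.Neg p f x := by
        intro h
        have a0 : dt (p (T.vt f 0)) (p (T.vt f 1)) x < 0 := h 0
        have a1 : dt (p (T.vt f 1)) (p (T.vt f 2)) x < 0 := h 1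
        have a2 : dt (p (T.vt f 2)) (p (T.vt f 0)) x < 0 := h 2
        have hpos' : 0 < dt (p (T.vt f 0)) (p (T.vt f 1)) (p (T.vt f 2)) := hpos
        linarith
      by_cases h3 : T.Pos p f x
      · rw [if_pos (h2.1 h3), if_pos h3]
      · rw [if_neg (fun h => h3 (h2.2 h)), if_neg h3, if_neg hnn]
  have htot : ∑ d, g d = ∑ f, ∑ i : Fin 3, g (f, i) := Fintype.sum_prod_type g
  rw [hzero] at htot
  rw [Finset.sum_congr rfl fun f _ => hface f] at htot
  exact htot.symm

end LS35.Tri
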