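import Pool.Agent.LibLS35.G4
import Pool.Agent.LibLS35.W4
import Pool.Agent.LibLS35.W5
import Pool.Agent.LibLS35.W6

/-! Row W7 (MEDIUM). Structure of a plane straight-line drawing: outer face, signs, regions.
PLAN. `s f = 1` or `-1` = sign of `ori p f` (`ori_ne`). By G1 `interior (ctri f) = {Pos}` resp. `{Neg}` according to the sign. Call `f` OUT (first case of `dichotomy`) or EMP (second case). (a) there is an OUT face: otherwise take a generic point `x` in
the open triangle of some face `f` (nonempty: the centroid; `exists_gen`, edges nondegenerate by injectivity): by `emp_disj` `f` is the only face containing it, and `count_signed` gives `± 1 = 0`. (b) it is unique: `o` (`out_unique`). (c) for `f ≠ o` (EMP) take a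
generic `x` in the open triangle of `f`: no other EMP face contains it; `count_signed`: `s f + s o [x in the open triangle of o] = 0`, so `s f = - s o`. Take `σ = - s o`. (d) regions: `o`: all vertices are in `ctri o` (corners: `subset_convexHull`), so
`region = (ctri)ᶜ`. `f ≠ o`: there is a vertex not in `f` (`4 ≤ card V`, `f` has three corners), it is not in `ctri f`, so `region = interior`. -/

namespace LS35.Tri

variable {V F : Type} [Fintype V] [Fintype F] (T : Tri V F)

open Classical in
private theorem W7_int (p : V → ℝ × ℝ) (f : F) (hne : T.ori p f ≠ 0) (x : ℝ × ℝ) :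
    (if T.Pos p f x then (1 : ℤ) else if T.Neg p f x then -1 else 0) =
      if x ∈ interior (T.ctri p f) then (if 0 < T.ori p f then 1 else -1) else 0 := by
  have hs := dt_sum (p (T.vt f 0)) (p (T.vt f 1)) (p (T.vt f 2)) x
  rcases lt_or_gt_of_ne hne with h | h
  · have h1 : interior (T.ctri p f) =
        {x | ∀ i : Fin 3, dt (p (T.vt f i)) (p (T.vt f (i + 1))) x < 0} :=
      int_neg (fun i => p (T.vt f i)) h
    have h2 : x ∈ interior (T.ctri p f) ↔ T.Neg p f x := by
      rw [h1]
      exact Iff.rfl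
    have h3 : ¬ T.Pos p f x := by
      intro h3
      have a0 := h3 0
      have a1 := h3 1
      have a2 := h3 2
      change 0 < dt (p (T.vt f 0)) (p (T.vt f 1)) x at a0
      change 0 < dt (p (T.vt f 1)) (p (T.vt f 2)) x at a1
      change 0 < dt (p (T.vt f 2)) (p (T.vt f 0)) x at a2
      unfold ori at h
      linarith
    rw [if_neg h3, if_neg (not_lt.2 h.le)]
    by_cases h4 : T.Neg p f x
    · rw [if_pos h4, if_pos (h2.2 h4)]
    · rw [if_neg h4, if_neg (fun h => h4 (h2.1 h))]
  · have h1 : interior (T.ctri p f) =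
        {x | ∀ i : Fin 3, 0 < dt (p (T.vt f i)) (p (T.vt f (i + 1))) x} :=
      int_pos (fun i => p (T.vt f i)) h
    have h2 : x ∈ interior (T.ctri p f) ↔ T.Pos p f x := by
      rw [h1]
      exact Iff.rfl
    have h3 : ¬ T.Neg p f x := by
      intro h3
      have a0 := h3 0
      have a1 := h3 1
      have a2 := h3 2
      change dt (p (T.vt f 0)) (p (T.vt f 1)) x < 0 at a0
      change dt (p (T.vt f 1)) (p (T.vt f 2)) x < 0 at a1
      change dt (p (T.vt f 2)) (p (T.vt f 0)) x < 0 at a2
      unfold ori at h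
      linarith
    rw [if_neg h3, if_pos h]
    by_cases h4 : T.Pos p f x
    · rw [if_pos h4, if_pos (h2.2 h4)]
    · rw [if_neg h4, if_neg (fun h => h4 (h2.1 h))]

private theorem W7_cen (P Q R : ℝ × ℝ) :
    dt P Q ((1 / 3 : ℝ) • (P + Q + R)) = dt P Q R / 3 := by
  unfold dt
  simp only [Prod.smul_fst, Prod.smul_snd, Prod.fst_add, Prod.snd_add, smul_eq_mul]
  ring

private theorem W7_ne (p : V → ℝ × ℝ) (f : F) (hne : T.ori p f ≠ 0) :
    (interior (T.ctri p f)).Nonempty := by
  refine ⟨(1 / 3 : ℝ) • (p (T.vt f 0) + p (T.vt f 1) + p (T.vt f 2)), ?_⟩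
  have e1 : p (T.vt f 0) + p (T.vt f 1) + p (T.vt f 2) =
      p (T.vt f 1) + p (T.vt f 2) + p (T.vt f 0) := by abel
  have e2 : p (T.vt f 0) + p (T.vt f 1) + p (T.vt f 2) =
      p (T.vt f 2) + p (T.vt f 0) + p (T.vt f 1) := by abel
  have key : ∀ i : Fin 3, dt (p (T.vt f i)) (p (T.vt f (i + 1)))
      ((1 / 3 : ℝ) • (p (T.vt f 0) + p (T.vt f 1) + p (T.vt f 2))) = T.ori p f / 3 := by
    intro i
    have hi : i = 0 ∨ i = 1 ∨ i = 2 := by
      revert i
      decide
    rcases hi with rfl | rfl | rfl
    · exact W7_cen _ _ _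
    · change dt (p (T.vt f 1)) (p (T.vt f 2)) _ = _
      rw [e1, W7_cen, dt_rot]
      rfl
    · change dt (p (T.vt f 2)) (p (T.vt f 0)) _ = _
      rw [e2, W7_cen, ← dt_rot]
      rfl
  rcases lt_or_gt_of_ne hne with h | h
  · have h1 : interior (T.ctri p f) =
        {x | ∀ i : Fin 3, dt (p (T.vt f i)) (p (T.vt f (i + 1))) x < 0} :=
      int_neg (fun i => p (T.vt f i)) h
    rw [h1]
    intro i
    rw [key i]
    linarith
  · have h1 : interior (T.ctri p f) =
        {x | ∀ i : Fin 3, 0 < dt (p (T.vt f i)) (p (T.vt f (i + 1))) x} :=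
      int_pos (fun i => p (T.vt f i)) h
    rw [h1]
    intro i
    rw [key i]
    linarith

theorem structure_drawing (p : V → ℝ × ℝ) (hp : T.IsDrawing p) :
    ∃ (o : F) (σ : ℝ), (σ = 1 ∨ σ = -1) ∧ (∀ f, f ≠ o → 0 < σ * T.ori p f) ∧ σ * T.ori p o < 0 ∧
      T.region p o = (T.ctri p o)ᶜ ∧ (∀ v, p v ∈ T.ctri p o) ∧
      ∀ f, f ≠ o → T.region p f = interior (T.ctri p f) ∧ ∀ v, ¬ T.At f v → p v ∉ T.ctri p f := by
  classical
  have hne : ∀ f, T.ori p f ≠ 0 := fun f => T.ori_ne p hp f
  have hd : ∀ d, p (T.tail d) ≠ p (T.head d) := fun d h => T.tail_ne_head d (hp.inj h)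
  obtain ⟨sg, hsgd⟩ : ∃ sg : F → ℤ, ∀ f, sg f = if 0 < T.ori p f then 1 else -1 :=
    ⟨_, fun _ => rfl⟩
  have hsg : ∀ f, sg f = 1 ∨ sg f = -1 := by
    intro f
    rw [hsgd]
    split_ifs
    · exact Or.inl rfl
    · exact Or.inr rfl
  have hsg0 : ∀ f, sg f ≠ 0 := by
    intro f h
    rcases hsg f with h1 | h1 <;> omega
  have hpos : ∀ f, 0 < (sg f : ℝ) * T.ori p f := by
    intro f
    rw [hsgd]
    split_ifs with h
    · rw [Int.cast_one, one_mul]
      exact h
    · have h1 : T.ori p f < 0 := lt_of_le_of_ne (not_lt.1 h) (hne f)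
      push_cast
      linarith
  have hsum : ∀ x, T.Gen p x → ∑ f, (if x ∈ interior (T.ctri p f) then sg f else 0) = 0 := by
    intro x hx
    refine Eq.trans (Finset.sum_congr rfl fun f _ => ?_) (T.count_signed p hne x hx)
    rw [hsgd]
    exact (W7_int T p f (hne f) x).symm
  have hx : ∀ f, ∃ x ∈ interior (T.ctri p f), T.Gen p x := fun f =>
    T.exists_gen p hd _ isOpen_interior (W7_ne T p f (hne f))
  have hout : ∃ o, ∀ v, ¬ T.At o v → p v ∈ interior (T.ctri p o) := by
    by_contra hc
    have hemp : ∀ f, ∀ v, ¬ T.At f v → p v ∉ T.ctri p f := fun f =>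
      (T.dichotomy p hp f).resolve_left (fun h => hc ⟨f, h⟩)
    have hF : Nonempty F := by
      rw [← Fintype.card_pos_iff]
      have h1 := T.euler
      have h2 := T.four
      omega
    obtain ⟨f⟩ := hF
    obtain ⟨x, hx1, hx2⟩ := hx f
    have h := hsum x hx2
    rw [Finset.sum_eq_single f] at h
    · rw [if_pos hx1] at h
      exact hsg0 f h
    · intro g _ hg
      rw [if_neg (T.emp_disj p hp f g hg.symm (hemp f) (hemp g) x hx1)]
    · intro h
      exact absurd (Finset.mem_univ f) h
  obtain ⟨o, ho⟩ := hout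
  have hemp : ∀ f, f ≠ o → ∀ v, ¬ T.At f v → p v ∉ T.ctri p f := fun f hf =>
    (T.dichotomy p hp f).resolve_left (fun h => hf (T.out_unique p hp f o h ho))
  have hopp : ∀ f, f ≠ o → sg f = - sg o := by
    intro f hf
    obtain ⟨x, hx1, hx2⟩ := hx f
    have h := hsum x hx2
    have h' : ∑ g ∈ ({f, o} : Finset F), (if x ∈ interior (T.ctri p g) then sg g else 0) =
        ∑ g, (if x ∈ interior (T.ctri p g) then sg g else 0) := by
      refine Finset.sum_subset (Finset.subset_univ _) fun g _ hg => ?_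
      have hgf : g ≠ f := fun h => hg (by rw [h]; exact Finset.mem_insert_self _ _)
      have hgo : g ≠ o := fun h => hg (by
        rw [h]
        exact Finset.mem_insert_of_mem (Finset.mem_singleton_self _))
      rw [if_neg (T.emp_disj p hp f g hgf.symm (hemp f hf) (hemp g hgo) x hx1)]
    rw [← h', Finset.sum_pair hf, if_pos hx1] at h
    by_cases h3 : x ∈ interior (T.ctri p o)
    · rw [if_pos h3] at h
      omega
    · rw [if_neg h3, add_zero] at h
      exact absurd h (hsg0 f)
  have hall : ∀ v, p v ∈ T.ctri p o := by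
    intro v
    by_cases hv : T.At o v
    · obtain ⟨i, rfl⟩ := hv
      exact subset_convexHull ℝ _ ⟨i, rfl⟩
    · exact interior_subset (ho v hv)
  refine ⟨o, -(sg o : ℝ), ?_, fun f hf => ?_, ?_, ?_, hall, fun f hf => ⟨?_, hemp f hf⟩⟩
  · rcases hsg o with h | h
    · right
      rw [h]
      norm_num
    · left
      rw [h]
      norm_num
  · have h1 : -(sg o : ℝ) = (sg f : ℝ) := by
      rw [hopp f hf]
      push_cast
      ring
    rw [h1]
    exact hpos f
  · have := hpos o
    linarith
  · unfold region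
    rw [if_pos hall]
  · have hv : ∃ v, ¬ T.At f v := by
      by_contra hc
      push Not at hc
      have h1 := Fintype.card_le_of_surjective (T.vt f) (fun v => hc v)
      rw [Fintype.card_fin] at h1
      have h2 := T.four
      omega
    obtain ⟨v, hv⟩ := hv
    unfold region
    rw [if_neg (fun h => hemp f hf v hv (h v))]

end LS35.Tri
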