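import Pool.Agent.LibLS35.J2
import Pool.Agent.LibLS35.W7
import Pool.Agent.LibLS35.G12

/-! Row J3 (MEDIUM). Regions of the faces of a copy, and the lines that meet them. `p1 = p ∘ oldV`, `p_f = p ∘ emb f`. `structure_drawing` (W7) gives `Str` for `ins`, for `T1` and for every copy (J1).
PLAN. `region_new`: `newF f g` is the outer face `o'` of `p` iff `g` is the outer face `o2` of `p_f` (J2: if `o'` is not in the copy, `o2 = t0 ≠ g`; if `o' = newF f g0`, `o2 = g0`); both regions are the complement of the same `ctri` (`ctri_new`) or both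
its interior. `copy_lt` (first case: the region of `t0` in `p_f` is met by the line): `t0 ∈ M2` is counted in `h2.stab` for `p_f`: the filter set contains `t0` and all counted `g ≠ t0`, so the number is `≤ c2 - 1`, i.e. `+ 1 ≤ c2`.
`copy_le`: the same without `t0`. `met_old`: a face `newF f g` met by the line, `p1` with outer face `o1`: if `o1 = f` the region of `f` in `T1` is the complement of a triangle, met by every line (`line_out`). Otherwise `o'` is not in the copy `f` (`outer_old_new`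
would give `o1 = f`), so `o2 = t0`: all vertices of the copy are in `ctri p_f t0 = ctri p1 f` (`ctri_t0`), so `region (newF f g) = interior (ctri p_f g) ⊆ interior (ctri p1 f) = region p1 f` (`convexHull_min`, `interior_mono`). -/

namespace LS35

section

variable {V1 F1 V2 F2 : Type} [Fintype V1] [Fintype F1] [Fintype V2] [Fintype F2]
  (T1 : Tri V1 F1) (M1 : Finset F1) (T2 : Tri V2 F2) (t0 : F2)

private theorem J3_strN (p : IV V1 M1 T2 t0 → ℝ × ℝ) (hp : (ins T1 M1 T2 t0).IsDrawing p) :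
    ∃ o' σ', Str (ins T1 M1 T2 t0) p o' σ' := by
  obtain ⟨o, σ, h⟩ := (ins T1 M1 T2 t0).structure_drawing p hp
  exact ⟨o, σ, h⟩

private theorem J3_str1 (p : IV V1 M1 T2 t0 → ℝ × ℝ) (hp : (ins T1 M1 T2 t0).IsDrawing p) :
    ∃ o1 σ1, Str T1 (fun v => p (oldV M1 T2 t0 v)) o1 σ1 := by
  obtain ⟨o, σ, h⟩ := T1.structure_drawing _ (draw_old T1 M1 T2 t0 p hp)
  exact ⟨o, σ, h⟩

private theorem J3_str2 (p : IV V1 M1 T2 t0 → ℝ × ℝ) (hp : (ins T1 M1 T2 t0).IsDrawing p) (f : {f : F1 // f ∈ M1}) :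
    ∃ o2 σ2, Str T2 (fun v => p (emb T1 M1 T2 t0 f v)) o2 σ2 := by
  obtain ⟨o, σ, h⟩ := T2.structure_drawing _ (draw_new T1 M1 T2 t0 p hp f)
  exact ⟨o, σ, h⟩

private theorem J3_newF_inj (f : {f : F1 // f ∈ M1}) (g g0 : F2) (hg : g ≠ t0) (hg0 : g0 ≠ t0)
    (h : newF M1 t0 f g hg = newF M1 t0 f g0 hg0) : g = g0 := by
  have h1 := Sum.inr_injective h
  have h2 := congrArg Prod.snd h1
  exact congrArg Subtype.val h2

theorem region_new (p : IV V1 M1 T2 t0 → ℝ × ℝ) (hp : (ins T1 M1 T2 t0).IsDrawing p) (f : {f : F1 // f ∈ M1}) (g : F2)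
    (hg : g ≠ t0) :
    (ins T1 M1 T2 t0).region p (newF M1 t0 f g hg) = T2.region (fun v => p (emb T1 M1 T2 t0 f v)) g := by
  obtain ⟨o', σ', hs⟩ := J3_strN T1 M1 T2 t0 p hp
  obtain ⟨o2, σ2, hs2⟩ := J3_str2 T1 M1 T2 t0 p hp f
  by_cases hc : ∀ g hg, o' ≠ newF M1 t0 f g hg
  · have ho2 := (outer_new_out T1 M1 T2 t0 p o' σ' hs f hc o2 σ2 hs2).1
    have h1 := (hs.2.2.2.2.2 (newF M1 t0 f g hg) (Ne.symm (hc g hg))).1
    have h2 := (hs2.2.2.2.2.2 g (by rw [ho2]; exact hg)).1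
    rw [h1, h2, ctri_new]
  · push Not at hc
    obtain ⟨g0, hg0, rfl⟩ := hc
    have ho2 := (outer_new_in T1 M1 T2 t0 p σ' f g0 hg0 hs o2 σ2 hs2).1
    subst ho2
    by_cases hgg : g = o2
    · subst hgg
      rw [hs.2.2.2.1, hs2.2.2.2.1, ctri_new]
    · have h1 := (hs.2.2.2.2.2 (newF M1 t0 f g hg) (fun h => hgg (J3_newF_inj M1 t0 f g o2 hg hg0 h))).1
      have h2 := (hs2.2.2.2.2.2 g hgg).1
      rw [h1, h2, ctri_new]

open Classical in
/-- marked faces of the copy in `f` met by the line -/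
noncomputable def met (M2 : Finset F2) (p : IV V1 M1 T2 t0 → ℝ × ℝ) (α β γ : ℝ) (f : {f : F1 // f ∈ M1}) : Finset F2 :=
  M2.filter fun g => ∃ hg : g ≠ t0, ((ins T1 M1 T2 t0).region p (newF M1 t0 f g hg) ∩ line α β γ).Nonempty

private theorem J3_sub (M2 : Finset F2) (p : IV V1 M1 T2 t0 → ℝ × ℝ) (hp : (ins T1 M1 T2 t0).IsDrawing p)
    (α β γ : ℝ) (f : {f : F1 // f ∈ M1}) (g : F2) (hg : g ∈ met T1 M1 T2 t0 M2 p α β γ f) :
    g ≠ t0 ∧ g ∈ M2 ∧ (T2.region (fun v => p (emb T1 M1 T2 t0 f v)) g ∩ line α β γ).Nonempty := by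
  classical
  unfold met at hg
  obtain ⟨h1, h2, h3⟩ := Finset.mem_filter.1 hg
  rw [region_new T1 M1 T2 t0 p hp f g h2] at h3
  exact ⟨h2, h1, h3⟩

theorem copy_le (M2 : Finset F2) (a2 b2 c2 : ℕ) (h2 : IsABC T2 M2 a2 b2 c2) (p : IV V1 M1 T2 t0 → ℝ × ℝ)
    (hp : (ins T1 M1 T2 t0).IsDrawing p) (α β γ : ℝ) (hl : α ≠ 0 ∨ β ≠ 0) (f : {f : F1 // f ∈ M1}) :
    (met T1 M1 T2 t0 M2 p α β γ f).card ≤ c2 := by
  classical
  have h := h2.stab (fun v => p (emb T1 M1 T2 t0 f v)) (draw_new T1 M1 T2 t0 p hp f) α β γ hl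
  refine le_trans (Finset.card_le_card ?_) h
  intro g hg
  obtain ⟨-, h3, h4⟩ := J3_sub T1 M1 T2 t0 M2 p hp α β γ f g hg
  rw [Finset.mem_filter]
  exact ⟨h3, h4⟩

theorem copy_lt (M2 : Finset F2) (a2 b2 c2 : ℕ) (h2 : IsABC T2 M2 a2 b2 c2) (ht : t0 ∈ M2) (p : IV V1 M1 T2 t0 → ℝ × ℝ)
    (hp : (ins T1 M1 T2 t0).IsDrawing p) (α β γ : ℝ) (hl : α ≠ 0 ∨ β ≠ 0) (f : {f : F1 // f ∈ M1})
    (hm : (T2.region (fun v => p (emb T1 M1 T2 t0 f v)) t0 ∩ line α β γ).Nonempty) :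
    (met T1 M1 T2 t0 M2 p α β γ f).card + 1 ≤ c2 := by
  classical
  have h := h2.stab (fun v => p (emb T1 M1 T2 t0 f v)) (draw_new T1 M1 T2 t0 p hp f) α β γ hl
  have hn : t0 ∉ met T1 M1 T2 t0 M2 p α β γ f := fun h0 =>
    (J3_sub T1 M1 T2 t0 M2 p hp α β γ f t0 h0).1 rfl
  rw [← Finset.card_insert_of_notMem hn]
  refine le_trans (Finset.card_le_card ?_) h
  intro g hg
  rw [Finset.mem_filter]
  rcases Finset.mem_insert.1 hg with h0 | h0
  · rw [h0]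
    exact ⟨ht, hm⟩
  · obtain ⟨-, h3, h4⟩ := J3_sub T1 M1 T2 t0 M2 p hp α β γ f g h0
    exact ⟨h3, h4⟩

theorem met_old (M2 : Finset F2) (p : IV V1 M1 T2 t0 → ℝ × ℝ) (hp : (ins T1 M1 T2 t0).IsDrawing p) (α β γ : ℝ)
    (hl : α ≠ 0 ∨ β ≠ 0) (f : {f : F1 // f ∈ M1}) (hm : (met T1 M1 T2 t0 M2 p α β γ f).Nonempty) :
    (T1.region (fun v => p (oldV M1 T2 t0 v)) f.1 ∩ line α β γ).Nonempty := by
  obtain ⟨o', σ', hs⟩ := J3_strN T1 M1 T2 t0 p hp
  obtain ⟨o1, σ1, hs1⟩ := J3_str1 T1 M1 T2 t0 p hp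
  obtain ⟨o2, σ2, hs2⟩ := J3_str2 T1 M1 T2 t0 p hp f
  by_cases ho : o1 = f.1
  · have h1 := hs1.2.2.2.1
    rw [ho] at h1
    rw [h1]
    exact line_out _ α β γ hl
  · have hc : ∀ g hg, o' ≠ newF M1 t0 f g hg := by
      intro g0 hg0 h0
      subst h0
      exact ho (outer_old_new T1 M1 T2 t0 p σ' f g0 hg0 hs (fun f => J3_str2 T1 M1 T2 t0 p hp f) o1 σ1 hs1).1
    have ho2 := (outer_new_out T1 M1 T2 t0 p o' σ' hs f hc o2 σ2 hs2).1
    subst ho2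
    obtain ⟨g, hg⟩ := hm
    obtain ⟨h2, -, x, hx, hxl⟩ := J3_sub T1 M1 T2 o2 M2 p hp α β γ f g hg
    have h3 := (hs2.2.2.2.2.2 g h2).1
    rw [h3] at hx
    have h4 := (hs1.2.2.2.2.2 f.1 (Ne.symm ho)).1
    rw [h4]
    refine ⟨x, ?_, hxl⟩
    rw [← ctri_t0 T1 M1 T2 o2 p f]
    refine interior_mono ?_ hx
    refine convexHull_min ?_ (convex_convexHull ℝ _)
    rintro y ⟨i, rfl⟩
    exact hs2.2.2.2.2.1 _

end

end LS35
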