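import Pool.Agent.LibLS35.J3

/-! Row J4 (MEDIUM). Either every copy has at most `c2 - 1` met marked faces, or only one copy is met.
PLAN. `structure_drawing` (W7) for `p` (`o', σ'`), for `p1` (`o1`), for all copies. CASE 1: `o' = oldF h` : for every `f` the outer face of `p_f` is `t0` (`outer_new_out`), its region is the complement of a triangle, met by the line (`line_out`), `copy_lt`. CASE 2:
`o' = newF f g0`. For `f' ≠ f` as in case 1. For `f`: the outer face of `p_f` is `g0` (`outer_new_in`), so `region p_f t0 = interior (ctri p_f t0) = interior (ctri p1 f)` (`ctri_t0`), and `o1 = f` (`outer_old_new`). If the line meets it: `copy_lt` for `f`, first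
alternative. If not: second alternative with this `f`: for `f' ≠ f`, if `met f'` is nonempty, `met_old` gives a point of the line in `region p1 f' = interior (ctri p1 f')` (`f' ≠ o1`) `⊆ interior (ctri p1 f)` (all `p1 v ∈ ctri p1 o1`), contradiction. -/

namespace LS35

section

variable {V1 F1 V2 F2 : Type} [Fintype V1] [Fintype F1] [Fintype V2] [Fintype F2]
  (T1 : Tri V1 F1) (M1 : Finset F1) (T2 : Tri V2 F2) (t0 : F2)

private theorem J4_copy_out (M2 : Finset F2) (a2 b2 c2 : ℕ) (h2 : IsABC T2 M2 a2 b2 c2) (ht : t0 ∈ M2)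
    (p : IV V1 M1 T2 t0 → ℝ × ℝ) (hp : (ins T1 M1 T2 t0).IsDrawing p) (α β γ : ℝ) (hl : α ≠ 0 ∨ β ≠ 0)
    (o' : IF (F1 := F1) M1 t0) (σ' : ℝ) (hs : Str (ins T1 M1 T2 t0) p o' σ')
    (f : {f : F1 // f ∈ M1}) (ho : ∀ g hg, o' ≠ newF M1 t0 f g hg) :
    (met T1 M1 T2 t0 M2 p α β γ f).card + 1 ≤ c2 := by
  obtain ⟨o2, σ2, hs2⟩ := T2.structure_drawing (fun v => p (emb T1 M1 T2 t0 f v)) (draw_new T1 M1 T2 t0 p hp f)
  have h := (outer_new_out T1 M1 T2 t0 p o' σ' hs f ho o2 σ2 hs2).1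
  rw [h] at hs2
  apply copy_lt T1 M1 T2 t0 M2 a2 b2 c2 h2 ht p hp α β γ hl f
  rw [hs2.2.2.2.1]
  exact line_out _ α β γ hl

theorem copies (M2 : Finset F2) (a2 b2 c2 : ℕ) (h2 : IsABC T2 M2 a2 b2 c2) (ht : t0 ∈ M2) (p : IV V1 M1 T2 t0 → ℝ × ℝ)
    (hp : (ins T1 M1 T2 t0).IsDrawing p) (α β γ : ℝ) (hl : α ≠ 0 ∨ β ≠ 0) :
    (∀ f, (met T1 M1 T2 t0 M2 p α β γ f).card + 1 ≤ c2) ∨
      ∃ f, ∀ f', f' ≠ f → met T1 M1 T2 t0 M2 p α β γ f' = ∅ := by
  obtain ⟨o', σ', hs⟩ := (ins T1 M1 T2 t0).structure_drawing p hp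
  rcases IF_cases M1 t0 o' with ⟨h, hh, rfl⟩ | ⟨f, g0, hg0, rfl⟩
  · left
    intro f
    refine J4_copy_out T1 M1 T2 t0 M2 a2 b2 c2 h2 ht p hp α β γ hl _ σ' hs f ?_
    intro g hg he
    cases he
  · have hout : ∀ f', f' ≠ f → ∀ g hg, newF M1 t0 f g0 hg0 ≠ newF M1 t0 f' g hg := by
      intro f' hf' g hg h
      unfold newF at h
      injection h with h
      injection h with h _
      exact hf' h.symm
    by_cases hm : (T2.region (fun v => p (emb T1 M1 T2 t0 f v)) t0 ∩ line α β γ).Nonempty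
    · left
      intro f'
      by_cases hf : f' = f
      · rw [hf]
        exact copy_lt T1 M1 T2 t0 M2 a2 b2 c2 h2 ht p hp α β γ hl f hm
      · exact J4_copy_out T1 M1 T2 t0 M2 a2 b2 c2 h2 ht p hp α β γ hl _ σ' hs f' (hout f' hf)
    · right
      refine ⟨f, fun f' hf' => ?_⟩
      by_contra hne
      have hmet := met_old T1 M1 T2 t0 M2 p hp α β γ hl f' (Finset.nonempty_iff_ne_empty.2 hne)
      obtain ⟨o1, σ1, hs1⟩ := T1.structure_drawing (fun v => p (oldV M1 T2 t0 v)) (draw_old T1 M1 T2 t0 p hp)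
      have ho1 : o1 = f.1 := (outer_old_new T1 M1 T2 t0 p σ' f g0 hg0 hs
        (fun k => T2.structure_drawing (fun v => p (emb T1 M1 T2 t0 k v)) (draw_new T1 M1 T2 t0 p hp k)) o1 σ1 hs1).1
      rw [ho1] at hs1
      obtain ⟨o2, σ2, hs2⟩ := T2.structure_drawing (fun v => p (emb T1 M1 T2 t0 f v)) (draw_new T1 M1 T2 t0 p hp f)
      have ho2 : o2 = g0 := (outer_new_in T1 M1 T2 t0 p σ' f g0 hg0 hs o2 σ2 hs2).1
      rw [ho2] at hs2
      apply hm
      rw [(hs2.2.2.2.2.2 t0 hg0.symm).1, ctri_t0]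
      have hf1 : f'.1 ≠ f.1 := fun h => hf' (Subtype.ext h)
      rw [(hs1.2.2.2.2.2 f'.1 hf1).1] at hmet
      obtain ⟨x, hx, hxl⟩ := hmet
      refine ⟨x, interior_mono (convexHull_min ?_ (convex_convexHull ℝ _)) hx, hxl⟩
      rintro _ ⟨i, rfl⟩
      exact hs1.2.2.2.2.1 _

end

end LS35
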