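import Pool.Agent.LibLS35.GDefs

/-! Row P1 (MEDIUM). Drawing from a realizer: abscissa `X`, ordinate growing very fast with the order `x (i+2)`.
PLAN. Let `k = i + 2`, `rk v` = number of `w` with `x k w < x k v` (so `x k v < x k v'` implies `rk v + 1 ≤ rk v'`), `Y v = B ^ rk v`. There are `δ > 0` with `δ ≤ X (u f (i+1)) - X (u f i)` for all `f` (finite) and `D ≥ 0` with `|X v - X w| ≤ D`; take
`B ≥ 1` with `δ (B - 1) > D`. For every face, with `P, Q, R` the points of `u f i, u f (i+1), u f k`: `dt P Q R = (Q.1 - P.1)(R.2 - P.2) - (R.1 - P.1)(Q.2 - P.2)`; let `m = max (P.2) (Q.2) ≥ 1`; `R.2 ≥ B m` (`lab`: `x k (u f k)` is larger than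
`x k` at `u f i`, `u f (i+1)`; `i ≠ k`, `i + 1 ≠ k` by `decide`-type facts on `Fin 3`), so `dt ≥ δ (B m - m) - D m > 0`. For `f ≠ f0`, `u f j = vt f (j + r)`: `ori p f = dt P Q R` by cyclic invariance (`dt_rot`; `i`, `r` range
over `Fin 3`: `fin_cases` / `decide`), so positive. For `f0`, `u f0 j = vt f0 (r - j)`: reversed order, `ori p f0 = - dt P Q R < 0` (`dt_swap`, `dt_rot`). -/

namespace LS35.Tri

variable {V F : Type} [Fintype V] [Fintype F] (T : Tri V F)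

omit [Fintype V] [Fintype F] in
private theorem P1_key (xa xb xc B δ D : ℝ) (ra rb rc : ℕ) (hB : 1 ≤ B) (hδ : 0 < δ)
    (h1 : δ ≤ xb - xa) (h2 : |xc - xa| ≤ D) (h3 : D < δ * (B - 1)) (h4 : ra < rc) (h5 : rb < rc) :
    0 < dt (xa, B ^ ra) (xb, B ^ rb) (xc, B ^ rc) := by
  have ha1 : (1 : ℝ) ≤ B ^ ra := one_le_pow₀ hB
  have hb1 : (1 : ℝ) ≤ B ^ rb := one_le_pow₀ hB
  have hca : B * B ^ ra ≤ B ^ rc := by
    rw [← pow_succ']
    exact pow_le_pow_right₀ hB h4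
  have hcb : B * B ^ rb ≤ B ^ rc := by
    rw [← pow_succ']
    exact pow_le_pow_right₀ hB h5
  obtain ⟨m, hma, hmb, hm⟩ : ∃ m : ℝ, B ^ ra ≤ m ∧ B ^ rb ≤ m ∧ B * m ≤ B ^ rc := by
    rcases le_total (B ^ ra) (B ^ rb) with h | h
    · exact ⟨B ^ rb, h, le_rfl, hcb⟩
    · exact ⟨B ^ ra, le_rfl, h, hca⟩
  have hm0 : 0 < m := by linarith
  have e1 : δ * ((B - 1) * m) ≤ (xb - xa) * (B ^ rc - B ^ ra) := by
    have h6 : (B - 1) * m ≤ B ^ rc - B ^ ra := by nlinarith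
    have h7 : 0 ≤ (B - 1) * m := mul_nonneg (by linarith) hm0.le
    exact mul_le_mul h1 h6 h7 (by linarith)
  have e2 : |(xc - xa) * (B ^ rb - B ^ ra)| ≤ D * m := by
    rw [abs_mul]
    refine mul_le_mul h2 ?_ (abs_nonneg _) (le_trans (abs_nonneg _) h2)
    rw [abs_le]
    constructor <;> linarith
  have e3 := (abs_le.1 e2).2
  have e4 : D * m < δ * (B - 1) * m := mul_lt_mul_of_pos_right h3 hm0
  unfold dt
  show 0 < (xb - xa) * (B ^ rc - B ^ ra) - (xc - xa) * (B ^ rb - B ^ ra)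
  nlinarith

private theorem P1_cyc (q : Fin 3 → ℝ × ℝ) (i r : Fin 3) :
    dt (q (i + r)) (q (i + 1 + r)) (q (i + 2 + r)) = dt (q 0) (q 1) (q 2) := by
  have key : ∀ i r : Fin 3, (i + r = 0 ∧ i + 1 + r = 1 ∧ i + 2 + r = 2) ∨
      (i + r = 1 ∧ i + 1 + r = 2 ∧ i + 2 + r = 0) ∨ (i + r = 2 ∧ i + 1 + r = 0 ∧ i + 2 + r = 1) := by
    decide
  rcases key i r with ⟨h1, h2, h3⟩ | ⟨h1, h2, h3⟩ | ⟨h1, h2, h3⟩ <;> rw [h1, h2, h3] <;>
    unfold dt <;> ring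

private theorem P1_anti (q : Fin 3 → ℝ × ℝ) (i r : Fin 3) :
    dt (q (r - i)) (q (r - (i + 1))) (q (r - (i + 2))) = - dt (q 0) (q 1) (q 2) := by
  have key : ∀ i r : Fin 3, (r - i = 0 ∧ r - (i + 1) = 2 ∧ r - (i + 2) = 1) ∨
      (r - i = 1 ∧ r - (i + 1) = 0 ∧ r - (i + 2) = 2) ∨
      (r - i = 2 ∧ r - (i + 1) = 1 ∧ r - (i + 2) = 0) := by
    decide
  rcases key i r with ⟨h1, h2, h3⟩ | ⟨h1, h2, h3⟩ | ⟨h1, h2, h3⟩ <;> rw [h1, h2, h3] <;>
    unfold dt <;> ring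

theorem sign_of_realizer (f0 : F) (x : Fin 3 → V → ℝ) (u : F → Fin 3 → V) (hR : T.Realizer f0 x u) (i : Fin 3)
    (X : V → ℝ) (hX : ∀ f, X (u f i) < X (u f (i + 1))) : ∃ Y : V → ℝ, T.Sign (fun v => (X v, Y v)) f0 := by
  classical
  have hF : Nonempty F := ⟨f0⟩
  have hV : Nonempty V := ⟨T.vt f0 0⟩
  obtain ⟨g, hg⟩ := Finite.exists_min (fun f : F => X (u f (i + 1)) - X (u f i))
  obtain ⟨vw, hvw⟩ := Finite.exists_max (fun z : V × V => |X z.1 - X z.2|)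
  set δ : ℝ := X (u g (i + 1)) - X (u g i) with hδdef
  set D : ℝ := |X vw.1 - X vw.2| with hDdef
  have hδ : 0 < δ := by
    rw [hδdef]
    linarith [hX g]
  have hD0 : 0 ≤ D := abs_nonneg _
  have hD : ∀ v w, |X v - X w| ≤ D := fun v w => hvw (v, w)
  let B : ℝ := D / δ + 2
  have hB : 1 ≤ B := by
    have : 0 ≤ D / δ := div_nonneg hD0 hδ.le
    show 1 ≤ D / δ + 2
    linarith
  have hB3 : D < δ * (B - 1) := by
    have e : δ * (B - 1) = D + δ := by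
      show δ * (D / δ + 2 - 1) = D + δ
      field_simp
      ring
    rw [e]
    linarith
  let rk : V → ℕ := fun v => (Finset.univ.filter (fun w => x (i + 2) w < x (i + 2) v)).card
  have hrk : ∀ v v', x (i + 2) v < x (i + 2) v' → rk v < rk v' := by
    intro v v' h
    refine Finset.card_lt_card ?_
    rw [Finset.ssubset_iff_of_subset]
    · exact ⟨v, by simpa using h, by simp⟩
    · intro w hw
      rw [Finset.mem_filter] at hw ⊢
      exact ⟨hw.1, hw.2.trans h⟩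
  refine ⟨fun v => B ^ rk v, ?_⟩
  have hne1 : ∀ i : Fin 3, i ≠ i + 2 := by decide
  have hne2 : ∀ i : Fin 3, i + 1 ≠ i + 2 := by decide
  have key : ∀ f, 0 < dt (X (u f i), B ^ rk (u f i)) (X (u f (i + 1)), B ^ rk (u f (i + 1)))
      (X (u f (i + 2)), B ^ rk (u f (i + 2))) := by
    intro f
    exact P1_key _ _ _ B δ D _ _ _ hB hδ (hg f) (hD _ _) hB3
      (hrk _ _ (hR.lab f (i + 2) i (hne1 i))) (hrk _ _ (hR.lab f (i + 2) (i + 1) (hne2 i)))
  constructor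
  · intro f hf
    obtain ⟨r, hr⟩ := hR.rot f hf
    have h1 := key f
    rw [hr, hr, hr] at h1
    unfold ori
    rw [← P1_cyc (fun j => ((X (T.vt f j), B ^ rk (T.vt f j)) : ℝ × ℝ)) i r]
    exact h1
  · obtain ⟨r, hr⟩ := hR.rev
    have h1 := key f0
    rw [hr, hr, hr] at h1
    have h2 := P1_anti (fun j => ((X (T.vt f0 j), B ^ rk (T.vt f0 j)) : ℝ × ℝ)) i r
    unfold ori
    have h3 : 0 < - dt ((X (T.vt f0 0), B ^ rk (T.vt f0 0)) : ℝ × ℝ)
        (X (T.vt f0 1), B ^ rk (T.vt f0 1)) (X (T.vt f0 2), B ^ rk (T.vt f0 2)) := by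
      rw [← h2]
      exact h1
    linarith

end LS35.Tri
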