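import Pool.Agent.LibLS35.G1

/-! Row W0 (SHORT/MEDIUM). The frontier of a nondegenerate triangle consists of its edges; the corners are not interior.
PLAN. Replace `q` by a permuted copy if `dt (q 0) (q 1) (q 2) < 0` (or treat both signs with `hull_pos/int_pos`, `hull_neg/int_neg`). The hull is closed (`Set.Finite.isClosed_convexHull` or by the formula), so frontier = hull minus interior.
`x` in the hull, not interior: all `dt (q i) (q (i+1)) x ≥ 0` and some `= 0`, say `i = 0`: then with `a = dt (q 1) (q 2) x / D ≥ 0`, `b = dt (q 2) (q 0) x / D ≥ 0`, `a + b = 1` (`dt_sum`), `x = a q 0 + b q 1`. Conversely a point of an edge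
has `dt (q i) (q (i+1)) x = 0`, so it is not interior. `corner_not_interior`: `dt (q i) (q (i+1)) (q i) = 0`. -/

namespace LS35

private theorem W0_seg (A B C x : ℝ × ℝ) (hD : dt A B C ≠ 0) (h0 : dt A B x = 0)
    (h1 : 0 ≤ dt B C x / dt A B C) (h2 : 0 ≤ dt C A x / dt A B C) : x ∈ segment ℝ A B := by
  refine ⟨dt B C x / dt A B C, dt C A x / dt A B C, h1, h2, ?_, ?_⟩
  · rw [← add_div, div_eq_one_iff_eq hD]
    have h3 : dt B C x + dt C A x + dt A B x = dt A B C := by
      unfold dt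
      ring
    rw [h0, add_zero] at h3
    exact h3
  · have e1 : dt B C x * A.1 + dt C A x * B.1 + dt A B x * C.1 = x.1 * dt A B C := by
      unfold dt
      ring
    have e2 : dt B C x * A.2 + dt C A x * B.2 + dt A B x * C.2 = x.2 * dt A B C := by
      unfold dt
      ring
    rw [h0, zero_mul, add_zero] at e1 e2
    ext
    · simp only [Prod.fst_add, Prod.smul_fst, smul_eq_mul]
      rw [div_mul_eq_mul_div, div_mul_eq_mul_div, ← add_div, e1, mul_div_cancel_right₀ _ hD]
    · simp only [Prod.snd_add, Prod.smul_snd, smul_eq_mul]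
      rw [div_mul_eq_mul_div, div_mul_eq_mul_div, ← add_div, e2, mul_div_cancel_right₀ _ hD]

private theorem W0_i (q : Fin 3 → ℝ × ℝ) (i : Fin 3) :
    dt (q i) (q (i + 1)) (q (i + 2)) = dt (q 0) (q 1) (q 2) := by
  fin_cases i
  · rfl
  · exact dt_rot _ _ _
  · change dt (q 2) (q 0) (q 1) = _
    rw [← dt_rot (q 2) (q 0) (q 1)]

private theorem W0_three : ∀ i : Fin 3, i + 2 + 1 = i := by decide

private theorem W0_edge (q : Fin 3 → ℝ × ℝ) (i : Fin 3) (x : ℝ × ℝ)
    (hx : x ∈ segment ℝ (q i) (q (i + 1))) : dt (q i) (q (i + 1)) x = 0 := by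
  obtain ⟨a, b, -, -, hab, rfl⟩ := hx
  unfold dt
  simp only [Prod.fst_add, Prod.snd_add, Prod.smul_fst, Prod.smul_snd, smul_eq_mul]
  have ha : a = 1 - b := by linarith
  rw [ha]
  ring

theorem frontier_tri (q : Fin 3 → ℝ × ℝ) (h : dt (q 0) (q 1) (q 2) ≠ 0) (x : ℝ × ℝ)
    (hx : x ∈ frontier (convexHull ℝ (Set.range q))) : ∃ i : Fin 3, x ∈ segment ℝ (q i) (q (i + 1)) := by
  have hcl : IsClosed (convexHull ℝ (Set.range q)) := (Set.finite_range q).isClosed_convexHull ℝ
  rw [hcl.frontier_eq] at hx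
  obtain ⟨hx1, hx2⟩ := hx
  have key : ∀ i : Fin 3, dt (q i) (q (i + 1)) x = 0 →
      (∀ j : Fin 3, 0 ≤ dt (q j) (q (j + 1)) x / dt (q 0) (q 1) (q 2)) → x ∈ segment ℝ (q i) (q (i + 1)) := by
    intro i h0 hj
    have e1 : i + 1 + 1 = i + 2 := add_assoc _ _ _
    have e2 : i + 2 + 1 = i := W0_three i
    have h1 := hj (i + 1)
    have h2 := hj (i + 2)
    rw [e1, ← W0_i q i] at h1
    rw [e2, ← W0_i q i] at h2
    exact W0_seg _ _ (q (i + 2)) x (by rw [W0_i]; exact h) h0 h1 h2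
  rcases lt_or_gt_of_ne h with hneg | hpos
  · rw [hull_neg q hneg] at hx1
    rw [int_neg q hneg] at hx2
    have h3 : ∃ i : Fin 3, ¬ dt (q i) (q (i + 1)) x < 0 := by
      by_contra hcon
      push Not at hcon
      exact hx2 hcon
    obtain ⟨i, hi⟩ := h3
    exact ⟨i, key i (le_antisymm (hx1 i) (not_lt.1 hi)) fun j => div_nonneg_of_nonpos (hx1 j) hneg.le⟩
  · rw [hull_pos q hpos] at hx1
    rw [int_pos q hpos] at hx2
    have h3 : ∃ i : Fin 3, ¬ 0 < dt (q i) (q (i + 1)) x := by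
      by_contra hcon
      push Not at hcon
      exact hx2 hcon
    obtain ⟨i, hi⟩ := h3
    exact ⟨i, key i (le_antisymm (not_lt.1 hi) (hx1 i)) fun j => div_nonneg (hx1 j) hpos.le⟩

theorem edge_not_interior (q : Fin 3 → ℝ × ℝ) (h : dt (q 0) (q 1) (q 2) ≠ 0) (i : Fin 3) (x : ℝ × ℝ)
    (hx : x ∈ segment ℝ (q i) (q (i + 1))) : x ∉ interior (convexHull ℝ (Set.range q)) := by
  have h0 := W0_edge q i x hx
  intro h1
  rcases lt_or_gt_of_ne h with hneg | hpos
  · rw [int_neg q hneg] at h1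
    exact absurd (h1 i) (by rw [h0]; exact lt_irrefl _)
  · rw [int_pos q hpos] at h1
    exact absurd (h1 i) (by rw [h0]; exact lt_irrefl _)

theorem corner_not_interior (q : Fin 3 → ℝ × ℝ) (h : dt (q 0) (q 1) (q 2) ≠ 0) (i : Fin 3) :
    q i ∉ interior (convexHull ℝ (Set.range q)) :=
  edge_not_interior q h i (q i) (left_mem_segment ℝ _ _)

end LS35
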