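import Pool.Agent.LibLS35.GDefs

/-! Row W1 (SHORT/MEDIUM). In a plane straight-line drawing no face is degenerate.
PLAN. Let `a b c` be the corners (`p` injective, so three different points). If `dt (p a) (p b) (p c) = 0` the points are collinear, so one is in the segment of the two others (`Collinear.wbtw_or_wbtw_or_wbtw`, or directly:
`p c - p a = t (p b - p a)`, cases `t < 0`, `0 ≤ t ≤ 1`, `1 < t`). Say `p b ∈ segment (p a) (p c)` (the general case: corners `b` in the middle). The edges `a c` and `a b` are different edges of the face; `x = p b` lies on both segments; `hp.cross` gives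
(same edges: impossible) or `x = p w` with `w` in `{a, c}` and in `{a, b}`, so `w = a` (as `b ≠ c`), `p b = p a`, contradiction to injectivity. -/

namespace LS35.Tri

variable {V F : Type} [Fintype V] [Fintype F] (T : Tri V F)

private theorem W1_t (P Q R : ℝ × ℝ) (h : dt P Q R = 0) (hPQ : P ≠ Q) :
    ∃ t : ℝ, R.1 - P.1 = t * (Q.1 - P.1) ∧ R.2 - P.2 = t * (Q.2 - P.2) := by
  unfold dt at h
  by_cases h1 : Q.1 - P.1 = 0
  · have h2 : Q.2 - P.2 ≠ 0 := by
      intro h2
      exact hPQ (Prod.ext (by linarith) (by linarith))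
    refine ⟨(R.2 - P.2) / (Q.2 - P.2), ?_, ?_⟩
    · rw [h1, mul_zero]
      rw [h1, zero_mul, zero_sub, neg_eq_zero] at h
      exact (mul_eq_zero.1 h).resolve_right h2
    · field_simp
  · refine ⟨(R.1 - P.1) / (Q.1 - P.1), ?_, ?_⟩
    · field_simp
    · rw [div_mul_eq_mul_div, eq_div_iff h1]
      linarith

private theorem W1_col (P Q R : ℝ × ℝ) (h : dt P Q R = 0) (hPQ : P ≠ Q) :
    Q ∈ segment ℝ P R ∨ R ∈ segment ℝ P Q ∨ P ∈ segment ℝ R Q := by
  obtain ⟨t, h1, h2⟩ := W1_t P Q R h hPQ
  rcases lt_or_ge t 0 with ht | ht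
  · right
    right
    have h3 : (0 : ℝ) < 1 - t := by linarith
    refine ⟨1 / (1 - t), -t / (1 - t), by positivity, div_nonneg (by linarith) h3.le, ?_, ?_⟩
    · field_simp
      ring
    · have hR1 : R.1 = P.1 + t * (Q.1 - P.1) := by linarith
      have hR2 : R.2 = P.2 + t * (Q.2 - P.2) := by linarith
      ext
      · simp only [Prod.fst_add, Prod.smul_fst, smul_eq_mul]
        rw [hR1]
        field_simp
        ring
      · simp only [Prod.snd_add, Prod.smul_snd, smul_eq_mul]
        rw [hR2]
        field_simp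
        ring
  · rcases le_or_gt t 1 with ht1 | ht1
    · right
      left
      refine ⟨1 - t, t, by linarith, ht, by ring, ?_⟩
      ext
      · simp only [Prod.fst_add, Prod.smul_fst, smul_eq_mul]
        linarith
      · simp only [Prod.snd_add, Prod.smul_snd, smul_eq_mul]
        linarith
    · left
      have h3 : (0 : ℝ) < t := by linarith
      refine ⟨1 - 1 / t, 1 / t, ?_, by positivity, by ring, ?_⟩
      · rw [sub_nonneg, div_le_one h3]
        exact ht1.le
      · have hR1 : R.1 = P.1 + t * (Q.1 - P.1) := by linarith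
        have hR2 : R.2 = P.2 + t * (Q.2 - P.2) := by linarith
        ext
        · simp only [Prod.fst_add, Prod.smul_fst, smul_eq_mul]
          rw [hR1]
          field_simp
          ring
        · simp only [Prod.snd_add, Prod.smul_snd, smul_eq_mul]
          rw [hR2]
          field_simp
          ring

private theorem W1_adj (f : F) (i k : Fin 3) (h : i ≠ k) : T.Adj (T.vt f i) (T.vt f k) := by
  have h1 : k = i + 1 ∨ i = k + 1 := by
    revert i k
    decide
  rcases h1 with rfl | rfl
  · exact ⟨f, i, rfl, rfl⟩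
  · exact T.opp f k

private theorem W1_mid (p : V → ℝ × ℝ) (hp : T.IsDrawing p) (f : F) (i j k : Fin 3) (hij : i ≠ j)
    (hik : i ≠ k) (hjk : j ≠ k)
    (h : p (T.vt f j) ∈ segment ℝ (p (T.vt f i)) (p (T.vt f k))) : False := by
  rcases hp.cross _ _ _ _ (W1_adj T f i k hik) (W1_adj T f i j hij) _ h
    (right_mem_segment ℝ _ _) with h1 | h1 | ⟨w, h1, -, h3⟩
  · exact hjk (T.inj f h1.2).symm
  · exact hij (T.inj f h1.1)
  · have h4 := hp.inj h3
    rcases h1 with h1 | h1
    · exact hij (T.inj f (h4.trans h1)).symm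
    · exact hjk (T.inj f (h4.trans h1))

theorem ori_ne (p : V → ℝ × ℝ) (hp : T.IsDrawing p) (f : F) : T.ori p f ≠ 0 := by
  intro h
  unfold ori at h
  have h01 : p (T.vt f 0) ≠ p (T.vt f 1) := fun h' =>
    absurd (T.inj f (hp.inj h')) (by decide)
  rcases W1_col _ _ _ h h01 with h1 | h1 | h1
  · exact W1_mid T p hp f 0 1 2 (by decide) (by decide) (by decide) h1
  · exact W1_mid T p hp f 0 2 1 (by decide) (by decide) (by decide) h1
  · exact W1_mid T p hp f 2 0 1 (by decide) (by decide) (by decide) h1

end LS35.Tri
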