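import Pool.Agent.LibLS35.D1
import Pool.Agent.LibLS35.D2
import Pool.Agent.LibLS35.H3

/-! Row W2 (MEDIUM). Removing the three corners of a face leaves a connected graph; two faces with the same corners are equal.
PLAN. `sub_all`: `Q` nonempty, `f ∉ Q`, every boundary dart of `Q` is one of `op (f, i)`: then `Q` = all faces except `f`. If there is no boundary dart: `ind`-value constant, `face_conn` (applied to `fun g => g ∈ Q` with propext, using
`Bd Q d`/`Bd Q (op d)` false) gives `f ∈ Q`, contradiction. If `Bd Q (op (f, i))`: this dart starts at `vt f (i+1)`; by `exists_in` a boundary dart of `Q` ends at `vt f (i+1)`: `op (f, j)` ends at `vt f j`, so `j = i+1`. So all three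
`op (f, i)` are boundary darts; then `Q ∪ {f}` has no boundary dart (a boundary dart `d` with `d.1 = f` is `(f, i)`, `(op d).1 ∈ Q`; with `d.1 ∈ Q`, `(op d).1 ∉ Q ∪ {f}` is `Bd Q d`, so `d = op (f, i)`, `op d = (f, i)`, face `f`), so it is everything.
`conn_off`: let `K` = set of vertices reachable from `u` by steps `Adj` avoiding the corners of `f` (use `Relation.ReflTransGen (fun a b => T.Adj a b ∧ ¬ At f a ∧ ¬ At f b) u`); `Q` = faces with a corner in `K`. `Bd Q d`: no end of `d` is in `K`
(otherwise `(op d).1` has this corner), the third corner of `d.1` is in `K`, the ends of `d` are adjacent to it, so they are corners of `f` (else they would be in `K`; adjacency is symmetric by `op`). An edge joining two corners `vt f i`, `vt f j` of `f`: by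
`dart_ext` `d = (f, k)` or `d = op (f, k)`; `d.1 ∈ Q`, `f ∉ Q`, so `d = op (f, k)`. So `sub_all`: every face `≠ f` has a corner in `K`. Take `v` not in `f`; a face `g` at `v` (`exists_at`), `g ≠ f`; its corner in `K` is `v` or adjacent to `v`, so `v ∈ K`.
`same_corners`: if `g ≠ f` has all its corners in `f` (so the same three): `Q = {g}`: a boundary dart of `{g}` joins two corners of `f`, so it is `(f, k)` (no, face `g ≠ f`) or `op (f, k)`; `sub_all` with `Q = {g}` gives `univ = {f, g}`,
but `card F = 2 card V - 4 ≥ 4`. -/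

namespace LS35.Tri

variable {V F : Type} [Fintype V] [Fintype F] (T : Tri V F)

private theorem W2_nobd (Q : Finset F) (hne : Q.Nonempty) (h : ∀ d, ¬ T.Bd Q d) (g : F) : g ∈ Q := by
  obtain ⟨q, hq⟩ := hne
  have h1 := T.face_conn (fun a => a ∈ Q) (fun d => propext ⟨fun h1 => by
    by_contra h2
    exact h d ⟨h1, h2⟩, fun h1 => by
    by_contra h2
    refine h (T.op d) ⟨h1, ?_⟩
    rw [T.op_op]
    exact h2⟩) q g
  exact h1 ▸ hq

private theorem W2_fin (i j : Fin 3) (h : i ≠ j) : j = i + 1 ∨ i = j + 1 := by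
  revert i j
  decide

private theorem W2_fin3 (i j : Fin 3) : j = i ∨ j = i + 1 ∨ j = i + 1 + 1 := by
  revert i j
  decide

private theorem W2_two (f : F) (d : Dart F) (hd : d.1 ≠ f) (h1 : T.At f (T.tail d))
    (h2 : T.At f (T.head d)) : ∃ i, d = T.op (f, i) := by
  obtain ⟨i, hi⟩ := h1
  obtain ⟨j, hj⟩ := h2
  have hij : i ≠ j := fun h => T.tail_ne_head d (by rw [← hi, ← hj, h])
  rcases W2_fin i j hij with h | h
  · exfalso
    apply hd
    have h3 : d = ((f, i) : Dart F) := T.dart_ext hi.symm (by
      rw [← hj, h]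
      rfl)
    rw [h3]
  · refine ⟨j, T.eq_op ?_ hj.symm⟩
    rw [← hi, h]
    rfl

private theorem W2_adj (g : F) (i j : Fin 3) (h : i ≠ j) : T.Adj (T.vt g i) (T.vt g j) := by
  rcases W2_fin i j h with h | h
  · exact ⟨g, i, rfl, by rw [h]⟩
  · refine ⟨(T.op ((g, j) : Dart F)).1, (T.op ((g, j) : Dart F)).2, ?_, T.head_op ((g, j) : Dart F)⟩
    rw [h]
    exact T.tail_op ((g, j) : Dart F)

theorem sub_all (f : F) (Q : Finset F) (hne : Q.Nonempty) (hf : f ∉ Q) (hB : ∀ d, T.Bd Q d → ∃ i, d = T.op (f, i)) (g : F)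
    (hg : g ≠ f) : g ∈ Q := by
  classical
  by_cases hb : ∃ i, T.Bd Q (T.op (f, i))
  · obtain ⟨i, hi⟩ := hb
    have step : ∀ i, T.Bd Q (T.op (f, i)) → T.Bd Q (T.op (f, i + 1)) := by
      intro i hi
      obtain ⟨e, he, he2⟩ := T.exists_in Q _ hi
      obtain ⟨j, rfl⟩ := hB e he
      rw [T.head_op, T.tail_op] at he2
      have h1 : j = i + 1 := T.inj f he2
      rw [← h1]
      exact he
    have hall : ∀ j, T.Bd Q (T.op (f, j)) := by
      have h1 := step i hi
      have h2 := step _ h1
      intro j
      have h3 : j = i ∨ j = i + 1 ∨ j = i + 1 + 1 := W2_fin3 i j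
      rcases h3 with rfl | rfl | rfl
      · exact hi
      · exact h1
      · exact h2
    have h4 := T.W2_nobd (insert f Q) (Finset.insert_nonempty f Q) (by
      rintro d ⟨hd1, hd2⟩
      rw [Finset.mem_insert] at hd1 hd2
      push Not at hd2
      rcases hd1 with h1 | h1
      · apply hd2.2
        have h3 : d = ((f, d.2) : Dart F) := by rw [← h1]
        rw [h3]
        exact (hall d.2).1
      · obtain ⟨i, hi⟩ := hB d ⟨h1, hd2.2⟩
        apply hd2.1
        rw [hi, T.op_op]) g
    exact (Finset.mem_insert.1 h4).resolve_left hg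
  · exfalso
    refine hf (T.W2_nobd Q hne (fun d hd => hb ?_) f)
    obtain ⟨i, hi⟩ := hB d hd
    exact ⟨i, hi ▸ hd⟩

theorem conn_off (f : F) (u v : V) (hu : ¬ T.At f u) (hv : ¬ T.At f v) :
    Relation.ReflTransGen (fun a b => T.Adj a b ∧ ¬ T.At f a ∧ ¬ T.At f b) u v := by
  classical
  set R : V → V → Prop := fun a b => T.Adj a b ∧ ¬ T.At f a ∧ ¬ T.At f b with hR
  have hK : ∀ x, Relation.ReflTransGen R u x → ¬ T.At f x := by
    intro x hx
    induction hx with
    | refl => exact hu
    | tail _ h _ => exact h.2.2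
  have ext : ∀ x y, Relation.ReflTransGen R u x → T.Adj x y → ¬ T.At f y →
      Relation.ReflTransGen R u y := fun x y hx hxy hy => hx.tail ⟨hxy, hK x hx, hy⟩
  obtain ⟨g0, i0, hg0⟩ := T.exists_at u
  obtain ⟨g, i, hg⟩ := T.exists_at v
  have hQ : ∀ a, a ∈ (Finset.univ.filter fun a => ∃ i, Relation.ReflTransGen R u (T.vt a i)) ↔
      ∃ i, Relation.ReflTransGen R u (T.vt a i) := by
    intro a
    simp
  have hgf : g ≠ f := by
    rintro rfl
    exact hv ⟨i, hg⟩
  have key := T.sub_all f (Finset.univ.filter fun a => ∃ i, Relation.ReflTransGen R u (T.vt a i))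
    ⟨g0, (hQ g0).2 ⟨i0, by rw [hg0]⟩⟩ (by
      rw [hQ]
      rintro ⟨j, hj⟩
      exact hK _ hj ⟨j, rfl⟩) (by
      rintro d ⟨hd1, hd2⟩
      rw [hQ] at hd1 hd2
      push Not at hd2
      obtain ⟨k, hk⟩ := hd1
      have ht : ¬ Relation.ReflTransGen R u (T.tail d) := by
        intro h
        apply hd2 ((T.op d).2 + 1)
        have h1 := T.head_op d
        unfold head at h1
        rw [h1]
        exact h
      have hh : ¬ Relation.ReflTransGen R u (T.head d) := by
        intro h
        apply hd2 ((T.op d).2)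
        have h1 := T.tail_op d
        unfold tail at h1
        rw [h1]
        exact h
      have hk1 : k ≠ d.2 := by
        rintro rfl
        exact ht hk
      have hk2 : k ≠ d.2 + 1 := by
        rintro rfl
        exact hh hk
      have h1 : T.At f (T.tail d) := by
        by_contra h
        exact ht (ext _ _ hk (T.W2_adj d.1 k d.2 hk1) h)
      have h2 : T.At f (T.head d) := by
        by_contra h
        exact hh (ext _ _ hk (T.W2_adj d.1 k (d.2 + 1) hk2) h)
      refine T.W2_two f d ?_ h1 h2
      intro h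
      refine hK _ hk ⟨k, ?_⟩
      rw [h]) g hgf
  obtain ⟨j, hj⟩ := (hQ g).1 key
  by_cases hij : j = i
  · rw [← hg, ← hij]
    exact hj
  · refine ext _ _ hj ?_ hv
    rw [← hg]
    exact T.W2_adj g j i hij

theorem same_corners (f g : F) (h : ∀ v, T.At g v → T.At f v) : g = f := by
  classical
  by_contra hne
  have key := T.sub_all f {g} (Finset.singleton_nonempty g) (by
    rw [Finset.mem_singleton]
    exact fun h => hne h.symm) (by
    rintro d ⟨hd1, _⟩
    rw [Finset.mem_singleton] at hd1
    refine T.W2_two f d ?_ (h _ ⟨d.2, ?_⟩) (h _ ⟨d.2 + 1, ?_⟩)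
    · rw [hd1]
      exact hne
    · rw [← hd1]
      rfl
    · rw [← hd1]
      rfl)
  have h1 : (Finset.univ : Finset F) ⊆ {f, g} := by
    intro a _
    rw [Finset.mem_insert, Finset.mem_singleton]
    by_cases ha : a = f
    · exact Or.inl ha
    · exact Or.inr (Finset.mem_singleton.1 (key a ha))
  have h2 := Finset.card_le_card h1
  have h3 : ({f, g} : Finset F).card ≤ 2 := Finset.card_le_two
  rw [Finset.card_univ] at h2
  have h4 := T.euler
  have h5 := T.four
  omega

end LS35.Tri
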