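import Pool.Agent.LibLS35.W0
import Pool.Agent.LibLS35.W1
import Pool.Agent.LibLS35.W2

/-! Row W3 (MEDIUM). In a plane drawing, for every face `f` either all other vertices are in the open triangle of `f` or all are outside the closed triangle.
PLAN. (i) For `u` not a corner of `f`, `p u` is on no edge of `f`: take any neighbour `v` of `u`; `p u` is in the segment of the edge `u v` and in the segment of an edge `a b` of `f`: `cross` gives the same edge (no, `u` is no corner) or
`p u = p w` with `w` a corner of `f`: injectivity, no. So `p u ∉ frontier` (`frontier_tri`), so `p u ∈ interior` or `p u ∉ ctri` (closed set). (ii) `u v` adjacent, both not in `f`: the whole segment of `u v` misses the edges of `f` (`cross`: common end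
vertex impossible), so it misses `frontier (ctri f)`; a segment is preconnected, so `p u ∈ interior ↔ p v ∈ interior` (`IsPreconnected` with the open sets `interior` and complement of `ctri`). (iii) `conn_off` (W2) and induction. -/

namespace LS35.Tri

variable {V F : Type} [Fintype V] [Fintype F] (T : Tri V F)

private theorem W3_closed (p : V → ℝ × ℝ) (f : F) : IsClosed (T.ctri p f) := by
  unfold ctri
  exact Set.Finite.isClosed_convexHull _ (Set.finite_range _)

private theorem W3_front (p : V → ℝ × ℝ) (hp : T.IsDrawing p) (f : F) (x : ℝ × ℝ)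
    (hx : x ∈ frontier (T.ctri p f)) :
    ∃ i : Fin 3, x ∈ segment ℝ (p (T.vt f i)) (p (T.vt f (i + 1))) :=
  frontier_tri (fun i => p (T.vt f i)) (T.ori_ne p hp f) x hx

private theorem W3_out (p : V → ℝ × ℝ) (f : F) (x : ℝ × ℝ) (hx : x ∉ frontier (T.ctri p f))
    (hi : x ∉ interior (T.ctri p f)) : x ∉ T.ctri p f := by
  intro h
  apply hx
  rw [(W3_closed T p f).frontier_eq]
  exact ⟨h, hi⟩

private theorem W3_nofront (p : V → ℝ × ℝ) (hp : T.IsDrawing p) (f : F) (u : V)
    (hu : ¬ T.At f u) : p u ∉ frontier (T.ctri p f) := by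
  intro hx
  obtain ⟨i, hi⟩ := W3_front T p hp f _ hx
  obtain ⟨g, j, hj⟩ := T.exists_at u
  have hadj : T.Adj u (T.vt g (j + 1)) := ⟨g, j, hj, rfl⟩
  have hadj2 : T.Adj (T.vt f i) (T.vt f (i + 1)) := ⟨f, i, rfl, rfl⟩
  rcases hp.cross u _ _ _ hadj hadj2 (p u) (left_mem_segment ℝ _ _) hi with h | h | h
  · exact hu ⟨i, h.1.symm⟩
  · exact hu ⟨i + 1, h.1.symm⟩
  · obtain ⟨w, -, h2, h3⟩ := h
    have h4 : u = w := hp.inj h3
    rcases h2 with h2 | h2
    · exact hu ⟨i, by rw [h4, h2]⟩
    · exact hu ⟨i + 1, by rw [h4, h2]⟩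

private theorem W3_segfront (p : V → ℝ × ℝ) (hp : T.IsDrawing p) (f : F) (u v : V)
    (huv : T.Adj u v) (hu : ¬ T.At f u) (hv : ¬ T.At f v) (x : ℝ × ℝ)
    (hx : x ∈ segment ℝ (p u) (p v)) : x ∉ frontier (T.ctri p f) := by
  intro hf
  obtain ⟨i, hi⟩ := W3_front T p hp f _ hf
  have hadj2 : T.Adj (T.vt f i) (T.vt f (i + 1)) := ⟨f, i, rfl, rfl⟩
  rcases hp.cross u v _ _ huv hadj2 x hx hi with h | h | h
  · exact hu ⟨i, h.1.symm⟩
  · exact hu ⟨i + 1, h.1.symm⟩
  · obtain ⟨w, h1, h2, -⟩ := h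
    have hw : T.At f w := by
      rcases h2 with h2 | h2
      · exact ⟨i, h2.symm⟩
      · exact ⟨i + 1, h2.symm⟩
    rcases h1 with h1 | h1
    · exact hu (h1 ▸ hw)
    · exact hv (h1 ▸ hw)

private theorem W3_step (p : V → ℝ × ℝ) (hp : T.IsDrawing p) (f : F) (u v : V)
    (huv : T.Adj u v) (hu : ¬ T.At f u) (hv : ¬ T.At f v)
    (hin : p u ∈ interior (T.ctri p f)) : p v ∈ interior (T.ctri p f) := by
  by_contra hno
  have hvo : p v ∉ T.ctri p f := W3_out T p f _ (W3_nofront T p hp f v hv) hno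
  have hpre : IsPreconnected (segment ℝ (p u) (p v)) := (convex_segment _ _).isPreconnected
  have hne := hpre (interior (T.ctri p f)) (T.ctri p f)ᶜ isOpen_interior
    (W3_closed T p f).isOpen_compl (by
      intro x hx
      by_cases h : x ∈ interior (T.ctri p f)
      · exact Or.inl h
      · exact Or.inr (W3_out T p f x (W3_segfront T p hp f u v huv hu hv x hx) h))
    ⟨p u, left_mem_segment ℝ _ _, hin⟩ ⟨p v, right_mem_segment ℝ _ _, hvo⟩
  obtain ⟨x, -, h1, h2⟩ := hne
  exact h2 (interior_subset h1)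

theorem dichotomy (p : V → ℝ × ℝ) (hp : T.IsDrawing p) (f : F) :
    (∀ v, ¬ T.At f v → p v ∈ interior (T.ctri p f)) ∨ (∀ v, ¬ T.At f v → p v ∉ T.ctri p f) := by
  by_cases h : ∃ u, ¬ T.At f u ∧ p u ∈ interior (T.ctri p f)
  · left
    obtain ⟨u, hu, hin⟩ := h
    intro v hv
    have hc := T.conn_off f u v hu hv
    induction hc with
    | refl => exact hin
    | tail _ hbc ih => exact W3_step T p hp f _ _ hbc.1 hbc.2.1 hbc.2.2 (ih hbc.2.1)
  · right
    intro v hv
    exact W3_out T p f _ (W3_nofront T p hp f v hv) (fun hi => h ⟨v, hv, hi⟩)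

end LS35.Tri
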